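import Mathlib

/-!
# Average case and worst case for bounded formulas: shared combinatorial definitions
-/

set_option autoImplicit false

namespace Pool.Agent.GAvg

open Finset

/-- The digit number `i` of `x` in base `b`. -/
def dig (b x i : ℕ) : ℕ := x / b ^ i % b

/-- Digit `j` of the position number `l` of the walk coded by `ω`: the start is given by the
digits `0, …, m - 1` of `ω`, the step number `i` adds `α (1, y, …, y ^ (m - 1))` where `α`, `y`
are the digits `m + 2 i`, `m + 2 i + 1` of `ω`. -/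
def posDig (q m ω l j : ℕ) : ℕ :=
  (dig q ω j + ∑ i ∈ range l, dig q ω (m + 2 * i) * dig q ω (m + 2 * i + 1) ^ j) % q

/-- The position number `l` of the walk coded by `ω`. -/
def pos (q m ω l : ℕ) : ℕ := ∑ j ∈ range m, posDig q m ω l j * q ^ j

/-- Digitwise sum modulo `q` of `y` and `t` times `r` (vectors with `m` digits in base `q`). -/
def vadd (q m y t r : ℕ) : ℕ := ∑ i ∈ range m, (dig q y i + t * dig q r i) % q * q ^ i

/-- The vector with `m` digits in base `q` whose digits are those of `x` in base `h`. -/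
def embed (q h m x : ℕ) : ℕ := ∑ i ∈ range m, dig h x i * q ^ i

/-- Extension of low degree of (a multiple of) the indicator function of `S`. -/
def lde (q h m : ℕ) (S : Finset ℕ) (y : ℕ) : ZMod q :=
  ∑ z ∈ S, ∏ i ∈ range m, ∏ b ∈ (range h).erase (dig h z i), ((dig q y i : ZMod q) - (b : ZMod q))

open scoped Classical in
/-- Scalar product modulo 2 of `s ∈ {0,1}^t` and the values of `F` at `x, x + r, …` modulo `M`. -/
def had (F : ℕ → Prop) (M t x r s : ℕ) : Prop :=
  Odd (#{i ∈ range t | s.testBit i = true ∧ F ((x + i * r) % M)})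

/-- One vote for the value at `x` (seed `ρ`). -/
def vote (P : ℕ → ℕ → ℕ → Prop) (M t x ρ : ℕ) : Prop :=
  ¬ (P ((x + (ρ % t) * (M - ρ / t % M)) % M) (ρ / t % M) (ρ / t / M % 2 ^ t) ↔
    P ((x + (ρ % t) * (M - ρ / t % M)) % M) (ρ / t % M) ((ρ / t / M % 2 ^ t) ^^^ 2 ^ (ρ % t)))

open scoped Classical in
/-- Predicates obtained from `P` by fixing the first variable to constants and taking weighted
thresholds of `u` such predicates. -/
inductive Der (D u : ℕ) {t : ℕ} (P : (Fin t → ℕ) → Prop) : (j : ℕ) → ((Fin j → ℕ) → Prop) → Prop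
  | base : Der D u P t P
  | step {j : ℕ} {Q : (Fin (j + 1) → ℕ) → Prop} (h : Der D u P (j + 1) Q) (xs : Fin u → ℕ)
      (hxs : ∀ i, xs i < D) (bs : Fin u → Prop) (τ : ℕ) (hτ : τ ≤ u) :
      Der D u P j (fun y => τ ≤ #{i : Fin u | Q (Fin.cons (xs i) y) ↔ bs i})

/-- The least prime `≥ x`. -/
noncomputable def lprime (x : ℕ) : ℕ := Nat.find (Nat.exists_infinite_primes x)

end Pool.Agent.GAvg
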