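import Mathlib
import Pool.Agent.GAvg.Defs
import Pool.Agent.Grz.Iter
import Pool.Agent.Grz.Matrices
import Pool.Agent.Grz.Regressive

/-!
# Non-uniform bounded formulas: families of predicates with small parameters

`NUP r C P`: the predicates `P n` on `ℕ^r` (`n` large) are defined on the sets `C n` by one bounded
formula with one parameter that depends on `n` and is at most a power of `n + 2`. `NUF`: the same
for functions. Every function of `n` alone that is at most a power of `n + 2` may be used.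
-/

set_option autoImplicit false

namespace Pool.Agent.GAvg

open Finset Filter Pool.Agent.Grz

/-- eventually at most a power of `n + 2` -/
def PolyB (g : ℕ → ℕ) : Prop := ∃ c : ℕ, ∀ᶠ n in atTop, g n ≤ (n + 2) ^ c

/-- non-uniformly `Delta0` families of predicates -/
def NUP (r : ℕ) (C P : ℕ → (Fin r → ℕ) → Prop) : Prop :=
  ∃ (c : ℕ) (ψ : (Fin (r + 1) → ℕ) → Prop), Delta0 (r + 1) ψ ∧
    ∀ᶠ n in atTop, ∃ a, a ≤ (n + 2) ^ c ∧ ∀ v, C n v → (ψ (Matrix.vecCons a v) ↔ P n v)

/-- non-uniformly `Delta0` families of functions -/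
def NUF (r : ℕ) (C : ℕ → (Fin r → ℕ) → Prop) (f : ℕ → (Fin r → ℕ) → ℕ) : Prop :=
  ∃ (c : ℕ) (g : (Fin (r + 1) → ℕ) → ℕ), DFun (r + 1) g ∧
    ∀ᶠ n in atTop, ∃ a, a ≤ (n + 2) ^ c ∧ ∀ v, C n v → g (Matrix.vecCons a v) = f n v

/-- the number of binary digits, roughly -/
def lg (n : ℕ) : ℕ := Nat.log 2 n

/-- the number of copies in one round of error reduction -/
def tt (n : ℕ) : ℕ := Nat.sqrt (Nat.log 2 n) + 1

/-- a base for coding sequences with `ℓ n + 1` members `< q n` by numbers -/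
structure Base (q ℓ : ℕ → ℕ) : Prop where
  prime : ∀ᶠ n in atTop, (q n).Prime
  lt : ∀ᶠ n in atTop, ℓ n < q n
  poly : PolyB (fun n => q n ^ (ℓ n + 1))

/-- a family of problems `F n` on `[0, D n)` -/
structure Fam (F : ℕ → ℕ → Prop) (D : ℕ → ℕ) : Prop where
  star : E2Star 2 (fun v => F (v 0) (v 1))
  dom : E2 1 (fun v => D (v 0))
  le : ∀ n, n ≤ D n
  poly : ∃ d : ℕ, ∀ n, D n ≤ (n + 2) ^ d

open scoped Classical in
/-- the family is approximated by bounded formulas with error rate `η n` for large `n ∈ S` -/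
def Appr (S : ℕ → Prop) (F : ℕ → ℕ → Prop) (D : ℕ → ℕ) (η : ℕ → ℝ) : Prop :=
  ∃ P : ℕ → ℕ → Prop, NUP 1 (fun n v => S n ∧ v 0 < D n) (fun n v => P n (v 0)) ∧
    ∀ᶠ n in atTop, S n → (#{x ∈ range (D n) | ¬ (P n x ↔ F n x)} : ℝ) ≤ η n * D n

end Pool.Agent.GAvg
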