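import Mathlib
import Pool.Agent.GAvg.AdvDefs

/-!
# Calculus of non-uniform `Delta0` families, part 1
-/

set_option autoImplicit false

namespace Pool.Agent.GAvg

open Finset Filter Pool.Agent.Grz
open scoped Classical

/-! ### Auxiliary facts about `DFun` and `Delta0` -/

theorem Adv.cons_apply {m r : ℕ} (A : (Fin r → ℕ) → ℕ) (B : Fin m → (Fin r → ℕ) → ℕ)
    (w : Fin r → ℕ) :
    (fun i => (Fin.cons A B : Fin (m + 1) → (Fin r → ℕ) → ℕ) i w)
      = Matrix.vecCons (A w) (fun i => B i w) := by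
  funext i
  refine Fin.cases ?_ (fun j => ?_) i
  · simp
  · simp only [Fin.cons_succ, Matrix.cons_val_succ]

theorem Adv.dfun_cons {m r : ℕ} {g : (Fin (m + 1) → ℕ) → ℕ} (hg : DFun (m + 1) g)
    {A : (Fin r → ℕ) → ℕ} (hA : DFun r A) {B : Fin m → (Fin r → ℕ) → ℕ}
    (hB : ∀ i, DFun r (B i)) : DFun r (fun w => g (Matrix.vecCons (A w) (fun i => B i w))) := by
  have h := hg.comp (n := r) (h := Fin.cons A B) (by
    intro i
    refine Fin.cases ?_ (fun j => ?_) i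
    · exact hA
    · exact hB j)
  simp only [Adv.cons_apply] at h
  exact h

theorem Adv.delta0_cons {m r : ℕ} {g : (Fin (m + 1) → ℕ) → Prop} (hg : Delta0 (m + 1) g)
    {A : (Fin r → ℕ) → ℕ} (hA : DFun r A) {B : Fin m → (Fin r → ℕ) → ℕ}
    (hB : ∀ i, DFun r (B i)) : Delta0 r (fun w => g (Matrix.vecCons (A w) (fun i => B i w))) := by
  have h := hg.subst (n := r) (h := Fin.cons A B) (by
    intro i
    refine Fin.cases ?_ (fun j => ?_) i
    · exact hA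
    · exact hB j)
  simp only [Adv.cons_apply] at h
  exact h

theorem Adv.pair_le {n a b c d : ℕ} (ha : a ≤ (n + 2) ^ c) (hb : b ≤ (n + 2) ^ d) :
    Nat.pair a b ≤ (n + 2) ^ (2 * (c + d + 1)) := by
  have h1 : Nat.pair a b < (max a b + 1) ^ 2 := Nat.pair_lt_max_add_one_sq a b
  have h2 : max a b ≤ (n + 2) ^ (c + d) := by
    refine max_le (ha.trans ?_) (hb.trans ?_)
    · exact Nat.pow_le_pow_right (by omega) (by omega)
    · exact Nat.pow_le_pow_right (by omega) (by omega)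
  have h3 : max a b + 1 ≤ (n + 2) ^ (c + d + 1) := by
    have h4 : 1 ≤ (n + 2) ^ (c + d) := Nat.one_le_pow _ _ (by omega)
    calc max a b + 1 ≤ (n + 2) ^ (c + d) + (n + 2) ^ (c + d) := by omega
      _ = (n + 2) ^ (c + d) * 2 := by ring
      _ ≤ (n + 2) ^ (c + d) * (n + 2) := Nat.mul_le_mul_left _ (by omega)
      _ = (n + 2) ^ (c + d + 1) := by ring
  calc Nat.pair a b ≤ (max a b + 1) ^ 2 := h1.le
    _ ≤ ((n + 2) ^ (c + d + 1)) ^ 2 := Nat.pow_le_pow_left h3 2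
    _ = (n + 2) ^ (2 * (c + d + 1)) := by rw [← pow_mul]; ring_nf

section GB1

variable {r : ℕ} {C C' P P' Q : ℕ → (Fin r → ℕ) → Prop} {f f' g f₁ f₂ f₃ f₄ : ℕ → (Fin r → ℕ) → ℕ}

theorem PolyB.mono {g g' : ℕ → ℕ} (h : PolyB g) (hg : ∀ᶠ n in atTop, g' n ≤ g n) : PolyB g' := by
  obtain ⟨c, hc⟩ := h
  refine ⟨c, ?_⟩
  filter_upwards [hc, hg] with n h1 h2
  exact h2.trans h1

theorem PolyB.const (c : ℕ) : PolyB (fun _ => c) := by
  refine ⟨c, Eventually.of_forall fun n => ?_⟩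
  have h1 : c < 2 ^ c := Nat.lt_two_pow_self
  exact h1.le.trans (Nat.pow_le_pow_left (by omega) c)

theorem PolyB.id : PolyB (fun n => n) := by
  refine ⟨1, Eventually.of_forall fun n => ?_⟩
  simp

theorem PolyB.add {g g' : ℕ → ℕ} (h : PolyB g) (h' : PolyB g') : PolyB (fun n => g n + g' n) := by
  obtain ⟨c, hc⟩ := h
  obtain ⟨d, hd⟩ := h'
  refine ⟨c + d + 1, ?_⟩
  filter_upwards [hc, hd] with n h1 h2
  have h3 : (n + 2) ^ c ≤ (n + 2) ^ (c + d) := Nat.pow_le_pow_right (by omega) (by omega)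
  have h4 : (n + 2) ^ d ≤ (n + 2) ^ (c + d) := Nat.pow_le_pow_right (by omega) (by omega)
  calc g n + g' n ≤ (n + 2) ^ (c + d) + (n + 2) ^ (c + d) := by omega
    _ = (n + 2) ^ (c + d) * 2 := by ring
    _ ≤ (n + 2) ^ (c + d) * (n + 2) := Nat.mul_le_mul_left _ (by omega)
    _ = (n + 2) ^ (c + d + 1) := by ring

theorem PolyB.mul {g g' : ℕ → ℕ} (h : PolyB g) (h' : PolyB g') : PolyB (fun n => g n * g' n) := by
  obtain ⟨c, hc⟩ := h
  obtain ⟨d, hd⟩ := h'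
  refine ⟨c + d, ?_⟩
  filter_upwards [hc, hd] with n h1 h2
  rw [pow_add]
  exact Nat.mul_le_mul h1 h2

theorem PolyB.pow {g : ℕ → ℕ} (h : PolyB g) (k : ℕ) : PolyB (fun n => g n ^ k) := by
  obtain ⟨c, hc⟩ := h
  refine ⟨c * k, ?_⟩
  filter_upwards [hc] with n h1
  rw [pow_mul]
  exact Nat.pow_le_pow_left h1 k

theorem NUP.mono (h : NUP r C P) (hC : ∀ᶠ n in atTop, ∀ v, C' n v → C n v) : NUP r C' P := by
  obtain ⟨c, ψ, hψ, ha⟩ := h
  refine ⟨c, ψ, hψ, ?_⟩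
  filter_upwards [ha, hC] with n h1 h2
  obtain ⟨a, ha1, ha2⟩ := h1
  exact ⟨a, ha1, fun v hv => ha2 v (h2 v hv)⟩

theorem NUF.mono (h : NUF r C f) (hC : ∀ᶠ n in atTop, ∀ v, C' n v → C n v) : NUF r C' f := by
  obtain ⟨c, ψ, hψ, ha⟩ := h
  refine ⟨c, ψ, hψ, ?_⟩
  filter_upwards [ha, hC] with n h1 h2
  obtain ⟨a, ha1, ha2⟩ := h1
  exact ⟨a, ha1, fun v hv => ha2 v (h2 v hv)⟩

theorem NUP.congr (h : NUP r C P) (hP : ∀ᶠ n in atTop, ∀ v, C n v → (P' n v ↔ P n v)) :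
    NUP r C P' := by
  obtain ⟨c, ψ, hψ, ha⟩ := h
  refine ⟨c, ψ, hψ, ?_⟩
  filter_upwards [ha, hP] with n h1 h2
  obtain ⟨a, ha1, ha2⟩ := h1
  exact ⟨a, ha1, fun v hv => (ha2 v hv).trans (h2 v hv).symm⟩

theorem NUF.congr (h : NUF r C f) (hf : ∀ᶠ n in atTop, ∀ v, C n v → f' n v = f n v) :
    NUF r C f' := by
  obtain ⟨c, ψ, hψ, ha⟩ := h
  refine ⟨c, ψ, hψ, ?_⟩
  filter_upwards [ha, hf] with n h1 h2
  obtain ⟨a, ha1, ha2⟩ := h1
  exact ⟨a, ha1, fun v hv => (ha2 v hv).trans (h2 v hv).symm⟩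

theorem NUP.true : NUP r C (fun _ _ => True) := by
  refine ⟨0, fun w => w 0 = w 0, Delta0.eqFun (DFun.proj 0) (DFun.proj 0),
    Eventually.of_forall fun n => ⟨0, Nat.zero_le _, fun v _ => by simp⟩⟩

theorem NUP.not (h : NUP r C P) : NUP r C (fun n v => ¬ P n v) := by
  obtain ⟨c, ψ, hψ, ha⟩ := h
  refine ⟨c, fun w => ¬ ψ w, hψ.not, ?_⟩
  filter_upwards [ha] with n h1
  obtain ⟨a, ha1, ha2⟩ := h1
  exact ⟨a, ha1, fun v hv => not_congr (ha2 v hv)⟩

theorem NUP.false : NUP r C (fun _ _ => False) :=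
  (NUP.true (r := r) (C := C)).not.congr (Eventually.of_forall fun _ _ _ => by simp)

theorem NUP.and (h : NUP r C P) (h' : NUP r C Q) : NUP r C (fun n v => P n v ∧ Q n v) := by
  obtain ⟨c, ψ, hψ, ha⟩ := h
  obtain ⟨d, φ, hφ, hb⟩ := h'
  have hp1 : DFun (r + 1) (fun w : Fin (r + 1) → ℕ => (Nat.unpair (w 0)).1) :=
    (DFun.proj 0).unpair1
  have hp2 : DFun (r + 1) (fun w : Fin (r + 1) → ℕ => (Nat.unpair (w 0)).2) :=
    (DFun.proj 0).unpair2
  refine ⟨2 * (c + d + 1), fun w =>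
    ψ (Matrix.vecCons (Nat.unpair (w 0)).1 (fun i : Fin r => w i.succ)) ∧
    φ (Matrix.vecCons (Nat.unpair (w 0)).2 (fun i : Fin r => w i.succ)),
    (Adv.delta0_cons hψ hp1 (fun i => DFun.proj i.succ)).and
      (Adv.delta0_cons hφ hp2 (fun i => DFun.proj i.succ)), ?_⟩
  filter_upwards [ha, hb] with n h1 h2
  obtain ⟨a, ha1, ha2⟩ := h1
  obtain ⟨b, hb1, hb2⟩ := h2
  refine ⟨Nat.pair a b, Adv.pair_le ha1 hb1, fun v hv => ?_⟩
  simp only [Matrix.cons_val_zero, Matrix.cons_val_succ, Nat.unpair_pair]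
  exact and_congr (ha2 v hv) (hb2 v hv)

theorem NUP.or (h : NUP r C P) (h' : NUP r C Q) : NUP r C (fun n v => P n v ∨ Q n v) :=
  (h.not.and h'.not).not.congr (Eventually.of_forall fun n v _ => by tauto)

theorem NUP.imp (h : NUP r C P) (h' : NUP r C Q) : NUP r C (fun n v => P n v → Q n v) :=
  (h.and h'.not).not.congr (Eventually.of_forall fun n v _ => by tauto)

theorem NUP.iff (h : NUP r C P) (h' : NUP r C Q) : NUP r C (fun n v => (P n v ↔ Q n v)) :=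
  ((h.imp h').and (h'.imp h)).congr (Eventually.of_forall fun n v _ => by tauto)

/-- every polynomially bounded function of `n` is allowed as a constant -/
theorem NUF.param {g : ℕ → ℕ} (hg : PolyB g) : NUF r C (fun n _ => g n) := by
  obtain ⟨c, hc⟩ := hg
  refine ⟨c, fun w => w 0, DFun.proj 0, ?_⟩
  filter_upwards [hc] with n h1
  exact ⟨g n, h1, fun v _ => by simp⟩

/-- every property of `n` alone is allowed -/
theorem NUP.param (g : ℕ → Prop) : NUP r C (fun n _ => g n) := by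
  refine ⟨0, fun w => w 0 = 1, Delta0.eqFun (DFun.proj 0) (DFun.const 1),
    Eventually.of_forall fun n => ⟨if g n then 1 else 0, ?_, fun v _ => ?_⟩⟩
  · split_ifs <;> simp
  · simp only [Matrix.cons_val_zero]
    split_ifs with h <;> simp [h]

theorem NUF.const (c : ℕ) : NUF r C (fun _ _ => c) := NUF.param (PolyB.const c)

theorem NUF.proj (i : Fin r) : NUF r C (fun _ v => v i) := by
  refine ⟨0, fun w => w i.succ, DFun.proj i.succ,
    Eventually.of_forall fun n => ⟨0, Nat.zero_le _, fun v _ => by simp⟩⟩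

/-- weakening by one variable in front -/
theorem NUF.weak (hf : NUF r C f) {B : ℕ → (Fin (r + 1) → ℕ) → Prop} :
    NUF (r + 1) (fun n w => C n (fun i => w i.succ) ∧ B n w)
      (fun n w => f n (fun i => w i.succ)) := by
  obtain ⟨c, g, hg, ha⟩ := hf
  refine ⟨c, fun u => g (Matrix.vecCons (u 0) (fun i : Fin r => u i.succ.succ)),
    Adv.dfun_cons hg (DFun.proj 0) (fun i => DFun.proj i.succ.succ), ?_⟩
  filter_upwards [ha] with n h1
  obtain ⟨a, ha1, ha2⟩ := h1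
  refine ⟨a, ha1, fun w hw => ?_⟩
  simp only [Matrix.cons_val_zero, Matrix.cons_val_succ]
  exact ha2 _ hw.1

theorem NUP.weak (hP : NUP r C P) {B : ℕ → (Fin (r + 1) → ℕ) → Prop} :
    NUP (r + 1) (fun n w => C n (fun i => w i.succ) ∧ B n w)
      (fun n w => P n (fun i => w i.succ)) := by
  obtain ⟨c, g, hg, ha⟩ := hP
  refine ⟨c, fun u => g (Matrix.vecCons (u 0) (fun i : Fin r => u i.succ.succ)),
    Adv.delta0_cons hg (DFun.proj 0) (fun i => DFun.proj i.succ.succ), ?_⟩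
  filter_upwards [ha] with n h1
  obtain ⟨a, ha1, ha2⟩ := h1
  refine ⟨a, ha1, fun w hw => ?_⟩
  simp only [Matrix.cons_val_zero, Matrix.cons_val_succ]
  exact ha2 _ hw.1

/-- a finite family has a common parameter -/
theorem Adv.common : ∀ {m : ℕ} {h : Fin m → ℕ → (Fin r → ℕ) → ℕ}, (∀ i, NUF r C (h i)) →
    ∃ (c : ℕ) (G : Fin m → (Fin (r + 1) → ℕ) → ℕ), (∀ i, DFun (r + 1) (G i)) ∧
      ∀ᶠ n in atTop, ∃ a, a ≤ (n + 2) ^ c ∧
        ∀ i v, C n v → G i (Matrix.vecCons a v) = h i n v := by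
  intro m
  induction m with
  | zero =>
    intro h _
    exact ⟨0, fun i => i.elim0, fun i => i.elim0,
      Eventually.of_forall fun n => ⟨0, Nat.zero_le _, fun i => i.elim0⟩⟩
  | succ m ih =>
    intro h hh
    obtain ⟨c, g, hg, ha⟩ := hh 0
    obtain ⟨d, G, hG, hb⟩ := ih (h := fun i => h i.succ) (fun i => hh i.succ)
    have hp1 : DFun (r + 1) (fun w : Fin (r + 1) → ℕ => (Nat.unpair (w 0)).1) :=
      (DFun.proj 0).unpair1
    have hp2 : DFun (r + 1) (fun w : Fin (r + 1) → ℕ => (Nat.unpair (w 0)).2) :=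
      (DFun.proj 0).unpair2
    refine ⟨2 * (c + d + 1),
      Fin.cons (fun w => g (Matrix.vecCons (Nat.unpair (w 0)).1 (fun i : Fin r => w i.succ)))
        (fun j w => G j (Matrix.vecCons (Nat.unpair (w 0)).2 (fun i : Fin r => w i.succ))),
      ?_, ?_⟩
    · intro i
      refine Fin.cases ?_ (fun j => ?_) i
      · exact Adv.dfun_cons hg hp1 (fun i => DFun.proj i.succ)
      · exact Adv.dfun_cons (hG j) hp2 (fun i => DFun.proj i.succ)
    · filter_upwards [ha, hb] with n h1 h2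
      obtain ⟨a, ha1, ha2⟩ := h1
      obtain ⟨b, hb1, hb2⟩ := h2
      refine ⟨Nat.pair a b, Adv.pair_le ha1 hb1, fun i v hv => ?_⟩
      revert i
      intro i
      refine Fin.cases ?_ (fun j => ?_) i
      · simp only [Fin.cons_zero, Matrix.cons_val_zero, Matrix.cons_val_succ, Nat.unpair_pair]
        exact ha2 v hv
      · simp only [Fin.cons_succ, Matrix.cons_val_zero, Matrix.cons_val_succ, Nat.unpair_pair]
        exact hb2 j v hv

/-- composition -/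
theorem NUF.comp {m : ℕ} {K : ℕ → (Fin m → ℕ) → Prop} {G : ℕ → (Fin m → ℕ) → ℕ}
    (hG : NUF m K G) {h : Fin m → ℕ → (Fin r → ℕ) → ℕ} (hh : ∀ i, NUF r C (h i))
    (hC : ∀ᶠ n in atTop, ∀ v, C n v → K n (fun i => h i n v)) :
    NUF r C (fun n v => G n (fun i => h i n v)) := by
  obtain ⟨c, g, hg, ha⟩ := hG
  obtain ⟨d, H, hH, hb⟩ := Adv.common hh
  have hp1 : DFun (r + 1) (fun w : Fin (r + 1) → ℕ => (Nat.unpair (w 0)).1) :=
    (DFun.proj 0).unpair1
  have hp2 : DFun (r + 1) (fun w : Fin (r + 1) → ℕ => (Nat.unpair (w 0)).2) :=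
    (DFun.proj 0).unpair2
  refine ⟨2 * (c + d + 1), fun w => g (Matrix.vecCons (Nat.unpair (w 0)).1
    (fun i : Fin m => H i (Matrix.vecCons (Nat.unpair (w 0)).2 (fun i : Fin r => w i.succ)))),
    Adv.dfun_cons hg hp1 (fun i => Adv.dfun_cons (hH i) hp2 (fun i => DFun.proj i.succ)), ?_⟩
  filter_upwards [ha, hb, hC] with n h1 h2 h3
  obtain ⟨a, ha1, ha2⟩ := h1
  obtain ⟨b, hb1, hb2⟩ := h2
  refine ⟨Nat.pair a b, Adv.pair_le ha1 hb1, fun v hv => ?_⟩
  simp only [Matrix.cons_val_zero, Matrix.cons_val_succ, Nat.unpair_pair]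
  have h4 : (fun i : Fin m => H i (Matrix.vecCons b (fun i : Fin r => v i)))
      = fun i => h i n v := by
    funext i
    exact hb2 i v hv
  rw [h4]
  exact ha2 _ (h3 v hv)

theorem NUP.subst {m : ℕ} {K : ℕ → (Fin m → ℕ) → Prop} {G : ℕ → (Fin m → ℕ) → Prop}
    (hG : NUP m K G) {h : Fin m → ℕ → (Fin r → ℕ) → ℕ} (hh : ∀ i, NUF r C (h i))
    (hC : ∀ᶠ n in atTop, ∀ v, C n v → K n (fun i => h i n v)) :
    NUP r C (fun n v => G n (fun i => h i n v)) := by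
  obtain ⟨c, g, hg, ha⟩ := hG
  obtain ⟨d, H, hH, hb⟩ := Adv.common hh
  have hp1 : DFun (r + 1) (fun w : Fin (r + 1) → ℕ => (Nat.unpair (w 0)).1) :=
    (DFun.proj 0).unpair1
  have hp2 : DFun (r + 1) (fun w : Fin (r + 1) → ℕ => (Nat.unpair (w 0)).2) :=
    (DFun.proj 0).unpair2
  refine ⟨2 * (c + d + 1), fun w => g (Matrix.vecCons (Nat.unpair (w 0)).1
    (fun i : Fin m => H i (Matrix.vecCons (Nat.unpair (w 0)).2 (fun i : Fin r => w i.succ)))),
    Adv.delta0_cons hg hp1 (fun i => Adv.dfun_cons (hH i) hp2 (fun i => DFun.proj i.succ)), ?_⟩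
  filter_upwards [ha, hb, hC] with n h1 h2 h3
  obtain ⟨a, ha1, ha2⟩ := h1
  obtain ⟨b, hb1, hb2⟩ := h2
  refine ⟨Nat.pair a b, Adv.pair_le ha1 hb1, fun v hv => ?_⟩
  simp only [Matrix.cons_val_zero, Matrix.cons_val_succ, Nat.unpair_pair]
  have h4 : (fun i : Fin m => H i (Matrix.vecCons b (fun i : Fin r => v i)))
      = fun i => h i n v := by
    funext i
    exact hb2 i v hv
  rw [h4]
  exact ha2 _ (h3 v hv)

theorem NUF.comp1 {G : ℕ → ℕ → ℕ} {K : ℕ → ℕ → Prop}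
    (hG : NUF 1 (fun n v => K n (v 0)) (fun n v => G n (v 0))) (h₁ : NUF r C f₁)
    (hC : ∀ᶠ n in atTop, ∀ v, C n v → K n (f₁ n v)) : NUF r C (fun n v => G n (f₁ n v)) :=
  hG.comp (h := fun _ => f₁) (fun _ => h₁) hC

theorem NUF.comp2 {G : ℕ → ℕ → ℕ → ℕ} {K : ℕ → ℕ → ℕ → Prop}
    (hG : NUF 2 (fun n v => K n (v 0) (v 1)) (fun n v => G n (v 0) (v 1))) (h₁ : NUF r C f₁)
    (h₂ : NUF r C f₂) (hC : ∀ᶠ n in atTop, ∀ v, C n v → K n (f₁ n v) (f₂ n v)) :
    NUF r C (fun n v => G n (f₁ n v) (f₂ n v)) := by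
  have := hG.comp (r := r) (C := C) (h := ![f₁, f₂]) (by
    intro i
    fin_cases i
    · exact h₁
    · exact h₂) (by simpa using hC)
  simpa using this

theorem NUF.comp3 {G : ℕ → ℕ → ℕ → ℕ → ℕ} {K : ℕ → ℕ → ℕ → ℕ → Prop}
    (hG : NUF 3 (fun n v => K n (v 0) (v 1) (v 2)) (fun n v => G n (v 0) (v 1) (v 2)))
    (h₁ : NUF r C f₁) (h₂ : NUF r C f₂) (h₃ : NUF r C f₃)
    (hC : ∀ᶠ n in atTop, ∀ v, C n v → K n (f₁ n v) (f₂ n v) (f₃ n v)) :
    NUF r C (fun n v => G n (f₁ n v) (f₂ n v) (f₃ n v)) := by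
  have := hG.comp (r := r) (C := C) (h := ![f₁, f₂, f₃]) (by
    intro i
    fin_cases i
    · exact h₁
    · exact h₂
    · exact h₃) (by simpa using hC)
  simpa using this

theorem NUP.comp1 {G : ℕ → ℕ → Prop} {K : ℕ → ℕ → Prop}
    (hG : NUP 1 (fun n v => K n (v 0)) (fun n v => G n (v 0))) (h₁ : NUF r C f₁)
    (hC : ∀ᶠ n in atTop, ∀ v, C n v → K n (f₁ n v)) : NUP r C (fun n v => G n (f₁ n v)) :=
  hG.subst (h := fun _ => f₁) (fun _ => h₁) hC

theorem NUP.comp2 {G : ℕ → ℕ → ℕ → Prop} {K : ℕ → ℕ → ℕ → Prop}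
    (hG : NUP 2 (fun n v => K n (v 0) (v 1)) (fun n v => G n (v 0) (v 1))) (h₁ : NUF r C f₁)
    (h₂ : NUF r C f₂) (hC : ∀ᶠ n in atTop, ∀ v, C n v → K n (f₁ n v) (f₂ n v)) :
    NUP r C (fun n v => G n (f₁ n v) (f₂ n v)) := by
  have := hG.subst (r := r) (C := C) (h := ![f₁, f₂]) (by
    intro i
    fin_cases i
    · exact h₁
    · exact h₂) (by simpa using hC)
  simpa using this

theorem NUP.comp3 {G : ℕ → ℕ → ℕ → ℕ → Prop} {K : ℕ → ℕ → ℕ → ℕ → Prop}
    (hG : NUP 3 (fun n v => K n (v 0) (v 1) (v 2)) (fun n v => G n (v 0) (v 1) (v 2)))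
    (h₁ : NUF r C f₁) (h₂ : NUF r C f₂) (h₃ : NUF r C f₃)
    (hC : ∀ᶠ n in atTop, ∀ v, C n v → K n (f₁ n v) (f₂ n v) (f₃ n v)) :
    NUP r C (fun n v => G n (f₁ n v) (f₂ n v) (f₃ n v)) := by
  have := hG.subst (r := r) (C := C) (h := ![f₁, f₂, f₃]) (by
    intro i
    fin_cases i
    · exact h₁
    · exact h₂
    · exact h₃) (by simpa using hC)
  simpa using this

/-- a `DFun` is a non-uniform family -/
theorem Adv.ofDFun {k : (Fin r → ℕ) → ℕ} (hk : DFun r k) : NUF r C (fun _ v => k v) := by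
  refine ⟨0, fun w => k (fun i => w i.succ), hk.weak,
    Eventually.of_forall fun n => ⟨0, Nat.zero_le _, fun v _ => ?_⟩⟩
  simp only [Matrix.cons_val_succ]

theorem Adv.ofDelta0 {k : (Fin r → ℕ) → Prop} (hk : Delta0 r k) : NUP r C (fun _ v => k v) := by
  refine ⟨0, fun w => k (fun i => w i.succ), hk.rename (fun i => i.succ),
    Eventually.of_forall fun n => ⟨0, Nat.zero_le _, fun v _ => ?_⟩⟩
  simp only [Matrix.cons_val_succ]

theorem NUF.map1 {k : ℕ → ℕ} (hk : DFun 1 (fun v => k (v 0))) (h₁ : NUF r C f₁) :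
    NUF r C (fun n v => k (f₁ n v)) :=
  NUF.comp1 (K := fun _ _ => True) (G := fun _ x => k x) (Adv.ofDFun hk) h₁
    (Eventually.of_forall fun _ _ _ => trivial)

theorem NUF.map2 {k : ℕ → ℕ → ℕ} (hk : DFun 2 (fun v => k (v 0) (v 1))) (h₁ : NUF r C f₁)
    (h₂ : NUF r C f₂) : NUF r C (fun n v => k (f₁ n v) (f₂ n v)) :=
  NUF.comp2 (K := fun _ _ _ => True) (G := fun _ x y => k x y) (Adv.ofDFun hk) h₁ h₂
    (Eventually.of_forall fun _ _ _ => trivial)

theorem NUP.map1 {k : ℕ → Prop} (hk : Delta0 1 (fun v => k (v 0))) (h₁ : NUF r C f₁) :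
    NUP r C (fun n v => k (f₁ n v)) :=
  NUP.comp1 (K := fun _ _ => True) (G := fun _ x => k x) (Adv.ofDelta0 hk) h₁
    (Eventually.of_forall fun _ _ _ => trivial)

theorem NUP.map2 {k : ℕ → ℕ → Prop} (hk : Delta0 2 (fun v => k (v 0) (v 1))) (h₁ : NUF r C f₁)
    (h₂ : NUF r C f₂) : NUP r C (fun n v => k (f₁ n v) (f₂ n v)) :=
  NUP.comp2 (K := fun _ _ _ => True) (G := fun _ x y => k x y) (Adv.ofDelta0 hk) h₁ h₂
    (Eventually.of_forall fun _ _ _ => trivial)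

theorem NUF.add (hf : NUF r C f) (hg : NUF r C g) : NUF r C (fun n v => f n v + g n v) :=
  NUF.map2 (k := fun x y => x + y) ((DFun.proj 0).add (DFun.proj 1)) hf hg

theorem NUF.mul (hf : NUF r C f) (hg : NUF r C g) : NUF r C (fun n v => f n v * g n v) :=
  NUF.map2 (k := fun x y => x * y) ((DFun.proj 0).mul (DFun.proj 1)) hf hg

theorem NUF.sub (hf : NUF r C f) (hg : NUF r C g) : NUF r C (fun n v => f n v - g n v) :=
  NUF.map2 (k := fun x y => x - y) ((DFun.proj 0).sub (DFun.proj 1)) hf hg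

theorem NUF.div (hf : NUF r C f) (hg : NUF r C g) : NUF r C (fun n v => f n v / g n v) := by
  refine NUF.map2 (k := fun x y => x / y) ?_ hf hg
  have h0 : DFun 2 (fun v : Fin 2 → ℕ => v 0) := DFun.proj 0
  have h1 : DFun 2 (fun v : Fin 2 → ℕ => v 1) := DFun.proj 1
  have h := DFun.ite (Delta0.eqFun h1 (DFun.const 0)) (DFun.const 0)
    (h0.div (h1.sub (DFun.const 1)))
  have h2 : (fun v : Fin 2 → ℕ => v 0 / v 1)
      = fun v => if v 1 = 0 then 0 else v 0 / (v 1 - 1 + 1) := by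
    funext v
    split_ifs with h3
    · rw [h3, Nat.div_zero]
    · rw [Nat.sub_add_cancel (Nat.one_le_iff_ne_zero.mpr h3)]
  rw [h2]
  exact h

theorem NUF.mod (hf : NUF r C f) (hg : NUF r C g) : NUF r C (fun n v => f n v % g n v) := by
  refine NUF.map2 (k := fun x y => x % y) ?_ hf hg
  have h0 : DFun 2 (fun v : Fin 2 → ℕ => v 0) := DFun.proj 0
  have h1 : DFun 2 (fun v : Fin 2 → ℕ => v 1) := DFun.proj 1
  have h := DFun.ite (Delta0.eqFun h1 (DFun.const 0)) h0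
    (h0.mod (h1.sub (DFun.const 1)))
  have h2 : (fun v : Fin 2 → ℕ => v 0 % v 1)
      = fun v => if v 1 = 0 then v 0 else v 0 % (v 1 - 1 + 1) := by
    funext v
    split_ifs with h3
    · rw [h3, Nat.mod_zero]
    · rw [Nat.sub_add_cancel (Nat.one_le_iff_ne_zero.mpr h3)]
  rw [h2]
  exact h

theorem NUP.eqFun (hf : NUF r C f) (hg : NUF r C g) : NUP r C (fun n v => f n v = g n v) :=
  NUP.map2 (k := fun x y => x = y) (Delta0.eqFun (DFun.proj 0) (DFun.proj 1)) hf hg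

theorem NUP.leFun (hf : NUF r C f) (hg : NUF r C g) : NUP r C (fun n v => f n v ≤ g n v) :=
  NUP.map2 (k := fun x y => x ≤ y) (Delta0.leFun (DFun.proj 0) (DFun.proj 1)) hf hg

theorem NUP.ltFun (hf : NUF r C f) (hg : NUF r C g) : NUP r C (fun n v => f n v < g n v) :=
  NUP.map2 (k := fun x y => x < y) (Delta0.ltFun (DFun.proj 0) (DFun.proj 1)) hf hg

end GB1

end Pool.Agent.GAvg
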