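import Mathlib
import Pool.Agent.GAvg.Adv

/-!
# Non-uniform bounded formulas: case distinctions, quantifiers and minimisation

Closure properties of `NUP` and `NUF` that combine two parameters (by `Nat.pair`): case
distinctions where the parts are only needed where they are used, bounded quantifiers with a `NUF`
bound, the least number operator, functions given by their graph, and finite case distinctions,
disjunctions, conjunctions and sums.
-/

set_option autoImplicit false

namespace Pool.Agent.GAvg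

open Finset Filter Pool.Agent.Grz
open scoped Classical

section AdvQ

/-- the size of a pair of small parameters -/
private theorem advQ_pair_le {n a b c d : ℕ} (ha : a ≤ (n + 2) ^ c) (hb : b ≤ (n + 2) ^ d) :
    Nat.pair a b ≤ (n + 2) ^ (2 * (c + d + 1)) := by
  have h1 : (n + 2) ^ c ≤ (n + 2) ^ (c + d) := Nat.pow_le_pow_right (by omega) (by omega)
  have h2 : (n + 2) ^ d ≤ (n + 2) ^ (c + d) := Nat.pow_le_pow_right (by omega) (by omega)
  have h3 : 1 ≤ (n + 2) ^ (c + d) := Nat.one_le_pow _ _ (by omega)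
  have h4 : max a b + 1 ≤ (n + 2) ^ (c + d + 1) := by
    have : max a b ≤ (n + 2) ^ (c + d) := max_le (ha.trans h1) (hb.trans h2)
    calc max a b + 1 ≤ (n + 2) ^ (c + d) + (n + 2) ^ (c + d) := by omega
      _ = (n + 2) ^ (c + d) * 2 := by ring
      _ ≤ (n + 2) ^ (c + d) * (n + 2) := Nat.mul_le_mul_left _ (by omega)
      _ = (n + 2) ^ (c + d + 1) := by rw [pow_succ]
  have h5 := Nat.pair_lt_max_add_one_sq a b
  calc Nat.pair a b ≤ (max a b + 1) ^ 2 := h5.le
    _ ≤ ((n + 2) ^ (c + d + 1)) ^ 2 := Nat.pow_le_pow_left h4 2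
    _ = (n + 2) ^ (2 * (c + d + 1)) := by rw [← pow_mul, Nat.mul_comm]

/-- two small parameters can be replaced by one -/
private theorem advQ_ev_pair {W₁ W₂ : ℕ → ℕ → Prop} {c₁ c₂ : ℕ}
    (h₁ : ∀ᶠ n in atTop, ∃ a, a ≤ (n + 2) ^ c₁ ∧ W₁ n a)
    (h₂ : ∀ᶠ n in atTop, ∃ a, a ≤ (n + 2) ^ c₂ ∧ W₂ n a) :
    ∃ c : ℕ, ∀ᶠ n in atTop, ∃ a, a ≤ (n + 2) ^ c ∧
      W₁ n (Nat.unpair a).1 ∧ W₂ n (Nat.unpair a).2 := by
  refine ⟨2 * (c₁ + c₂ + 1), ?_⟩
  filter_upwards [h₁, h₂] with n ⟨a, ha, hWa⟩ ⟨b, hb, hWb⟩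
  refine ⟨Nat.pair a b, advQ_pair_le ha hb, ?_, ?_⟩
  · rw [Nat.unpair_pair]; exact hWa
  · rw [Nat.unpair_pair]; exact hWb

private theorem advQ_sub1 {r m : ℕ} {ψ : (Fin (r + 1) → ℕ) → Prop} (hψ : Delta0 (r + 1) ψ)
    {k : (Fin m → ℕ) → ℕ} (hk : DFun m k) {h : Fin r → (Fin m → ℕ) → ℕ}
    (hh : ∀ i, DFun m (h i)) :
    Delta0 m (fun u => ψ (Matrix.vecCons (k u) (fun i => h i u))) := by
  have h1 : ∀ i, DFun m ((Fin.cons k h : Fin (r + 1) → (Fin m → ℕ) → ℕ) i) := by
    intro i
    refine Fin.cases ?_ (fun j => ?_) i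
    · exact hk
    · exact hh j
  refine (hψ.subst h1).of_iff ?_
  intro u
  have h2 : (fun i => (Fin.cons k h : Fin (r + 1) → (Fin m → ℕ) → ℕ) i u)
      = Matrix.vecCons (k u) (fun i => h i u) := by
    funext i
    refine Fin.cases ?_ (fun j => ?_) i
    · simp
    · simp
  rw [h2]

private theorem advQ_fsub1 {r m : ℕ} {g : (Fin (r + 1) → ℕ) → ℕ} (hg : DFun (r + 1) g)
    {k : (Fin m → ℕ) → ℕ} (hk : DFun m k) {h : Fin r → (Fin m → ℕ) → ℕ}
    (hh : ∀ i, DFun m (h i)) :
    DFun m (fun u => g (Matrix.vecCons (k u) (fun i => h i u))) := by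
  have h1 : ∀ i, DFun m ((Fin.cons k h : Fin (r + 1) → (Fin m → ℕ) → ℕ) i) := by
    intro i
    refine Fin.cases ?_ (fun j => ?_) i
    · exact hk
    · exact hh j
  have h3 := hg.comp h1
  have h2 : (fun u => g (fun i => (Fin.cons k h : Fin (r + 1) → (Fin m → ℕ) → ℕ) i u))
      = fun u => g (Matrix.vecCons (k u) (fun i => h i u)) := by
    funext u
    congr 1
    funext i
    refine Fin.cases ?_ (fun j => ?_) i
    · simp
    · simp
  rw [← h2]; exact h3

private theorem advQ_sub2 {r m : ℕ} {ψ : (Fin (r + 1 + 1) → ℕ) → Prop}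
    (hψ : Delta0 (r + 1 + 1) ψ)
    {k x : (Fin m → ℕ) → ℕ} (hk : DFun m k) (hx : DFun m x) {h : Fin r → (Fin m → ℕ) → ℕ}
    (hh : ∀ i, DFun m (h i)) :
    Delta0 m (fun u => ψ (Matrix.vecCons (k u) (Matrix.vecCons (x u) (fun i => h i u)))) := by
  have h1 : ∀ i, DFun m ((Fin.cons x h : Fin (r + 1) → (Fin m → ℕ) → ℕ) i) := by
    intro i
    refine Fin.cases ?_ (fun j => ?_) i
    · exact hx
    · exact hh j
  refine (advQ_sub1 hψ hk h1).of_iff ?_
  intro u
  have h2 : (fun i => (Fin.cons x h : Fin (r + 1) → (Fin m → ℕ) → ℕ) i u)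
      = Matrix.vecCons (x u) (fun i => h i u) := by
    funext i
    refine Fin.cases ?_ (fun j => ?_) i
    · simp
    · simp
  rw [h2]

/-- the formula `ψ` with the parameter read from the first coordinate by `k` -/
private theorem advQ_par {r : ℕ} {ψ : (Fin (r + 1) → ℕ) → Prop} (hψ : Delta0 (r + 1) ψ)
    {k : ℕ → ℕ} (hk : DFun (r + 1) (fun w => k (w 0))) :
    Delta0 (r + 1) (fun w => ψ (Matrix.vecCons (k (w 0)) (fun i => w i.succ))) :=
  advQ_sub1 hψ hk (fun i => DFun.proj i.succ)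

private theorem advQ_fpar {r : ℕ} {g : (Fin (r + 1) → ℕ) → ℕ} (hg : DFun (r + 1) g)
    {k : ℕ → ℕ} (hk : DFun (r + 1) (fun w => k (w 0))) :
    DFun (r + 1) (fun w => g (Matrix.vecCons (k (w 0)) (fun i => w i.succ))) :=
  advQ_fsub1 hg hk (fun i => DFun.proj i.succ)

/-- the least number operator for functions with `Delta0` graph -/
private theorem advQ_dleast {m : ℕ} {b : (Fin m → ℕ) → ℕ} (hb : DFun m b)
    {Q : ℕ → (Fin m → ℕ) → Prop} (hQb : ∀ x v, Q x v → x ≤ b v)
    (hQ : Delta0 (m + 1) (fun w => Q (w 0) (fun i => w i.succ))) :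
    DFun m (fun v => sInf {x | Q x v}) := by
  refine DFun.ofGraph hb (fun v => ?_) ?_
  · rcases Set.eq_empty_or_nonempty {x | Q x v} with h | h
    · rw [h, Nat.sInf_empty]; exact Nat.zero_le _
    · exact hQb _ _ (Nat.sInf_mem h)
  · -- variables: `w 0` value, rest `v`
    have hA : Delta0 (m + 1) (fun w => ∀ y, y ≤ w 0 → (y < w 0 → ¬ Q y (fun i => w i.succ))) := by
      refine Delta0.ballFun (b := fun w => w 0)
        (P := fun y w => y < w 0 → ¬ Q y (fun i => w i.succ)) (DFun.proj 0) ?_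
      refine (Delta0.ltFun (DFun.proj 0) (DFun.proj (Fin.succ 0))).imp (Delta0.not ?_)
      have := hQ.rename (n := m + 1 + 1) (Fin.cons 0 (fun i => i.succ.succ))
      refine this.of_iff ?_
      intro w
      simp [Fin.cons_succ]
    have hN : Delta0 (m + 1) (fun w => ∀ y, y ≤ b (fun i => w i.succ) →
        ¬ Q y (fun i => w i.succ)) := by
      refine Delta0.ballFun (b := fun w => b (fun i => w i.succ))
        (P := fun y w => ¬ Q y (fun i => w i.succ)) hb.weak ?_
      refine Delta0.not ?_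
      have := hQ.rename (n := m + 1 + 1) (Fin.cons 0 (fun i => i.succ.succ))
      refine this.of_iff ?_
      intro w
      simp [Fin.cons_succ]
    have h0 : Delta0 (m + 1) (fun w => w 0 = 0) :=
      Delta0.eqFun (DFun.proj 0) (DFun.const 0)
    refine ((hQ.and hA).or (h0.and hN)).of_iff ?_
    intro w
    constructor
    · intro h
      rcases Set.eq_empty_or_nonempty {x | Q x (fun i => w i.succ)} with he | hne
      · right
        refine ⟨?_, ?_⟩
        · rw [h, he, Nat.sInf_empty]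
        · intro y _ hy
          have : y ∈ ({x | Q x (fun i => w i.succ)} : Set ℕ) := hy
          rw [he] at this
          exact this
      · left
        refine ⟨?_, ?_⟩
        · have := Nat.sInf_mem hne
          rw [← h] at this
          exact this
        · intro y _ hy hQy
          rw [h] at hy
          exact Nat.notMem_of_lt_sInf hy hQy
    · rintro (⟨h1, h2⟩ | ⟨h1, h2⟩)
      · refine le_antisymm ?_ (Nat.sInf_le h1)
        by_contra hlt
        push Not at hlt
        have hm : sInf {x | Q x (fun i => w i.succ)} ∈ ({x | Q x (fun i => w i.succ)} : Set ℕ) :=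
          Nat.sInf_mem ⟨w 0, h1⟩
        exact h2 _ hlt.le hlt hm
      · have : ({x | Q x (fun i => w i.succ)} : Set ℕ) = ∅ := by
          ext y
          simp only [Set.mem_ofPred_eq, Set.mem_empty_iff_false, iff_false]
          intro hy
          exact h2 y (hQb _ _ hy) hy
        rw [h1, this, Nat.sInf_empty]

end AdvQ

section GB1b

variable {r : ℕ} {C C' P P' Q : ℕ → (Fin r → ℕ) → Prop} {f f' g f₁ f₂ f₃ f₄ : ℕ → (Fin r → ℕ) → ℕ}

/-- stronger forms: `f` is only needed where `P` holds, … -/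
theorem NUF.iteOn (hP : NUP r C P) (hf : NUF r (fun n v => C n v ∧ P n v) f)
    (hg : NUF r (fun n v => C n v ∧ ¬ P n v) g) [∀ n v, Decidable (P n v)] :
    NUF r C (fun n v => if P n v then f n v else g n v) := by
  obtain ⟨c₁, ψ, hψ, h₁⟩ := hP
  obtain ⟨c₂, g₁, hg₁, h₂⟩ := hf
  obtain ⟨c₃, g₂, hg₂, h₃⟩ := hg
  obtain ⟨c', h'⟩ := advQ_ev_pair h₂ h₃
  obtain ⟨c, hc⟩ := advQ_ev_pair h₁ h'
  have k1 : DFun (r + 1) (fun w => (Nat.unpair (w 0)).1) := (DFun.proj 0).unpair1
  have k2 : DFun (r + 1) (fun w => (Nat.unpair (Nat.unpair (w 0)).2).1) :=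
    ((DFun.proj 0).unpair2).unpair1
  have k3 : DFun (r + 1) (fun w => (Nat.unpair (Nat.unpair (w 0)).2).2) :=
    ((DFun.proj 0).unpair2).unpair2
  refine ⟨c, _, DFun.ite (advQ_par hψ (k := fun x => (Nat.unpair x).1) k1)
    (advQ_fpar hg₁ (k := fun x => (Nat.unpair (Nat.unpair x).2).1) k2)
    (advQ_fpar hg₂ (k := fun x => (Nat.unpair (Nat.unpair x).2).2) k3), ?_⟩
  filter_upwards [hc] with n ⟨a, ha, hA, hB, hD⟩
  refine ⟨a, ha, fun v hv => ?_⟩
  simp only [Matrix.cons_val_zero, Matrix.cons_val_succ]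
  by_cases hPv : P n v
  · rw [if_pos ((hA v hv).2 hPv), if_pos hPv]
    exact hB v ⟨hv, hPv⟩
  · rw [if_neg (fun h => hPv ((hA v hv).1 h)), if_neg hPv]
    exact hD v ⟨hv, hPv⟩

theorem NUF.ite (hP : NUP r C P) (hf : NUF r C f) (hg : NUF r C g)
    [∀ n v, Decidable (P n v)] : NUF r C (fun n v => if P n v then f n v else g n v) :=
  NUF.iteOn hP (hf.mono (Eventually.of_forall fun _ _ h => h.1))
    (hg.mono (Eventually.of_forall fun _ _ h => h.1))

theorem NUP.andOn (hP : NUP r C P) (hQ : NUP r (fun n v => C n v ∧ P n v) Q) :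
    NUP r C (fun n v => P n v ∧ Q n v) := by
  obtain ⟨c₁, ψ, hψ, h₁⟩ := hP
  obtain ⟨c₂, φ, hφ, h₂⟩ := hQ
  obtain ⟨c, hc⟩ := advQ_ev_pair h₁ h₂
  have k1 : DFun (r + 1) (fun w => (Nat.unpair (w 0)).1) := (DFun.proj 0).unpair1
  have k2 : DFun (r + 1) (fun w => (Nat.unpair (w 0)).2) := (DFun.proj 0).unpair2
  refine ⟨c, _, (advQ_par hψ (k := fun x => (Nat.unpair x).1) k1).and
    (advQ_par hφ (k := fun x => (Nat.unpair x).2) k2), ?_⟩
  filter_upwards [hc] with n ⟨a, ha, hA, hB⟩
  refine ⟨a, ha, fun v hv => ?_⟩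
  simp only [Matrix.cons_val_zero, Matrix.cons_val_succ]
  constructor
  · rintro ⟨h1, h2⟩
    have hPv := (hA v hv).1 h1
    exact ⟨hPv, (hB v ⟨hv, hPv⟩).1 h2⟩
  · rintro ⟨h1, h2⟩
    exact ⟨(hA v hv).2 h1, (hB v ⟨hv, h1⟩).2 h2⟩

theorem NUP.impOn (hP : NUP r C P) (hQ : NUP r (fun n v => C n v ∧ P n v) Q) :
    NUP r C (fun n v => P n v → Q n v) := by
  have h := (hP.andOn hQ.not).not
  refine h.congr (Eventually.of_forall fun n v _ => ?_)
  tauto

theorem NUP.bex {B : ℕ → (Fin r → ℕ) → ℕ} (hB : NUF r C B) {R : ℕ → ℕ → (Fin r → ℕ) → Prop}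
    (hR : NUP (r + 1) (fun n w => C n (fun i => w i.succ) ∧ w 0 < B n (fun i => w i.succ))
      (fun n w => R n (w 0) (fun i => w i.succ))) :
    NUP r C (fun n v => ∃ x, x < B n v ∧ R n x v) := by
  obtain ⟨c₁, b, hb, h₁⟩ := hB
  obtain ⟨c₂, ψ, hψ, h₂⟩ := hR
  obtain ⟨c, hc⟩ := advQ_ev_pair h₁ h₂
  have k1 : DFun (r + 1) (fun w => (Nat.unpair (w 0)).1) := (DFun.proj 0).unpair1
  have hb' := advQ_fpar hb (k := fun x => (Nat.unpair x).1) k1
  have hD : Delta0 (r + 1) (fun w => ∃ x,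
      x ≤ b (Matrix.vecCons (Nat.unpair (w 0)).1 (fun i => w i.succ)) ∧
      (x < b (Matrix.vecCons (Nat.unpair (w 0)).1 (fun i => w i.succ)) ∧
        ψ (Matrix.vecCons (Nat.unpair (w 0)).2 (Matrix.vecCons x (fun i => w i.succ))))) := by
    refine Delta0.bexFun hb' (P := fun x w =>
      (x < b (Matrix.vecCons (Nat.unpair (w 0)).1 (fun i => w i.succ)) ∧
        ψ (Matrix.vecCons (Nat.unpair (w 0)).2 (Matrix.vecCons x (fun i => w i.succ))))) ?_
    refine (Delta0.ltFun (DFun.proj 0) hb'.weak).and ?_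
    exact advQ_sub2 hψ ((DFun.proj (Fin.succ 0)).unpair2) (DFun.proj 0)
      (fun i => DFun.proj i.succ.succ)
  refine ⟨c, _, hD, ?_⟩
  filter_upwards [hc] with n ⟨a, ha, hA, hE⟩
  refine ⟨a, ha, fun v hv => ?_⟩
  simp only [Matrix.cons_val_zero, Matrix.cons_val_succ]
  have hbv := hA v hv
  rw [hbv]
  constructor
  · rintro ⟨x, _, hx, hψx⟩
    refine ⟨x, hx, ?_⟩
    have := (hE (Matrix.vecCons x v) ⟨by simpa using hv, by simpa using hx⟩).1 hψx
    simpa using this
  · rintro ⟨x, hx, hRx⟩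
    refine ⟨x, hx.le, hx, ?_⟩
    exact (hE (Matrix.vecCons x v) ⟨by simpa using hv, by simpa using hx⟩).2 (by simpa using hRx)

theorem NUP.ball {B : ℕ → (Fin r → ℕ) → ℕ} (hB : NUF r C B) {R : ℕ → ℕ → (Fin r → ℕ) → Prop}
    (hR : NUP (r + 1) (fun n w => C n (fun i => w i.succ) ∧ w 0 < B n (fun i => w i.succ))
      (fun n w => R n (w 0) (fun i => w i.succ))) :
    NUP r C (fun n v => ∀ x, x < B n v → R n x v) := by
  have h := (NUP.bex hB (R := fun n x v => ¬ R n x v) hR.not).not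
  refine h.congr (Eventually.of_forall fun n v _ => ?_)
  push Not
  rfl

/-- the least number below a bound with a definable property (`0` if there is none) -/
theorem NUF.least {B : ℕ → (Fin r → ℕ) → ℕ} (hB : NUF r C B) {R : ℕ → ℕ → (Fin r → ℕ) → Prop}
    (hR : NUP (r + 1) (fun n w => C n (fun i => w i.succ) ∧ w 0 < B n (fun i => w i.succ))
      (fun n w => R n (w 0) (fun i => w i.succ))) :
    NUF r C (fun n v => sInf {x | x < B n v ∧ R n x v}) := by
  obtain ⟨c₁, b, hb, h₁⟩ := hB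
  obtain ⟨c₂, ψ, hψ, h₂⟩ := hR
  obtain ⟨c, hc⟩ := advQ_ev_pair h₁ h₂
  have k1 : DFun (r + 1) (fun w => (Nat.unpair (w 0)).1) := (DFun.proj 0).unpair1
  have hb' := advQ_fpar hb (k := fun x => (Nat.unpair x).1) k1
  have hD := advQ_dleast hb' (Q := fun x w =>
      (x < b (Matrix.vecCons (Nat.unpair (w 0)).1 (fun i => w i.succ)) ∧
        ψ (Matrix.vecCons (Nat.unpair (w 0)).2 (Matrix.vecCons x (fun i => w i.succ)))))
      (fun x v h => h.1.le) (by
    refine (Delta0.ltFun (DFun.proj 0) hb'.weak).and ?_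
    exact advQ_sub2 hψ ((DFun.proj (Fin.succ 0)).unpair2) (DFun.proj 0)
      (fun i => DFun.proj i.succ.succ))
  refine ⟨c, _, hD, ?_⟩
  filter_upwards [hc] with n ⟨a, ha, hA, hE⟩
  refine ⟨a, ha, fun v hv => ?_⟩
  simp only [Matrix.cons_val_zero, Matrix.cons_val_succ]
  have hbv := hA v hv
  rw [hbv]
  congr 1
  ext x
  simp only [Set.mem_ofPred_eq]
  refine and_congr_right fun hx => ?_
  have := hE (Matrix.vecCons x v) ⟨by simpa using hv, by simpa using hx⟩
  simpa using this

/-- a function with a bound and a definable graph -/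
theorem NUF.ofGraph {B : ℕ → (Fin r → ℕ) → ℕ} (hB : NUF r C B)
    (hfB : ∀ᶠ n in atTop, ∀ v, C n v → f n v < B n v)
    (hg : NUP (r + 1) (fun n w => C n (fun i => w i.succ) ∧ w 0 < B n (fun i => w i.succ))
      (fun n w => w 0 = f n (fun i => w i.succ))) : NUF r C f := by
  have h := NUF.least hB (R := fun n x v => x = f n v) hg
  refine h.congr ?_
  filter_upwards [hfB] with n hn v hv
  have : ({x | x < B n v ∧ x = f n v} : Set ℕ) = {f n v} := by
    ext x
    simp only [Set.mem_ofPred_eq, Set.mem_singleton_iff]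
    constructor
    · exact fun h => h.2
    · intro h
      exact ⟨by rw [h]; exact hn v hv, h⟩
  rw [this, csInf_singleton]

private theorem advQ_cases_aux (J : ℕ → ℕ) (t : ℕ)
    (h : ∀ j < t, NUP r (fun n v => C n v ∧ J n = j) P) :
    NUP r (fun n v => C n v ∧ J n < t) P := by
  induction t with
  | zero =>
    exact NUP.false.congr (Eventually.of_forall fun n v hv => absurd hv.2 (Nat.not_lt_zero _))
  | succ t ih =>
    have h1 := ih (fun j hj => h j (by omega))
    have h2 := h t (Nat.lt_succ_self t)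
    have h3 : NUP r (fun n v => C n v ∧ J n < t + 1) (fun n v => J n < t ∧ P n v) :=
      (NUP.param (fun n => J n < t)).andOn
        (h1.mono (Eventually.of_forall fun n v hv => ⟨hv.1.1, hv.2⟩))
    have h4 : NUP r (fun n v => C n v ∧ J n < t + 1) (fun n v => J n = t ∧ P n v) :=
      (NUP.param (fun n => J n = t)).andOn
        (h2.mono (Eventually.of_forall fun n v hv => ⟨hv.1.1, hv.2⟩))
    refine (h3.or h4).congr (Eventually.of_forall fun n v hv => ?_)
    have := hv.2
    constructor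
    · intro hP
      rcases Nat.lt_or_ge (J n) t with hl | hl
      · exact Or.inl ⟨hl, hP⟩
      · exact Or.inr ⟨by omega, hP⟩
    · rintro (h | h)
      · exact h.2
      · exact h.2

private theorem advQ_fcases_aux (J : ℕ → ℕ) (t : ℕ)
    (h : ∀ j < t, NUF r (fun n v => C n v ∧ J n = j) f) :
    NUF r (fun n v => C n v ∧ J n < t) f := by
  induction t with
  | zero =>
    exact (NUF.const 0).congr (Eventually.of_forall fun n v hv => absurd hv.2 (Nat.not_lt_zero _))
  | succ t ih =>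
    have h1 := ih (fun j hj => h j (by omega))
    have h2 := h t (Nat.lt_succ_self t)
    have h3 : NUF r (fun n v => C n v ∧ J n < t + 1)
        (fun n v => if J n < t then f n v else f n v) :=
      NUF.iteOn (NUP.param (fun n => J n < t))
        (h1.mono (Eventually.of_forall fun n v hv => ⟨hv.1.1, hv.2⟩))
        (h2.mono (Eventually.of_forall fun n v hv => ⟨hv.1.1, by have := hv.1.2; have := hv.2; omega⟩))
    refine h3.congr (Eventually.of_forall fun n v _ => ?_)
    simp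

/-- a finite case distinction that depends on `n` only -/
theorem NUP.cases (J : ℕ → ℕ) (t : ℕ) (hJ : ∀ n, J n < t)
    (h : ∀ j < t, NUP r (fun n v => C n v ∧ J n = j) P) : NUP r C P :=
  (advQ_cases_aux J t h).mono (Eventually.of_forall fun n _ hv => ⟨hv, hJ n⟩)

theorem NUF.cases (J : ℕ → ℕ) (t : ℕ) (hJ : ∀ n, J n < t)
    (h : ∀ j < t, NUF r (fun n v => C n v ∧ J n = j) f) : NUF r C f :=
  (advQ_fcases_aux J t h).mono (Eventually.of_forall fun n _ hv => ⟨hv, hJ n⟩)

theorem NUP.finEx {t : ℕ} {R : Fin t → ℕ → (Fin r → ℕ) → Prop} (h : ∀ i, NUP r C (R i)) :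
    NUP r C (fun n v => ∃ i, R i n v) := by
  induction t with
  | zero => exact NUP.false.congr (Eventually.of_forall fun n v _ => by simp)
  | succ t ih =>
    refine ((h 0).or (ih fun i => h i.succ)).congr (Eventually.of_forall fun n v _ => ?_)
    exact Fin.exists_fin_succ

theorem NUP.finAll {t : ℕ} {R : Fin t → ℕ → (Fin r → ℕ) → Prop} (h : ∀ i, NUP r C (R i)) :
    NUP r C (fun n v => ∀ i, R i n v) := by
  induction t with
  | zero => exact NUP.true.congr (Eventually.of_forall fun n v _ => by simp)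
  | succ t ih =>
    refine ((h 0).and (ih fun i => h i.succ)).congr (Eventually.of_forall fun n v _ => ?_)
    exact Fin.forall_fin_succ

theorem NUF.finSum {t : ℕ} {R : Fin t → ℕ → (Fin r → ℕ) → ℕ} (h : ∀ i, NUF r C (R i)) :
    NUF r C (fun n v => ∑ i, R i n v) := by
  induction t with
  | zero => exact (NUF.const 0).congr (Eventually.of_forall fun n v _ => by simp)
  | succ t ih =>
    refine ((h 0).add (ih fun i => h i.succ)).congr (Eventually.of_forall fun n v _ => ?_)
    exact Fin.sum_univ_succ _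

end GB1b

end Pool.Agent.GAvg
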