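import Mathlib
import Pool.Agent.GAvg.AdvQ

/-!
# MP_a56640: digits and powers with small parameters (package GB2)
-/

set_option autoImplicit false

namespace Pool.Agent.GAvg

open Finset Filter Pool.Agent.Grz
open scoped Classical

theorem dig_lt {q : ℕ} (hq : 0 < q) (x i : ℕ) : dig q x i < q := Nat.mod_lt _ hq

theorem sum_lt {q m : ℕ} (hq : 0 < q) (d : ℕ → ℕ) (hd : ∀ i < m, d i < q) :
    ∑ i ∈ range m, d i * q ^ i < q ^ m := by
  induction m with
  | zero => simp
  | succ m ih =>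
    rw [sum_range_succ, pow_succ]
    have h1 := ih (fun j hj => hd j (by omega))
    have h2 := hd m (by omega)
    have h3 : (d m + 1) * q ^ m ≤ q * q ^ m := Nat.mul_le_mul_right _ h2
    have h4 : (d m + 1) * q ^ m = d m * q ^ m + q ^ m := by ring
    have h5 : q ^ m * q = q * q ^ m := by ring
    omega

theorem dig_sum {q m : ℕ} (hq : 0 < q) (d : ℕ → ℕ) (hd : ∀ i < m, d i < q) {j : ℕ} (hj : j < m) :
    dig q (∑ i ∈ range m, d i * q ^ i) j = d j := by
  induction m with
  | zero => omega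
  | succ m ih =>
    rw [sum_range_succ]
    have h1 := sum_lt hq d (fun i hi => hd i (by omega)) (m := m)
    rcases Nat.lt_succ_iff_lt_or_eq.mp hj with hj' | hj'
    · have h2 := ih (fun i hi => hd i (by omega)) hj'
      rw [← h2]
      unfold dig
      obtain ⟨k, rfl⟩ := Nat.exists_eq_add_of_lt hj'
      have h3 : ∑ i ∈ range (j + k + 1), d i * q ^ i + d (j + k + 1) * q ^ (j + k + 1)
          = ∑ i ∈ range (j + k + 1), d i * q ^ i + q ^ j * (q * (q ^ k * d (j + k + 1))) := by
        ring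
      rw [h3, Nat.add_mul_div_left _ _ (pow_pos hq j), Nat.add_mul_mod_self_left]
    · subst hj'
      unfold dig
      rw [Nat.add_mul_div_right _ _ (pow_pos hq j), Nat.div_eq_of_lt h1, zero_add,
        Nat.mod_eq_of_lt (hd j hj)]

private theorem digDef_sum_dig_mod (q m x : ℕ) :
    ∑ i ∈ range m, dig q x i * q ^ i = x % q ^ m := by
  induction m with
  | zero => simp [Nat.mod_one]
  | succ m ih =>
    rw [sum_range_succ, ih, Nat.mod_pow_succ, dig]
    ring

theorem sum_dig {q m x : ℕ} (hx : x < q ^ m) : ∑ i ∈ range m, dig q x i * q ^ i = x := by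
  rw [digDef_sum_dig_mod, Nat.mod_eq_of_lt hx]

theorem dig_ext {q m x y : ℕ} (hx : x < q ^ m) (hy : y < q ^ m)
    (h : ∀ i < m, dig q x i = dig q y i) : x = y := by
  rw [← sum_dig hx, ← sum_dig hy]
  exact sum_congr rfl fun i hi => by rw [h i (mem_range.mp hi)]

variable {r : ℕ} {C : ℕ → (Fin r → ℕ) → Prop} {q ℓ : ℕ → ℕ}

private theorem digDef_polyq (hB : Base q ℓ) : PolyB q :=
  hB.poly.mono (by
    filter_upwards [hB.prime] with n hn
    exact Nat.le_self_pow (by omega) _)

private theorem digDef_polym (hB : Base q ℓ) {m : ℕ → ℕ} (hm : ∀ᶠ n in atTop, m n ≤ ℓ n + 1) :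
    PolyB (fun n => q n ^ m n) :=
  hB.poly.mono (by
    filter_upwards [hB.prime, hm] with n hn hmn
    exact Nat.pow_le_pow_right hn.pos hmn)

private theorem digDef_polysum (hB : Base q ℓ) {g : ℕ → ℕ → ℕ}
    (hg : ∀ᶠ n in atTop, ∀ i ≤ ℓ n, g n i < q n) :
    PolyB (fun n => ∑ i ∈ range (ℓ n + 1), g n i * q n ^ i) :=
  hB.poly.mono (by
    filter_upwards [hB.prime, hg] with n hn hgn
    exact (sum_lt hn.pos (g n) (fun i hi => hgn i (by omega))).le)

/-- powers: with the constants `q ^ ℓ` and `∑ i ≤ ℓ, i q ^ i`, the power `q ^ i` is the divisor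
`z` of `q ^ ℓ` such that the digit of the second constant at `z` is `i` -/
theorem Base.powF (hB : Base q ℓ) {I : ℕ → (Fin r → ℕ) → ℕ} (hI : NUF r C I)
    (hIb : ∀ᶠ n in atTop, ∀ v, C n v → I n v ≤ ℓ n) : NUF r C (fun n v => q n ^ I n v) := by
  have hZ : PolyB (fun n => q n ^ ℓ n) := digDef_polym hB (by filter_upwards with n; omega)
  have hZ1 : PolyB (fun n => q n ^ ℓ n + 1) := hZ.add (PolyB.const 1)
  have hN : PolyB (fun n => ∑ i ∈ range (ℓ n + 1), i * q n ^ i) :=
    digDef_polysum hB (g := fun _ i => i) (by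
      filter_upwards [hB.lt] with n hn i hi
      omega)
  refine NUF.ofGraph (B := fun n _ => q n ^ ℓ n + 1) (NUF.param hZ1) ?_ ?_
  · filter_upwards [hB.prime, hIb] with n hn hi v hv
    exact Nat.lt_succ_of_le (Nat.pow_le_pow_right hn.pos (hi v hv))
  · have hp0 : NUF (r + 1) (fun n w => C n (fun i => w i.succ) ∧ w 0 < q n ^ ℓ n + 1)
        (fun _ w => w 0) := NUF.proj 0
    refine NUP.congr (NUP.and (NUP.eqFun (NUF.mod (NUF.param hZ) hp0) (NUF.const 0))
      (NUP.eqFun (NUF.mod (NUF.div (NUF.param hN) hp0) (NUF.param (digDef_polyq hB)))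
        hI.weak)) ?_
    filter_upwards [hB.prime, hB.lt, hIb] with n hn hlt hi w hw
    obtain ⟨hC, hw0⟩ := hw
    have hi' := hi _ hC
    have hdig : ∀ e ≤ ℓ n, (∑ i ∈ range (ℓ n + 1), i * q n ^ i) / q n ^ e % q n = e := by
      intro e he
      exact dig_sum hn.pos (fun i => i) (fun i hi => by omega) (by omega)
    constructor
    · intro h
      rw [h]
      exact ⟨Nat.mod_eq_zero_of_dvd (pow_dvd_pow _ hi'), hdig _ hi'⟩
    · rintro ⟨h1, h2⟩
      obtain ⟨e, he, hwe⟩ := (Nat.dvd_prime_pow hn).mp (Nat.dvd_of_mod_eq_zero h1)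
      rw [hwe, hdig e he] at h2
      rw [hwe, h2]

theorem Base.digF (hB : Base q ℓ) {X I : ℕ → (Fin r → ℕ) → ℕ} (hX : NUF r C X) (hI : NUF r C I)
    (hIb : ∀ᶠ n in atTop, ∀ v, C n v → I n v ≤ ℓ n) :
    NUF r C (fun n v => dig (q n) (X n v) (I n v)) :=
  NUF.mod (NUF.div hX (hB.powF hI hIb)) (NUF.param (digDef_polyq hB))

theorem Base.sumF (hB : Base q ℓ) {m : ℕ → ℕ} (hm : ∀ᶠ n in atTop, m n ≤ ℓ n + 1)
    {d : ℕ → ℕ → (Fin r → ℕ) → ℕ}
    (hd : NUF (r + 1) (fun n w => C n (fun i => w i.succ) ∧ w 0 < m n)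
      (fun n w => d n (w 0) (fun i => w i.succ)))
    (hdq : ∀ᶠ n in atTop, ∀ v, C n v → ∀ i < m n, d n i v < q n) :
    NUF r C (fun n v => ∑ i ∈ range (m n), d n i v * q n ^ i) := by
  have hmP : PolyB m := (digDef_polyq hB).mono (by
    filter_upwards [hm, hB.lt] with n h1 h2
    omega)
  refine NUF.ofGraph (B := fun n _ => q n ^ m n) (NUF.param (digDef_polym hB hm)) ?_ ?_
  · filter_upwards [hB.prime, hdq] with n hn hdn v hv
    exact sum_lt hn.pos (fun i => d n i v) (hdn v hv)
  · have hball : NUP (r + 1) (fun n w => C n (fun i => w i.succ) ∧ w 0 < q n ^ m n)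
        (fun n w => ∀ x, x < m n → dig (q n) (w 0) x = d n x (fun i => w i.succ)) := by
      refine NUP.ball (B := fun n _ => m n)
        (R := fun n x w => dig (q n) (w 0) x = d n x (fun i => w i.succ)) (NUF.param hmP) ?_
      refine NUP.eqFun (hB.digF (NUF.proj 1) (NUF.proj 0) ?_) ?_
      · filter_upwards [hm] with n h1 w hw
        have := hw.2
        omega
      · refine NUF.comp (K := fun n w => C n (fun i => w i.succ) ∧ w 0 < m n)
          (G := fun n w => d n (w 0) (fun i => w i.succ)) hd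
          (h := fun j _ w => w (Fin.cases 0 (fun i => i.succ.succ) j))
          (fun j => NUF.proj _) ?_
        filter_upwards with n w hw
        exact ⟨hw.1.1, hw.2⟩
    refine NUP.congr hball ?_
    filter_upwards [hB.prime, hdq] with n hn hdn w hw
    obtain ⟨hC, hw0⟩ := hw
    constructor
    · intro h x hx
      rw [h]
      exact dig_sum hn.pos (fun i => d n i (fun j => w j.succ)) (hdn _ hC) hx
    · intro h
      refine dig_ext hw0 (sum_lt hn.pos (fun i => d n i (fun j => w j.succ)) (hdn _ hC)) ?_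
      intro i hi
      rw [h i hi, dig_sum hn.pos (fun i => d n i (fun j => w j.succ)) (hdn _ hC) hi]

/-- every short table is definable -/
theorem Base.table (hB : Base q ℓ) {g : ℕ → ℕ → ℕ} (hg : ∀ᶠ n in atTop, ∀ i ≤ ℓ n, g n i < q n)
    {I : ℕ → (Fin r → ℕ) → ℕ} (hI : NUF r C I) (hIb : ∀ᶠ n in atTop, ∀ v, C n v → I n v ≤ ℓ n) :
    NUF r C (fun n v => g n (I n v)) := by
  refine NUF.congr (hB.digF (NUF.param (digDef_polysum hB hg)) hI hIb) ?_
  filter_upwards [hB.prime, hg, hIb] with n hn hgn hi v hv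
  exact (dig_sum hn.pos (g n) (fun i hi => hgn i (by omega)) (by have := hi v hv; omega)).symm

end Pool.Agent.GAvg
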