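import Mathlib
import Pool.Agent.GAvg.AdvQ
import Pool.Agent.GAvg.DigDef

/-!
# Recursions of polylogarithmic length with small values
-/

set_option autoImplicit false

namespace Pool.Agent.GAvg

open Finset Filter Pool.Agent.Grz
open scoped Classical

section GB3

/-! ### iteration with a clock -/

/-- `k` steps of `G` from time `s` -/
def recDefIt (G : ℕ → ℕ → ℕ) (s : ℕ) : ℕ → ℕ → ℕ
  | 0, a => a
  | k + 1, a => G (s + k) (recDefIt G s k a)

theorem recDefIt_add (G : ℕ → ℕ → ℕ) (s k k' a : ℕ) :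
    recDefIt G s (k + k') a = recDefIt G (s + k) k' (recDefIt G s k a) := by
  induction k' with
  | zero => rfl
  | succ k' ih =>
    rw [← Nat.add_assoc]
    simp only [recDefIt]
    rw [ih, Nat.add_assoc]

theorem recDefIt_lt {G : ℕ → ℕ → ℕ} {q : ℕ} (hG : ∀ s a, G s a < q) {a : ℕ} (ha : a < q)
    (s k : ℕ) : recDefIt G s k a < q := by
  cases k with
  | zero => exact ha
  | succ k => exact hG _ _

theorem recDefIt_code {G : ℕ → ℕ → ℕ} {q : ℕ} (hG : ∀ s a, G s a < q) {a b : ℕ} (ha : a < q)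
    (s l M : ℕ) :
    recDefIt G s (l * M) a = b ↔ ∃ c, c < q ^ (l + 1) ∧ (dig q c 0 = a ∧ dig q c l = b ∧
      ∀ i, i < l → recDefIt G (s + i * M) M (dig q c i) = dig q c (i + 1)) := by
  have hq : 0 < q := by omega
  constructor
  · intro h
    have hd : ∀ i < l + 1, recDefIt G s (i * M) a < q := fun i _ => recDefIt_lt hG ha _ _
    refine ⟨∑ i ∈ range (l + 1), recDefIt G s (i * M) a * q ^ i,
      sum_lt hq (fun i => recDefIt G s (i * M) a) hd, ?_, ?_, ?_⟩
    · rw [dig_sum hq (fun i => recDefIt G s (i * M) a) hd (by omega)]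
      simp [recDefIt]
    · rw [dig_sum hq (fun i => recDefIt G s (i * M) a) hd (by omega)]
      exact h
    · intro i hi
      rw [dig_sum hq (fun i => recDefIt G s (i * M) a) hd (by omega),
        dig_sum hq (fun i => recDefIt G s (i * M) a) hd (by omega), ← recDefIt_add]
      congr 1
      ring
  · rintro ⟨c, -, h0, hl, hs⟩
    have key : ∀ i ≤ l, dig q c i = recDefIt G s (i * M) a := by
      intro i
      induction i with
      | zero => intro _; simpa [recDefIt] using h0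
      | succ i ih =>
        intro hi
        rw [← hs i (by omega), ih (by omega), ← recDefIt_add]
        congr 1
        ring
    rw [← key l le_rfl, hl]

/-! ### composition with cons -/

theorem recDef_app1F {m r : ℕ} {K : ℕ → (Fin (r + 1) → ℕ) → Prop} {C' : ℕ → (Fin m → ℕ) → Prop}
    {G : ℕ → ℕ → (Fin r → ℕ) → ℕ}
    (hG : NUF (r + 1) K (fun n w => G n (w 0) (fun i => w i.succ)))
    {f₁ : ℕ → (Fin m → ℕ) → ℕ} (h₁ : NUF m C' f₁)
    {p : Fin r → ℕ → (Fin m → ℕ) → ℕ} (hp : ∀ i, NUF m C' (p i))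
    (hK : ∀ᶠ n in atTop, ∀ u, C' n u →
      K n (Matrix.vecCons (f₁ n u) (fun i => p i n u))) :
    NUF m C' (fun n u => G n (f₁ n u) (fun i => p i n u)) := by
  have h := NUF.comp (r := m) (C := C') hG
    (h := Matrix.vecCons f₁ (fun i n w => p i n w))
    (by
      refine Fin.cases ?_ (fun i => ?_)
      · exact h₁
      · exact hp i)
    (by
      filter_upwards [hK] with n hn u hu
      have e : (fun i => Matrix.vecCons f₁ (fun i n w => p i n w) i n u) =
          Matrix.vecCons (f₁ n u) (fun i => p i n u) := by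
        funext i
        refine Fin.cases rfl (fun i => rfl) i
      rw [e]
      exact hn u hu)
  exact h

theorem recDef_app1P {m r : ℕ} {K : ℕ → (Fin (r + 1) → ℕ) → Prop} {C' : ℕ → (Fin m → ℕ) → Prop}
    {G : ℕ → ℕ → (Fin r → ℕ) → Prop}
    (hG : NUP (r + 1) K (fun n w => G n (w 0) (fun i => w i.succ)))
    {f₁ : ℕ → (Fin m → ℕ) → ℕ} (h₁ : NUF m C' f₁)
    {p : Fin r → ℕ → (Fin m → ℕ) → ℕ} (hp : ∀ i, NUF m C' (p i))
    (hK : ∀ᶠ n in atTop, ∀ u, C' n u →
      K n (Matrix.vecCons (f₁ n u) (fun i => p i n u))) :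
    NUP m C' (fun n u => G n (f₁ n u) (fun i => p i n u)) := by
  have h := NUP.subst (r := m) (C := C') hG
    (h := Matrix.vecCons f₁ (fun i n w => p i n w))
    (by
      refine Fin.cases ?_ (fun i => ?_)
      · exact h₁
      · exact hp i)
    (by
      filter_upwards [hK] with n hn u hu
      have e : (fun i => Matrix.vecCons f₁ (fun i n w => p i n w) i n u) =
          Matrix.vecCons (f₁ n u) (fun i => p i n u) := by
        funext i
        refine Fin.cases rfl (fun i => rfl) i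
      rw [e]
      exact hn u hu)
  exact h

theorem recDef_app2F {m r : ℕ} {K : ℕ → (Fin (r + 2) → ℕ) → Prop} {C' : ℕ → (Fin m → ℕ) → Prop}
    {G : ℕ → ℕ → ℕ → (Fin r → ℕ) → ℕ}
    (hG : NUF (r + 2) K (fun n w => G n (w 0) (w 1) (fun i => w i.succ.succ)))
    {f₁ f₂ : ℕ → (Fin m → ℕ) → ℕ} (h₁ : NUF m C' f₁) (h₂ : NUF m C' f₂)
    {p : Fin r → ℕ → (Fin m → ℕ) → ℕ} (hp : ∀ i, NUF m C' (p i))
    (hK : ∀ᶠ n in atTop, ∀ u, C' n u →
      K n (Matrix.vecCons (f₁ n u) (Matrix.vecCons (f₂ n u) (fun i => p i n u)))) :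
    NUF m C' (fun n u => G n (f₁ n u) (f₂ n u) (fun i => p i n u)) := by
  have h := NUF.comp (r := m) (C := C') hG
    (h := Matrix.vecCons f₁ (Matrix.vecCons f₂ (fun i n w => p i n w)))
    (by
      refine Fin.cases ?_ (Fin.cases ?_ (fun i => ?_))
      · exact h₁
      · exact h₂
      · exact hp i)
    (by
      filter_upwards [hK] with n hn u hu
      have e : (fun i => Matrix.vecCons f₁ (Matrix.vecCons f₂ (fun i n w => p i n w)) i n u) =
          Matrix.vecCons (f₁ n u) (Matrix.vecCons (f₂ n u) (fun i => p i n u)) := by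
        funext i
        refine Fin.cases rfl (Fin.cases rfl (fun i => rfl)) i
      rw [e]
      exact hn u hu)
  exact h

theorem recDef_app3P {m r : ℕ} {K : ℕ → (Fin (r + 3) → ℕ) → Prop} {C' : ℕ → (Fin m → ℕ) → Prop}
    {G : ℕ → ℕ → ℕ → ℕ → (Fin r → ℕ) → Prop}
    (hG : NUP (r + 3) K (fun n w => G n (w 0) (w 1) (w 2) (fun i => w i.succ.succ.succ)))
    {f₁ f₂ f₃ : ℕ → (Fin m → ℕ) → ℕ} (h₁ : NUF m C' f₁) (h₂ : NUF m C' f₂) (h₃ : NUF m C' f₃)
    {p : Fin r → ℕ → (Fin m → ℕ) → ℕ} (hp : ∀ i, NUF m C' (p i))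
    (hK : ∀ᶠ n in atTop, ∀ u, C' n u → K n (Matrix.vecCons (f₁ n u) (Matrix.vecCons (f₂ n u)
      (Matrix.vecCons (f₃ n u) (fun i => p i n u))))) :
    NUP m C' (fun n u => G n (f₁ n u) (f₂ n u) (f₃ n u) (fun i => p i n u)) := by
  have h := NUP.subst (r := m) (C := C') hG
    (h := Matrix.vecCons f₁ (Matrix.vecCons f₂ (Matrix.vecCons f₃ (fun i n w => p i n w))))
    (by
      refine Fin.cases ?_ (Fin.cases ?_ (Fin.cases ?_ (fun i => ?_)))
      · exact h₁
      · exact h₂
      · exact h₃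
      · exact hp i)
    (by
      filter_upwards [hK] with n hn u hu
      have e : (fun i => Matrix.vecCons f₁ (Matrix.vecCons f₂ (Matrix.vecCons f₃
          (fun i n w => p i n w))) i n u) =
          Matrix.vecCons (f₁ n u) (Matrix.vecCons (f₂ n u) (Matrix.vecCons (f₃ n u)
            (fun i => p i n u))) := by
        funext i
        refine Fin.cases rfl (Fin.cases rfl (Fin.cases rfl (fun i => rfl))) i
      rw [e]
      exact hn u hu)
  exact h

/-- weakening by projections -/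
theorem recDef_wkF {m r : ℕ} {C : ℕ → (Fin r → ℕ) → Prop} {f : ℕ → (Fin r → ℕ) → ℕ}
    (hf : NUF r C f) {C' : ℕ → (Fin m → ℕ) → Prop} (σ : Fin r → Fin m)
    (hC : ∀ᶠ n in atTop, ∀ w, C' n w → C n (fun i => w (σ i))) :
    NUF m C' (fun n w => f n (fun i => w (σ i))) :=
  NUF.comp hf (h := fun i _ w => w (σ i)) (fun i => NUF.proj (σ i)) hC

variable {r : ℕ} {C : ℕ → (Fin r → ℕ) → Prop} {q ℓ : ℕ → ℕ}

theorem recDef_polyq (hB : Base q ℓ) : PolyB q := by
  refine hB.poly.mono ?_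
  filter_upwards [hB.prime] with n hn
  exact Nat.le_self_pow (by omega) _

theorem recDef_polyl (hB : Base q ℓ) : PolyB ℓ := by
  refine (recDef_polyq hB).mono ?_
  filter_upwards [hB.lt] with n hn
  exact hn.le

theorem recDef_block (hB : Base q ℓ) {G : ℕ → ℕ → ℕ → (Fin r → ℕ) → ℕ}
    (hG : NUF (r + 2) (fun n w => C n (fun i => w i.succ.succ) ∧ w 1 < q n)
      (fun n w => G n (w 0) (w 1) (fun i => w i.succ.succ)))
    (hGq : ∀ᶠ n in atTop, ∀ v, C n v → ∀ s a, G n s a v < q n) (j : ℕ) :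
    NUP (r + 3) (fun n w => C n (fun i => w i.succ.succ.succ) ∧ w 1 < q n ∧ w 2 < q n)
      (fun n w => recDefIt (fun s a => G n s a (fun i => w i.succ.succ.succ)) (w 0) (ℓ n ^ j)
        (w 1) = w 2) := by
  induction j with
  | zero =>
    simp only [pow_zero, recDefIt, Nat.add_zero]
    refine NUP.eqFun ?_ (NUF.proj 2)
    exact recDef_app2F hG (NUF.proj 0) (NUF.proj 1)
      (p := fun i _ w => w i.succ.succ.succ) (fun i => NUF.proj _)
      (Eventually.of_forall fun n w hw => ⟨hw.1, hw.2.1⟩)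
  | succ j ih =>
    have hpoly : PolyB (fun n => q n ^ (ℓ n + 1)) := hB.poly
    refine NUP.congr (P := fun n w => ∃ c, c < q n ^ (ℓ n + 1) ∧ (dig (q n) c 0 = w 1 ∧
      dig (q n) c (ℓ n) = w 2 ∧ ∀ i, i < ℓ n →
        recDefIt (fun s a => G n s a (fun i => w i.succ.succ.succ)) (w 0 + i * ℓ n ^ j) (ℓ n ^ j)
          (dig (q n) c i) = dig (q n) c (i + 1))) ?_ ?_
    · refine NUP.bex (B := fun n _ => q n ^ (ℓ n + 1)) (NUF.param hpoly)
        (R := fun n c w => (dig (q n) c 0 = w 1 ∧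
          dig (q n) c (ℓ n) = w 2 ∧ ∀ i, i < ℓ n →
          recDefIt (fun s a => G n s a (fun i => w i.succ.succ.succ)) (w 0 + i * ℓ n ^ j) (ℓ n ^ j)
            (dig (q n) c i) = dig (q n) c (i + 1))) ?_
      refine NUP.and ?_ (NUP.and ?_ ?_)
      · refine NUP.eqFun ?_ (NUF.proj (Fin.succ 1))
        exact Base.digF hB (NUF.proj 0) (NUF.const 0)
          (Eventually.of_forall fun n w _ => Nat.zero_le _)
      · refine NUP.eqFun ?_ (NUF.proj (Fin.succ 2))
        exact Base.digF hB (NUF.proj 0) (NUF.param (recDef_polyl hB))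
          (Eventually.of_forall fun n w _ => le_rfl)
      · refine NUP.ball (B := fun n _ => ℓ n) (NUF.param (recDef_polyl hB))
          (R := fun n i w => recDefIt (fun s a => G n s a (fun i => w i.succ.succ.succ.succ))
            (w (Fin.succ 0) + i * ℓ n ^ j) (ℓ n ^ j)
            (dig (q n) (w 0) i) = dig (q n) (w 0) (i + 1)) ?_
        have hd1 : NUF (r + 5) (fun n w => (C n (fun i => w i.succ.succ.succ.succ.succ)) ∧
            w 0 < ℓ n) (fun n w => dig (q n) (w 1) (w 0)) :=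
          Base.digF hB (NUF.proj 1) (NUF.proj 0)
            (Eventually.of_forall fun n w hw => hw.2.le)
        have hd2 : NUF (r + 5) (fun n w => (C n (fun i => w i.succ.succ.succ.succ.succ)) ∧
            w 0 < ℓ n) (fun n w => dig (q n) (w 1) (w 0 + 1)) :=
          Base.digF hB (NUF.proj 1) (NUF.add (NUF.proj 0) (NUF.const 1))
            (Eventually.of_forall fun n w hw => hw.2)
        have hs : NUF (r + 5) (fun n w => (C n (fun i => w i.succ.succ.succ.succ.succ)) ∧
            w 0 < ℓ n) (fun n w => w 2 + w 0 * ℓ n ^ j) :=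
          NUF.add (NUF.proj 2) (NUF.mul (NUF.proj 0) (NUF.param ((recDef_polyl hB).pow j)))
        have hmain := recDef_app3P (G := fun n s a b v =>
          recDefIt (fun s a => G n s a v) s (ℓ n ^ j) a = b) ih hs hd1 hd2
          (p := fun i _ w => w i.succ.succ.succ.succ.succ) (fun i => NUF.proj _)
          (by
            filter_upwards [hB.prime] with n hn w hw
            exact ⟨hw.1, dig_lt hn.pos _ _, dig_lt hn.pos _ _⟩)
        refine NUP.mono hmain ?_
        exact Eventually.of_forall fun n w hw => ⟨hw.1.1.1, hw.2⟩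
    · filter_upwards [hGq] with n hn w hw
      have e : ℓ n ^ (j + 1) = ℓ n * ℓ n ^ j := by ring
      rw [e]
      exact recDefIt_code (fun s a => hn _ hw.1 s a) hw.2.1 _ _ _

/-- recursion of length `≤ ℓ ^ J` with values `< q` -/
theorem Base.recF (hB : Base q ℓ) (J : ℕ) {L A : ℕ → (Fin r → ℕ) → ℕ} (hL : NUF r C L)
    (hLb : ∀ᶠ n in atTop, ∀ v, C n v → L n v ≤ ℓ n ^ J) (hA : NUF r C A)
    {H : ℕ → ℕ → ℕ → (Fin r → ℕ) → ℕ}
    (hH : NUF (r + 2) (fun n w => C n (fun i => w i.succ.succ) ∧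
        w 0 < L n (fun i => w i.succ.succ) ∧ w 1 < q n)
      (fun n w => H n (w 0) (w 1) (fun i => w i.succ.succ)))
    {f : ℕ → ℕ → (Fin r → ℕ) → ℕ} (hf0 : ∀ᶠ n in atTop, ∀ v, C n v → f n 0 v = A n v)
    (hf1 : ∀ᶠ n in atTop, ∀ v, C n v → ∀ j < L n v, f n (j + 1) v = H n j (f n j v) v)
    (hfq : ∀ᶠ n in atTop, ∀ v, C n v → ∀ j ≤ L n v, f n j v < q n) :
    NUF r C (fun n v => f n (L n v) v) := by
  set G : ℕ → ℕ → ℕ → (Fin r → ℕ) → ℕ := fun n s a v =>
    (if s < L n v then H n s a v else a) % q n with hGdef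
  have hG : NUF (r + 2) (fun n w => C n (fun i => w i.succ.succ) ∧ w 1 < q n)
      (fun n w => G n (w 0) (w 1) (fun i => w i.succ.succ)) := by
    simp only [hGdef]
    refine NUF.mod ?_ (NUF.param (recDef_polyq hB))
    refine NUF.iteOn ?_ ?_ (NUF.proj 1)
    · exact NUP.ltFun (NUF.proj 0) (recDef_wkF hL (fun i => i.succ.succ)
        (Eventually.of_forall fun n w hw => hw.1))
    · exact NUF.mono hH (Eventually.of_forall fun n w hw => ⟨hw.1.1, hw.2, hw.1.2⟩)
  have hGq : ∀ᶠ n in atTop, ∀ v, C n v → ∀ s a, G n s a v < q n := by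
    filter_upwards [hB.prime] with n hn v _ s a
    exact Nat.mod_lt _ hn.pos
  refine NUF.ofGraph (B := fun n _ => q n) (NUF.param (recDef_polyq hB)) ?_ ?_
  · filter_upwards [hfq] with n hn v hv
    exact hn v hv _ le_rfl
  · have h := recDef_app3P (G := fun n s a b v =>
      recDefIt (fun s a => G n s a v) s (ℓ n ^ J) a = b) (recDef_block hB hG hGq J)
      (C' := fun n w => C n (fun i => w i.succ) ∧ w 0 < q n) (NUF.const 0)
      (recDef_wkF hA (fun i => Fin.succ i) (Eventually.of_forall fun n w hw => hw.1))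
      (NUF.proj 0) (p := fun i _ w => w i.succ) (fun i => NUF.proj _)
      (by
        filter_upwards [hf0, hfq] with n h0 hq w hw
        refine ⟨hw.1, ?_, hw.2⟩
        have h1 := hq _ hw.1 0 (Nat.zero_le _)
        rw [h0 _ hw.1] at h1
        exact h1)
    refine NUP.congr h ?_
    filter_upwards [hf0, hf1, hfq, hLb] with n h0 h1 h2 h3 w hw
    set v : Fin r → ℕ := fun i => w i.succ with hv
    have h0 := h0 v hw.1
    have h1 := h1 v hw.1
    have h2 := h2 v hw.1
    have h3 := h3 v hw.1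
    have key : ∀ k ≤ L n v, recDefIt (fun s a => G n s a v) 0 k (A n v) = f n k v := by
      intro k
      induction k with
      | zero => intro _; exact h0.symm
      | succ k ih =>
        intro hk
        simp only [recDefIt, Nat.zero_add]
        rw [ih (by omega)]
        simp only [hGdef]
        rw [if_pos (by omega), ← h1 k (by omega), Nat.mod_eq_of_lt (h2 _ hk)]
    have key2 : ∀ k, recDefIt (fun s a => G n s a v) 0 (L n v + k) (A n v) = f n (L n v) v := by
      intro k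
      induction k with
      | zero => exact key _ le_rfl
      | succ k ih =>
        rw [← Nat.add_assoc]
        simp only [recDefIt, Nat.zero_add]
        rw [ih]
        simp only [hGdef]
        rw [if_neg (by omega), Nat.mod_eq_of_lt (h2 _ le_rfl)]
    obtain ⟨k, hk⟩ := Nat.exists_eq_add_of_le h3
    constructor
    · intro hw0
      show recDefIt (fun s a => G n s a v) 0 (ℓ n ^ J) (A n v) = w 0
      rw [hk, key2, hw0]
    · intro hw0
      have hw1 : recDefIt (fun s a => G n s a v) 0 (ℓ n ^ J) (A n v) = w 0 := hw0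
      rw [hk, key2] at hw1
      exact hw1.symm

/-! ### bases -/

theorem recDef_pow_log (n : ℕ) (hn : 1 ≤ n) :
    (lg n + 2) ^ (Nat.sqrt (lg n) + 2) ≤ (n + 2) ^ 18 := by
  set k := lg n with hk
  set s := Nat.sqrt k with hs
  have h1 : k < (s + 1) * (s + 1) := Nat.lt_succ_sqrt k
  have h2 : s * s ≤ k := Nat.sqrt_le k
  have h3 : s ≤ k := Nat.sqrt_le_self k
  have h4 : k + 2 ≤ (s + 2) ^ 2 := by nlinarith
  have h5 : s + 2 ≤ 2 ^ (s + 2) := Nat.lt_two_pow_self.le
  have h6 : 2 ^ k ≤ n := by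
    rw [hk, lg]
    exact Nat.pow_log_le_self 2 (by omega)
  calc (k + 2) ^ (s + 2) ≤ ((2 ^ (s + 2)) ^ 2) ^ (s + 2) := by
        apply Nat.pow_le_pow_left
        exact h4.trans (Nat.pow_le_pow_left h5 2)
    _ = 2 ^ (2 * ((s + 2) * (s + 2))) := by
        rw [← pow_mul, ← pow_mul]
        congr 1
        ring
    _ ≤ 2 ^ (10 * k + 8) := by
        apply Nat.pow_le_pow_right (by norm_num)
        nlinarith
    _ = (2 ^ k) ^ 10 * 2 ^ 8 := by
        rw [pow_add, ← pow_mul]
        congr 2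
        ring
    _ ≤ (n + 2) ^ 10 * (n + 2) ^ 8 := by
        apply Nat.mul_le_mul
        · exact Nat.pow_le_pow_left (by omega) _
        · exact Nat.pow_le_pow_left (by omega) _
    _ = (n + 2) ^ 18 := by rw [← pow_add]

theorem exists_base (A : ℕ) : ∃ q ℓ : ℕ → ℕ, Base q ℓ ∧ (∀ᶠ n in atTop, lg n ^ A < q n) ∧
    (∀ᶠ n in atTop, lg n ≤ ℓ n ^ 2) := by
  have hex : ∀ n, ∃ p, Nat.Prime p ∧ lg n ^ A + lg n + 2 < p ∧ p ≤ 2 * (lg n ^ A + lg n + 2) :=
    fun n => Nat.exists_prime_lt_and_le_two_mul _ (by omega)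
  choose q hq1 hq2 hq3 using hex
  refine ⟨q, fun n => Nat.sqrt (lg n) + 1, ⟨?_, ?_, ?_⟩, ?_, ?_⟩
  · exact Eventually.of_forall hq1
  · refine Eventually.of_forall fun n => ?_
    have h1 := hq2 n
    have h2 := Nat.sqrt_le_self (lg n)
    have h3 : 0 ≤ lg n ^ A := Nat.zero_le _
    show Nat.sqrt (lg n) + 1 < q n
    omega
  · refine ⟨18 * (A + 3), ?_⟩
    filter_upwards [eventually_ge_atTop 1] with n hn
    have h1 := hq3 n
    have h2 : q n ≤ (lg n + 2) ^ (A + 3) := by
      refine h1.trans ?_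
      set k := lg n
      have h3 : k ^ A ≤ (k + 2) ^ A := Nat.pow_le_pow_left (by omega) A
      have h4 : 1 ≤ (k + 2) ^ A := Nat.one_le_pow _ _ (by omega)
      have h5 : (k + 2) ^ (A + 3) = (k + 2) ^ A * (k + 2) ^ 3 := pow_add _ _ _
      have h6 : (k + 2) ^ 3 = k ^ 3 + 6 * k ^ 2 + 12 * k + 8 := by ring
      rw [h5, h6]
      nlinarith [Nat.zero_le (k ^ 3), Nat.zero_le (k ^ 2),
        Nat.mul_le_mul h4 (show 6 + 2 * k ≤ k ^ 3 + 6 * k ^ 2 + 12 * k + 6 by nlinarith [Nat.zero_le (k ^ 3), Nat.zero_le (k ^ 2)])]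
    calc q n ^ (Nat.sqrt (lg n) + 1 + 1) ≤ ((lg n + 2) ^ (A + 3)) ^ (Nat.sqrt (lg n) + 2) :=
          Nat.pow_le_pow_left h2 _
      _ = ((lg n + 2) ^ (Nat.sqrt (lg n) + 2)) ^ (A + 3) := by
          rw [← pow_mul, ← pow_mul]
          congr 1
          ring
      _ ≤ ((n + 2) ^ 18) ^ (A + 3) := Nat.pow_le_pow_left (recDef_pow_log n hn) _
      _ = (n + 2) ^ (18 * (A + 3)) := by rw [← pow_mul]
  · refine Eventually.of_forall fun n => ?_
    have h1 := hq2 n
    omega
  · refine Eventually.of_forall fun n => ?_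
    have h1 : lg n < (Nat.sqrt (lg n) + 1) * (Nat.sqrt (lg n) + 1) := Nat.lt_succ_sqrt _
    show lg n ≤ (Nat.sqrt (lg n) + 1) ^ 2
    nlinarith

theorem recDef_polylg (A : ℕ) : PolyB (fun n => lg n ^ A) := by
  have h : PolyB lg := by
    refine PolyB.id.mono ?_
    filter_upwards [eventually_ge_atTop 1] with n hn
    exact Nat.log_le_self 2 n
  exact h.pow A

/-- recursion of polylogarithmic length with polylogarithmic values -/
theorem NUF.recLog (A J : ℕ) {L A₀ : ℕ → (Fin r → ℕ) → ℕ} (hL : NUF r C L)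
    (hLb : ∀ᶠ n in atTop, ∀ v, C n v → L n v ≤ lg n ^ J) (hA : NUF r C A₀)
    {H : ℕ → ℕ → ℕ → (Fin r → ℕ) → ℕ}
    (hH : NUF (r + 2) (fun n w => C n (fun i => w i.succ.succ) ∧
        w 0 < L n (fun i => w i.succ.succ) ∧ w 1 ≤ lg n ^ A)
      (fun n w => H n (w 0) (w 1) (fun i => w i.succ.succ)))
    {f : ℕ → ℕ → (Fin r → ℕ) → ℕ} (hf0 : ∀ᶠ n in atTop, ∀ v, C n v → f n 0 v = A₀ n v)
    (hf1 : ∀ᶠ n in atTop, ∀ v, C n v → ∀ j < L n v, f n (j + 1) v = H n j (f n j v) v)
    (hfq : ∀ᶠ n in atTop, ∀ v, C n v → ∀ j ≤ L n v, f n j v ≤ lg n ^ A) :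
    NUF r C (fun n v => f n (L n v) v) := by
  obtain ⟨q, ℓ, hB, hq, hl⟩ := exists_base A
  refine Base.recF hB (2 * J) hL ?_ hA (H := fun n s a v => if a ≤ lg n ^ A then H n s a v else 0)
    ?_ hf0 ?_ ?_
  · filter_upwards [hLb, hl] with n h1 h2 v hv
    refine (h1 v hv).trans ?_
    rw [pow_mul]
    exact Nat.pow_le_pow_left h2 J
  · refine NUF.iteOn ?_ ?_ (NUF.const 0)
    · exact NUP.leFun (NUF.proj 1) (NUF.param (recDef_polylg A))
    · exact NUF.mono hH (Eventually.of_forall fun n w hw => ⟨hw.1.1, hw.1.2.1, hw.2⟩)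
  · filter_upwards [hf1, hfq] with n h1 h2 v hv j hj
    rw [if_pos (h2 v hv j hj.le)]
    exact h1 v hv j hj
  · filter_upwards [hfq, hq] with n h1 h2 v hv j hj
    exact lt_of_le_of_lt (h1 v hv j hj) h2

/-- counting polylogarithmically many objects -/
theorem NUF.count (J : ℕ) {U : ℕ → (Fin r → ℕ) → ℕ} (hU : NUF r C U)
    (hUb : ∀ᶠ n in atTop, ∀ v, C n v → U n v ≤ lg n ^ J) {θ : ℕ → ℕ → (Fin r → ℕ) → Prop}
    (hθ : NUP (r + 1) (fun n w => C n (fun i => w i.succ) ∧ w 0 < U n (fun i => w i.succ))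
      (fun n w => θ n (w 0) (fun i => w i.succ))) :
    NUF r C (fun n v => #{j ∈ range (U n v) | θ n j v}) := by
  refine NUF.recLog J J hU hUb (NUF.const 0) (H := fun n s a v => if θ n s v then a + 1 else a)
    (f := fun n j v => #{i ∈ range j | θ n i v}) ?_ ?_ ?_ ?_
  · refine NUF.ite ?_ (NUF.add (NUF.proj 1) (NUF.const 1)) (NUF.proj 1)
    exact recDef_app1P hθ (NUF.proj 0) (p := fun i _ w => w i.succ.succ) (fun i => NUF.proj _)
      (Eventually.of_forall fun n w hw => ⟨hw.1, hw.2.1⟩)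
  · exact Eventually.of_forall fun n v _ => by simp
  · refine Eventually.of_forall fun n v _ j _ => ?_
    show #{i ∈ range (j + 1) | θ n i v} = if θ n j v then #{i ∈ range j | θ n i v} + 1 else
      #{i ∈ range j | θ n i v}
    rw [range_add_one, filter_insert]
    split_ifs with h
    · rw [card_insert_of_notMem (by simp)]
    · rfl
  · filter_upwards [hUb] with n h1 v hv j hj
    exact (card_filter_le _ _).trans (by rw [card_range]; exact hj.trans (h1 v hv))

/-- sums of polylogarithmically many numbers modulo a polylogarithmic number -/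
theorem NUF.sumMod (A J : ℕ) {p : ℕ → ℕ} (hp0 : ∀ᶠ n in atTop, 0 < p n)
    (hp : ∀ᶠ n in atTop, p n ≤ lg n ^ A) {U : ℕ → (Fin r → ℕ) → ℕ} (hU : NUF r C U)
    (hUb : ∀ᶠ n in atTop, ∀ v, C n v → U n v ≤ lg n ^ J) {g : ℕ → ℕ → (Fin r → ℕ) → ℕ}
    (hg : NUF (r + 1) (fun n w => C n (fun i => w i.succ) ∧ w 0 < U n (fun i => w i.succ))
      (fun n w => g n (w 0) (fun i => w i.succ))) :
    NUF r C (fun n v => (∑ j ∈ range (U n v), g n j v) % p n) := by
  have hpp : PolyB p := (recDef_polylg A).mono hp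
  refine NUF.recLog A J hU hUb (NUF.const 0) (H := fun n s a v => (a + g n s v) % p n)
    (f := fun n j v => (∑ i ∈ range j, g n i v) % p n) ?_ ?_ ?_ ?_
  · refine NUF.mod (NUF.add (NUF.proj 1) ?_) (NUF.param hpp)
    exact recDef_app1F hg (NUF.proj 0) (p := fun i _ w => w i.succ.succ) (fun i => NUF.proj _)
      (Eventually.of_forall fun n w hw => ⟨hw.1, hw.2.1⟩)
  · exact Eventually.of_forall fun n v _ => by simp
  · refine Eventually.of_forall fun n v _ j _ => ?_
    show (∑ i ∈ range (j + 1), g n i v) % p n = ((∑ i ∈ range j, g n i v) % p n + g n j v) % p n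
    rw [sum_range_succ, Nat.mod_add_mod]
  · filter_upwards [hp0, hp] with n h0 h1 v hv j hj
    exact (Nat.mod_lt _ h0).le.trans h1

theorem NUF.powMod (A J : ℕ) {p : ℕ → ℕ} (hp0 : ∀ᶠ n in atTop, 0 < p n)
    (hp : ∀ᶠ n in atTop, p n ≤ lg n ^ A) {X E : ℕ → (Fin r → ℕ) → ℕ} (hX : NUF r C X)
    (hE : NUF r C E) (hEb : ∀ᶠ n in atTop, ∀ v, C n v → E n v ≤ lg n ^ J) :
    NUF r C (fun n v => X n v ^ E n v % p n) := by
  have hpp : PolyB p := (recDef_polylg A).mono hp
  refine NUF.recLog A J hE hEb (A₀ := fun n _ => 1 % p n)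
    (NUF.mod (NUF.const 1) (NUF.param hpp)) (H := fun n _ a v => a * X n v % p n)
    (f := fun n j v => X n v ^ j % p n) ?_ ?_ ?_ ?_
  · refine NUF.mod (NUF.mul (NUF.proj 1) ?_) (NUF.param hpp)
    exact recDef_wkF hX (fun i => i.succ.succ) (Eventually.of_forall fun n w hw => hw.1)
  · exact Eventually.of_forall fun n v _ => by simp
  · refine Eventually.of_forall fun n v _ j _ => ?_
    show X n v ^ (j + 1) % p n = (X n v ^ j % p n) * X n v % p n
    rw [pow_succ, Nat.mod_mul_mod]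
  · filter_upwards [hp0, hp] with n h0 h1 v hv j hj
    exact (Nat.mod_lt _ h0).le.trans h1

end GB3

end Pool.Agent.GAvg
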