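import Mathlib
import Pool.Agent.GAvg.Defs
import Pool.Agent.Grz.Iter
import Pool.Agent.Grz.Matrices

/-!
# Closure properties of Grzegorczyk's class E2
-/

set_option autoImplicit false

namespace Pool.Agent.Grz

open Finset Pool.Agent.GAvg
open scoped Classical

/-! ### Boolean combinations and substitutions -/

theorem E2Star.or {n : ℕ} {P Q : (Fin n → ℕ) → Prop} (hP : E2Star n P) (hQ : E2Star n Q) :
    E2Star n (fun v => P v ∨ Q v) := by
  refine ((hP.not.and hQ.not).not).of_iff ?_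
  intro v
  tauto

theorem E2Star.imp {n : ℕ} {P Q : (Fin n → ℕ) → Prop} (hP : E2Star n P) (hQ : E2Star n Q) :
    E2Star n (fun v => P v → Q v) := by
  refine (hP.not.or hQ).of_iff ?_
  intro v
  tauto

theorem E2Star.iff {n : ℕ} {P Q : (Fin n → ℕ) → Prop} (hP : E2Star n P) (hQ : E2Star n Q) :
    E2Star n (fun v => P v ↔ Q v) := by
  refine ((hP.imp hQ).and (hQ.imp hP)).of_iff ?_
  intro v
  tauto

/-- substitution of functions into a predicate -/
theorem E2Star.subst {m n : ℕ} {P : (Fin m → ℕ) → Prop} (hP : E2Star m P)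
    {h : Fin m → (Fin n → ℕ) → ℕ} (hh : ∀ i, E2 n (h i)) :
    E2Star n (fun v => P (fun i => h i v)) := by
  obtain ⟨χ, hχ, hs⟩ := hP
  exact ⟨fun v => χ (fun i => h i v), hχ.comp hh, fun v => hs _⟩

/-- substitution of a function for the first variable of a predicate -/
theorem E2Star.substFirst {n : ℕ} {P : ℕ → (Fin n → ℕ) → Prop}
    (hP : E2Star (n + 1) (fun w => P (w 0) (fun i => w i.succ)))
    {f : (Fin n → ℕ) → ℕ} (hf : E2 n f) : E2Star n (fun v => P (f v) v) := by
  have := hP.subst (n := n) (h := Fin.cons f (fun i v => v i)) (by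
    intro i
    refine Fin.cases ?_ (fun j => ?_) i
    · exact hf
    · exact E2.proj j)
  simpa using this

theorem E2Star.weak {n : ℕ} {P : (Fin n → ℕ) → Prop} (hP : E2Star n P) :
    E2Star (n + 1) (fun w => P (fun i => w i.succ)) :=
  hP.subst (h := fun i w => w i.succ) (fun i => E2.proj i.succ)

/-- insertion of a variable after the first one -/
theorem E2.weakSnd {n : ℕ} {f : ℕ → (Fin n → ℕ) → ℕ}
    (hf : E2 (n + 1) (fun w => f (w 0) (fun i => w i.succ))) :
    E2 (n + 2) (fun u => f (u 0) (fun i => u i.succ.succ)) := by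
  have := hf.comp (n := n + 2) (hs := Fin.cons (fun u => u 0) (fun i u => u i.succ.succ)) (by
    intro i
    refine Fin.cases ?_ (fun j => ?_) i
    · exact E2.proj 0
    · exact E2.proj _)
  refine this.congr ?_
  intro v
  simp

theorem E2Star.weakSnd {n : ℕ} {P : ℕ → (Fin n → ℕ) → Prop}
    (hP : E2Star (n + 1) (fun w => P (w 0) (fun i => w i.succ))) :
    E2Star (n + 2) (fun u => P (u 0) (fun i => u i.succ.succ)) := by
  have := hP.subst (n := n + 2) (h := Fin.cons (fun u => u 0) (fun i u => u i.succ.succ)) (by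
    intro i
    refine Fin.cases ?_ (fun j => ?_) i
    · exact E2.proj 0
    · exact E2.proj _)
  refine this.of_iff ?_
  intro v
  simp

/-! ### Definition by cases, minimum, division -/

theorem E2.ite {n : ℕ} {P : (Fin n → ℕ) → Prop} (hP : E2Star n P) {f g : (Fin n → ℕ) → ℕ}
    (hf : E2 n f) (hg : E2 n g) : E2 n (fun v => if P v then f v else g v) := by
  obtain ⟨χ, hχ, hs⟩ := hP
  refine ((((E2.const 1).sub hχ).mul hf).add (hχ.mul hg)).congr ?_
  intro v
  by_cases h : P v
  · rw [if_pos h, (hs v).1 h]; simp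
  · rw [if_neg h, (hs v).2 h]; simp

theorem E2.min {n : ℕ} {f g : (Fin n → ℕ) → ℕ} (hf : E2 n f) (hg : E2 n g) :
    E2 n (fun v => Nat.min (f v) (g v)) := by
  refine (hf.sub (hf.sub hg)).congr ?_
  intro v
  rcases le_total (f v) (g v) with h | h
  · rw [show Nat.min (f v) (g v) = f v from Nat.min_eq_left h]; omega
  · rw [show Nat.min (f v) (g v) = g v from Nat.min_eq_right h]; omega

theorem E2.max {n : ℕ} {f g : (Fin n → ℕ) → ℕ} (hf : E2 n f) (hg : E2 n g) :
    E2 n (fun v => Nat.max (f v) (g v)) := by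
  refine (hf.add (hg.sub hf)).congr ?_
  intro v
  rcases le_total (f v) (g v) with h | h
  · rw [show Nat.max (f v) (g v) = g v from Nat.max_eq_right h]; omega
  · rw [show Nat.max (f v) (g v) = f v from Nat.max_eq_left h]; omega

theorem E2.div {n : ℕ} {f g : (Fin n → ℕ) → ℕ} (hf : E2 n f) (hg : E2 n g) :
    E2 n (fun v => f v / g v) := by
  refine E2.ofGraph (b := f) hf (fun v => Nat.div_le_self _ _) ?_
  have h0 : E2 (n + 1) (fun w => w 0) := E2.proj 0
  refine (((E2Star.eqFun hg.weak (E2.const 0)).and (E2Star.eqFun h0 (E2.const 0))).or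
    ((E2Star.ltFun (E2.const 0) hg.weak).and ((E2Star.leFun (h0.mul hg.weak) hf.weak).and
      (E2Star.ltFun hf.weak ((h0.add (E2.const 1)).mul hg.weak))))).of_iff ?_
  intro w
  generalize f (fun i => w i.succ) = a
  generalize g (fun i => w i.succ) = c
  generalize w 0 = q
  rcases Nat.eq_zero_or_pos c with hc | hc
  · subst hc
    simp
  · constructor
    · rintro rfl
      refine Or.inr ⟨hc, Nat.div_mul_le_self a c, ?_⟩
      exact (Nat.div_lt_iff_lt_mul hc).mp (Nat.lt_succ_self _)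
    · rintro (⟨h1, _⟩ | ⟨_, h1, h2⟩)
      · omega
      · refine le_antisymm ((Nat.le_div_iff_mul_le hc).mpr h1) ?_
        exact Nat.lt_succ_iff.mp ((Nat.div_lt_iff_lt_mul hc).mpr h2)

theorem E2.mod {n : ℕ} {f g : (Fin n → ℕ) → ℕ} (hf : E2 n f) (hg : E2 n g) :
    E2 n (fun v => f v % g v) := by
  refine (hf.sub (hg.mul (hf.div hg))).congr ?_
  intro v
  have := Nat.div_add_mod (f v) (g v)
  omega

theorem E2Star.odd {n : ℕ} {f : (Fin n → ℕ) → ℕ} (hf : E2 n f) :
    E2Star n (fun v => Odd (f v)) := by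
  refine (E2Star.eqFun (hf.mod (E2.const 2)) (E2.const 1)).of_iff ?_
  intro v
  exact Nat.odd_iff

theorem E2Star.dvd {n : ℕ} {f g : (Fin n → ℕ) → ℕ} (hf : E2 n f) (hg : E2 n g) :
    E2Star n (fun v => f v ∣ g v) := by
  refine (E2Star.eqFun (hg.mod hf) (E2.const 0)).of_iff ?_
  intro v
  exact Nat.dvd_iff_mod_eq_zero

/-! ### Sums, products and counting -/

/-- An `E2` function of `(x, v)` is bounded by an `E2` function which is monotone in `x`. -/
theorem E2.bounded_mono {n : ℕ} {f : ℕ → (Fin n → ℕ) → ℕ}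
    (hf : E2 (n + 1) (fun w => f (w 0) (fun i => w i.succ))) :
    ∃ g : ℕ → (Fin n → ℕ) → ℕ, E2 (n + 1) (fun w => g (w 0) (fun i => w i.succ)) ∧
      ∀ x y v, x ≤ y → f x v ≤ g y v := by
  obtain ⟨p, hp⟩ := hf.bounded
  refine ⟨fun x v => MvPolynomial.eval (Fin.cons x v : Fin (n + 1) → ℕ) p, ?_, ?_⟩
  · refine (E2.evalPoly p).congr ?_
    intro w
    dsimp only
    congr 2
    funext i
    refine Fin.cases ?_ (fun j => ?_) i <;> simp
  · intro x y v hxy
    have h1 := hp (Fin.cons x v : Fin (n + 1) → ℕ)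
    simp only [Fin.cons_zero, Fin.cons_succ] at h1
    refine h1.trans (eval_mono p ?_)
    intro i
    refine Fin.cases ?_ (fun j => ?_) i
    · simpa using hxy
    · simp

theorem E2.sumRange {n : ℕ} {b : (Fin n → ℕ) → ℕ} {f : ℕ → (Fin n → ℕ) → ℕ} (hb : E2 n b)
    (hf : E2 (n + 1) (fun w => f (w 0) (fun i => w i.succ))) :
    E2 n (fun v => ∑ x ∈ range (b v), f x v) := by
  obtain ⟨g, hg, hfg⟩ := hf.bounded_mono
  have hE : E2 (n + 1) (fun w => (fun y v => ∑ x ∈ range y, f x v) (w 0) (fun i => w i.succ)) := by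
    refine E2.rec' (G := fun _ => 0) (H := fun z y v => z + f y v)
      (B := fun y v => y * g y v) (F := fun y v => ∑ x ∈ range y, f x v) (E2.zero n) ?_ ((E2.proj 0).mul hg) ?_ ?_ ?_
    · refine (E2.proj 0).add ?_
      exact hf.weak
    · intro y v
      calc ∑ x ∈ range y, f x v ≤ ∑ x ∈ range y, g y v :=
            Finset.sum_le_sum fun x hx => hfg x y v (Finset.mem_range.mp hx).le
        _ = y * g y v := by simp
    · intro v; simp
    · intro y v
      simp only [Finset.sum_range_succ]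
  exact E2.substFirst (F := fun y v => ∑ x ∈ range y, f x v) hE hb

/-- products modulo a positive modulus -/
theorem E2.prodMod {n : ℕ} {b c : (Fin n → ℕ) → ℕ} {f : ℕ → (Fin n → ℕ) → ℕ} (hb : E2 n b)
    (hc : E2 n c) (hc0 : ∀ v, 0 < c v)
    (hf : E2 (n + 1) (fun w => f (w 0) (fun i => w i.succ))) :
    E2 n (fun v => (∏ x ∈ range (b v), f x v) % c v) := by
  have hE : E2 (n + 1)
      (fun w => (fun y v => (∏ x ∈ range y, f x v) % c v) (w 0) (fun i => w i.succ)) := by
    refine E2.rec' (G := fun v => 1 % c v) (H := fun z y v => (z * f y v) % c v)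
      (B := fun _ v => c v) (F := fun y v => (∏ x ∈ range y, f x v) % c v) ((E2.const 1).mod hc) ?_ hc.weak ?_ ?_ ?_
    · exact ((E2.proj 0).mul hf.weak).mod hc.weak.weak
    · intro y v
      exact (Nat.mod_lt _ (hc0 v)).le
    · intro v; simp
    · intro y v
      simp only [Finset.prod_range_succ, Nat.mod_mul_mod]
  exact E2.substFirst (F := fun y v => (∏ x ∈ range y, f x v) % c v) hE hb

/-- products modulo a modulus (with the value `0` for the modulus `0`) -/
theorem E2.prodMod0 {n : ℕ} {b c : (Fin n → ℕ) → ℕ} {f : ℕ → (Fin n → ℕ) → ℕ} (hb : E2 n b)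
    (hc : E2 n c) (hf : E2 (n + 1) (fun w => f (w 0) (fun i => w i.succ))) :
    E2 n (fun v => if c v = 0 then 0 else (∏ x ∈ range (b v), f x v) % c v) := by
  have h1 := E2.prodMod hb (hc.max (E2.const 1))
    (fun v => lt_of_lt_of_le Nat.one_pos (Nat.le_max_right (c v) 1)) hf
  refine (E2.ite (E2Star.eqFun hc (E2.const 0)) (E2.const 0) h1).congr ?_
  intro v
  by_cases h : c v = 0
  · simp [h]
  · rw [if_neg h, if_neg h]
    have : Nat.max (c v) 1 = c v := Nat.max_eq_left (Nat.one_le_iff_ne_zero.mpr h)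
    rw [this]

theorem E2.countRange {n : ℕ} {b : (Fin n → ℕ) → ℕ} {P : ℕ → (Fin n → ℕ) → Prop} (hb : E2 n b)
    (hP : E2Star (n + 1) (fun w => P (w 0) (fun i => w i.succ))) :
    E2 n (fun v => #{x ∈ range (b v) | P x v}) := by
  have h1 : E2 (n + 1) (fun w => (fun x v => if P x v then 1 else 0) (w 0)
      (fun i => w i.succ)) := E2.ite hP (E2.const 1) (E2.const 0)
  refine (E2.sumRange (f := fun x v => if P x v then 1 else 0) hb h1).congr ?_
  intro v
  rw [Finset.card_filter]

/-- bounded minimisation -/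
theorem E2.least {n : ℕ} {b : (Fin n → ℕ) → ℕ} {P : ℕ → (Fin n → ℕ) → Prop} (hb : E2 n b)
    (hP : E2Star (n + 1) (fun w => P (w 0) (fun i => w i.succ)))
    (hex : ∀ v, ∃ x, x ≤ b v ∧ P x v) :
    E2 n (fun v => Nat.find (p := fun x => P x v) ⟨_, (hex v).choose_spec.2⟩) := by
  refine E2.ofGraph (b := b) hb (fun v => ?_) ?_
  · obtain ⟨x, hx, hPx⟩ := hex v
    exact (Nat.find_min' _ hPx).trans hx
  · have h1 : E2Star (n + 1) (fun w => ∀ x, x ≤ w 0 → (x < w 0 → ¬ P x (fun i => w i.succ))) := by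
      refine E2Star.ball (P := fun x w => x < w 0 → ¬ P x (fun i => w i.succ)) (E2.proj 0) ?_
      refine (E2Star.ltFun (E2.proj 0) (E2.proj 1)).imp ?_
      exact (E2Star.weakSnd hP).not
    refine (hP.and h1).of_iff ?_
    intro w
    rw [eq_comm, Nat.find_eq_iff]
    constructor
    · rintro ⟨h2, h3⟩
      exact ⟨h2, fun x _ hx => h3 x hx⟩
    · rintro ⟨h2, h3⟩
      exact ⟨h2, fun x hx => h3 x hx.le hx⟩

/-! ### Powers, logarithm, digits -/

/-- powers with a polynomial bound -/
theorem E2.powBdd {n : ℕ} {b e B : (Fin n → ℕ) → ℕ} (hb : E2 n b) (he : E2 n e) (hB : E2 n B)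
    (h : ∀ v, b v ^ e v ≤ B v) : E2 n (fun v => b v ^ e v) := by
  have hE : E2 (n + 1)
      (fun w => (fun y v => Nat.min (b v ^ y) (B v)) (w 0) (fun i => w i.succ)) := by
    refine E2.rec' (G := fun v => Nat.min 1 (B v)) (H := fun z _ v => Nat.min (z * b v) (B v))
      (B := fun _ v => B v) (F := fun y v => Nat.min (b v ^ y) (B v)) ((E2.const 1).min hB) ?_ hB.weak ?_ ?_ ?_
    · exact ((E2.proj 0).mul hb.weak.weak).min hB.weak.weak
    · intro y v
      exact Nat.min_le_right _ _
    · intro v; simp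
    · intro y v
      rcases Nat.eq_zero_or_pos (b v) with h0 | h0
      · simp [h0]
      · rcases le_total (b v ^ y) (B v) with h1 | h1
        · rw [show Nat.min (b v ^ y) (B v) = b v ^ y from Nat.min_eq_left h1, pow_succ]
        · have h2 : B v ≤ b v ^ (y + 1) := by
            rw [pow_succ]
            exact h1.trans (Nat.le_mul_of_pos_right _ h0)
          rw [show Nat.min (b v ^ y) (B v) = B v from Nat.min_eq_right h1,
            show Nat.min (b v ^ (y + 1)) (B v) = B v from Nat.min_eq_right h2]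
          exact (Nat.min_eq_right (Nat.le_mul_of_pos_right _ h0)).symm
  refine (E2.substFirst (F := fun y v => Nat.min (b v ^ y) (B v)) hE he).congr ?_
  intro v
  exact (Nat.min_eq_left (h v)).symm

theorem E2.divPow {n : ℕ} {x b e : (Fin n → ℕ) → ℕ} (hx : E2 n x) (hb : E2 n b) (he : E2 n e) :
    E2 n (fun v => x v / b v ^ e v) := by
  have hE : E2 (n + 1) (fun w => (fun y v => x v / b v ^ y) (w 0) (fun i => w i.succ)) := by
    refine E2.rec' (G := x) (H := fun z _ v => z / b v)
      (B := fun _ v => x v) (F := fun y v => x v / b v ^ y) hx ((E2.proj 0).div hb.weak.weak) hx.weak ?_ ?_ ?_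
    · intro y v
      exact Nat.div_le_self _ _
    · intro v; simp
    · intro y v
      rw [pow_succ, Nat.div_div_eq_div_mul]
  exact E2.substFirst (F := fun y v => x v / b v ^ y) hE he

theorem E2.log2 {n : ℕ} {f : (Fin n → ℕ) → ℕ} (hf : E2 n f) : E2 n (fun v => Nat.log 2 (f v)) := by
  refine E2.ofGraph (b := f) hf (fun v => Nat.log_le_self 2 (f v)) ?_
  have h0 : E2 (n + 1) (fun w => w 0) := E2.proj 0
  refine ((E2Star.eqFun (hf.weak.divPow (E2.const 2) (h0.add (E2.const 1))) (E2.const 0)).and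
    ((E2Star.eqFun h0 (E2.const 0)).or
      (E2Star.ltFun (E2.const 0) (hf.weak.divPow (E2.const 2) h0)))).of_iff ?_
  intro w
  generalize f (fun i => w i.succ) = a
  generalize w 0 = q
  rw [Nat.div_eq_zero_iff_lt (by positivity), Nat.div_pos_iff]
  constructor
  · rintro rfl
    refine ⟨Nat.lt_pow_succ_log_self (by norm_num) a, ?_⟩
    rcases Nat.eq_zero_or_pos a with ha | ha
    · left; subst ha; simp
    · right; exact ⟨by positivity, Nat.pow_log_le_self 2 ha.ne'⟩
  · rintro ⟨h1, h2 | ⟨_, h2⟩⟩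
    · subst h2
      symm
      rw [Nat.log_eq_zero_iff]
      left
      simpa using h1
    · symm
      rw [Nat.log_eq_iff]
      · exact ⟨h2, h1⟩
      · right
        refine ⟨by norm_num, ?_⟩
        intro ha
        subst ha
        have : 0 < 2 ^ q := by positivity
        omega

theorem E2.dig {n : ℕ} {b x i : (Fin n → ℕ) → ℕ} (hb : E2 n b) (hx : E2 n x) (hi : E2 n i) :
    E2 n (fun v => dig (b v) (x v) (i v)) :=
  (hx.divPow hb hi).mod hb

theorem E2Star.testBit {n : ℕ} {x i : (Fin n → ℕ) → ℕ} (hx : E2 n x) (hi : E2 n i) :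
    E2Star n (fun v => (x v).testBit (i v) = true) := by
  refine (E2Star.eqFun ((hx.divPow (E2.const 2) hi).mod (E2.const 2)) (E2.const 1)).of_iff ?_
  intro v
  rw [Nat.testBit_eq_decide_div_mod_eq]
  simp

/-! ### Primes -/

theorem E2Star.prime {n : ℕ} {f : (Fin n → ℕ) → ℕ} (hf : E2 n f) :
    E2Star n (fun v => (f v).Prime) := by
  have h1 : E2Star n (fun v => ∀ x, x ≤ f v → (x ∣ f v → x = 1 ∨ x = f v)) := by
    refine E2Star.ball (P := fun x v => x ∣ f v → x = 1 ∨ x = f v) hf ?_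
    exact (E2Star.dvd (E2.proj 0) hf.weak).imp ((E2Star.eqFun (E2.proj 0) (E2.const 1)).or
      (E2Star.eqFun (E2.proj 0) hf.weak))
  refine ((E2Star.leFun (E2.const 2) hf).and h1).of_iff ?_
  intro v
  rw [Nat.prime_def]
  constructor
  · rintro ⟨h2, h3⟩
    exact ⟨h2, fun x _ hx => h3 x hx⟩
  · rintro ⟨h2, h3⟩
    exact ⟨h2, fun x hx => h3 x (Nat.le_of_dvd (by omega) hx) hx⟩

theorem lprime_prime (x : ℕ) : (lprime x).Prime :=
  (Nat.find_spec (Nat.exists_infinite_primes x)).2

theorem le_lprime (x : ℕ) : x ≤ lprime x :=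
  (Nat.find_spec (Nat.exists_infinite_primes x)).1

theorem lprime_le (x : ℕ) (hx : 0 < x) : lprime x ≤ 2 * x := by
  obtain ⟨p, hp, h1, h2⟩ := Nat.exists_prime_lt_and_le_two_mul x hx.ne'
  exact (Nat.find_min' _ ⟨h1.le, hp⟩).trans h2

theorem E2.lprime {n : ℕ} {f : (Fin n → ℕ) → ℕ} (hf : E2 n f) : E2 n (fun v => lprime (f v)) := by
  have hP : E2Star (n + 1) (fun w => (fun x v => f v ≤ x ∧ x.Prime) (w 0) (fun i => w i.succ)) :=
    (E2Star.leFun hf.weak (E2.proj 0)).and (E2Star.prime (E2.proj 0))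
  refine (E2.least (b := fun v => 2 * (f v + 1)) (P := fun x v => f v ≤ x ∧ x.Prime)
    ((E2.const 2).mul (hf.add (E2.const 1))) hP (fun v => ?_)).congr ?_
  · obtain ⟨p, hp, h1, h2⟩ := Nat.exists_prime_lt_and_le_two_mul (f v + 1) (by omega)
    exact ⟨p, h2, by omega, hp⟩
  · intro v
    unfold GAvg.lprime
    congr

end Pool.Agent.Grz
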