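import Mathlib
import Pool.Agent.GAvg.AdvDefs
import Pool.Agent.GAvg.E2Tools

/-!
# Two families in Grzegorczyk's class (package GB7)
-/

set_option autoImplicit false

namespace Pool.Agent.GAvg

open Finset Filter Pool.Agent.Grz
open scoped Classical

theorem FamHad_sqrt {n : ℕ} {f : (Fin n → ℕ) → ℕ} (hf : E2 n f) : E2 n (fun v => Nat.sqrt (f v)) := by
  refine E2.ofGraph (b := f) hf (fun v => Nat.sqrt_le_self _) ?_
  have h0 : E2 (n + 1) (fun w => w 0) := E2.proj 0
  refine ((E2Star.leFun (h0.mul h0) hf.weak).and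
    (E2Star.ltFun hf.weak ((h0.add (E2.const 1)).mul (h0.add (E2.const 1))))).of_iff ?_
  intro w
  rw [Nat.eq_sqrt]

theorem FamHad_tt {n : ℕ} {f : (Fin n → ℕ) → ℕ} (hf : E2 n f) : E2 n (fun v => tt (f v)) :=
  (FamHad_sqrt hf.log2).add (E2.const 1)

theorem FamHad_two_pow_tt (n : ℕ) : 2 ^ tt n ≤ 2 * (n + 1) := by
  have h1 : tt n ≤ Nat.log 2 n + 1 := Nat.add_le_add_right (Nat.sqrt_le_self _) 1
  have h2 : 2 ^ Nat.log 2 n ≤ n + 1 := by
    rcases Nat.eq_zero_or_pos n with h | h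
    · subst h; simp
    · exact (Nat.pow_log_le_self 2 h.ne').trans (Nat.le_succ n)
  calc 2 ^ tt n ≤ 2 ^ (Nat.log 2 n + 1) := Nat.pow_le_pow_right (by norm_num) h1
    _ = 2 * 2 ^ Nat.log 2 n := by rw [pow_succ, mul_comm]
    _ ≤ 2 * (n + 1) := Nat.mul_le_mul_left _ h2

theorem FamHad_star2 {F : ℕ → ℕ → Prop} {n : ℕ} (h : E2Star 2 (fun v => F (v 0) (v 1)))
    {f g : (Fin n → ℕ) → ℕ} (hf : E2 n f) (hg : E2 n g) : E2Star n (fun v => F (f v) (g v)) := by
  have := h.subst (n := n) (h := ![f, g]) (by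
    intro i
    fin_cases i
    · exact hf
    · exact hg)
  simpa using this

theorem FamHad_pow {n : ℕ} {f : (Fin n → ℕ) → ℕ} (hf : E2 n f) (t : ℕ) : E2 n (fun v => f v ^ t) := by
  induction t with
  | zero => simpa using E2.const (n := n) 1
  | succ t ih => exact (ih.mul hf).congr fun v => pow_succ _ _

theorem fam_had {F : ℕ → ℕ → Prop} {D : ℕ → ℕ} (h : Fam F D) :
    Fam (fun n w => had (F n) (lprime (D n + n + 2)) (tt n) (w % lprime (D n + n + 2))
        (w / lprime (D n + n + 2) % lprime (D n + n + 2))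
        (w / lprime (D n + n + 2) / lprime (D n + n + 2)))
      (fun n => lprime (D n + n + 2) ^ 2 * 2 ^ tt n) where
  star := by
    have hn : E2 2 (fun v => v 0) := E2.proj 0
    have hw : E2 2 (fun v => v 1) := E2.proj 1
    have hM : E2 2 (fun v => lprime (D (v 0) + v 0 + 2)) :=
      (((E2.comp1 (g := D) h.dom hn).add hn).add (E2.const 2)).lprime
    have hx := hw.mod hM
    have hr := (hw.div hM).mod hM
    have hs := (hw.div hM).div hM
    have h0 : E2 3 (fun v => v 0) := E2.proj 0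
    refine (E2Star.odd (E2.countRange (FamHad_tt hn) (P := fun i v =>
      (v 1 / lprime (D (v 0) + v 0 + 2) / lprime (D (v 0) + v 0 + 2)).testBit i = true ∧
        F (v 0) ((v 1 % lprime (D (v 0) + v 0 + 2) + i *
          (v 1 / lprime (D (v 0) + v 0 + 2) % lprime (D (v 0) + v 0 + 2))) %
            lprime (D (v 0) + v 0 + 2))) ?_)).of_iff fun v => ?_
    · exact (E2Star.testBit hs.weak h0).and
        (FamHad_star2 h.star hn.weak ((hx.weak.add (h0.mul hr.weak)).mod hM.weak))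
    · unfold had
      congr!
  dom := by
    have hn : E2 1 (fun v => v 0) := E2.proj 0
    have hM : E2 1 (fun v => lprime (D (v 0) + v 0 + 2)) :=
      ((h.dom.add hn).add (E2.const 2)).lprime
    refine (FamHad_pow hM 2).mul (E2.powBdd (E2.const 2) (FamHad_tt hn)
      ((E2.const 2).mul (hn.add (E2.const 1))) fun v => FamHad_two_pow_tt _)
  le := by
    intro n
    have h1 : n ≤ lprime (D n + n + 2) := le_trans (by omega) (le_lprime _)
    calc n ≤ lprime (D n + n + 2) := h1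
      _ ≤ lprime (D n + n + 2) ^ 2 := Nat.le_self_pow (by norm_num) _
      _ ≤ lprime (D n + n + 2) ^ 2 * 2 ^ tt n := Nat.le_mul_of_pos_right _ (by positivity)
  poly := by
    obtain ⟨d, hd⟩ := h.poly
    refine ⟨2 * (d + 3) + 2, fun n => ?_⟩
    have hN : 2 ≤ n + 2 := by omega
    have h1 : lprime (D n + n + 2) ≤ (n + 2) ^ (d + 3) := by
      have h3 : 1 ≤ (n + 2) ^ d := Nat.one_le_pow _ _ (by omega)
      calc lprime (D n + n + 2) ≤ 2 * (D n + n + 2) := lprime_le _ (by omega)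
        _ ≤ 2 * ((n + 2) ^ d + (n + 2)) := by have := hd n; omega
        _ ≤ 2 * ((n + 2) ^ d * (n + 2) + (n + 2) ^ d * (n + 2)) := by
            refine Nat.mul_le_mul_left _ (Nat.add_le_add ?_ ?_)
            · exact Nat.le_mul_of_pos_right _ (by omega)
            · exact Nat.le_mul_of_pos_left _ (by omega)
        _ = 2 * 2 * (n + 2) ^ (d + 1) := by rw [pow_succ]; ring
        _ ≤ (n + 2) * (n + 2) * (n + 2) ^ (d + 1) := Nat.mul_le_mul_right _ (Nat.mul_le_mul hN hN)
        _ = (n + 2) ^ (d + 3) := by ring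
    have h2 : 2 ^ tt n ≤ (n + 2) ^ 2 := by
      refine (FamHad_two_pow_tt n).trans ?_
      nlinarith
    calc lprime (D n + n + 2) ^ 2 * 2 ^ tt n ≤ ((n + 2) ^ (d + 3)) ^ 2 * (n + 2) ^ 2 :=
          Nat.mul_le_mul (Nat.pow_le_pow_left h1 2) h2
      _ = (n + 2) ^ (2 * (d + 3) + 2) := by rw [← pow_mul, ← pow_add, mul_comm (d + 3) 2]

/-- parity of `t` copies, `t` constant -/
theorem fam_parity {F : ℕ → ℕ → Prop} {D : ℕ → ℕ} (h : Fam F D) (t : ℕ) (ht : 0 < t) :
    Fam (fun n w => Odd (#{i : Fin t | F n (dig (D n) w i)})) (fun n => D n ^ t) where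
  star := by
    have hn : E2 2 (fun v => v 0) := E2.proj 0
    have hw : E2 2 (fun v => v 1) := E2.proj 1
    have hD : E2 2 (fun v => D (v 0)) := E2.comp1 (g := D) h.dom hn
    have h0 : E2 3 (fun v => v 0) := E2.proj 0
    have h1 : E2Star 2 (fun v => Odd (#{i ∈ range t | F (v 0) (dig (D (v 0)) (v 1) i)})) := by
      refine E2Star.odd (E2.countRange (E2.const t) (P := fun i v =>
        F (v 0) (dig (D (v 0)) (v 1) i)) ?_)
      exact FamHad_star2 h.star hn.weak (E2.dig hD.weak hw.weak h0)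
    refine h1.of_iff fun v => ?_
    have h2 : #{i : Fin t | F (v 0) (dig (D (v 0)) (v 1) i)} =
        #{i ∈ range t | F (v 0) (dig (D (v 0)) (v 1) i)} := by
      rw [card_filter, card_filter,
        ← Fin.sum_univ_eq_sum_range (fun i => if F (v 0) (dig (D (v 0)) (v 1) i) then 1 else 0)]
    rw [h2]
  dom := FamHad_pow h.dom t
  le := fun n => (h.le n).trans (Nat.le_self_pow ht.ne' _)
  poly := by
    obtain ⟨d, hd⟩ := h.poly
    exact ⟨d * t, fun n => by rw [pow_mul]; exact Nat.pow_le_pow_left (hd n) t⟩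

end Pool.Agent.GAvg
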