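import Mathlib
import Pool.Agent.GAvg.AdvQ
import Pool.Agent.GAvg.DigDef
import Pool.Agent.GAvg.RecDef

/-!
# MP_a56640_lc GB4: vectors, walks and the formula of the dense / sparse alternative

The vectors (`vadd`, `embed`), the walks (`pos`) and the formula `∃ g ∀ ω ∃ i ∃ l` are given by
non-uniform bounded formulas.
-/

set_option autoImplicit false

namespace Pool.Agent.GAvg

open Finset Filter Pool.Agent.Grz
open scoped Classical

section GB4

variable {r : ℕ} {C : ℕ → (Fin r → ℕ) → Prop} {q h m ℓ ℓ' : ℕ → ℕ}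

private theorem Geo_base_polyB (hB : Base q ℓ) : PolyB q := by
  refine hB.poly.mono ?_
  filter_upwards [hB.prime] with n hn
  calc q n = q n ^ 1 := (pow_one _).symm
    _ ≤ q n ^ (ℓ n + 1) := Nat.pow_le_pow_right hn.pos (by omega)

private theorem Geo_len_polyB (hB : Base q ℓ) : PolyB ℓ := by
  refine (Geo_base_polyB hB).mono ?_
  filter_upwards [hB.lt] with n hn
  exact hn.le

private theorem Geo_m_polyB (hB : Base q ℓ) (hm : ∀ᶠ n in atTop, m n ≤ ℓ n) : PolyB m :=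
  (Geo_len_polyB hB).mono hm

theorem vaddF (hB : Base q ℓ) (hm : ∀ᶠ n in atTop, m n ≤ ℓ n) {Y T R : ℕ → (Fin r → ℕ) → ℕ}
    (hY : NUF r C Y) (hT : NUF r C T) (hR : NUF r C R) :
    NUF r C (fun n v => vadd (q n) (m n) (Y n v) (T n v) (R n v)) := by
  have hq := Geo_base_polyB hB
  have hI : NUF (r + 1) (fun n w => C n (fun i => w i.succ) ∧ w 0 < m n)
      (fun _ w => w 0) := NUF.proj 0
  have hIb : ∀ᶠ n in atTop, ∀ w : Fin (r + 1) → ℕ, (C n (fun i => w i.succ) ∧ w 0 < m n) →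
      w 0 ≤ ℓ n := by
    filter_upwards [hm] with n hn w hw
    exact hw.2.le.trans hn
  have h1 := hB.digF (hY.weak (B := fun n w => w 0 < m n)) hI hIb
  have h2 := hB.digF (hR.weak (B := fun n w => w 0 < m n)) hI hIb
  have h3 := ((h1.add ((hT.weak (B := fun n w => w 0 < m n)).mul h2)).mod (NUF.param hq))
  refine hB.sumF (m := m) (d := fun n i v => (dig (q n) (Y n v) i + T n v * dig (q n) (R n v) i)
    % q n) ?_ h3 ?_
  · filter_upwards [hm] with n hn
    omega
  · filter_upwards [hB.prime] with n hn v _ i _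
    exact Nat.mod_lt _ hn.pos

theorem embedF (hB : Base q ℓ) (hB' : Base h ℓ') (hm : ∀ᶠ n in atTop, m n ≤ ℓ n)
    (hm' : ∀ᶠ n in atTop, m n ≤ ℓ' n) (hhq : ∀ᶠ n in atTop, h n ≤ q n)
    {X : ℕ → (Fin r → ℕ) → ℕ} (hX : NUF r C X) :
    NUF r C (fun n v => embed (q n) (h n) (m n) (X n v)) := by
  have hI : NUF (r + 1) (fun n w => C n (fun i => w i.succ) ∧ w 0 < m n)
      (fun _ w => w 0) := NUF.proj 0
  have hIb : ∀ᶠ n in atTop, ∀ w : Fin (r + 1) → ℕ, (C n (fun i => w i.succ) ∧ w 0 < m n) →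
      w 0 ≤ ℓ' n := by
    filter_upwards [hm'] with n hn w hw
    exact hw.2.le.trans hn
  have h1 := hB'.digF (hX.weak (B := fun n w => w 0 < m n)) hI hIb
  refine hB.sumF (m := m) (d := fun n i v => dig (h n) (X n v) i) ?_ h1 ?_
  · filter_upwards [hm] with n hn
    omega
  · filter_upwards [hB'.prime, hhq] with n hn hn' v _ i _
    exact lt_of_lt_of_le (dig_lt hn.pos _ _) hn'

private theorem Geo_sum_mod (Q L j : ℕ) (a : ℕ) (f g : ℕ → ℕ) :
    (a + ∑ i ∈ range L, f i * g i ^ j) % Q =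
      (a + (∑ i ∈ range L, f i * (g i ^ j % Q)) % Q) % Q := by
  have h1 : (∑ i ∈ range L, f i * (g i ^ j % Q)) % Q = (∑ i ∈ range L, f i * g i ^ j) % Q := by
    rw [Finset.sum_nat_mod, Finset.sum_nat_mod (range L) Q (fun i => f i * g i ^ j)]
    congr 1
    refine Finset.sum_congr rfl fun i _ => ?_
    rw [Nat.mul_mod, Nat.mod_mod, ← Nat.mul_mod]
  rw [h1, Nat.add_mod_mod]

theorem posF (hB : Base q ℓ) (hm : ∀ᶠ n in atTop, 3 * m n ≤ ℓ n) (A : ℕ)
    (hqA : ∀ᶠ n in atTop, q n ≤ lg n ^ A) (hmA : ∀ᶠ n in atTop, m n ≤ lg n ^ A)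
    {Ω L : ℕ → (Fin r → ℕ) → ℕ} (hΩ : NUF r C Ω) (hL : NUF r C L)
    (hLb : ∀ᶠ n in atTop, ∀ v, C n v → L n v ≤ m n) :
    NUF r C (fun n v => pos (q n) (m n) (Ω n v) (L n v)) := by
  have hq := Geo_base_polyB hB
  have hm1 : ∀ᶠ n in atTop, m n ≤ ℓ n := by
    filter_upwards [hm] with n hn
    omega
  have hmP : PolyB m := Geo_m_polyB hB hm1
  have hq0 : ∀ᶠ n in atTop, 0 < q n := by
    filter_upwards [hB.prime] with n hn
    exact hn.pos
  -- the digits of the position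
  have hd : NUF (r + 1) (fun n w => C n (fun i => w i.succ) ∧ w 0 < m n)
      (fun n w => posDig (q n) (m n) (Ω n (fun i => w i.succ)) (L n (fun i => w i.succ)) (w 0)) := by
    have hI : NUF (r + 1) (fun n w => C n (fun i => w i.succ) ∧ w 0 < m n)
        (fun _ w => w 0) := NUF.proj 0
    have hIb : ∀ᶠ n in atTop, ∀ w : Fin (r + 1) → ℕ, (C n (fun i => w i.succ) ∧ w 0 < m n) →
        w 0 ≤ ℓ n := by
      filter_upwards [hm1] with n hn w hw
      exact hw.2.le.trans hn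
    have hΩw := hΩ.weak (B := fun n w => w 0 < m n)
    have hLw := hL.weak (B := fun n w => w 0 < m n)
    have h1 := hB.digF hΩw hI hIb
    -- the terms of the sum
    have hΩww := hΩw.weak (B := fun n w => w 0 < L n (fun i => w i.succ.succ))
    have hIw : NUF (r + 2) (fun n w => ((C n (fun i => w i.succ.succ) ∧ w 1 < m n) ∧
        w 0 < L n (fun i => w i.succ.succ))) (fun n w => w 0) := NUF.proj 0
    have hJw : NUF (r + 2) (fun n w => ((C n (fun i => w i.succ.succ) ∧ w 1 < m n) ∧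
        w 0 < L n (fun i => w i.succ.succ))) (fun n w => w 1) := NUF.proj 1
    have hE1 : NUF (r + 2) (fun n w => ((C n (fun i => w i.succ.succ) ∧ w 1 < m n) ∧
        w 0 < L n (fun i => w i.succ.succ))) (fun n w => m n + 2 * w 0) :=
      (NUF.param hmP).add ((NUF.const 2).mul hIw)
    have hE2 : NUF (r + 2) (fun n w => ((C n (fun i => w i.succ.succ) ∧ w 1 < m n) ∧
        w 0 < L n (fun i => w i.succ.succ))) (fun n w => m n + 2 * w 0 + 1) :=
      hE1.add (NUF.const 1)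
    have hb1 : ∀ᶠ n in atTop, ∀ w : Fin (r + 2) → ℕ, ((C n (fun i => w i.succ.succ) ∧ w 1 < m n) ∧
        w 0 < L n (fun i => w i.succ.succ)) → m n + 2 * w 0 ≤ ℓ n := by
      filter_upwards [hm, hLb] with n hn hn' w hw
      have := hn' _ hw.1.1
      have := hw.2
      omega
    have hb2 : ∀ᶠ n in atTop, ∀ w : Fin (r + 2) → ℕ, ((C n (fun i => w i.succ.succ) ∧ w 1 < m n) ∧
        w 0 < L n (fun i => w i.succ.succ)) → m n + 2 * w 0 + 1 ≤ ℓ n := by
      filter_upwards [hm, hLb] with n hn hn' w hw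
      have := hn' _ hw.1.1
      have := hw.2
      omega
    have h2 := hB.digF hΩww hE1 hb1
    have h3 := hB.digF hΩww hE2 hb2
    have h4 := NUF.powMod A A hq0 hqA h3 hJw (by
      filter_upwards [hmA] with n hn w hw
      exact hw.1.2.le.trans hn)
    have h5 := h2.mul h4
    have h6 := NUF.sumMod (r := r + 1) (C := fun n w => C n (fun i => w i.succ) ∧ w 0 < m n) A A hq0
      hqA hLw (by
      filter_upwards [hmA, hLb] with n hn hn' w hw
      exact (hn' _ hw.1).trans hn)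
      (g := fun n i w => dig (q n) (Ω n (fun i => w i.succ)) (m n + 2 * i) *
        (dig (q n) (Ω n (fun i => w i.succ)) (m n + 2 * i + 1) ^ w 0 % q n)) h5
    refine ((h1.add h6).mod (NUF.param hq)).congr ?_
    filter_upwards with n w _
    exact Geo_sum_mod _ _ _ _ _ _
  refine hB.sumF (m := m) (d := fun n j v => posDig (q n) (m n) (Ω n v) (L n v) j) ?_ hd ?_
  · filter_upwards [hm1] with n hn
    omega
  · filter_upwards [hB.prime] with n hn v _ i _
    exact Nat.mod_lt _ hn.pos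

private theorem Geo_pos_lt {Q M ω l : ℕ} (hQ : 0 < Q) : pos Q M ω l < Q ^ M :=
  sum_lt hQ _ fun _ _ => Nat.mod_lt _ hQ

/-- the formula for the dense / sparse alternative -/
theorem amF (hB : Base q ℓ) (hm : ∀ᶠ n in atTop, 3 * m n ≤ ℓ n) (A : ℕ)
    (hqA : ∀ᶠ n in atTop, q n ≤ lg n ^ A) (hmA : ∀ᶠ n in atTop, m n ≤ lg n ^ A)
    {W : ℕ → ℕ → (Fin r → ℕ) → Prop}
    (hW : NUP (r + 1) (fun n w => C n (fun i => w i.succ) ∧ w 0 < q n ^ m n)
      (fun n w => W n (w 0) (fun i => w i.succ))) :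
    NUP r C (fun n v => ∃ g : Fin 7 → ℕ, (∀ i, g i < q n ^ (3 * m n)) ∧
      ∀ ω < q n ^ (3 * m n), ∃ i, ∃ l ≤ m n,
        W n (pos (q n) (m n) ((ω + g i) % q n ^ (3 * m n)) l) v) := by
  have hq := Geo_base_polyB hB
  have hm1 : ∀ᶠ n in atTop, m n ≤ ℓ n := by
    filter_upwards [hm] with n hn
    omega
  have hmP : PolyB m := Geo_m_polyB hB hm1
  have hZ : PolyB (fun n => q n ^ (3 * m n)) := by
    refine hB.poly.mono ?_
    filter_upwards [hB.prime, hm] with n hn hn'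
    exact Nat.pow_le_pow_right hn.pos (by omega)
  have hZ7 : PolyB (fun n => (q n ^ (3 * m n)) ^ 7) := hZ.pow 7
  -- the formula with one number instead of seven
  have key : NUP r C (fun n v => ∃ G, G < (q n ^ (3 * m n)) ^ 7 ∧
      ∀ ω, ω < q n ^ (3 * m n) → ∃ i : Fin 7, ∃ l, l < m n + 1 ∧
        W n (pos (q n) (m n) ((ω + dig (q n ^ (3 * m n)) G i) % q n ^ (3 * m n)) l) v) := by
    refine NUP.bex (NUF.param hZ7) (R := fun n G v => ∀ ω, ω < q n ^ (3 * m n) →
      ∃ i : Fin 7, ∃ l, l < m n + 1 ∧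
        W n (pos (q n) (m n) ((ω + dig (q n ^ (3 * m n)) G i) % q n ^ (3 * m n)) l) v) ?_
    refine NUP.ball (NUF.param hZ) (R := fun n ω w => ∃ i : Fin 7, ∃ l, l < m n + 1 ∧
        W n (pos (q n) (m n) ((ω + dig (q n ^ (3 * m n)) (w 0) i) % q n ^ (3 * m n)) l)
          (fun i => w i.succ)) ?_
    refine NUP.finEx fun i => ?_
    refine NUP.bex ((NUF.param hmP).add (NUF.const 1)) (R := fun n l w =>
        W n (pos (q n) (m n) ((w 0 + dig (q n ^ (3 * m n)) (w 1) i) % q n ^ (3 * m n)) l)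
          (fun i => w i.succ.succ)) ?_
    -- the position
    have hp : NUF (r + 1 + 1 + 1) (fun n w => ((C n (fun i => w i.succ.succ.succ) ∧
        w 2 < (q n ^ (3 * m n)) ^ 7) ∧ w 1 < q n ^ (3 * m n)) ∧ w 0 < m n + 1)
        (fun n w => pos (q n) (m n)
          ((w 1 + dig (q n ^ (3 * m n)) (w 2) i) % q n ^ (3 * m n)) (w 0)) := by
      refine posF hB hm A hqA hmA ?_ (NUF.proj 0) ?_
      · refine NUF.mod (NUF.add (NUF.proj 1) ?_) (NUF.param hZ)
        refine NUF.mod (NUF.div (NUF.proj 2) ?_) (NUF.param hZ)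
        exact NUF.param (hZ.pow i)
      · filter_upwards with n w hw
        exact Nat.lt_succ_iff.mp hw.2
    refine NUP.subst hW (h := Fin.cons (fun n w => pos (q n) (m n)
          ((w 1 + dig (q n ^ (3 * m n)) (w 2) i) % q n ^ (3 * m n)) (w 0))
          (fun i _ w => w i.succ.succ.succ)) ?_ ?_
    · intro j
      refine Fin.cases ?_ (fun j => ?_) j
      · exact hp
      · exact NUF.proj _
    · filter_upwards [hB.prime] with n hn w hw
      exact ⟨hw.1.1.1, Geo_pos_lt hn.pos⟩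
  refine key.congr ?_
  filter_upwards [hB.prime] with n hn v _
  have hZ0 : 0 < q n ^ (3 * m n) := pow_pos hn.pos _
  constructor
  · rintro ⟨g, hg, hω⟩
    refine ⟨∑ i ∈ range 7, (if hi : i < 7 then g ⟨i, hi⟩ else 0) * (q n ^ (3 * m n)) ^ i,
      sum_lt hZ0 _ fun i hi => ?_, fun ω hω' => ?_⟩
    · rw [dif_pos hi]
      exact hg _
    · obtain ⟨i, l, hl, hW'⟩ := hω ω hω'
      refine ⟨i, l, Nat.lt_succ_iff.mpr hl, ?_⟩
      rw [dig_sum hZ0 _ (fun j hj => by rw [dif_pos hj]; exact hg _) i.2, dif_pos i.2]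
      exact hW'
  · rintro ⟨G, -, hω⟩
    refine ⟨fun i => dig (q n ^ (3 * m n)) G i, fun i => dig_lt hZ0 _ _, fun ω hω' => ?_⟩
    obtain ⟨i, l, hl, hW'⟩ := hω ω hω'
    exact ⟨i, l, Nat.lt_succ_iff.mp hl, hW'⟩

end GB4

end Pool.Agent.GAvg
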