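import Mathlib
import Pool.Agent.GAvg.Defs

/-!
# Extension of low degree: nonvanishing and decoding along lines (package GA3)
-/

set_option autoImplicit false

namespace Pool.Agent.GAvg

open Finset
open scoped Classical

theorem Lde_dig_lt {b : ℕ} (hb : 0 < b) (x i : ℕ) : dig b x i < b := Nat.mod_lt _ hb

theorem Lde_mod_eq (b x m : ℕ) : x % b ^ m = ∑ i ∈ range m, dig b x i * b ^ i := by
  induction m with
  | zero => simp [Nat.mod_one]
  | succ m ih => rw [sum_range_succ, ← ih, Nat.mod_pow_succ, dig, mul_comm]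

theorem Lde_eq_of_dig {b m x z : ℕ} (hx : x < b ^ m) (hz : z < b ^ m)
    (h : ∀ i < m, dig b x i = dig b z i) : x = z := by
  rw [← Nat.mod_eq_of_lt hx, ← Nat.mod_eq_of_lt hz, Lde_mod_eq, Lde_mod_eq]
  exact sum_congr rfl fun i hi => by rw [h i (mem_range.1 hi)]

theorem Lde_sum_lt {q m : ℕ} (d : ℕ → ℕ) (hd : ∀ i < m, d i < q) : ∑ i ∈ range m, d i * q ^ i < q ^ m := by
  induction m with
  | zero => simp
  | succ m ih =>
    rw [sum_range_succ]
    have h1 := ih fun i hi => hd i (by omega)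
    have h2 : d m + 1 ≤ q := hd m (by omega)
    calc ∑ i ∈ range m, d i * q ^ i + d m * q ^ m < q ^ m + d m * q ^ m := by omega
      _ = (d m + 1) * q ^ m := by ring
      _ ≤ q * q ^ m := Nat.mul_le_mul_right _ h2
      _ = q ^ (m + 1) := by ring

theorem Lde_dig_sum {q m : ℕ} (hq : 0 < q) (d : ℕ → ℕ) (hd : ∀ i < m, d i < q) {j : ℕ} (hj : j < m) :
    dig q (∑ i ∈ range m, d i * q ^ i) j = d j := by
  induction m with
  | zero => omega
  | succ m ih =>
    have h1 := Lde_sum_lt (m := m) d fun i hi => hd i (by omega)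
    rw [sum_range_succ]
    rcases Nat.lt_succ_iff_lt_or_eq.1 hj with h | h
    · rw [← ih (fun i hi => hd i (by omega)) h, dig, dig]
      have h2 : d m * q ^ m = q ^ j * (q * (d m * q ^ (m - j - 1))) := by
        have : q ^ m = q ^ j * (q * q ^ (m - j - 1)) := by
          rw [← pow_succ', ← pow_add]
          congr 1
          omega
        rw [this]
        ring
      rw [h2, Nat.add_mul_div_left _ _ (by positivity), Nat.add_mul_mod_self_left]
    · subst h
      rw [dig, Nat.add_mul_div_right _ _ (by positivity), Nat.div_eq_of_lt h1, zero_add,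
        Nat.mod_eq_of_lt (hd j (by omega))]

theorem Lde_embed_lt {q h m x : ℕ} (hh0 : 0 < h) (hh : h ≤ q) : embed q h m x < q ^ m :=
  Lde_sum_lt _ fun i _ => lt_of_lt_of_le (Lde_dig_lt hh0 x i) hh

theorem Lde_dig_embed {q h m x : ℕ} (hh0 : 0 < h) (hh : h ≤ q) {j : ℕ} (hj : j < m) :
    dig q (embed q h m x) j = dig h x j :=
  Lde_dig_sum (lt_of_lt_of_le hh0 hh) _ (fun i _ => lt_of_lt_of_le (Lde_dig_lt hh0 x i) hh) hj

theorem Lde_vadd_lt {q m y t r : ℕ} (hq : 0 < q) : vadd q m y t r < q ^ m :=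
  Lde_sum_lt _ fun _ _ => Nat.mod_lt _ hq

theorem Lde_dig_vadd {q m y t r : ℕ} (hq : 0 < q) {j : ℕ} (hj : j < m) :
    dig q (vadd q m y t r) j = (dig q y j + t * dig q r j) % q :=
  Lde_dig_sum hq _ (fun _ _ => Nat.mod_lt _ hq) hj

theorem Lde_vadd_zero {q m y r : ℕ} (hq : 0 < q) (hy : y < q ^ m) : vadd q m y 0 r = y := by
  refine Lde_eq_of_dig (Lde_vadd_lt hq) hy fun i hi => ?_
  rw [Lde_dig_vadd hq hi, zero_mul, add_zero, Nat.mod_eq_of_lt (Lde_dig_lt hq y i)]

theorem Lde_cast_eq {q a b : ℕ} (ha : a < q) (hb : b < q) (h : (a : ZMod q) = b) : a = b := by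
  rw [ZMod.natCast_eq_natCast_iff'] at h
  rwa [Nat.mod_eq_of_lt ha, Nat.mod_eq_of_lt hb] at h

theorem lde_ne_zero_iff {q h m : ℕ} (hq : q.Prime) (hh0 : 0 < h) (hh : h ≤ q) (S : Finset ℕ)
    (hS : ∀ z ∈ S, z < h ^ m) (x : ℕ) (hx : x < h ^ m) :
    lde q h m S (embed q h m x) ≠ 0 ↔ x ∈ S := by
  have : Fact q.Prime := ⟨hq⟩
  -- the summand of `z` vanishes unless `z = x`
  have hterm : ∀ z, z < h ^ m → ((∏ i ∈ range m, ∏ b ∈ (range h).erase (dig h z i),
      ((dig q (embed q h m x) i : ZMod q) - (b : ZMod q))) ≠ 0 ↔ z = x) := by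
    intro z hz
    rw [prod_ne_zero_iff]
    constructor
    · intro H
      refine Lde_eq_of_dig hz hx fun i hi => ?_
      by_contra hne
      have h1 := H i (mem_range.2 hi)
      rw [prod_ne_zero_iff] at h1
      have h2 := h1 (dig h x i) (mem_erase.2 ⟨fun h => hne h.symm, mem_range.2 (Lde_dig_lt hh0 x i)⟩)
      rw [Lde_dig_embed hh0 hh hi, sub_self] at h2
      exact h2 rfl
    · rintro rfl i hi
      rw [prod_ne_zero_iff]
      intro b hb h0
      obtain ⟨hb1, hb2⟩ := mem_erase.1 hb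
      rw [Lde_dig_embed hh0 hh (mem_range.1 hi), sub_eq_zero] at h0
      exact hb1 (Lde_cast_eq (lt_of_lt_of_le (Lde_dig_lt hh0 z i) hh)
        (lt_of_lt_of_le (mem_range.1 hb2) hh) h0).symm
  have hsum : lde q h m S (embed q h m x) = if x ∈ S then
      (∏ i ∈ range m, ∏ b ∈ (range h).erase (dig h x i),
        ((dig q (embed q h m x) i : ZMod q) - (b : ZMod q))) else 0 := by
    rw [lde]
    split_ifs with hxS
    · rw [sum_eq_single x]
      · intro z hz hzx
        by_contra hne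
        exact hzx ((hterm z (hS z hz)).1 hne)
      · exact fun h => absurd hxS h
    · refine sum_eq_zero fun z hz => ?_
      by_contra hne
      have := (hterm z (hS z hz)).1 hne
      subst this
      exact hxS hz
  rw [hsum]
  split_ifs with hxS
  · exact ⟨fun _ => hxS, fun _ => (hterm x hx).2 rfl⟩
  · exact ⟨fun h => absurd rfl h, fun h => absurd h hxS⟩

theorem Lde_sum_eval {q : ℕ} [Fact q.Prime] (P : Polynomial (ZMod q)) (hP : P.natDegree < q - 1) :
    ∑ t ∈ range q, P.eval (t : ZMod q) = 0 := by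
  have h1 : ∑ t ∈ range q, P.eval (t : ZMod q) = ∑ t : ZMod q, P.eval t := by
    refine sum_nbij' (fun t => (t : ZMod q)) (fun t => t.val) ?_ ?_ ?_ ?_ ?_
    · intro t _
      exact mem_univ _
    · intro t _
      exact mem_range.2 (ZMod.val_lt t)
    · intro t ht
      exact ZMod.val_cast_of_lt (mem_range.1 ht)
    · intro t _
      exact ZMod.natCast_zmod_val t
    · intro t _
      rfl
  rw [h1]
  simp_rw [Polynomial.eval_eq_sum_range]
  rw [sum_comm]
  refine sum_eq_zero fun i hi => ?_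
  rw [← mul_sum, FiniteField.sum_pow_lt_card_sub_one, mul_zero]
  rw [ZMod.card]
  have := mem_range.1 hi
  omega

/-- the values on a line as a polynomial -/
noncomputable def LdePoly (q h m : ℕ) (S : Finset ℕ) (y r : ℕ) : Polynomial (ZMod q) :=
  ∑ z ∈ S, ∏ i ∈ range m, ∏ b ∈ (range h).erase (dig h z i),
    (Polynomial.C (dig q r i : ZMod q) * Polynomial.X +
      Polynomial.C ((dig q y i : ZMod q) - (b : ZMod q)))

theorem LdePoly_natDegree {q h m : ℕ} (hh0 : 0 < h) (S : Finset ℕ) (y r : ℕ) :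
    (LdePoly q h m S y r).natDegree ≤ m * (h - 1) := by
  refine Polynomial.natDegree_sum_le_of_forall_le _ _ fun z _ => ?_
  refine (Polynomial.natDegree_prod_le _ _).trans ?_
  have : ∀ i ∈ range m, (∏ b ∈ (range h).erase (dig h z i),
      (Polynomial.C (dig q r i : ZMod q) * Polynomial.X +
        Polynomial.C ((dig q y i : ZMod q) - (b : ZMod q)))).natDegree ≤ h - 1 := by
    intro i _
    refine (Polynomial.natDegree_prod_le _ _).trans ?_
    refine (sum_le_card_nsmul _ _ 1 fun b _ => Polynomial.natDegree_linear_le).trans ?_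
    rw [card_erase_of_mem (mem_range.2 (Lde_dig_lt hh0 z i)), card_range, smul_eq_mul, mul_one]
  refine (sum_le_card_nsmul _ _ _ this).trans ?_
  rw [card_range, smul_eq_mul]

theorem LdePoly_eval {q h m : ℕ} (hq : 0 < q) (S : Finset ℕ) (y r t : ℕ) :
    (LdePoly q h m S y r).eval (t : ZMod q) = lde q h m S (vadd q m y t r) := by
  rw [LdePoly, Polynomial.eval_finsetSum, lde]
  refine sum_congr rfl fun z _ => ?_
  rw [Polynomial.eval_prod]
  refine prod_congr rfl fun i hi => ?_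
  rw [Polynomial.eval_prod]
  refine prod_congr rfl fun b _ => ?_
  rw [Lde_dig_vadd hq (mem_range.1 hi), ZMod.natCast_mod]
  simp
  ring

theorem Lde_line {q h m : ℕ} (hq : q.Prime) (hh0 : 0 < h) (hh : h ≤ q)
    (hdeg : m * (h - 1) + 1 < q) (S : Finset ℕ) (x r : ℕ) :
    ∑ t ∈ range (q - 1), lde q h m S (vadd q m (embed q h m x) (t + 1) r) =
      - lde q h m S (embed q h m x) := by
  have : Fact q.Prime := ⟨hq⟩
  have h1 := Lde_sum_eval (LdePoly q h m S (embed q h m x) r) (by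
    have := LdePoly_natDegree (q := q) (m := m) hh0 S (embed q h m x) r
    omega)
  simp_rw [LdePoly_eval hq.pos] at h1
  obtain ⟨n, hn⟩ : ∃ n, q = n + 1 := ⟨q - 1, by have := hq.pos; omega⟩
  have h2 : q - 1 = n := by omega
  rw [h2]
  have h3 : range q = range (n + 1) := by rw [hn]
  rw [h3, sum_range_succ', Lde_vadd_zero hq.pos (Lde_embed_lt hh0 hh)] at h1
  exact eq_neg_of_add_eq_zero_left h1

theorem Lde_vadd_inj {q m y t : ℕ} (hq : q.Prime) (ht0 : 0 < t) (htq : t < q) {r r' : ℕ}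
    (hr : r < q ^ m) (hr' : r' < q ^ m) (h : vadd q m y t r = vadd q m y t r') : r = r' := by
  have : Fact q.Prime := ⟨hq⟩
  refine Lde_eq_of_dig hr hr' fun i hi => ?_
  have h1 := congrArg (fun w => dig q w i) h
  simp only [Lde_dig_vadd hq.pos hi] at h1
  have h2 : ((dig q y i + t * dig q r i : ℕ) : ZMod q) = ((dig q y i + t * dig q r' i : ℕ) : ZMod q) :=
    (ZMod.natCast_eq_natCast_iff' _ _ _).2 h1
  push_cast at h2
  have h3 : (t : ZMod q) ≠ 0 := by
    intro h0
    rw [ZMod.natCast_eq_zero_iff] at h0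
    exact absurd (Nat.le_of_dvd ht0 h0) (by omega)
  have h4 := mul_left_cancel₀ h3 (add_left_cancel h2)
  exact Lde_cast_eq (Lde_dig_lt hq.pos _ _) (Lde_dig_lt hq.pos _ _) h4

/-- decoding along lines: `val` agrees with the extension up to a fraction `δ` of the points -/
theorem lde_decode {q h m : ℕ} (hq : q.Prime) (hh0 : 0 < h) (hh : h ≤ q)
    (hdeg : m * (h - 1) + 1 < q) (S : Finset ℕ) (hS : ∀ z ∈ S, z < h ^ m) (val : ℕ → ℕ)
    (δ : ℝ) (hval : (#{y ∈ range (q ^ m) | (val y : ZMod q) ≠ lde q h m S y} : ℝ) ≤ δ * (q : ℝ) ^ m)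
    (x : ℕ) (hx : x < h ^ m) :
    (x ∈ S → (#{r ∈ range (q ^ m) | ¬ (∑ t ∈ range (q - 1),
      val (vadd q m (embed q h m x) (t + 1) r)) % q ≠ 0} : ℝ) ≤ q * δ * (q : ℝ) ^ m) ∧
    (x ∉ S → (#{r ∈ range (q ^ m) | (∑ t ∈ range (q - 1),
      val (vadd q m (embed q h m x) (t + 1) r)) % q ≠ 0} : ℝ) ≤ q * δ * (q : ℝ) ^ m) := by
  have : Fact q.Prime := ⟨hq⟩
  set Bad : Finset ℕ := {y ∈ range (q ^ m) | (val y : ZMod q) ≠ lde q h m S y} with hBad
  set BadR : Finset ℕ := (range (q - 1)).biUnion fun t =>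
    {r ∈ range (q ^ m) | vadd q m (embed q h m x) (t + 1) r ∈ Bad} with hBadR
  have hcard : (#BadR : ℝ) ≤ q * δ * (q : ℝ) ^ m := by
    have h1 : #BadR ≤ (q - 1) * #Bad := by
      refine card_biUnion_le.trans ?_
      refine (sum_le_card_nsmul _ _ (#Bad) fun t ht => ?_).trans (by rw [card_range, smul_eq_mul])
      refine card_le_card_of_injOn (fun r => vadd q m (embed q h m x) (t + 1) r) ?_ ?_
      · intro r hr
        exact (mem_filter.1 hr).2
      · intro r hr r' hr' heq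
        have ht' := mem_range.1 ht
        exact Lde_vadd_inj hq (Nat.succ_pos t) (by omega) (mem_range.1 (mem_filter.1 hr).1)
          (mem_range.1 (mem_filter.1 hr').1) heq
    have h2 : (#BadR : ℝ) ≤ q * #Bad := by
      have : #BadR ≤ q * #Bad := h1.trans (Nat.mul_le_mul_right _ (Nat.sub_le _ _))
      exact_mod_cast this
    calc (#BadR : ℝ) ≤ q * #Bad := h2
      _ ≤ q * (δ * (q : ℝ) ^ m) := mul_le_mul_of_nonneg_left hval (Nat.cast_nonneg _)
      _ = q * δ * (q : ℝ) ^ m := by ring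
  have hgood : ∀ r ∈ range (q ^ m), r ∉ BadR → ((∑ t ∈ range (q - 1),
      val (vadd q m (embed q h m x) (t + 1) r)) % q ≠ 0 ↔ x ∈ S) := by
    intro r hr hrB
    have h1 : ((∑ t ∈ range (q - 1), val (vadd q m (embed q h m x) (t + 1) r) : ℕ) : ZMod q) =
        - lde q h m S (embed q h m x) := by
      rw [← Lde_line hq hh0 hh hdeg S x r, Nat.cast_sum]
      refine sum_congr rfl fun t ht => ?_
      by_contra hne
      refine hrB (mem_biUnion.2 ⟨t, ht, mem_filter.2 ⟨hr, ?_⟩⟩)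
      exact mem_filter.2 ⟨mem_range.2 (Lde_vadd_lt hq.pos), hne⟩
    rw [← lde_ne_zero_iff hq hh0 hh S hS x hx, ← neg_ne_zero, ← h1, Ne, Ne, ZMod.natCast_eq_zero_iff,
      Nat.dvd_iff_mod_eq_zero]
  constructor
  · intro hxS
    refine le_trans ?_ hcard
    refine Nat.cast_le.2 (card_le_card fun r hr => ?_)
    obtain ⟨hr1, hr2⟩ := mem_filter.1 hr
    by_contra hrB
    exact hr2 ((hgood r hr1 hrB).2 hxS)
  · intro hxS
    refine le_trans ?_ hcard
    refine Nat.cast_le.2 (card_le_card fun r hr => ?_)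
    obtain ⟨hr1, hr2⟩ := mem_filter.1 hr
    by_contra hrB
    exact hxS ((hgood r hr1 hrB).1 hr2)

end Pool.Agent.GAvg
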