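import Mathlib
import Pool.Agent.GAvg.AdvDefs
import Pool.Agent.GAvg.E2Tools

/-!
# The family of the extension of low degree is in E2
-/

set_option autoImplicit false

namespace Pool.Agent.GAvg

open Finset Filter Pool.Agent.Grz
open scoped Classical

/-- parameters of the extension of low degree -/
noncomputable def hL (n : ℕ) : ℕ := lprime (lg n + 2)
noncomputable def mL (n : ℕ) : ℕ := Nat.log (hL n) n + 1
noncomputable def qL (n : ℕ) : ℕ := lprime (hL n ^ 5)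

/-! ### Bounds -/

theorem FamLde_hL_prime (n : ℕ) : (hL n).Prime := lprime_prime _

theorem FamLde_qL_prime (n : ℕ) : (qL n).Prime := lprime_prime _

theorem FamLde_two_le_hL (n : ℕ) : 2 ≤ hL n := (FamLde_hL_prime n).two_le

theorem FamLde_hL_pow_le_qL (n : ℕ) : hL n ^ 5 ≤ qL n := le_lprime _

theorem FamLde_hL_le_qL (n : ℕ) : hL n ≤ qL n :=
  (Nat.le_self_pow (by norm_num) _).trans (FamLde_hL_pow_le_qL n)

theorem FamLde_hL_le (n : ℕ) : hL n ≤ 2 * (lg n + 2) := lprime_le _ (by omega)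

theorem FamLde_hL_le_sq (n : ℕ) : hL n ≤ (n + 2) ^ 2 := by
  have h1 := FamLde_hL_le n
  have h2 : lg n ≤ n := Nat.log_le_self 2 n
  nlinarith

theorem FamLde_qL_le (n : ℕ) : qL n ≤ hL n ^ 6 := by
  have h1 : qL n ≤ 2 * hL n ^ 5 := lprime_le _ (by have := FamLde_two_le_hL n; positivity)
  have h2 := FamLde_two_le_hL n
  calc qL n ≤ 2 * hL n ^ 5 := h1
    _ ≤ hL n * hL n ^ 5 := Nat.mul_le_mul_right _ h2
    _ = hL n ^ 6 := by ring

theorem FamLde_lt_hL_pow (n : ℕ) : n < hL n ^ mL n :=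
  Nat.lt_pow_succ_log_self (FamLde_two_le_hL n) n

theorem FamLde_hL_pow_mL_le (n : ℕ) : hL n ^ mL n ≤ hL n * (n + 1) := by
  unfold mL
  rw [pow_succ, mul_comm]
  refine Nat.mul_le_mul_left _ ?_
  rcases Nat.eq_zero_or_pos n with h | h
  · subst h; simp
  · exact (Nat.pow_log_le_self _ h.ne').trans (Nat.le_succ n)

theorem FamLde_qL_pow_le (n : ℕ) : qL n ^ (mL n + 1) ≤ (n + 2) ^ 30 := by
  calc qL n ^ (mL n + 1) ≤ (hL n ^ 6) ^ (mL n + 1) := Nat.pow_le_pow_left (FamLde_qL_le n) _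
    _ = (hL n ^ mL n) ^ 6 * hL n ^ 6 := by ring
    _ ≤ (hL n * (n + 1)) ^ 6 * hL n ^ 6 :=
        Nat.mul_le_mul_right _ (Nat.pow_le_pow_left (FamLde_hL_pow_mL_le n) 6)
    _ ≤ ((n + 2) ^ 2 * (n + 2)) ^ 6 * ((n + 2) ^ 2) ^ 6 := by
        refine Nat.mul_le_mul (Nat.pow_le_pow_left ?_ 6) (Nat.pow_le_pow_left (FamLde_hL_le_sq n) 6)
        exact Nat.mul_le_mul (FamLde_hL_le_sq n) (by omega)
    _ = (n + 2) ^ 30 := by ring

theorem FamLde_le_qL_pow (n : ℕ) : n ≤ qL n ^ (mL n + 1) := by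
  calc n ≤ hL n ^ mL n := (FamLde_lt_hL_pow n).le
    _ ≤ qL n ^ mL n := Nat.pow_le_pow_left (FamLde_hL_le_qL n) _
    _ ≤ qL n ^ (mL n + 1) := Nat.pow_le_pow_right (FamLde_qL_prime n).pos (Nat.le_succ _)

/-! ### The parameters are in E2 -/

private theorem fl_pow {n : ℕ} {f : (Fin n → ℕ) → ℕ} (hf : E2 n f) (k : ℕ) :
    E2 n (fun v => f v ^ k) := by
  induction k with
  | zero => simpa using E2.const (n := n) 1
  | succ k ih => exact (ih.mul hf).congr fun v => pow_succ _ _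

theorem FamLde_e2_lg {n : ℕ} {f : (Fin n → ℕ) → ℕ} (hf : E2 n f) : E2 n (fun v => lg (f v)) := hf.log2

theorem FamLde_e2_hL {n : ℕ} {f : (Fin n → ℕ) → ℕ} (hf : E2 n f) : E2 n (fun v => hL (f v)) :=
  ((FamLde_e2_lg hf).add (E2.const 2)).lprime

theorem FamLde_e2_qL {n : ℕ} {f : (Fin n → ℕ) → ℕ} (hf : E2 n f) : E2 n (fun v => qL (f v)) :=
  (fl_pow (FamLde_e2_hL hf) 5).lprime

theorem FamLde_e2_mL {n : ℕ} {f : (Fin n → ℕ) → ℕ} (hf : E2 n f) : E2 n (fun v => mL (f v)) := by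
  have h1 : E2Star (n + 1) (fun w => (fun i v => 0 < f v / hL (f v) ^ (i + 1)) (w 0)
      (fun i => w i.succ)) :=
    E2Star.ltFun (E2.const 0)
      (hf.weak.divPow (FamLde_e2_hL hf).weak ((E2.proj 0).add (E2.const 1)))
  refine ((E2.countRange (P := fun i v => 0 < f v / hL (f v) ^ (i + 1)) hf h1).add
    (E2.const 1)).congr ?_
  intro v
  unfold mL
  congr 1
  generalize f v = a
  have h2 : ∀ i, i < Nat.log (hL a) a ↔ i < a ∧ 0 < a / hL a ^ (i + 1) := by
    intro i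
    rw [Nat.div_pos_iff]
    constructor
    · intro h3
      have h5 : a ≠ 0 := by
        rintro rfl
        simp at h3
      refine ⟨lt_of_lt_of_le h3 (Nat.log_le_self _ _), ?_, ?_⟩
      · have := FamLde_two_le_hL a
        positivity
      · exact (Nat.le_log_iff_pow_le (FamLde_two_le_hL a) h5).mp h3
    · rintro ⟨h3, _, h4⟩
      exact (Nat.le_log_iff_pow_le (FamLde_two_le_hL a) (by omega)).mpr h4
  conv_lhs => rw [← card_range (Nat.log (hL a) a)]
  congr 1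
  ext i
  simp only [mem_filter, mem_range, h2 i]

theorem FamLde_e2_qL_pow {n : ℕ} {f : (Fin n → ℕ) → ℕ} (hf : E2 n f) :
    E2 n (fun v => qL (f v) ^ (mL (f v) + 1)) :=
  E2.powBdd (B := fun v => (f v + 2) ^ 30) (FamLde_e2_qL hf) ((FamLde_e2_mL hf).add (E2.const 1))
    (fl_pow (hf.add (E2.const 2)) 30) (fun _ => FamLde_qL_pow_le _)

theorem FamLde_e2_qL_pow' {n : ℕ} {f : (Fin n → ℕ) → ℕ} (hf : E2 n f) :
    E2 n (fun v => qL (f v) ^ mL (f v)) :=
  E2.powBdd (B := fun v => (f v + 2) ^ 30) (FamLde_e2_qL hf) (FamLde_e2_mL hf)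
    (fl_pow (hf.add (E2.const 2)) 30) (fun _ =>
      (Nat.pow_le_pow_right (FamLde_qL_prime _).pos (Nat.le_succ _)).trans (FamLde_qL_pow_le _))

/-! ### The value of the extension as a number -/

private noncomputable def fl5 (b i z n w : ℕ) : ℕ :=
  if b = dig (hL n) z i then 1 else dig (qL n) (w % qL n ^ mL n) i + qL n - b

private noncomputable def fl4 (i z n w : ℕ) : ℕ := (∏ b ∈ range (hL n), fl5 b i z n w) % qL n

private noncomputable def fl3 (R : ℕ → Prop) (z n w : ℕ) : ℕ :=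
  if R z then (∏ i ∈ range (mL n), fl4 i z n w) % qL n else 0

private noncomputable def fl2 (R : ℕ → Prop) (n w : ℕ) : ℕ := ∑ z ∈ range n, fl3 R z n w

private theorem fl5_e2 : E2 5 (fun u => fl5 (u 0) (u 1) (u 2) (u 3) (u 4)) := by
  have h1 : E2Star 5 (fun u => u 0 = dig (hL (u 3)) (u 2) (u 1)) :=
    E2Star.eqFun (E2.proj 0) (E2.dig (FamLde_e2_hL (E2.proj 3)) (E2.proj 2) (E2.proj 1))
  have h2 : E2 5 (fun u => dig (qL (u 3)) (u 4 % qL (u 3) ^ mL (u 3)) (u 1) + qL (u 3) - u 0) :=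
    ((E2.dig (FamLde_e2_qL (E2.proj 3)) ((E2.proj 4).mod (FamLde_e2_qL_pow' (E2.proj 3)))
      (E2.proj 1)).add (FamLde_e2_qL (E2.proj 3))).sub (E2.proj 0)
  refine (E2.ite h1 (E2.const 1) h2).congr ?_
  intro v
  unfold fl5
  congr

private theorem fl4_e2 : E2 4 (fun u => fl4 (u 0) (u 1) (u 2) (u 3)) :=
  E2.prodMod (n := 4) (b := fun v => hL (v 2)) (c := fun v => qL (v 2))
    (f := fun b v => fl5 b (v 0) (v 1) (v 2) (v 3)) (FamLde_e2_hL (E2.proj 2)) (FamLde_e2_qL (E2.proj 2))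
    (fun _ => (FamLde_qL_prime _).pos) fl5_e2

private theorem fl3_e2 {R : ℕ → Prop} (hR : E2Star 1 (fun v => R (v 0))) :
    E2 3 (fun u => fl3 R (u 0) (u 1) (u 2)) := by
  refine E2.ite ?_ ?_ (E2.const 0)
  · exact E2Star.subst (m := 1) (P := fun v => R (v 0)) hR (h := fun _ u => u 0)
      (fun _ => E2.proj 0)
  · exact E2.prodMod (n := 3) (b := fun v => mL (v 1)) (c := fun v => qL (v 1))
      (f := fun i v => fl4 i (v 0) (v 1) (v 2)) (FamLde_e2_mL (E2.proj 1)) (FamLde_e2_qL (E2.proj 1))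
      (fun _ => (FamLde_qL_prime _).pos) fl4_e2

private theorem fl2_e2 {R : ℕ → Prop} (hR : E2Star 1 (fun v => R (v 0))) :
    E2 2 (fun u => fl2 R (u 0) (u 1)) :=
  E2.sumRange (n := 2) (b := fun v => v 0) (f := fun z v => fl3 R z (v 0) (v 1)) (E2.proj 0)
    (fl3_e2 hR)

private theorem fl2_cast (R : ℕ → Prop) (n w : ℕ) :
    ((fl2 R n w : ℕ) : ZMod (qL n)) =
      lde (qL n) (hL n) (mL n) {z ∈ range n | R z} (w % qL n ^ mL n) := by
  unfold fl2 lde
  rw [Finset.sum_filter, Nat.cast_sum]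
  refine Finset.sum_congr rfl fun z _ => ?_
  unfold fl3
  split_ifs with hz
  · rw [ZMod.natCast_mod, Nat.cast_prod]
    refine Finset.prod_congr rfl fun i _ => ?_
    unfold fl4
    rw [ZMod.natCast_mod, Nat.cast_prod, ← Finset.filter_ne', Finset.prod_filter]
    refine Finset.prod_congr rfl fun b hb => ?_
    have hb' : b < hL n := mem_range.mp hb
    have hbq := FamLde_hL_le_qL n
    unfold fl5
    by_cases h : b = dig (hL n) z i
    · rw [if_pos h, if_neg (not_not.mpr h), Nat.cast_one]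
    · rw [if_neg h, if_pos h, Nat.cast_sub (by omega), Nat.cast_add]
      simp
  · simp

theorem fam_lde {R : ℕ → Prop} (hR : E2Star 1 (fun v => R (v 0))) :
    Fam (fun n w => ((w / qL n ^ mL n : ℕ) : ZMod (qL n)) =
        lde (qL n) (hL n) (mL n) {z ∈ range n | R z} (w % qL n ^ mL n))
      (fun n => qL n ^ (mL n + 1)) where
  star := by
    refine (E2Star.eqFun
      (((E2.proj (n := 2) 1).div (FamLde_e2_qL_pow' (E2.proj 0))).mod (FamLde_e2_qL (E2.proj 0)))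
      ((fl2_e2 hR).mod (FamLde_e2_qL (E2.proj 0)))).of_iff ?_
    intro v
    rw [← fl2_cast, ZMod.natCast_eq_natCast_iff']
  dom := FamLde_e2_qL_pow (E2.proj 0)
  le := FamLde_le_qL_pow
  poly := ⟨30, FamLde_qL_pow_le⟩

end Pool.Agent.GAvg
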