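import Mathlib
import Pool.Agent.GAvg.FamLde
import Pool.Agent.GAvg.AdvQ

/-!
# Parameters of the extension of low degree
-/

set_option autoImplicit false

namespace Pool.Agent.GAvg

open Finset Filter Pool.Agent.Grz
open scoped Classical

theorem hL_prime (n : ℕ) : (hL n).Prime := lprime_prime _
theorem qL_prime (n : ℕ) : (qL n).Prime := lprime_prime _
theorem le_hL (n : ℕ) : lg n + 2 ≤ hL n := le_lprime _
theorem hL_le (n : ℕ) : hL n ≤ 2 * (lg n + 2) := lprime_le _ (by omega)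
theorem le_qL (n : ℕ) : hL n ^ 5 ≤ qL n := le_lprime _
theorem hL_pos (n : ℕ) : 0 < hL n := (hL_prime n).pos
theorem qL_pos (n : ℕ) : 0 < qL n := (qL_prime n).pos
theorem qL_le (n : ℕ) : qL n ≤ 2 * hL n ^ 5 := lprime_le _ (pow_pos (hL_pos n) _)
theorem mL_pos (n : ℕ) : 0 < mL n := Nat.succ_pos _

theorem mL_le (n : ℕ) : mL n ≤ lg n + 1 := by
  unfold mL lg
  have h : Nat.log (hL n) n ≤ Nat.log 2 n :=
    Nat.log_anti_left (by norm_num) (hL_prime n).two_le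
  omega

theorem mL_lt_hL (n : ℕ) : mL n < hL n := by
  have := mL_le n
  have := le_hL n
  omega

theorem lt_hL_pow (n : ℕ) : n < hL n ^ mL n :=
  Nat.lt_pow_succ_log_self (hL_prime n).one_lt n

theorem hL_pow_le {n : ℕ} (hn : 0 < n) : hL n ^ mL n ≤ hL n * n := by
  unfold mL
  rw [pow_succ, mul_comm]
  exact Nat.mul_le_mul_left _ (Nat.pow_log_le_self _ hn.ne')

theorem hL_le_qL (n : ℕ) : hL n ≤ qL n := by
  refine le_trans ?_ (le_qL n)
  exact Nat.le_self_pow (by norm_num) _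

theorem deg_lt (n : ℕ) : mL n * (hL n - 1) + 1 < qL n := by
  have h1 := mL_lt_hL n
  have h2 := le_qL n
  have h3 := (hL_prime n).two_le
  have h4 : mL n * (hL n - 1) ≤ hL n * (hL n - 1) := Nat.mul_le_mul_right _ h1.le
  have h5 : hL n * (hL n - 1) ≤ hL n ^ 2 := by
    rw [sq]; exact Nat.mul_le_mul_left _ (Nat.sub_le _ _)
  have h6 : hL n ^ 5 = hL n ^ 2 * hL n ^ 3 := by ring
  have h7 : 8 ≤ hL n ^ 3 := by
    calc 8 = 2 ^ 3 := by norm_num
      _ ≤ hL n ^ 3 := Nat.pow_le_pow_left h3 3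
  have h8 : hL n ^ 2 * 8 ≤ hL n ^ 2 * hL n ^ 3 := Nat.mul_le_mul_left _ h7
  have h9 : 4 ≤ hL n ^ 2 := by
    calc 4 = 2 ^ 2 := by norm_num
      _ ≤ hL n ^ 2 := Nat.pow_le_pow_left h3 2
  omega

theorem four_mL_sq (n : ℕ) : 4 * mL n ^ 2 ≤ qL n := by
  have h1 := mL_lt_hL n
  have h2 := le_qL n
  have h3 := (hL_prime n).two_le
  have h4 : mL n ^ 2 ≤ hL n ^ 2 := Nat.pow_le_pow_left h1.le 2
  have h5 : 4 ≤ hL n ^ 2 := by
    calc 4 = 2 ^ 2 := by norm_num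
      _ ≤ hL n ^ 2 := Nat.pow_le_pow_left h3 2
  have h6 : 1 ≤ hL n := by omega
  calc 4 * mL n ^ 2 ≤ hL n ^ 2 * hL n ^ 2 := Nat.mul_le_mul h5 h4
    _ = hL n ^ 4 := by ring
    _ ≤ hL n ^ 5 := Nat.pow_le_pow_right h6 (by norm_num)
    _ ≤ qL n := h2

theorem three_mL_lt (n : ℕ) : 3 * mL n < qL n := by
  have h1 := mL_lt_hL n
  have h2 := le_qL n
  have h3 := (hL_prime n).two_le
  have h5 : 8 ≤ hL n ^ 3 := by
    calc 8 = 2 ^ 3 := by norm_num
      _ ≤ hL n ^ 3 := Nat.pow_le_pow_left h3 3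
  have h6 : hL n ^ 5 = hL n ^ 3 * hL n ^ 2 := by ring
  have h7 : hL n ^ 3 * hL n ^ 2 ≥ 8 * hL n := by
    apply Nat.mul_le_mul h5
    nlinarith
  omega

theorem lg_le (n : ℕ) : lg n ≤ n := Nat.log_le_self _ _

theorem lg_tendsto : Tendsto lg atTop atTop := by
  unfold lg
  refine tendsto_atTop_mono' atTop (f₁ := fun n => Nat.log 2 n) (Eventually.of_forall fun n => le_rfl) ?_
  rw [tendsto_atTop_atTop]
  intro b
  refine ⟨2 ^ b, fun a ha => ?_⟩
  exact Nat.le_log_of_pow_le (by norm_num) ha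

theorem lg_lt_tt_sq (n : ℕ) : lg n + 1 ≤ tt n ^ 2 := by
  unfold tt lg
  have := Nat.lt_succ_sqrt' (Nat.log 2 n)
  exact this

theorem tt_le (n : ℕ) : tt n ≤ lg n + 1 := by
  unfold tt lg
  have := Nat.sqrt_le_self (Nat.log 2 n)
  omega

theorem tt_pos (n : ℕ) : 0 < tt n := Nat.succ_pos _

theorem tt_tendsto : Tendsto tt atTop atTop := by
  rw [tendsto_atTop_atTop]
  intro b
  obtain ⟨N, hN⟩ := tendsto_atTop_atTop.mp lg_tendsto (b ^ 2)
  refine ⟨N, fun a ha => ?_⟩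
  have h1 := hN a ha
  have h2 := lg_lt_tt_sq a
  by_contra h
  push Not at h
  have : tt a ^ 2 < b ^ 2 := Nat.pow_lt_pow_left h (by norm_num)
  omega

/-- `qL` is polylogarithmic -/
theorem qL_le_tt (n : ℕ) : qL n ≤ 2048 * tt n ^ 10 := by
  have h1 := qL_le n
  have h2 := hL_le n
  have h3 := lg_lt_tt_sq n
  have h4 : 1 ≤ tt n := tt_pos n
  have h4' : 1 ≤ tt n ^ 2 := Nat.one_le_pow _ _ h4
  have h5 : hL n ≤ 4 * tt n ^ 2 := by omega
  calc qL n ≤ 2 * hL n ^ 5 := h1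
    _ ≤ 2 * (4 * tt n ^ 2) ^ 5 := Nat.mul_le_mul_left _ (Nat.pow_le_pow_left h5 5)
    _ = 2048 * tt n ^ 10 := by ring

theorem qL_polylog : ∀ᶠ n in atTop, qL n ≤ lg n ^ 12 := by
  filter_upwards [lg_tendsto.eventually_ge_atTop 10] with n hn
  have h1 := qL_le n
  have h2 := hL_le n
  have h3 : hL n ≤ lg n ^ 2 := by nlinarith
  calc qL n ≤ 2 * hL n ^ 5 := h1
    _ ≤ 2 * (lg n ^ 2) ^ 5 := Nat.mul_le_mul_left _ (Nat.pow_le_pow_left h3 5)
    _ ≤ lg n ^ 2 * (lg n ^ 2) ^ 5 := Nat.mul_le_mul_right _ (by nlinarith)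
    _ = lg n ^ 12 := by ring

theorem mL_polylog : ∀ᶠ n in atTop, mL n ≤ lg n ^ 12 := by
  filter_upwards [lg_tendsto.eventually_ge_atTop 10] with n hn
  have h1 := mL_le n
  calc mL n ≤ lg n + 1 := h1
    _ ≤ lg n ^ 2 := by nlinarith
    _ ≤ lg n ^ 12 := Nat.pow_le_pow_right (by omega) (by norm_num)

theorem hL_polyB : PolyB hL := by
  refine ⟨3, ?_⟩
  filter_upwards with n
  have h1 := hL_le n
  have h2 := lg_le n
  calc hL n ≤ 2 * (n + 2) := by omega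
    _ ≤ (n + 2) * (n + 2) := by nlinarith
    _ ≤ (n + 2) ^ 3 := by nlinarith [sq_nonneg (n + 2)]

theorem hL_pow_polyB : PolyB (fun n => hL n ^ mL n) := by
  have h := hL_polyB.mul PolyB.id
  refine h.mono ?_
  filter_upwards [eventually_gt_atTop 0] with n hn
  exact hL_pow_le hn

theorem qL_le_pow (n : ℕ) : qL n ≤ hL n ^ 6 := by
  calc qL n ≤ 2 * hL n ^ 5 := qL_le n
    _ ≤ hL n * hL n ^ 5 := Nat.mul_le_mul_right _ (hL_prime n).two_le
    _ = hL n ^ 6 := by ring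

theorem qL_pow_polyB (c d : ℕ) : PolyB (fun n => qL n ^ (c * mL n + d)) := by
  have h := ((hL_pow_polyB.pow (6 * c)).mul (hL_polyB.pow (6 * d)))
  refine h.mono ?_
  filter_upwards with n
  calc qL n ^ (c * mL n + d) ≤ (hL n ^ 6) ^ (c * mL n + d) := Nat.pow_le_pow_left (qL_le_pow n) _
    _ = (hL n ^ mL n) ^ (6 * c) * hL n ^ (6 * d) := by
      rw [← pow_mul, ← pow_mul, ← pow_add]; congr 1; ring

theorem baseQ : Base qL (fun n => 3 * mL n) where
  prime := Eventually.of_forall qL_prime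
  lt := Eventually.of_forall three_mL_lt
  poly := qL_pow_polyB 3 1

theorem baseH : Base hL mL where
  prime := Eventually.of_forall hL_prime
  lt := Eventually.of_forall mL_lt_hL
  poly := by
    have := hL_pow_polyB.mul hL_polyB
    refine this.mono (Eventually.of_forall fun n => ?_)
    simp only [pow_succ]
    exact le_rfl

end Pool.Agent.GAvg
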