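import Mathlib
import Pool.Agent.GAvg.Defs

/-!
# The walk hits a dense set (package GA1)
-/

set_option autoImplicit false

namespace Pool.Agent.GAvg

open Finset ComplexConjugate
open scoped Classical

section WalkDenseFourier

variable {q m : ℕ} [hq : Fact q.Prime]

/-- direction of the step with parameter `y` -/
private def wdDir (q m : ℕ) (y : ZMod q) : Fin m → ZMod q := fun j => y ^ (j : ℕ)

/-- Fourier transform -/
private noncomputable def wdF (g : (Fin m → ZMod q) → ℂ) (a : Fin m → ZMod q) : ℂ :=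
  ∑ x, ZMod.stdAddChar (∑ j, a j * x j) * g x

/-- unnormalised averaging operator -/
private noncomputable def wdA (g : (Fin m → ZMod q) → ℂ) (x : Fin m → ZMod q) : ℂ :=
  ∑ p : ZMod q × ZMod q, g (x - p.1 • wdDir q m p.2)

private lemma wd_orth (z : Fin m → ZMod q) :
    ∑ a : Fin m → ZMod q, (ZMod.stdAddChar (∑ j, a j * z j) : ℂ) =
      if z = 0 then (q : ℂ) ^ m else 0 := by
  let φ : AddChar (Fin m → ZMod q) ℂ := (ZMod.stdAddChar (N := q)).compAddMonoidHom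
    { toFun := fun a => ∑ j, a j * z j
      map_zero' := by simp
      map_add' := by intro a b; simp [add_mul, Finset.sum_add_distrib] }
  have h1 : ∀ a, φ a = ZMod.stdAddChar (∑ j, a j * z j) := fun a => rfl
  simp_rw [← h1]
  rw [AddChar.sum_eq_ite]
  have h2 : φ = 0 ↔ z = 0 := by
    constructor
    · intro h
      by_contra hz
      obtain ⟨j, hj⟩ := Function.ne_iff.1 hz
      have h3 : φ (Pi.single j (z j)⁻¹) = 1 := by rw [h]; rfl
      rw [h1] at h3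
      have h4 : ∑ i, (Pi.single j (z j)⁻¹ : Fin m → ZMod q) i * z i = 1 := by
        rw [Finset.sum_eq_single j]
        · simp only [Pi.single_eq_same]
          exact inv_mul_cancel₀ hj
        · intro b _ hb
          simp [Pi.single_eq_of_ne hb]
        · simp
      rw [h4] at h3
      have h5 := ZMod.injective_stdAddChar (N := q) (h3.trans (AddChar.map_zero_eq_one _).symm)
      exact one_ne_zero h5
    · intro h
      ext a
      rw [h1, h]
      simp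
  by_cases hz : z = 0
  · rw [if_pos (h2.2 hz), if_pos hz]
    simp [ZMod.card]
  · rw [if_neg (fun h => hz (h2.1 h)), if_neg hz]

private lemma wd_parseval (g : (Fin m → ZMod q) → ℂ) :
    ∑ a, ‖wdF g a‖ ^ 2 = (q : ℝ) ^ m * ∑ x, ‖g x‖ ^ 2 := by
  have h1 : ∀ w : ℂ, ((‖w‖ ^ 2 : ℝ) : ℂ) = w * conj w := by
    intro w
    rw [Complex.mul_conj, Complex.normSq_eq_norm_sq]
  have h2 : ((∑ a, ‖wdF g a‖ ^ 2 : ℝ) : ℂ) = (((q : ℝ) ^ m * ∑ x, ‖g x‖ ^ 2 : ℝ) : ℂ) := by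
    rw [Complex.ofReal_sum, Complex.ofReal_mul, Complex.ofReal_sum]
    simp_rw [h1]
    have h3 : ∀ a, wdF g a * conj (wdF g a) =
        ∑ x, ∑ x', g x * conj (g x') * ZMod.stdAddChar (∑ j, a j * (x - x') j) := by
      intro a
      unfold wdF
      rw [map_sum, Finset.sum_mul_sum]
      refine Finset.sum_congr rfl fun x _ => Finset.sum_congr rfl fun x' _ => ?_
      rw [map_mul, ← AddChar.map_neg_eq_conj]
      have h4 : ∑ j, a j * (x - x') j = ∑ j, a j * x j + -∑ j, a j * x' j := by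
        rw [← sub_eq_add_neg, ← Finset.sum_sub_distrib]
        exact Finset.sum_congr rfl fun j _ => by rw [Pi.sub_apply, mul_sub]
      rw [h4, AddChar.map_add_eq_mul]
      ring
    rw [Finset.sum_congr rfl (fun a _ => h3 a)]
    rw [Finset.sum_comm]
    rw [Finset.sum_congr rfl (fun x _ => Finset.sum_comm)]
    calc ∑ x, ∑ x', ∑ a : Fin m → ZMod q,
            g x * conj (g x') * (ZMod.stdAddChar (∑ j, a j * (x - x') j) : ℂ) = ∑ x, ∑ x', g x * conj (g x') * (if x - x' = 0 then (q : ℂ) ^ m else 0) := by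
          refine Finset.sum_congr rfl fun x _ => Finset.sum_congr rfl fun x' _ => ?_
          rw [← Finset.mul_sum, wd_orth]
      _ = ∑ x, g x * conj (g x) * (q : ℂ) ^ m := by
          refine Finset.sum_congr rfl fun x _ => ?_
          rw [Finset.sum_eq_single x]
          · simp
          · intro b _ hb
            rw [if_neg (fun h => hb (sub_eq_zero.1 h).symm), mul_zero]
          · simp
      _ = (((q : ℝ) ^ m : ℝ) : ℂ) * ∑ x, g x * conj (g x) := by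
          rw [← Finset.sum_mul, mul_comm]
          simp
  exact_mod_cast h2

/-- the operator is diagonal -/
private lemma wd_diag (g : (Fin m → ZMod q) → ℂ) (a : Fin m → ZMod q) :
    wdF (wdA g) a = ((q * #{y : ZMod q | ∑ j, a j * wdDir q m y j = 0} : ℕ) : ℂ) * wdF g a := by
  have h1 : wdF (wdA g) a = ∑ p : ZMod q × ZMod q,
      ZMod.stdAddChar (p.1 * ∑ j, a j * wdDir q m p.2 j) * wdF g a := by
    unfold wdF wdA
    simp_rw [Finset.mul_sum]
    rw [Finset.sum_comm]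
    refine Finset.sum_congr rfl fun p _ => ?_
    rw [← Equiv.sum_comp (Equiv.addRight (p.1 • wdDir q m p.2))]
    refine Finset.sum_congr rfl fun x _ => ?_
    simp only [Equiv.coe_addRight, add_sub_cancel_right]
    rw [← mul_assoc, ← AddChar.map_add_eq_mul]
    congr 2
    rw [← Finset.sum_add_distrib]
    refine Finset.sum_congr rfl fun j _ => ?_
    simp only [Pi.add_apply, Pi.smul_apply, smul_eq_mul]
    ring
  rw [h1, ← Finset.sum_mul]
  congr 1
  rw [Fintype.sum_prod_type_right]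
  have h2 : ∀ y : ZMod q, ∑ x : ZMod q, (ZMod.stdAddChar (x * ∑ j, a j * wdDir q m y j) : ℂ) =
      if ∑ j, a j * wdDir q m y j = 0 then (q : ℂ) else 0 := by
    intro y
    have := AddChar.sum_mulShift (R := ZMod q) (R' := ℂ) (ψ := ZMod.stdAddChar)
      (∑ j, a j * wdDir q m y j) (ZMod.isPrimitive_stdAddChar q)
    rw [this]
    simp [ZMod.card]
  simp_rw [h2]
  rw [← Finset.sum_filter, Finset.sum_const]
  simp [mul_comm]

private lemma wd_roots (a : Fin m → ZMod q) (ha : a ≠ 0) :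
    #{y : ZMod q | ∑ j, a j * wdDir q m y j = 0} ≤ m := by
  let P : Polynomial (ZMod q) := ∑ j : Fin m, Polynomial.monomial (j : ℕ) (a j)
  have hP : P ≠ 0 := by
    obtain ⟨j, hj⟩ := Function.ne_iff.1 ha
    intro h
    apply hj
    have h1 : P.coeff j = a j := by
      simp only [P, Polynomial.finsetSum_coeff, Polynomial.coeff_monomial]
      rw [Finset.sum_eq_single j]
      · simp
      · intro b _ hb
        rw [if_neg (fun h => hb (Fin.ext h))]
      · simp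
    rw [← h1, h]
    simp
  have h2 : ({y : ZMod q | ∑ j, a j * wdDir q m y j = 0} : Finset (ZMod q)) ⊆ P.roots.toFinset := by
    intro y hy
    rw [Finset.mem_filter] at hy
    rw [Multiset.mem_toFinset, Polynomial.mem_roots hP, Polynomial.IsRoot.def]
    simp only [P, Polynomial.eval_finsetSum, Polynomial.eval_monomial]
    exact hy.2
  calc _ ≤ P.roots.toFinset.card := Finset.card_le_card h2
    _ ≤ P.roots.card := Multiset.toFinset_card_le _
    _ ≤ P.natDegree := P.card_roots'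
    _ ≤ m := by
      refine Polynomial.natDegree_sum_le_of_forall_le _ _ fun j _ => ?_
      exact (Polynomial.natDegree_monomial_le _).trans j.2.le

/-- contraction on functions of mean zero -/
private lemma wd_contract (h : (Fin m → ZMod q) → ℂ) (h0 : ∑ x, h x = 0) :
    ∑ x, ‖wdA h x‖ ^ 2 ≤ ((q : ℝ) * m) ^ 2 * ∑ x, ‖h x‖ ^ 2 := by
  have hqpos : (0 : ℝ) < (q : ℝ) ^ m := by
    have := hq.out.pos
    positivity
  refine le_of_mul_le_mul_left ?_ hqpos
  rw [← wd_parseval]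
  calc ∑ a, ‖wdF (wdA h) a‖ ^ 2 ≤ ∑ a, ((q : ℝ) * m) ^ 2 * ‖wdF h a‖ ^ 2 := by
        refine Finset.sum_le_sum fun a _ => ?_
        rw [wd_diag, norm_mul, mul_pow]
        by_cases ha : a = 0
        · have : wdF h a = 0 := by
            rw [ha]
            unfold wdF
            simpa using h0
          rw [this]
          simp
        · refine mul_le_mul_of_nonneg_right ?_ (by positivity)
          rw [Complex.norm_natCast]
          have := wd_roots a ha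
          have h3 : ((q * #{y : ZMod q | ∑ j, a j * wdDir q m y j = 0} : ℕ) : ℝ) ≤ (q : ℝ) * m := by
            exact_mod_cast Nat.mul_le_mul_left q this
          gcongr
    _ = (q : ℝ) ^ m * (((q : ℝ) * m) ^ 2 * ∑ x, ‖h x‖ ^ 2) := by
        rw [← Finset.mul_sum, wd_parseval]
        ring

/-- unnormalised averaging operator, real functions -/
private noncomputable def wdAR (g : (Fin m → ZMod q) → ℝ) (x : Fin m → ZMod q) : ℝ :=
  ∑ p : ZMod q × ZMod q, g (x - p.1 • wdDir q m p.2)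

private lemma wd_contractR (h : (Fin m → ZMod q) → ℝ) (h0 : ∑ x, h x = 0) :
    ∑ x, (wdAR h x) ^ 2 ≤ ((q : ℝ) * m) ^ 2 * ∑ x, (h x) ^ 2 := by
  have h1 := wd_contract (fun x => (h x : ℂ)) (by exact_mod_cast h0)
  have h2 : ∀ x, wdA (fun x => (h x : ℂ)) x = ((wdAR h x : ℝ) : ℂ) := by
    intro x
    unfold wdA wdAR
    push_cast
    rfl
  simp_rw [h2, Complex.norm_real, Real.norm_eq_abs, sq_abs] at h1
  exact h1

private lemma wd_card : (Fintype.card (Fin m → ZMod q) : ℝ) = (q : ℝ) ^ m := by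
  simp [ZMod.card]

private lemma wd_step (B : Finset (Fin m → ZMod q)) (g : (Fin m → ZMod q) → ℝ)
    (hg : ∀ x, x ∉ B → g x = 0) :
    √(∑ x ∈ B, (wdAR g x) ^ 2) ≤
      ((q : ℝ) ^ 2 * (#B / (q : ℝ) ^ m) + q * m) * √(∑ x, (g x) ^ 2) := by
  have hqpos : (0 : ℝ) < (q : ℝ) ^ m := by
    have := hq.out.pos
    positivity
  set c : ℝ := (∑ x, g x) / (q : ℝ) ^ m with hc
  set h : (Fin m → ZMod q) → ℝ := fun x => g x - c with hh
  have hsum : ∑ x, h x = 0 := by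
    simp only [hh, Finset.sum_sub_distrib, Finset.sum_const, Finset.card_univ, nsmul_eq_mul]
    rw [wd_card, hc]
    field_simp
    ring
  have hA : ∀ x, wdAR g x = (q : ℝ) ^ 2 * c + wdAR h x := by
    intro x
    unfold wdAR
    have : ∀ p : ZMod q × ZMod q, g (x - p.1 • wdDir q m p.2) =
        c + h (x - p.1 • wdDir q m p.2) := by
      intro p
      simp [hh]
    simp_rw [this, Finset.sum_add_distrib]
    congr 1
    rw [Finset.sum_const, Finset.card_univ, Fintype.card_prod, ZMod.card, nsmul_eq_mul]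
    push_cast
    ring
  -- norms
  let u : EuclideanSpace ℝ (Fin m → ZMod q) := WithLp.toLp 2 (fun x => if x ∈ B then (q : ℝ) ^ 2 * c else 0)
  let v : EuclideanSpace ℝ (Fin m → ZMod q) := WithLp.toLp 2 (fun x => wdAR h x)
  have h1 : √(∑ x ∈ B, (wdAR g x) ^ 2) ≤ ‖u + v‖ := by
    rw [EuclideanSpace.norm_eq]
    apply Real.sqrt_le_sqrt
    calc ∑ x ∈ B, (wdAR g x) ^ 2 = ∑ x ∈ B, ‖(u + v) x‖ ^ 2 := by
          refine Finset.sum_congr rfl fun x hx => ?_
          simp only [u, v, PiLp.add_apply, if_pos hx, Real.norm_eq_abs, sq_abs, hA x]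
      _ ≤ ∑ x, ‖(u + v) x‖ ^ 2 :=
          Finset.sum_le_sum_of_subset_of_nonneg (Finset.subset_univ _) fun _ _ _ => by positivity
  have hcs : |∑ x, g x| ≤ √(#B) * √(∑ x, (g x) ^ 2) := by
    have h2 : ∑ x, g x = ∑ x ∈ B, 1 * g x := by
      simp only [one_mul]
      exact (Finset.sum_subset (Finset.subset_univ _) fun x _ hx => hg x hx).symm
    rw [← Real.sqrt_sq_eq_abs, ← Real.sqrt_mul (by positivity)]
    apply Real.sqrt_le_sqrt
    rw [h2]
    refine (Finset.sum_mul_sq_le_sq_mul_sq B (fun _ => (1 : ℝ)) g).trans ?_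
    simp only [one_pow, Finset.sum_const, nsmul_eq_mul, mul_one]
    exact mul_le_mul_of_nonneg_left (Finset.sum_le_sum_of_subset_of_nonneg
      (Finset.subset_univ _) fun _ _ _ => by positivity) (by positivity)
  have hu : ‖u‖ ≤ (q : ℝ) ^ 2 * (#B / (q : ℝ) ^ m) * √(∑ x, (g x) ^ 2) := by
    rw [EuclideanSpace.norm_eq]
    have h3 : ∑ x, ‖u x‖ ^ 2 = #B * ((q : ℝ) ^ 2 * c) ^ 2 := by
      have : ∀ x, ‖u x‖ ^ 2 = if x ∈ B then ((q : ℝ) ^ 2 * c) ^ 2 else 0 := by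
        intro x
        simp only [u, Real.norm_eq_abs, sq_abs]
        split_ifs <;> simp
      simp_rw [this]
      rw [Finset.sum_ite_mem, Finset.univ_inter, Finset.sum_const, nsmul_eq_mul]
    rw [h3, Real.sqrt_mul (by positivity), Real.sqrt_sq_eq_abs, abs_mul, abs_of_nonneg
      (by positivity : (0 : ℝ) ≤ (q : ℝ) ^ 2), hc, abs_div, abs_of_pos hqpos]
    calc √(#B : ℝ) * ((q : ℝ) ^ 2 * (|∑ x, g x| / (q : ℝ) ^ m))
        ≤ √(#B : ℝ) * ((q : ℝ) ^ 2 * ((√(#B) * √(∑ x, (g x) ^ 2)) / (q : ℝ) ^ m)) := by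
          gcongr
      _ = (q : ℝ) ^ 2 * ((√(#B : ℝ) * √(#B : ℝ)) / (q : ℝ) ^ m) * √(∑ x, (g x) ^ 2) := by ring
      _ = _ := by rw [Real.mul_self_sqrt (by positivity)]
  have hv : ‖v‖ ≤ q * m * √(∑ x, (g x) ^ 2) := by
    rw [EuclideanSpace.norm_eq]
    have h4 : ∑ x, (h x) ^ 2 ≤ ∑ x, (g x) ^ 2 := by
      have h5 : ∑ x, (h x) ^ 2 = ∑ x, (g x) ^ 2 - (q : ℝ) ^ m * c ^ 2 := by
        have : ∀ x, (h x) ^ 2 = (g x) ^ 2 - 2 * c * g x + c ^ 2 := by
          intro x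
          simp only [hh]
          ring
        simp_rw [this, Finset.sum_add_distrib, Finset.sum_sub_distrib, ← Finset.mul_sum,
          Finset.sum_const, Finset.card_univ, nsmul_eq_mul]
        rw [wd_card]
        have h6 : ∑ x, g x = (q : ℝ) ^ m * c := by
          rw [hc]
          field_simp
        rw [h6]
        ring
      rw [h5]
      have : (0 : ℝ) ≤ (q : ℝ) ^ m * c ^ 2 := by positivity
      linarith
    calc √(∑ x, ‖v x‖ ^ 2) ≤ √(((q : ℝ) * m) ^ 2 * ∑ x, (g x) ^ 2) := by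
          apply Real.sqrt_le_sqrt
          simp only [v, Real.norm_eq_abs, sq_abs]
          exact (wd_contractR h hsum).trans (mul_le_mul_of_nonneg_left h4 (by positivity))
      _ = q * m * √(∑ x, (g x) ^ 2) := by
          rw [Real.sqrt_mul (by positivity), Real.sqrt_sq (by positivity)]
  calc √(∑ x ∈ B, (wdAR g x) ^ 2) ≤ ‖u + v‖ := h1
    _ ≤ ‖u‖ + ‖v‖ := norm_add_le _ _
    _ ≤ _ := by
      rw [add_mul]
      exact add_le_add hu hv

end WalkDenseFourier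

/-! ### digits -/

private lemma wd_dig_mod {q k i ω : ℕ} (hi : i < k) : dig q (ω % q ^ k) i = dig q ω i := by
  unfold dig
  obtain ⟨c, rfl⟩ := Nat.exists_eq_add_of_lt hi
  have h1 : q ^ (i + c + 1) = q ^ i * (q * q ^ c) := by ring
  rw [h1, Nat.mod_mul_right_div_self, Nat.mod_mul_right_mod]

private lemma wd_sum_dig (q ω : ℕ) : ∀ k, ∑ j ∈ range k, dig q ω j * q ^ j = ω % q ^ k
  | 0 => by simp [Nat.mod_one]
  | k + 1 => by
    rw [Finset.sum_range_succ, wd_sum_dig q ω k, Nat.mod_pow_succ]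
    unfold dig
    ring

private lemma wd_dig_lt {q : ℕ} (hq : 0 < q) (ω i : ℕ) : dig q ω i < q := Nat.mod_lt _ hq

private lemma wd_posDig_mod {q m k ω l j : ℕ} (hk : m + 2 * l ≤ k) (hj : j < m) :
    posDig q m (ω % q ^ k) l j = posDig q m ω l j := by
  unfold posDig
  rw [wd_dig_mod (by omega)]
  congr 2
  refine Finset.sum_congr rfl fun i hi => ?_
  rw [Finset.mem_range] at hi
  rw [wd_dig_mod (by omega), wd_dig_mod (by omega)]

private lemma wd_pos_mod {q m k ω l : ℕ} (hk : m + 2 * l ≤ k) :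
    pos q m (ω % q ^ k) l = pos q m ω l := by
  unfold pos
  refine Finset.sum_congr rfl fun j hj => ?_
  rw [Finset.mem_range] at hj
  rw [wd_posDig_mod hk hj]

private lemma wd_pos_zero {q m ω : ℕ} (hω : ω < q ^ m) : pos q m ω 0 = ω := by
  have h1 : pos q m ω 0 = ∑ j ∈ range m, dig q ω j * q ^ j := by
    unfold pos posDig
    refine Finset.sum_congr rfl fun j _ => ?_
    rw [Finset.range_zero, Finset.sum_empty, add_zero]
    unfold dig
    rw [Nat.mod_mod]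
  rw [h1, wd_sum_dig, Nat.mod_eq_of_lt hω]

section WalkDenseCount

variable {q m : ℕ} [hq : Fact q.Prime]

/-- the position as a vector -/
private def wdP (q m ω l : ℕ) : Fin m → ZMod q := fun j => ((posDig q m ω l j : ℕ) : ZMod q)

/-- number of a vector -/
private def wdEnc (v : Fin m → ZMod q) : ℕ := ∑ j : Fin m, (v j).val * q ^ (j : ℕ)

private lemma wd_enc_P (ω l : ℕ) : wdEnc (wdP q m ω l) = pos q m ω l := by
  unfold wdEnc pos wdP
  rw [Finset.sum_range]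
  refine Finset.sum_congr rfl fun j _ => ?_
  rw [ZMod.val_natCast, Nat.mod_eq_of_lt]
  exact Nat.mod_lt _ hq.out.pos

private lemma wd_enc_eq (v : Fin m → ZMod q) :
    wdEnc v = finFunctionFinEquiv (fun j => (⟨(v j).val, ZMod.val_lt _⟩ : Fin q)) := by
  rw [finFunctionFinEquiv_apply]
  rfl

private lemma wd_enc_lt (v : Fin m → ZMod q) : wdEnc v < q ^ m := by
  rw [wd_enc_eq]
  exact Fin.is_lt _

private lemma wd_enc_inj : Function.Injective (wdEnc : (Fin m → ZMod q) → ℕ) := by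
  intro v w h
  rw [wd_enc_eq, wd_enc_eq] at h
  have h1 := finFunctionFinEquiv.injective (Fin.ext h)
  ext j
  have h2 := congrFun h1 j
  exact congrArg (fun z : ZMod q => z) (ZMod.val_injective q (Fin.mk.inj_iff.1 h2))

private lemma wd_P_succ (ω l : ℕ) : wdP q m ω (l + 1) = wdP q m ω l +
    ((dig q ω (m + 2 * l) : ℕ) : ZMod q) • wdDir q m ((dig q ω (m + 2 * l + 1) : ℕ) : ZMod q) := by
  ext j
  simp only [wdP, posDig, Pi.add_apply, Pi.smul_apply, wdDir, smul_eq_mul, ZMod.natCast_mod,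
    Finset.sum_range_succ]
  push_cast
  ring

/-- walks of length `l` which stay outside of `W` and end in `v` -/
private noncomputable def wdC (q m : ℕ) (W : ℕ → Prop) (l : ℕ) (v : Fin m → ZMod q) : Finset ℕ :=
  {ω ∈ range (q ^ (m + 2 * l)) | (∀ i ≤ l, ¬ W (pos q m ω i)) ∧ wdP q m ω l = v}

private lemma wdC_empty {W : ℕ → Prop} {l : ℕ} {v : Fin m → ZMod q} (hv : W (wdEnc v)) :
    wdC q m W l v = ∅ := by
  rw [Finset.eq_empty_iff_forall_notMem]
  intro ω hω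
  rw [wdC, Finset.mem_filter] at hω
  apply hω.2.1 l le_rfl
  rw [← wd_enc_P, hω.2.2]
  exact hv

private lemma wdC_zero {W : ℕ → Prop} {v : Fin m → ZMod q} : #(wdC q m W 0 v) ≤ 1 := by
  rw [Finset.card_le_one]
  intro a ha b hb
  rw [wdC, Finset.mem_filter, Finset.mem_range] at ha hb
  simp only [mul_zero, add_zero] at ha hb
  rw [← wd_pos_zero ha.1, ← wd_pos_zero hb.1, ← wd_enc_P, ← wd_enc_P, ha.2.2, hb.2.2]

private lemma wd_digit_cast (ω i : ℕ) : (((dig q ω i : ℕ) : ZMod q)).val = dig q ω i := by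
  rw [ZMod.val_natCast, Nat.mod_eq_of_lt (wd_dig_lt hq.out.pos _ _)]

private lemma wdC_succ {W : ℕ → Prop} {l : ℕ} {v : Fin m → ZMod q} :
    #(wdC q m W (l + 1) v) ≤ ∑ p : ZMod q × ZMod q, #(wdC q m W l (v - p.1 • wdDir q m p.2)) := by
  rw [← Finset.card_sigma]
  refine Finset.card_le_card_of_injOn
    (fun ω => ⟨(((dig q ω (m + 2 * l) : ℕ) : ZMod q), ((dig q ω (m + 2 * l + 1) : ℕ) : ZMod q)),
      ω % q ^ (m + 2 * l)⟩) ?_ ?_
  · intro ω hω
    rw [Finset.mem_coe, wdC, Finset.mem_filter, Finset.mem_range] at hω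
    rw [Finset.mem_coe, Finset.mem_sigma]
    refine ⟨Finset.mem_univ _, ?_⟩
    rw [wdC, Finset.mem_filter, Finset.mem_range]
    refine ⟨Nat.mod_lt _ (pow_pos hq.out.pos _), fun i hi => ?_, ?_⟩
    · rw [wd_pos_mod (by omega)]
      exact hω.2.1 i (by omega)
    · have h1 : wdP q m (ω % q ^ (m + 2 * l)) l = wdP q m ω l := by
        ext j
        unfold wdP
        rw [wd_posDig_mod le_rfl j.2]
      rw [h1, eq_sub_iff_add_eq, ← wd_P_succ]
      exact hω.2.2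
  · intro a ha b hb hab
    rw [Finset.mem_coe, wdC, Finset.mem_filter, Finset.mem_range] at ha hb
    simp only [Sigma.mk.injEq, Prod.mk.injEq, heq_eq_eq] at hab
    obtain ⟨⟨h1, h2⟩, h3⟩ := hab
    have h4 := congrArg ZMod.val h1
    have h5 := congrArg ZMod.val h2
    rw [wd_digit_cast, wd_digit_cast] at h4 h5
    have h6 : ∀ ω < q ^ (m + 2 * (l + 1)), ω = ω % q ^ (m + 2 * l) +
        q ^ (m + 2 * l) * dig q ω (m + 2 * l) + q ^ (m + 2 * l + 1) * dig q ω (m + 2 * l + 1) := by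
      intro ω hω
      conv_lhs => rw [← Nat.mod_eq_of_lt hω]
      rw [show m + 2 * (l + 1) = (m + 2 * l + 1) + 1 by ring, Nat.mod_pow_succ, Nat.mod_pow_succ]
      rfl
    rw [h6 a ha.1, h6 b hb.1, h3, h4, h5]

private lemma wd_count_succ {W : ℕ → Prop} (l : ℕ) :
    √(∑ v : Fin m → ZMod q, (#(wdC q m W (l + 1) v) : ℝ) ^ 2) ≤
      ((q : ℝ) ^ 2 * (#{v : Fin m → ZMod q | ¬ W (wdEnc v)} / (q : ℝ) ^ m) + q * m) *
        √(∑ v : Fin m → ZMod q, (#(wdC q m W l v) : ℝ) ^ 2) := by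
  refine le_trans ?_ (wd_step {v : Fin m → ZMod q | ¬ W (wdEnc v)}
    (fun v => (#(wdC q m W l v) : ℝ)) ?_)
  · apply Real.sqrt_le_sqrt
    have h1 : ∑ v : Fin m → ZMod q, (#(wdC q m W (l + 1) v) : ℝ) ^ 2 =
        ∑ v ∈ {v : Fin m → ZMod q | ¬ W (wdEnc v)}, (#(wdC q m W (l + 1) v) : ℝ) ^ 2 := by
      symm
      refine Finset.sum_subset (Finset.subset_univ _) fun v _ hv => ?_
      rw [Finset.mem_filter, not_and] at hv
      rw [wdC_empty (not_not.1 (hv (Finset.mem_univ _)))]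
      simp
    rw [h1]
    refine Finset.sum_le_sum fun v _ => ?_
    refine pow_le_pow_left₀ (by positivity) ?_ 2
    unfold wdAR
    have h2 := wdC_succ (q := q) (m := m) (W := W) (l := l) (v := v)
    beta_reduce
    exact_mod_cast h2
  · intro v hv
    rw [Finset.mem_filter, not_and] at hv
    rw [wdC_empty (not_not.1 (hv (Finset.mem_univ _)))]
    simp

/-- the factor of one step -/
private lemma wd_factor {b ε : ℝ} (hqm : 4 * m ^ 2 ≤ q) (hε0 : 0 ≤ ε)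
    (hε : 4 * ε ^ 2 * q ≤ 1) (hb0 : 0 ≤ b) (hb : b ≤ ε) :
    ((q : ℝ) ^ 2 * b + q * m) ^ 2 ≤ (q : ℝ) ^ 3 := by
  have hq0 : (0 : ℝ) < q := by exact_mod_cast hq.out.pos
  have hsq : (0 : ℝ) < √(q : ℝ) := Real.sqrt_pos.2 hq0
  have hss : √(q : ℝ) * √(q : ℝ) = q := Real.mul_self_sqrt hq0.le
  have h1 : 2 * b * √(q : ℝ) ≤ 1 := by
    have h3 : (2 * ε * √(q : ℝ)) ^ 2 ≤ 1 := by
      have : (2 * ε * √(q : ℝ)) ^ 2 = 4 * ε ^ 2 * (√(q : ℝ) * √(q : ℝ)) := by ring
      rw [this, hss]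
      exact hε
    have h4 : 2 * ε * √(q : ℝ) ≤ 1 := by
      have : 0 ≤ 2 * ε * √(q : ℝ) := by positivity
      nlinarith
    refine le_trans ?_ h4
    gcongr
  have h5 : 2 * (m : ℝ) ≤ √(q : ℝ) := by
    apply Real.le_sqrt_of_sq_le
    have : ((4 * m ^ 2 : ℕ) : ℝ) ≤ q := by exact_mod_cast hqm
    push_cast at this
    nlinarith
  have h6 : ((q : ℝ) ^ 2 * b + q * m) * √(q : ℝ) ≤ (q : ℝ) ^ 2 := by
    have h7 : (q : ℝ) * m * √(q : ℝ) ≤ (q : ℝ) ^ 2 / 2 := by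
      have : (q : ℝ) * m * √(q : ℝ) ≤ (q : ℝ) * (√(q : ℝ) / 2) * √(q : ℝ) := by
        gcongr
        linarith
      calc (q : ℝ) * m * √(q : ℝ) ≤ (q : ℝ) * (√(q : ℝ) / 2) * √(q : ℝ) := this
        _ = (q : ℝ) * (√(q : ℝ) * √(q : ℝ)) / 2 := by ring
        _ = (q : ℝ) ^ 2 / 2 := by rw [hss]; ring
    have h8 : (q : ℝ) ^ 2 * b * √(q : ℝ) ≤ (q : ℝ) ^ 2 / 2 := by
      have : (q : ℝ) ^ 2 * (2 * b * √(q : ℝ)) ≤ (q : ℝ) ^ 2 * 1 := by
        gcongr
      linarith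
    rw [add_mul]
    linarith
  have h9 : (((q : ℝ) ^ 2 * b + q * m) * √(q : ℝ)) ^ 2 ≤ ((q : ℝ) ^ 2) ^ 2 :=
    pow_le_pow_left₀ (by positivity) h6 2
  have h10 : ((q : ℝ) ^ 2 * b + q * m) ^ 2 * q ≤ (q : ℝ) ^ 3 * q := by
    calc ((q : ℝ) ^ 2 * b + q * m) ^ 2 * q
        = ((q : ℝ) ^ 2 * b + q * m) ^ 2 * (√(q : ℝ) * √(q : ℝ)) := by rw [hss]
      _ = (((q : ℝ) ^ 2 * b + q * m) * √(q : ℝ)) ^ 2 := by ring
      _ ≤ ((q : ℝ) ^ 2) ^ 2 := h9
      _ = (q : ℝ) ^ 3 * q := by ring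
  exact le_of_mul_le_mul_right h10 hq0

private lemma wd_sum_B (W : ℕ → Prop) (l : ℕ) (φ : ℕ → ℝ) (h0 : φ 0 = 0) :
    ∑ v : Fin m → ZMod q, φ (#(wdC q m W l v)) =
      ∑ v ∈ {v : Fin m → ZMod q | ¬ W (wdEnc v)}, φ (#(wdC q m W l v)) := by
  symm
  refine Finset.sum_subset (Finset.subset_univ _) fun v _ hv => ?_
  rw [Finset.mem_filter, not_and] at hv
  rw [wdC_empty (not_not.1 (hv (Finset.mem_univ _))), Finset.card_empty, h0]

/-- iteration -/
private lemma wd_iter {W : ℕ → Prop} {Λ : ℝ} (hΛ0 : 0 ≤ Λ)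
    (hΛ : (q : ℝ) ^ 2 * (#{v : Fin m → ZMod q | ¬ W (wdEnc v)} / (q : ℝ) ^ m) + q * m ≤ Λ) :
    ∀ l, √(∑ v : Fin m → ZMod q, (#(wdC q m W l v) : ℝ) ^ 2) ≤
      Λ ^ l * √(#{v : Fin m → ZMod q | ¬ W (wdEnc v)} : ℝ)
  | 0 => by
    rw [pow_zero, one_mul]
    apply Real.sqrt_le_sqrt
    rw [wd_sum_B W 0 (fun n => (n : ℝ) ^ 2) (by simp)]
    calc ∑ v ∈ {v : Fin m → ZMod q | ¬ W (wdEnc v)}, (#(wdC q m W 0 v) : ℝ) ^ 2
        ≤ ∑ v ∈ {v : Fin m → ZMod q | ¬ W (wdEnc v)}, (1 : ℝ) := by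
          refine Finset.sum_le_sum fun v _ => ?_
          have h2 : (#(wdC q m W 0 v) : ℝ) ≤ 1 := by exact_mod_cast wdC_zero
          exact pow_le_one₀ (by positivity) h2
      _ = (#{v : Fin m → ZMod q | ¬ W (wdEnc v)} : ℝ) := by
        rw [Finset.sum_const, nsmul_eq_mul, mul_one]
  | l + 1 => by
    refine (wd_count_succ l).trans ?_
    have ih := wd_iter hΛ0 hΛ l
    calc _ ≤ Λ * √(∑ v : Fin m → ZMod q, (#(wdC q m W l v) : ℝ) ^ 2) :=
          mul_le_mul_of_nonneg_right hΛ (Real.sqrt_nonneg _)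
      _ ≤ Λ * (Λ ^ l * √(#{v : Fin m → ZMod q | ¬ W (wdEnc v)} : ℝ)) :=
          mul_le_mul_of_nonneg_left ih hΛ0
      _ = Λ ^ (l + 1) * √(#{v : Fin m → ZMod q | ¬ W (wdEnc v)} : ℝ) := by
          rw [pow_succ', mul_assoc]

private lemma wd_total (W : ℕ → Prop) :
    (#{ω ∈ range (q ^ (3 * m)) | ∀ l ≤ m, ¬ W (pos q m ω l)}) =
      ∑ v : Fin m → ZMod q, #(wdC q m W m v) := by
  rw [Finset.card_eq_sum_card_fiberwise (t := univ) (f := fun ω => wdP q m ω m)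
    (fun _ _ => Finset.mem_coe.2 (Finset.mem_univ _))]
  refine Finset.sum_congr rfl fun v _ => ?_
  unfold wdC
  rw [Finset.filter_filter, show m + 2 * m = 3 * m by ring]

private lemma wd_total_sq {W : ℕ → Prop} {Λ : ℝ} (hΛ0 : 0 ≤ Λ)
    (hΛ : (q : ℝ) ^ 2 * (#{v : Fin m → ZMod q | ¬ W (wdEnc v)} / (q : ℝ) ^ m) + q * m ≤ Λ)
    (hΛ1 : Λ ^ 2 ≤ (q : ℝ) ^ 3) :
    (#{ω ∈ range (q ^ (3 * m)) | ∀ l ≤ m, ¬ W (pos q m ω l)} : ℝ) ^ 2 ≤ (q : ℝ) ^ (5 * m) := by
  have hB1 : (#{v : Fin m → ZMod q | ¬ W (wdEnc v)} : ℝ) ≤ (q : ℝ) ^ m := by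
    rw [← wd_card]
    exact_mod_cast Finset.card_le_univ _
  have h2 : (#{ω ∈ range (q ^ (3 * m)) | ∀ l ≤ m, ¬ W (pos q m ω l)} : ℝ) ^ 2 ≤
      #{v : Fin m → ZMod q | ¬ W (wdEnc v)} *
        ∑ v : Fin m → ZMod q, (#(wdC q m W m v) : ℝ) ^ 2 := by
    rw [wd_total]
    push_cast
    rw [wd_sum_B W m (fun n => (n : ℝ)) (by simp), wd_sum_B W m (fun n => (n : ℝ) ^ 2) (by simp)]
    have h3 := Finset.sum_mul_sq_le_sq_mul_sq {v : Fin m → ZMod q | ¬ W (wdEnc v)}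
      (fun _ => (1 : ℝ)) (fun v => (#(wdC q m W m v) : ℝ))
    simpa only [one_mul, one_pow, Finset.sum_const, nsmul_eq_mul, mul_one] using h3
  have h3 : ∑ v : Fin m → ZMod q, (#(wdC q m W m v) : ℝ) ^ 2 ≤
      (Λ ^ 2) ^ m * #{v : Fin m → ZMod q | ¬ W (wdEnc v)} := by
    have h4 := wd_iter hΛ0 hΛ m
    rw [Real.sqrt_le_left (by positivity)] at h4
    refine h4.trans (le_of_eq ?_)
    rw [mul_pow, Real.sq_sqrt (by positivity), ← pow_mul, ← pow_mul, mul_comm m 2]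
  have h5 : ((Λ ^ 2) ^ m : ℝ) ≤ ((q : ℝ) ^ 3) ^ m := pow_le_pow_left₀ (by positivity) hΛ1 m
  have h6 := h2.trans (mul_le_mul_of_nonneg_left h3 (by positivity))
  refine h6.trans ?_
  have h7 : (#{v : Fin m → ZMod q | ¬ W (wdEnc v)} : ℝ) *
      ((Λ ^ 2) ^ m * #{v : Fin m → ZMod q | ¬ W (wdEnc v)}) ≤
      (q : ℝ) ^ m * (((q : ℝ) ^ 3) ^ m * (q : ℝ) ^ m) := by
    gcongr
  refine h7.trans (le_of_eq ?_)
  rw [← pow_mul, ← pow_add, ← pow_add]
  congr 1
  ring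

/-- the number of bad walks -/
private lemma wd_bad (hqm : 4 * m ^ 2 ≤ q) (W : ℕ → Prop)
    (ε : ℝ) (hε0 : 0 ≤ ε) (hε : 4 * ε ^ 2 * q ≤ 1)
    (hW : (#{y ∈ range (q ^ m) | ¬ W y} : ℝ) ≤ ε * (q : ℝ) ^ m) :
    (#{ω ∈ range (q ^ (3 * m)) | ∀ l ≤ m, ¬ W (pos q m ω l)}) ^ 2 * q ^ m ≤
      (q ^ (3 * m)) ^ 2 := by
  have hq0 : (0 : ℝ) < q := by exact_mod_cast hq.out.pos
  have hqpos : (0 : ℝ) < (q : ℝ) ^ m := by positivity
  have hBcard : (#{v : Fin m → ZMod q | ¬ W (wdEnc v)} : ℝ) ≤ ε * (q : ℝ) ^ m := by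
    refine le_trans ?_ hW
    have h1 : #{v : Fin m → ZMod q | ¬ W (wdEnc v)} ≤ #{y ∈ range (q ^ m) | ¬ W y} := by
      refine Finset.card_le_card_of_injOn wdEnc ?_ (wd_enc_inj.injOn)
      intro v hv
      rw [Finset.mem_coe, Finset.mem_filter] at hv
      rw [Finset.mem_coe, Finset.mem_filter, Finset.mem_range]
      exact ⟨wd_enc_lt v, hv.2⟩
    exact_mod_cast h1
  have h2 : (#{v : Fin m → ZMod q | ¬ W (wdEnc v)} / (q : ℝ) ^ m : ℝ) ≤ ε := by
    rw [div_le_iff₀ hqpos]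
    exact hBcard
  have h3 := wd_factor (q := q) (m := m) hqm hε0 hε (by positivity) h2
  have h4 := wd_total_sq (q := q) (m := m) (W := W) (by positivity) le_rfl h3
  have hfin : (((#{ω ∈ range (q ^ (3 * m)) | ∀ l ≤ m, ¬ W (pos q m ω l)}) ^ 2 * q ^ m : ℕ) : ℝ) ≤
      (((q ^ (3 * m)) ^ 2 : ℕ) : ℝ) := by
    push_cast
    calc (#{ω ∈ range (q ^ (3 * m)) | ∀ l ≤ m, ¬ W (pos q m ω l)} : ℝ) ^ 2 * (q : ℝ) ^ m
        ≤ (q : ℝ) ^ (5 * m) * (q : ℝ) ^ m := mul_le_mul_of_nonneg_right h4 hqpos.le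
      _ = ((q : ℝ) ^ (3 * m)) ^ 2 := by
        rw [← pow_add, ← pow_mul]
        congr 1
        ring
  exact_mod_cast hfin

end WalkDenseCount

/-- union of seven shifts -/
private lemma wd_shifts {M Q : ℕ} (hQ : 1 < Q) (hM : M = Q ^ 3) (T : Finset ℕ)
    (h1 : (#T) ^ 2 * Q ≤ M ^ 2) :
    ∃ h : Fin 7 → ℕ, (∀ i, h i < M) ∧ ∀ ω < M, ∃ i, (ω + h i) % M ∉ T := by
  have hM0 : 0 < M := by rw [hM]; positivity
  by_contra hcon
  push Not at hcon
  have h7 : M ^ 7 ≤ M * (#T) ^ 7 := by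
    have h2 : (univ : Finset (Fin 7 → Fin M)) ⊆ (range M).biUnion fun ω =>
        Fintype.piFinset fun _ : Fin 7 => ({x : Fin M | (ω + x) % M ∈ T} : Finset (Fin M)) := by
      intro h _
      obtain ⟨ω, hω, hω'⟩ := hcon (fun i => (h i : ℕ)) (fun i => (h i).2)
      rw [Finset.mem_biUnion]
      refine ⟨ω, Finset.mem_range.2 hω, ?_⟩
      rw [Fintype.mem_piFinset]
      intro i
      rw [Finset.mem_filter]
      exact ⟨Finset.mem_univ _, hω' i⟩
    have h3 := (Finset.card_le_card h2).trans Finset.card_biUnion_le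
    have h4 : ∀ ω ∈ range M, #(Fintype.piFinset fun _ : Fin 7 =>
        ({x : Fin M | (ω + x) % M ∈ T} : Finset (Fin M))) ≤ (#T) ^ 7 := by
      intro ω _
      rw [Fintype.card_piFinset]
      simp only [Finset.prod_const, Finset.card_univ, Fintype.card_fin]
      refine Nat.pow_le_pow_left ?_ 7
      refine Finset.card_le_card_of_injOn (fun x : Fin M => (ω + x) % M) ?_ ?_
      · intro x hx
        rw [Finset.mem_coe, Finset.mem_filter] at hx
        exact Finset.mem_coe.2 hx.2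
      · intro x _ y _ hxy
        have h5 : (ω + x) ≡ (ω + y) [MOD M] := hxy
        have h6 := Nat.ModEq.add_left_cancel' ω h5
        have h8 : (x : ℕ) % M = (y : ℕ) % M := h6
        rw [Nat.mod_eq_of_lt x.2, Nat.mod_eq_of_lt y.2] at h8
        exact Fin.ext h8
    have h5 := h3.trans (Finset.sum_le_sum h4)
    simpa using h5
  have h8 : M ^ 6 ≤ (#T) ^ 7 := by
    have : M * M ^ 6 ≤ M * (#T) ^ 7 := by
      calc M * M ^ 6 = M ^ 7 := by ring
        _ ≤ _ := h7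
    exact Nat.le_of_mul_le_mul_left this hM0
  have h9 : (#T) ^ 14 * Q ^ 7 ≤ M ^ 14 := by
    calc (#T) ^ 14 * Q ^ 7 = ((#T) ^ 2 * Q) ^ 7 := by ring
      _ ≤ (M ^ 2) ^ 7 := Nat.pow_le_pow_left h1 7
      _ = M ^ 14 := by ring
  have h10 : M ^ 12 * Q ^ 7 ≤ M ^ 12 * M ^ 2 := by
    calc M ^ 12 * Q ^ 7 = (M ^ 6) ^ 2 * Q ^ 7 := by ring
      _ ≤ ((#T) ^ 7) ^ 2 * Q ^ 7 := Nat.mul_le_mul_right _ (Nat.pow_le_pow_left h8 2)
      _ = (#T) ^ 14 * Q ^ 7 := by ring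
      _ ≤ M ^ 14 := h9
      _ = M ^ 12 * M ^ 2 := by ring
  have h11 : Q ^ 7 ≤ M ^ 2 := Nat.le_of_mul_le_mul_left h10 (by positivity)
  rw [hM, ← pow_mul] at h11
  exact absurd h11 (not_le.2 (Nat.pow_lt_pow_right hQ (by norm_num)))

theorem am_dense {q m : ℕ} (hq : q.Prime) (hm : 0 < m) (hqm : 4 * m ^ 2 ≤ q) (W : ℕ → Prop)
    (ε : ℝ) (hε0 : 0 ≤ ε) (hε : 4 * ε ^ 2 * q ≤ 1)
    (hW : (#{y ∈ range (q ^ m) | ¬ W y} : ℝ) ≤ ε * (q : ℝ) ^ m) :
    ∃ h : Fin 7 → ℕ, (∀ i, h i < q ^ (3 * m)) ∧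
      ∀ ω < q ^ (3 * m), ∃ i, ∃ l ≤ m, W (pos q m ((ω + h i) % q ^ (3 * m)) l) := by
  have _ : Fact q.Prime := ⟨hq⟩
  have h1 := wd_bad (q := q) (m := m) hqm W ε hε0 hε hW
  have hQ : 1 < q ^ m := Nat.one_lt_pow hm.ne' hq.one_lt
  have hM : q ^ (3 * m) = (q ^ m) ^ 3 := by
    rw [← pow_mul]
    congr 1
    ring
  obtain ⟨h, hh, hh2⟩ := wd_shifts hQ hM _ h1
  refine ⟨h, hh, fun ω hω => ?_⟩
  obtain ⟨i, hi⟩ := hh2 ω hω
  refine ⟨i, ?_⟩
  by_contra hcon
  push Not at hcon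
  apply hi
  rw [Finset.mem_filter, Finset.mem_range]
  exact ⟨Nat.mod_lt _ (pow_pos hq.pos _), hcon⟩

end Pool.Agent.GAvg
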