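import Mathlib
import Pool.Agent.GAvg.Defs

/-!
# MP_a56640: union bound for the walk (sparse case)
-/

set_option autoImplicit false

namespace Pool.Agent.GAvg

open Finset
open scoped Classical

private theorem walkSparse_sum_lt {q : ℕ} (m : ℕ) (c : ℕ → ℕ) (hc : ∀ j < m, c j < q) :
    ∑ j ∈ range m, c j * q ^ j < q ^ m := by
  induction m with
  | zero => simp
  | succ m ih =>
    rw [sum_range_succ, pow_succ]
    have h1 := ih (fun j hj => hc j (by omega))
    have h2 := hc m (by omega)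
    have h3 : (c m + 1) * q ^ m ≤ q * q ^ m := Nat.mul_le_mul_right _ h2
    have h4 : (c m + 1) * q ^ m = c m * q ^ m + q ^ m := by ring
    have h5 : q ^ m * q = q * q ^ m := by ring
    omega

private theorem walkSparse_sum_inj {q : ℕ} (m : ℕ) (c c' : ℕ → ℕ) (hc : ∀ j < m, c j < q)
    (hc' : ∀ j < m, c' j < q)
    (h : ∑ j ∈ range m, c j * q ^ j = ∑ j ∈ range m, c' j * q ^ j) : ∀ j < m, c j = c' j := by
  induction m with
  | zero => intro j hj; omega
  | succ m ih =>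
    rw [sum_range_succ, sum_range_succ] at h
    have h1 := walkSparse_sum_lt m c (fun j hj => hc j (by omega))
    have h1' := walkSparse_sum_lt m c' (fun j hj => hc' j (by omega))
    have hpos : 0 < q ^ m := by omega
    have h2 := congrArg (· / q ^ m) h
    simp only [Nat.add_mul_div_right _ _ hpos, Nat.div_eq_of_lt h1, Nat.div_eq_of_lt h1',
      zero_add] at h2
    intro j hj
    rcases Nat.lt_succ_iff_lt_or_eq.mp hj with hj' | hj'
    · exact ih (fun j hj => hc j (by omega)) (fun j hj => hc' j (by omega))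
        (by rw [h2] at h; omega) j hj'
    · rw [hj']; exact h2

private theorem walkSparse_digits (q m a : ℕ) :
    ∑ j ∈ range m, dig q a j * q ^ j = a % q ^ m := by
  induction m with
  | zero => simp [Nat.mod_one]
  | succ m ih =>
    rw [sum_range_succ, ih, Nat.mod_pow_succ, dig]
    ring

private theorem walkSparse_dig_low {q m : ℕ} (hq : 0 < q) (a b j : ℕ) (hj : j < m) :
    dig q (a + q ^ m * b) j = dig q a j := by
  unfold dig
  obtain ⟨k, rfl⟩ := Nat.exists_eq_add_of_lt hj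
  have h1 : a + q ^ (j + k + 1) * b = a + q ^ j * (q * (q ^ k * b)) := by ring
  rw [h1, Nat.add_mul_div_left _ _ (pow_pos hq j), Nat.add_mul_mod_self_left]

private theorem walkSparse_dig_high {q m : ℕ} (hq : 0 < q) (a b j : ℕ) (ha : a < q ^ m) :
    dig q (a + q ^ m * b) (m + j) = dig q b j := by
  unfold dig
  rw [pow_add, ← Nat.div_div_eq_div_mul, Nat.add_mul_div_left _ _ (pow_pos hq m),
    Nat.div_eq_of_lt ha, zero_add]

private theorem walkSparse_inj {q m : ℕ} (hq : 0 < q) (b l a a' : ℕ) (ha : a < q ^ m)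
    (ha' : a' < q ^ m) (h : pos q m (a + q ^ m * b) l = pos q m (a' + q ^ m * b) l) : a = a' := by
  have h1 := walkSparse_sum_inj m _ _ (fun j _ => Nat.mod_lt _ hq) (fun j _ => Nat.mod_lt _ hq) h
  have h2 : ∀ j ∈ range m, dig q a j * q ^ j = dig q a' j * q ^ j := by
    intro j hj
    have hj' := mem_range.mp hj
    have h3 := h1 j hj'
    have e1 : ∀ i, dig q (a + q ^ m * b) (m + 2 * i) = dig q (a' + q ^ m * b) (m + 2 * i) :=
      fun i => by rw [walkSparse_dig_high hq a b _ ha, walkSparse_dig_high hq a' b _ ha']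
    have e2 : ∀ i, dig q (a + q ^ m * b) (m + 2 * i + 1)
        = dig q (a' + q ^ m * b) (m + 2 * i + 1) :=
      fun i => by
        rw [add_assoc, walkSparse_dig_high hq a b _ ha, walkSparse_dig_high hq a' b _ ha']
    simp only [walkSparse_dig_low hq _ b j hj', e1, e2] at h3
    have h4 : dig q a j ≡ dig q a' j [MOD q] := Nat.ModEq.add_right_cancel' _ h3
    have h5 : dig q a j = dig q a' j :=
      Nat.ModEq.eq_of_lt_of_lt h4 (Nat.mod_lt _ hq) (Nat.mod_lt _ hq)
    rw [h5]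
  have h3 := sum_congr rfl h2
  rw [walkSparse_digits, walkSparse_digits, Nat.mod_eq_of_lt ha, Nat.mod_eq_of_lt ha'] at h3
  exact h3

private theorem walkSparse_pos_lt {q m : ℕ} (hq : 0 < q) (ω l : ℕ) : pos q m ω l < q ^ m :=
  walkSparse_sum_lt m _ (fun _ _ => Nat.mod_lt _ hq)

private theorem walkSparse_count {q m : ℕ} (hq : 0 < q) (W : ℕ → Prop) (l : ℕ) :
    #{ω ∈ range (q ^ (3 * m)) | W (pos q m ω l)} ≤ q ^ (2 * m) * #{y ∈ range (q ^ m) | W y} := by
  have hqm : 0 < q ^ m := pow_pos hq m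
  have h1 : #{ω ∈ range (q ^ (3 * m)) | W (pos q m ω l)}
      ≤ #((range (q ^ (2 * m))) ×ˢ {y ∈ range (q ^ m) | W y}) := by
    refine card_le_card_of_injOn (fun ω => (ω / q ^ m, pos q m ω l)) ?_ ?_
    · intro ω hω
      simp only [coe_filter, mem_range, Set.mem_setOf_eq] at hω
      simp only [coe_product, coe_range, coe_filter, mem_range, Set.mem_prod, Set.mem_Iio,
        Set.mem_setOf_eq]
      refine ⟨?_, walkSparse_pos_lt hq _ _, hω.2⟩
      rw [Nat.div_lt_iff_lt_mul hqm, ← pow_add]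
      have : 2 * m + m = 3 * m := by ring
      rw [this]; exact hω.1
    · intro ω hω ω' hω' he
      simp only [Prod.mk.injEq] at he
      obtain ⟨he1, he2⟩ := he
      have e1 : ω % q ^ m + q ^ m * (ω / q ^ m) = ω := Nat.mod_add_div _ _
      have e2 : ω' % q ^ m + q ^ m * (ω / q ^ m) = ω' := by rw [he1]; exact Nat.mod_add_div _ _
      have h2 := walkSparse_inj hq (ω / q ^ m) l (ω % q ^ m) (ω' % q ^ m) (Nat.mod_lt _ hqm)
        (Nat.mod_lt _ hqm) (by rw [e1, e2]; exact he2)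
      rw [← e1, ← e2, h2]
  simpa [card_product] using h1

private theorem walkSparse_shift {M : ℕ} (hM : 0 < M) (V : ℕ → Prop) (s : ℕ) :
    #{ω ∈ range M | V ((ω + s) % M)} ≤ #{ω ∈ range M | V ω} := by
  refine card_le_card_of_injOn (fun ω => (ω + s) % M) ?_ ?_
  · intro ω hω
    simp only [coe_filter, mem_range, Set.mem_setOf_eq] at hω ⊢
    exact ⟨Nat.mod_lt _ hM, hω.2⟩
  · intro ω hω ω' hω' he
    simp only [coe_filter, mem_range, Set.mem_setOf_eq] at hω hω'
    exact Nat.ModEq.eq_of_lt_of_lt (Nat.ModEq.add_right_cancel' s he) hω.1 hω'.1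

theorem am_sparse {q m : ℕ} (hq : q.Prime) (hm : 0 < m) (W : ℕ → Prop)
    (ε : ℝ) (hε : 7 * (m + 1) * ε < 1)
    (hW : (#{y ∈ range (q ^ m) | W y} : ℝ) ≤ ε * (q : ℝ) ^ m) (h : Fin 7 → ℕ) :
    ∃ ω < q ^ (3 * m), ∀ i, ∀ l ≤ m, ¬ W (pos q m ((ω + h i) % q ^ (3 * m)) l) := by
  by_contra hcon
  push Not at hcon
  have hq0 : 0 < q := hq.pos
  have hM : 0 < q ^ (3 * m) := pow_pos hq0 _
  set B : Fin 7 × ℕ → Finset ℕ := fun p =>
    {ω ∈ range (q ^ (3 * m)) | W (pos q m ((ω + h p.1) % q ^ (3 * m)) p.2)} with hB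
  have h1 : range (q ^ (3 * m)) ⊆ (univ ×ˢ range (m + 1)).biUnion B := by
    intro ω hω
    obtain ⟨i, l, hl, hw⟩ := hcon ω (mem_range.mp hω)
    rw [mem_biUnion]
    exact ⟨(i, l), by simp; omega, by simp only [hB, mem_filter]; exact ⟨hω, hw⟩⟩
  have h2 : ∀ p : Fin 7 × ℕ, #(B p) ≤ q ^ (2 * m) * #{y ∈ range (q ^ m) | W y} := by
    intro p
    exact (walkSparse_shift hM (fun ω => W (pos q m ω p.2)) (h p.1)).trans
      (walkSparse_count hq0 W p.2)
  have h3 : q ^ (3 * m) ≤ 7 * (m + 1) * (q ^ (2 * m) * #{y ∈ range (q ^ m) | W y}) := by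
    have h4 := (card_le_card h1).trans card_biUnion_le
    have h5 := h4.trans (sum_le_sum (fun p _ => h2 p))
    simpa [card_product] using h5
  have h6 : ((q : ℝ) ^ (3 * m)) ≤ 7 * (m + 1) * ((q : ℝ) ^ (2 * m) * (ε * (q : ℝ) ^ m)) := by
    have h7 : ((q ^ (3 * m) : ℕ) : ℝ)
        ≤ ((7 * (m + 1) * (q ^ (2 * m) * #{y ∈ range (q ^ m) | W y}) : ℕ) : ℝ) :=
      Nat.cast_le.mpr h3
    push_cast at h7
    refine h7.trans ?_
    gcongr
  have hqR : (0 : ℝ) < (q : ℝ) ^ (3 * m) := by positivity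
  have h8 : 7 * ((m : ℝ) + 1) * ((q : ℝ) ^ (2 * m) * (ε * (q : ℝ) ^ m))
      = (7 * (m + 1) * ε) * (q : ℝ) ^ (3 * m) := by
    have : (q : ℝ) ^ (3 * m) = (q : ℝ) ^ (2 * m) * (q : ℝ) ^ m := by
      rw [← pow_add]; congr 1; ring
    rw [this]; ring
  rw [h8] at h6
  have h9 : (7 * (m + 1) * ε) * (q : ℝ) ^ (3 * m) < 1 * (q : ℝ) ^ (3 * m) :=
    mul_lt_mul_of_pos_right hε hqR
  linarith

end Pool.Agent.GAvg
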