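import Mathlib
import Pool.Agent.GAvg.Params
import Pool.Agent.GAvg.Geo
import Pool.Agent.GAvg.Lde
import Pool.Agent.GAvg.WalkDense
import Pool.Agent.GAvg.WalkSparse

/-!
# Decoding of the extension of low degree by bounded formulas
-/

set_option autoImplicit false

namespace Pool.Agent.GAvg

open Finset Filter Pool.Agent.Grz
open scoped Classical

/-- the value predicted at `y` -/
noncomputable def val0 (P : ℕ → ℕ → Prop) (n y : ℕ) : ℕ :=
  sInf {v | v < qL n ∧ P n (y + v * qL n ^ mL n)}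

/-- the test set of the decoding -/
def test0 (P : ℕ → ℕ → Prop) (n x ρ : ℕ) : Prop :=
  (∑ t ∈ range (qL n - 1), val0 P n (vadd (qL n) (mL n) (embed (qL n) (hL n) (mL n) x) (t + 1) ρ))
    % qL n ≠ 0

theorem val0_eq {P : ℕ → ℕ → Prop} {n y : ℕ} {G : ZMod (qL n)}
    (h : ∀ v < qL n, (P n (y + v * qL n ^ mL n) ↔ ((v : ℕ) : ZMod (qL n)) = G)) :
    ((val0 P n y : ℕ) : ZMod (qL n)) = G := by
  have : NeZero (qL n) := ⟨(qL_pos n).ne'⟩
  have hne : {v | v < qL n ∧ P n (y + v * qL n ^ mL n)}.Nonempty := by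
    refine ⟨G.val, ZMod.val_lt G, ?_⟩
    rw [h _ (ZMod.val_lt G)]
    exact ZMod.natCast_zmod_val G
  have hmem := Nat.sInf_mem hne
  exact (h _ hmem.1).mp hmem.2

theorem val0_lt {P : ℕ → ℕ → Prop} {n y : ℕ} : val0 P n y < qL n := by
  unfold val0
  rcases Set.eq_empty_or_nonempty {v | v < qL n ∧ P n (y + v * qL n ^ mL n)} with h | h
  · rw [h, Nat.sInf_empty]; exact qL_pos n
  · exact (Nat.sInf_mem h).1

theorem val0_count (P : ℕ → ℕ → Prop) (n : ℕ) (S : Finset ℕ) (η : ℝ)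
    (h : (#{w ∈ range (qL n ^ (mL n + 1)) | ¬ (P n w ↔ ((w / qL n ^ mL n : ℕ) : ZMod (qL n)) =
        lde (qL n) (hL n) (mL n) S (w % qL n ^ mL n))} : ℝ) ≤
      η * ((qL n ^ (mL n + 1) : ℕ) : ℝ)) :
    (#{y ∈ range (qL n ^ mL n) | ((val0 P n y : ℕ) : ZMod (qL n)) ≠
      lde (qL n) (hL n) (mL n) S y} : ℝ) ≤ (qL n * η) * (qL n : ℝ) ^ mL n := by
  have h1 : #{y ∈ range (qL n ^ mL n) | ((val0 P n y : ℕ) : ZMod (qL n)) ≠
      lde (qL n) (hL n) (mL n) S y} ≤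
      #{w ∈ range (qL n ^ (mL n + 1)) | ¬ (P n w ↔ ((w / qL n ^ mL n : ℕ) : ZMod (qL n)) =
        lde (qL n) (hL n) (mL n) S (w % qL n ^ mL n))} := by
    refine le_trans (Finset.card_le_card (t := ({w ∈ range (qL n ^ (mL n + 1)) |
      ¬ (P n w ↔ ((w / qL n ^ mL n : ℕ) : ZMod (qL n)) =
        lde (qL n) (hL n) (mL n) S (w % qL n ^ mL n))}).image (fun w => w % qL n ^ mL n)) ?_)
      Finset.card_image_le
    intro y hy
    rw [Finset.mem_filter, Finset.mem_range] at hy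
    obtain ⟨hy1, hy2⟩ := hy
    have h3 : ∃ v < qL n, ¬ (P n (y + v * qL n ^ mL n) ↔ ((v : ℕ) : ZMod (qL n)) =
        lde (qL n) (hL n) (mL n) S y) := by
      by_contra hcon
      push Not at hcon
      exact hy2 (val0_eq hcon)
    obtain ⟨v, hv, hbad⟩ := h3
    have hpos : 0 < qL n ^ mL n := pow_pos (qL_pos n) _
    have e1 : (y + v * qL n ^ mL n) % qL n ^ mL n = y := by
      rw [Nat.add_mul_mod_self_right, Nat.mod_eq_of_lt hy1]
    have e2 : (y + v * qL n ^ mL n) / qL n ^ mL n = v := by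
      rw [Nat.add_mul_div_right _ _ hpos, Nat.div_eq_of_lt hy1, Nat.zero_add]
    rw [Finset.mem_image]
    refine ⟨y + v * qL n ^ mL n, ?_, e1⟩
    rw [Finset.mem_filter, Finset.mem_range, e1, e2]
    refine ⟨?_, hbad⟩
    calc y + v * qL n ^ mL n < qL n ^ mL n + v * qL n ^ mL n := by omega
      _ = (v + 1) * qL n ^ mL n := by ring
      _ ≤ qL n * qL n ^ mL n := Nat.mul_le_mul_right _ hv
      _ = qL n ^ (mL n + 1) := by ring
  refine le_trans (Nat.cast_le.mpr h1) (h.trans (le_of_eq ?_))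
  push_cast
  ring

/-- correctness of the decoding -/
theorem am_iff {P : ℕ → ℕ → Prop} {R : ℕ → Prop} {n : ℕ} {η : ℝ} (hη : 0 ≤ η)
    (h : (#{w ∈ range (qL n ^ (mL n + 1)) | ¬ (P n w ↔ ((w / qL n ^ mL n : ℕ) : ZMod (qL n)) =
        lde (qL n) (hL n) (mL n) {z ∈ range n | R z} (w % qL n ^ mL n))} : ℝ) ≤
      η * ((qL n ^ (mL n + 1) : ℕ) : ℝ))
    (h1 : 4 * (qL n * (qL n * η)) ^ 2 * qL n ≤ 1)
    (h2 : 7 * (mL n + 1) * (qL n * (qL n * η)) < 1) {x : ℕ} (hx : x < n) :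
    (∃ g : Fin 7 → ℕ, (∀ i, g i < qL n ^ (3 * mL n)) ∧
      ∀ ω < qL n ^ (3 * mL n), ∃ i, ∃ l ≤ mL n,
        test0 P n x (pos (qL n) (mL n) ((ω + g i) % qL n ^ (3 * mL n)) l)) ↔ R x := by
  have hcount := val0_count P n {z ∈ range n | R z} η h
  have hS : ∀ z ∈ ({z ∈ range n | R z} : Finset ℕ), z < hL n ^ mL n := by
    intro z hz
    rw [Finset.mem_filter, Finset.mem_range] at hz
    exact hz.1.trans (lt_hL_pow n)
  have hdec := lde_decode (qL_prime n) (hL_pos n) (hL_le_qL n) (deg_lt n) {z ∈ range n | R z} hS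
    (fun y => val0 P n y) (qL n * η) hcount x (hx.trans (lt_hL_pow n))
  have hε0 : 0 ≤ (qL n : ℝ) * (qL n * η) := by positivity
  constructor
  · rintro ⟨g, hg, hall⟩
    by_contra hR
    have hxS : x ∉ ({z ∈ range n | R z} : Finset ℕ) := by
      rw [Finset.mem_filter]; tauto
    obtain ⟨ω, hω, hno⟩ := am_sparse (qL_prime n) (mL_pos n) (fun ρ => test0 P n x ρ)
      (qL n * (qL n * η)) h2 (by convert hdec.2 hxS) g
    obtain ⟨i, l, hl, hW⟩ := hall ω hω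
    exact hno i l hl hW
  · intro hR
    have hxS : x ∈ ({z ∈ range n | R z} : Finset ℕ) := by
      rw [Finset.mem_filter, Finset.mem_range]; exact ⟨hx, hR⟩
    obtain ⟨g, hg, hall⟩ := am_dense (qL_prime n) (mL_pos n) (four_mL_sq n)
      (fun ρ => test0 P n x ρ) (qL n * (qL n * η)) hε0 h1 (by convert hdec.1 hxS)
    exact ⟨g, hg, hall⟩

theorem qL_polyB : PolyB qL := by
  refine (qL_pow_polyB 1 1).mono (Eventually.of_forall fun n => ?_)
  exact Nat.le_self_pow (by omega) _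

/-- the decoding is definable -/
theorem test0F {S : ℕ → Prop} {P : ℕ → ℕ → Prop}
    (hP : NUP 1 (fun n v => S n ∧ v 0 < qL n ^ (mL n + 1)) (fun n v => P n (v 0))) :
    NUP 2 (fun n w => (S n ∧ w 1 < n) ∧ w 0 < qL n ^ mL n) (fun n w => test0 P n (w 1) (w 0)) := by
  have hval : NUF 1 (fun n v => S n ∧ v 0 < qL n ^ mL n) (fun n v => val0 P n (v 0)) := by
    refine NUF.least (B := fun n _ => qL n) (R := fun n x v => P n (v 0 + x * qL n ^ mL n))
      (NUF.param qL_polyB) ?_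
    refine NUP.comp1 (K := fun n x => S n ∧ x < qL n ^ (mL n + 1)) (G := fun n x => P n x) hP
      (f₁ := fun n w => w 1 + w 0 * qL n ^ mL n) ?_ ?_
    · refine NUF.add (NUF.proj 1) (NUF.mul (NUF.proj 0) (NUF.param ?_))
      simpa using qL_pow_polyB 1 0
    · refine Eventually.of_forall fun n v hv => ?_
      obtain ⟨⟨hS, h1⟩, h2⟩ := hv
      refine ⟨hS, ?_⟩
      have h1' : v 1 < qL n ^ mL n := h1
      calc v 1 + v 0 * qL n ^ mL n < qL n ^ mL n + v 0 * qL n ^ mL n := by omega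
        _ = (v 0 + 1) * qL n ^ mL n := by ring
        _ ≤ qL n * qL n ^ mL n := Nat.mul_le_mul_right _ h2
        _ = qL n ^ (mL n + 1) := by ring
  have hle : ∀ᶠ n in atTop, mL n ≤ 3 * mL n := Eventually.of_forall fun n => by omega
  refine NUP.not (NUP.eqFun ?_ (NUF.const 0))
  refine NUF.sumMod 12 12 (p := qL) (Eventually.of_forall qL_pos) qL_polylog
    (U := fun n _ => qL n - 1)
    (g := fun n t w => val0 P n (vadd (qL n) (mL n) (embed (qL n) (hL n) (mL n) (w 1)) (t + 1) (w 0)))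
    (NUF.param (qL_polyB.mono (Eventually.of_forall fun n => Nat.sub_le _ _))) ?_ ?_
  · filter_upwards [qL_polylog] with n hn v _
    exact (Nat.sub_le _ _).trans hn
  · refine NUF.comp1 (K := fun n x => S n ∧ x < qL n ^ mL n) (G := fun n x => val0 P n x) hval
      (f₁ := fun n w => vadd (qL n) (mL n) (embed (qL n) (hL n) (mL n) (w 2)) (w 0 + 1) (w 1)) ?_ ?_
    · exact vaddF baseQ hle (embedF baseQ baseH hle (Eventually.of_forall fun n => le_rfl)
        (Eventually.of_forall hL_le_qL) (NUF.proj 2)) (NUF.add (NUF.proj 0) (NUF.const 1))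
        (NUF.proj 1)
    · refine Eventually.of_forall fun n v hv => ⟨hv.1.1.1, ?_⟩
      exact sum_lt (qL_pos n) _ fun i _ => Nat.mod_lt _ (qL_pos n)

/-- the final error rates are small enough -/
theorem error0 (K : ℝ) (hK : 0 ≤ K) : ∀ᶠ n in atTop,
    4 * ((qL n : ℝ) * (qL n * (K / (tt n : ℝ) ^ 30))) ^ 2 * qL n ≤ 1 ∧
    7 * ((mL n : ℝ) + 1) * (qL n * (qL n * (K / (tt n : ℝ) ^ 30))) < 1 := by
  obtain ⟨T, hT⟩ := exists_nat_gt (4 * 2048 ^ 5 * (K + 1) ^ 2)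
  filter_upwards [tt_tendsto.eventually_ge_atTop T] with n hn
  have ht : (4 * 2048 ^ 5 * (K + 1) ^ 2 : ℝ) ≤ tt n := hT.le.trans (by exact_mod_cast hn)
  have ht1 : (1 : ℝ) ≤ tt n := by exact_mod_cast tt_pos n
  have ht0 : (0 : ℝ) < tt n := by linarith
  have hq : (qL n : ℝ) ≤ 2048 * (tt n : ℝ) ^ 10 := by exact_mod_cast qL_le_tt n
  have hq0 : (0 : ℝ) < qL n := by exact_mod_cast qL_pos n
  have hm : (mL n : ℝ) + 1 ≤ 2 * (tt n : ℝ) ^ 2 := by
    have h1 := mL_le n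
    have h2 := lg_lt_tt_sq n
    have h3 : 1 ≤ tt n ^ 2 := Nat.one_le_pow _ _ (tt_pos n)
    have : mL n + 1 ≤ 2 * tt n ^ 2 := by omega
    exact_mod_cast this
  have hε : (qL n : ℝ) * (qL n * (K / (tt n : ℝ) ^ 30)) ≤ 2048 ^ 2 * K / (tt n : ℝ) ^ 10 := by
    calc (qL n : ℝ) * (qL n * (K / (tt n : ℝ) ^ 30))
        = (qL n : ℝ) ^ 2 * (K / (tt n : ℝ) ^ 30) := by ring
      _ ≤ (2048 * (tt n : ℝ) ^ 10) ^ 2 * (K / (tt n : ℝ) ^ 30) := by
          gcongr
      _ = 2048 ^ 2 * K / (tt n : ℝ) ^ 10 := by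
          field_simp
  have hε0 : 0 ≤ (qL n : ℝ) * (qL n * (K / (tt n : ℝ) ^ 30)) := by positivity
  constructor
  · calc 4 * ((qL n : ℝ) * (qL n * (K / (tt n : ℝ) ^ 30))) ^ 2 * qL n
        ≤ 4 * (2048 ^ 2 * K / (tt n : ℝ) ^ 10) ^ 2 * (2048 * (tt n : ℝ) ^ 10) := by
          gcongr
      _ = (4 * 2048 ^ 5 * K ^ 2) / (tt n : ℝ) ^ 10 := by
          field_simp
      _ ≤ 1 := by
          rw [div_le_one (by positivity)]
          calc 4 * 2048 ^ 5 * K ^ 2 ≤ 4 * 2048 ^ 5 * (K + 1) ^ 2 := by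
                gcongr; linarith
            _ ≤ (tt n : ℝ) := ht
            _ ≤ (tt n : ℝ) ^ 10 := le_self_pow₀ ht1 (by norm_num)
  · calc 7 * ((mL n : ℝ) + 1) * (qL n * (qL n * (K / (tt n : ℝ) ^ 30)))
        ≤ 7 * (2 * (tt n : ℝ) ^ 2) * (2048 ^ 2 * K / (tt n : ℝ) ^ 10) := by
          gcongr
      _ = (14 * 2048 ^ 2 * K) / (tt n : ℝ) ^ 8 := by
          field_simp; ring
      _ < 1 := by
          rw [div_lt_one (by positivity)]
          calc 14 * 2048 ^ 2 * K < 4 * 2048 ^ 5 * (K + 1) ^ 2 := by nlinarith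
            _ ≤ (tt n : ℝ) := ht
            _ ≤ (tt n : ℝ) ^ 8 := le_self_pow₀ ht1 (by norm_num)

theorem step0 {S : ℕ → Prop} (h : ∀ j : ℕ, ∃ K : ℝ, ∀ (F : ℕ → ℕ → Prop) (D : ℕ → ℕ), Fam F D →
      Appr S F D (fun n => K / (tt n : ℝ) ^ j))
    {R : ℕ → Prop} (hR : E2Star 1 (fun v => R (v 0))) :
    NUP 1 (fun n v => S n ∧ v 0 < n) (fun _ v => R (v 0)) := by
  obtain ⟨K, hK⟩ := h 30
  obtain ⟨P, hP, herr⟩ := hK _ _ (fam_lde hR)
  have ham := amF (C := fun n v => S n ∧ v 0 < n) baseQ (Eventually.of_forall fun n => le_rfl) 12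
    qL_polylog mL_polylog (W := fun n ρ v => test0 P n (v 0) ρ) (test0F hP)
  refine ham.congr ?_
  filter_upwards [herr, error0 (max K 0) (le_max_right _ _)] with n hn hε v hv
  have hn' := hn hv.1
  refine (am_iff (η := max K 0 / (tt n : ℝ) ^ 30) (by positivity) ?_ hε.1 hε.2 hv.2).symm
  have h3 : K / (tt n : ℝ) ^ 30 * ((qL n ^ (mL n + 1) : ℕ) : ℝ) ≤
      max K 0 / (tt n : ℝ) ^ 30 * ((qL n ^ (mL n + 1) : ℕ) : ℝ) := by
    gcongr
    exact le_max_left _ _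
  refine le_trans (le_of_eq ?_) (hn'.trans h3)
  congr!

end Pool.Agent.GAvg
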