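import Pool.Agent.GAvg.Defs

/-!
# Error reduction with pairwise independent segments and votes
-/

set_option autoImplicit false

namespace Pool.Agent.GAvg

open Finset
open scoped Classical

/-- affine bijection modulo `M` -/
theorem segments_sum_affine {M : ℕ} (hM : 0 < M) (a c : ℕ) (ha : Nat.Coprime M a) (f : ℕ → ℝ) :
    ∑ r ∈ range M, f ((c + a * r) % M) = ∑ r ∈ range M, f r := by
  have hinj : Set.InjOn (fun r => (c + a * r) % M) (range M : Set ℕ) := by
    intro r hr r' hr' h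
    have h1 : c + a * r ≡ c + a * r' [MOD M] := h
    have h2 := Nat.ModEq.add_left_cancel' c h1
    have h3 := Nat.ModEq.cancel_left_of_coprime ha h2
    simp only [coe_range, Set.mem_Iio] at hr hr'
    exact Nat.ModEq.eq_of_lt_of_lt h3 hr hr'
  have himg : (range M).image (fun r => (c + a * r) % M) = range M := by
    refine Finset.eq_of_subset_of_card_le ?_ (by rw [card_image_of_injOn hinj])
    intro y hy
    rw [mem_image] at hy
    obtain ⟨r, _, rfl⟩ := hy
    exact mem_range.mpr (Nat.mod_lt _ hM)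
  conv_rhs => rw [← himg]
  rw [sum_image hinj]

theorem segments_sum_shift {M : ℕ} (hM : 0 < M) (c : ℕ) (f : ℕ → ℝ) :
    ∑ x ∈ range M, f ((x + c) % M) = ∑ x ∈ range M, f x := by
  rw [← segments_sum_affine hM 1 c (Nat.coprime_one_right M) f]
  refine sum_congr rfl fun x _ => ?_
  rw [one_mul, add_comm]

theorem segments_pair {M : ℕ} (hM : M.Prime) {i j : ℕ} (hi : i < M) (hj : j < M) (hij : i ≠ j)
    (f g : ℕ → ℝ) :
    ∑ x ∈ range M, ∑ r ∈ range M, f ((x + i * r) % M) * g ((x + j * r) % M) =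
      (∑ x ∈ range M, f x) * ∑ x ∈ range M, g x := by
  have hd : Nat.Coprime M (j + M - i) := by
    rw [Nat.Prime.coprime_iff_not_dvd hM]
    intro h
    rcases lt_or_gt_of_ne hij with h1 | h1
    · have e : j + M - i = M + (j - i) := by omega
      rw [e, Nat.dvd_add_right (dvd_refl M)] at h
      have := Nat.le_of_dvd (by omega) h
      omega
    · have := Nat.le_of_dvd (by omega) h
      omega
  rw [sum_comm]
  have h1 : ∀ r ∈ range M, ∑ x ∈ range M, f ((x + i * r) % M) * g ((x + j * r) % M) =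
      ∑ x ∈ range M, f x * g ((x + (j + M - i) * r) % M) := by
    intro r _
    rw [← segments_sum_shift hM.pos (i * r) fun x => f x * g ((x + (j + M - i) * r) % M)]
    refine sum_congr rfl fun x _ => ?_
    congr 2
    rw [Nat.mod_add_mod, add_assoc, ← add_mul]
    have : i + (j + M - i) = j + M := by omega
    rw [this, add_mul, ← add_assoc, Nat.add_mul_mod_self_left]
  rw [sum_congr rfl h1, sum_comm, sum_mul]
  refine sum_congr rfl fun x _ => ?_
  rw [← mul_sum, segments_sum_affine hM.pos _ _ hd]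

theorem segments_comm4 (A B C D : Finset ℕ) (a : ℕ → ℕ → ℕ → ℕ → ℝ) :
    ∑ x ∈ A, ∑ r ∈ B, ∑ i ∈ C, ∑ j ∈ D, a x r i j =
      ∑ i ∈ C, ∑ j ∈ D, ∑ x ∈ A, ∑ r ∈ B, a x r i j :=
  calc ∑ x ∈ A, ∑ r ∈ B, ∑ i ∈ C, ∑ j ∈ D, a x r i j
      = ∑ x ∈ A, ∑ i ∈ C, ∑ r ∈ B, ∑ j ∈ D, a x r i j := sum_congr rfl fun _ _ => sum_comm
    _ = ∑ x ∈ A, ∑ i ∈ C, ∑ j ∈ D, ∑ r ∈ B, a x r i j :=
        sum_congr rfl fun _ _ => sum_congr rfl fun _ _ => sum_comm
    _ = ∑ i ∈ C, ∑ x ∈ A, ∑ j ∈ D, ∑ r ∈ B, a x r i j := sum_comm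
    _ = ∑ i ∈ C, ∑ j ∈ D, ∑ x ∈ A, ∑ r ∈ B, a x r i j := sum_congr rfl fun _ _ => sum_comm

theorem segments_var {M n : ℕ} (hM : M.Prime) (hn : n ≤ M) (g : ℕ → ℝ)
    (hg : ∑ x ∈ range M, g x = 0) :
    ∑ x ∈ range M, ∑ r ∈ range M, (∑ i ∈ range n, g ((x + i * r) % M)) ^ 2 =
      n * (M * ∑ x ∈ range M, g x ^ 2) := by
  have h1 : ∑ x ∈ range M, ∑ r ∈ range M, (∑ i ∈ range n, g ((x + i * r) % M)) ^ 2 =
      ∑ i ∈ range n, ∑ j ∈ range n, ∑ x ∈ range M, ∑ r ∈ range M,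
        g ((x + i * r) % M) * g ((x + j * r) % M) := by
    rw [← segments_comm4]
    refine sum_congr rfl fun x _ => sum_congr rfl fun r _ => ?_
    rw [sq, sum_mul_sum]
  have h2 : ∀ i ∈ range n, ∑ j ∈ range n, ∑ x ∈ range M, ∑ r ∈ range M,
        g ((x + i * r) % M) * g ((x + j * r) % M) = M * ∑ x ∈ range M, g x ^ 2 := by
    intro i hi
    have hi' := mem_range.mp hi
    rw [sum_eq_single i]
    · rw [sum_comm]
      have h3 : ∀ r ∈ range M, ∑ x ∈ range M, g ((x + i * r) % M) * g ((x + i * r) % M) =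
          ∑ x ∈ range M, g x ^ 2 := by
        intro r _
        rw [← segments_sum_shift hM.pos (i * r) fun x => g x ^ 2]
        exact sum_congr rfl fun x _ => (sq _).symm
      rw [sum_congr rfl h3, sum_const, card_range, nsmul_eq_mul]
    · intro j hj hij
      have hj' := mem_range.mp hj
      rw [segments_pair hM (by omega) (by omega) hij.symm, hg, zero_mul]
    · intro h
      exact absurd hi h
  rw [h1, sum_congr rfl h2, sum_const, card_range, nsmul_eq_mul]

theorem segments_card (s : Finset ℕ) (A : ℕ → Prop) :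
    (#{x ∈ s | A x} : ℝ) = ∑ x ∈ s, if A x then (1 : ℝ) else 0 := by
  rw [card_filter]
  push_cast
  rfl

theorem segments_var_ind {M n : ℕ} (hM : M.Prime) (hn : n ≤ M) (A : ℕ → Prop) (μ : ℝ)
    (hμ : μ = (#{x ∈ range M | A x} : ℝ)) :
    ∑ x ∈ range M, ∑ r ∈ range M, ((#{i ∈ range n | A ((x + i * r) % M)} : ℝ) - n * (μ / M)) ^ 2 =
      n * (M * (μ - μ ^ 2 / M)) := by
  have hM0 : (M : ℝ) ≠ 0 := by exact_mod_cast hM.pos.ne'
  set g : ℕ → ℝ := fun x => (if A x then (1 : ℝ) else 0) - μ / M with hg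
  have h1 : ∑ x ∈ range M, g x = 0 := by
    rw [hg, sum_sub_distrib, ← segments_card, ← hμ, sum_const, card_range, nsmul_eq_mul]
    field_simp
    ring
  have h2 := segments_var hM hn g h1
  have h3 : ∀ x r : ℕ, ∑ i ∈ range n, g ((x + i * r) % M) =
      (#{i ∈ range n | A ((x + i * r) % M)} : ℝ) - n * (μ / M) := by
    intro x r
    rw [hg]
    simp only
    rw [sum_sub_distrib, segments_card, sum_const, card_range, nsmul_eq_mul]
  simp only [h3] at h2
  rw [h2]
  congr 2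
  have h4 : ∀ x ∈ range M, g x ^ 2 = (if A x then (1 : ℝ) else 0) * (1 - 2 * (μ / M)) + (μ / M) ^ 2 := by
    intro x _
    rw [hg]
    simp only
    split_ifs <;> ring
  rw [sum_congr rfl h4, sum_add_distrib, ← sum_mul, ← segments_card, ← hμ, sum_const, card_range,
    nsmul_eq_mul]
  field_simp
  ring

theorem segments_mod_cancel {M x r : ℕ} (hr : r < M) (hx : x < M) (i : ℕ) :
    ((x + i * (M - r)) % M + i * r) % M = x := by
  rw [Nat.mod_add_mod, add_assoc, ← mul_add, Nat.sub_add_cancel hr.le, Nat.add_mul_mod_self_right,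
    Nat.mod_eq_of_lt hx]

/-- few points see many bad pairs -/
theorem segments_T {M t : ℕ} (hM : M.Prime) (ht : 0 < t) (htM : t < M) (Bad : ℕ → ℕ → Prop) (η : ℝ)
    (hη : η ≤ 1 / 256)
    (hB : (#{w ∈ range M ×ˢ range M | Bad w.1 w.2} : ℝ) ≤ 16 * η * (M : ℝ) ^ 2) (T : ℕ → Prop)
    (hT : ∀ x, T x ↔ t * M < 8 * #{w ∈ range t ×ˢ range M | Bad ((x + w.1 * (M - w.2)) % M) w.2}) :
    (#{x ∈ range M | T x} : ℝ) * t ≤ 4096 * η * M := by
  set μ : ℝ := (#{x ∈ range M | T x} : ℝ) with hμ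
  set b : ℝ := (#{w ∈ range M ×ˢ range M | Bad w.1 w.2} : ℝ) with hb
  have hM0 : (0 : ℝ) < M := by exact_mod_cast hM.pos
  have ht0 : (0 : ℝ) < t := by exact_mod_cast ht
  have hμ0 : 0 ≤ μ := by rw [hμ]; positivity
  have hb0 : 0 ≤ b := by rw [hb]; positivity
  have hη0 : 0 ≤ η := by
    have : 0 ≤ 16 * η * (M : ℝ) ^ 2 := hb0.trans hB
    by_contra h
    push Not at h
    have : 16 * η * (M : ℝ) ^ 2 < 0 := by
      have : (0 : ℝ) < (M : ℝ) ^ 2 := by positivity
      nlinarith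
    linarith
  have hvar := segments_var_ind hM htM.le T μ hμ
  set Z : ℕ × ℕ → ℝ := fun w => (#{i ∈ range t | T ((w.1 + i * w.2) % M)} : ℝ) with hZ
  set B : ℕ × ℕ → ℝ := fun w => if Bad w.1 w.2 then (1 : ℝ) else 0 with hBdef
  have hbsum : b = ∑ w ∈ range M ×ˢ range M, B w := by
    rw [hb, card_filter]
    push_cast
    rfl
  -- lower bound
  have hlow : μ * (t * M / 8) ≤ ∑ w ∈ range M ×ˢ range M, B w * Z w := by
    have h1 : ∑ w ∈ range M ×ˢ range M, B w * Z w =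
        ∑ x ∈ range M, (if T x then (1 : ℝ) else 0) *
          (#{w ∈ range t ×ˢ range M | Bad ((x + w.1 * (M - w.2)) % M) w.2} : ℝ) := by
      have e1 : ∑ w ∈ range M ×ˢ range M, B w * Z w =
          ∑ r ∈ range M, ∑ i ∈ range t, ∑ x ∈ range M,
            (if Bad x r then (1 : ℝ) else 0) * (if T ((x + i * r) % M) then (1 : ℝ) else 0) := by
        rw [sum_product, sum_comm]
        refine sum_congr rfl fun r _ => ?_
        rw [sum_comm]
        refine sum_congr rfl fun x _ => ?_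
        rw [← mul_sum, hZ, hBdef]
        simp only
        rw [segments_card]
      have e2 : ∀ r ∈ range M, ∀ i ∈ range t, ∑ x ∈ range M,
            (if Bad x r then (1 : ℝ) else 0) * (if T ((x + i * r) % M) then (1 : ℝ) else 0) =
          ∑ x ∈ range M, (if T x then (1 : ℝ) else 0) *
            (if Bad ((x + i * (M - r)) % M) r then (1 : ℝ) else 0) := by
        intro r hr i _
        rw [← segments_sum_shift hM.pos (i * (M - r)) fun x =>
          (if Bad x r then (1 : ℝ) else 0) * (if T ((x + i * r) % M) then (1 : ℝ) else 0)]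
        refine sum_congr rfl fun x hx => ?_
        rw [segments_mod_cancel (mem_range.mp hr) (mem_range.mp hx), mul_comm]
      rw [e1, sum_congr rfl fun r hr => sum_congr rfl (e2 r hr)]
      have e3 : ∀ x ∈ range M, (if T x then (1 : ℝ) else 0) *
          (#{w ∈ range t ×ˢ range M | Bad ((x + w.1 * (M - w.2)) % M) w.2} : ℝ) =
          ∑ i ∈ range t, ∑ r ∈ range M, (if T x then (1 : ℝ) else 0) *
            (if Bad ((x + i * (M - r)) % M) r then (1 : ℝ) else 0) := by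
        intro x _
        rw [card_filter]
        push_cast
        rw [sum_product, mul_sum]
        refine sum_congr rfl fun i _ => ?_
        rw [mul_sum]
      rw [sum_congr rfl e3]
      have e4 : ∑ x ∈ range M, ∑ i ∈ range t, ∑ r ∈ range M, (if T x then (1 : ℝ) else 0) *
            (if Bad ((x + i * (M - r)) % M) r then (1 : ℝ) else 0) =
          ∑ i ∈ range t, ∑ x ∈ range M, ∑ r ∈ range M, (if T x then (1 : ℝ) else 0) *
            (if Bad ((x + i * (M - r)) % M) r then (1 : ℝ) else 0) := sum_comm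
      rw [e4, sum_comm]
      refine sum_congr rfl fun i _ => ?_
      rw [sum_comm]
    rw [h1, hμ, segments_card, sum_mul]
    refine sum_le_sum fun x _ => ?_
    split_ifs with hx
    · rw [one_mul, one_mul]
      rw [hT] at hx
      have : ((t * M : ℕ) : ℝ) < ((8 * #{w ∈ range t ×ˢ range M |
        Bad ((x + w.1 * (M - w.2)) % M) w.2} : ℕ) : ℝ) := by exact_mod_cast hx
      push_cast at this
      linarith
    · simp
  -- Cauchy-Schwarz
  set D : ℝ := ∑ w ∈ range M ×ˢ range M, B w * (Z w - t * (μ / M)) with hD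
  have hsplit : ∑ w ∈ range M ×ˢ range M, B w * Z w = D + t * (μ / M) * b := by
    rw [hD, hbsum, mul_sum, ← sum_add_distrib]
    refine sum_congr rfl fun w _ => ?_
    ring
  have hCS : D ^ 2 ≤ b * (t * (M * (μ - μ ^ 2 / M))) := by
    have h1 := Finset.sum_mul_sq_le_sq_mul_sq (range M ×ˢ range M) B (fun w => Z w - t * (μ / M))
    have h2 : ∑ w ∈ range M ×ˢ range M, B w ^ 2 = b := by
      rw [hbsum]
      refine sum_congr rfl fun w _ => ?_
      rw [hBdef]
      simp only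
      split_ifs <;> norm_num
    have h3 : ∑ w ∈ range M ×ˢ range M, (Z w - t * (μ / M)) ^ 2 = t * (M * (μ - μ ^ 2 / M)) := by
      rw [sum_product]
      exact hvar
    rw [h2, h3] at h1
    exact h1
  have hCS' : D ^ 2 ≤ 16 * η * (M : ℝ) ^ 2 * (t * (M * μ)) := by
    refine hCS.trans ?_
    have h1 : 0 ≤ μ ^ 2 / M := by positivity
    have h2 : (t : ℝ) * (M * (μ - μ ^ 2 / M)) ≤ t * (M * μ) := by
      have : (M : ℝ) * (μ - μ ^ 2 / M) ≤ M * μ := mul_le_mul_of_nonneg_left (by linarith) hM0.le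
      exact mul_le_mul_of_nonneg_left this ht0.le
    calc b * (t * (M * (μ - μ ^ 2 / M))) ≤ b * (t * (M * μ)) := mul_le_mul_of_nonneg_left h2 hb0
      _ ≤ 16 * η * (M : ℝ) ^ 2 * (t * (M * μ)) := mul_le_mul_of_nonneg_right hB (by positivity)
  have hDlow : μ * t * M / 16 ≤ D := by
    have h1 : (t : ℝ) * (μ / M) * b ≤ μ * t * M / 16 := by
      calc (t : ℝ) * (μ / M) * b ≤ t * (μ / M) * (16 * η * (M : ℝ) ^ 2) :=
            mul_le_mul_of_nonneg_left hB (by positivity)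
        _ = 16 * η * (μ * t * M) := by field_simp
        _ ≤ 16 * (1 / 256) * (μ * t * M) :=
            mul_le_mul_of_nonneg_right (by linarith) (by positivity)
        _ = μ * t * M / 16 := by ring
    rw [hsplit] at hlow
    linarith
  rcases hμ0.eq_or_lt with h0 | h0
  · rw [← h0, zero_mul]
    positivity
  · have h1 : (μ * t * M / 16) ^ 2 ≤ 16 * η * (M : ℝ) ^ 2 * (t * (M * μ)) :=
      (pow_le_pow_left₀ (by positivity) hDlow 2).trans hCS'
    have h2 : (μ * t * (M : ℝ) ^ 2) * (μ * t) ≤ (μ * t * (M : ℝ) ^ 2) * (4096 * η * M) := by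
      nlinarith
    exact le_of_mul_le_mul_left h2 (by positivity)

theorem segments_had (F : ℕ → Prop) (M t x r s i : ℕ) (hi : i < t) :
    ¬ (had F M t x r s ↔ had F M t x r (s ^^^ 2 ^ i)) ↔ F ((x + i * r) % M) := by
  have htb : ∀ j, (s ^^^ 2 ^ i).testBit j = (s.testBit j ^^ decide (i = j)) := by
    intro j
    rw [Nat.testBit_xor, Nat.testBit_two_pow]
  unfold had
  set A := {j ∈ range t | s.testBit j = true ∧ F ((x + j * r) % M)} with hA
  set A' := {j ∈ range t | (s ^^^ 2 ^ i).testBit j = true ∧ F ((x + j * r) % M)} with hA'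
  by_cases hF : F ((x + i * r) % M)
  · simp only [hF, iff_true]
    by_cases hs : s.testBit i = true
    · have h1 : i ∈ A := by
        rw [hA, mem_filter, mem_range]
        exact ⟨hi, hs, hF⟩
      have h2 : A' = A.erase i := by
        ext j
        rw [mem_erase, hA, hA', mem_filter, mem_filter, htb]
        by_cases hj : i = j
        · subst hj
          simp [hs]
        · simp [hj, Ne.symm hj]
      rw [h2, card_erase_of_mem h1]
      have h3 := card_pos.mpr ⟨i, h1⟩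
      rw [Nat.odd_iff, Nat.odd_iff]
      omega
    · have h1 : i ∉ A := by
        rw [hA, mem_filter]
        rintro ⟨_, h, _⟩
        exact hs h
      have h2 : A' = insert i A := by
        ext j
        rw [mem_insert, hA, hA', mem_filter, mem_filter, htb]
        by_cases hj : i = j
        · subst hj
          simp [hs, hF, hi]
        · simp [hj, Ne.symm hj]
      rw [h2, card_insert_of_notMem h1]
      rw [Nat.odd_iff, Nat.odd_iff]
      omega
  · simp only [hF, iff_false, not_not]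
    have h2 : A' = A := by
      ext j
      rw [hA, hA', mem_filter, mem_filter, htb]
      by_cases hj : i = j
      · subst hj
        simp [hF]
      · simp [hj]
    rw [h2]

theorem segments_vote {P : ℕ → ℕ → ℕ → Prop} {F : ℕ → Prop} {M t x ρ : ℕ} (hM : 0 < M) (ht : 0 < t)
    (hx : x < M)
    (h1 : P ((x + (ρ % t) * (M - ρ / t % M)) % M) (ρ / t % M) (ρ / t / M % 2 ^ t) ↔
      had F M t ((x + (ρ % t) * (M - ρ / t % M)) % M) (ρ / t % M) (ρ / t / M % 2 ^ t))
    (h2 : P ((x + (ρ % t) * (M - ρ / t % M)) % M) (ρ / t % M) ((ρ / t / M % 2 ^ t) ^^^ 2 ^ (ρ % t)) ↔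
      had F M t ((x + (ρ % t) * (M - ρ / t % M)) % M) (ρ / t % M)
        ((ρ / t / M % 2 ^ t) ^^^ 2 ^ (ρ % t))) :
    vote P M t x ρ ↔ F x := by
  unfold vote
  rw [h1, h2, segments_had _ _ _ _ _ _ _ (Nat.mod_lt _ ht),
    segments_mod_cancel (Nat.mod_lt _ hM) hx]

theorem segments_xor_card (t a : ℕ) (ha : a < 2 ^ t) (E : ℕ → Prop) :
    #{s ∈ range (2 ^ t) | E (s ^^^ a)} = #{s ∈ range (2 ^ t) | E s} := by
  refine card_bij' (fun s _ => s ^^^ a) (fun s _ => s ^^^ a) ?_ ?_ ?_ ?_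
  · intro s hs
    rw [mem_filter, mem_range] at hs ⊢
    exact ⟨Nat.xor_lt_two_pow hs.1 ha, hs.2⟩
  · intro s hs
    rw [mem_filter, mem_range] at hs ⊢
    refine ⟨Nat.xor_lt_two_pow hs.1 ha, ?_⟩
    rw [Nat.xor_assoc, Nat.xor_self, Nat.xor_zero]
    exact hs.2
  · intro s _
    rw [Nat.xor_assoc, Nat.xor_self, Nat.xor_zero]
  · intro s _
    rw [Nat.xor_assoc, Nat.xor_self, Nat.xor_zero]

theorem segments_wrong_count {M t x : ℕ} (Err : ℕ → ℕ → ℕ → Prop) (Bad : ℕ → ℕ → Prop)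
    (hBad : ∀ x r, Bad x r ↔ 2 ^ t < 16 * #{s ∈ range (2 ^ t) | Err x r s})
    (hT : 8 * #{w ∈ range t ×ˢ range M | Bad ((x + w.1 * (M - w.2)) % M) w.2} ≤ t * M) :
    4 * #{w ∈ range t ×ˢ range M ×ˢ range (2 ^ t) |
      Err ((x + w.1 * (M - w.2.1)) % M) w.2.1 w.2.2 ∨
      Err ((x + w.1 * (M - w.2.1)) % M) w.2.1 (w.2.2 ^^^ 2 ^ w.1)} ≤ t * M * 2 ^ t := by
  have h1 : ∀ i ∈ range t, ∀ r ∈ range M, 16 * #{s ∈ range (2 ^ t) |
      Err ((x + i * (M - r)) % M) r s ∨ Err ((x + i * (M - r)) % M) r (s ^^^ 2 ^ i)} ≤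
      16 * 2 ^ t * (if Bad ((x + i * (M - r)) % M) r then 1 else 0) + 2 * 2 ^ t := by
    intro i hi r _
    split_ifs with h
    · have := card_filter_le (range (2 ^ t)) (fun s => Err ((x + i * (M - r)) % M) r s ∨
        Err ((x + i * (M - r)) % M) r (s ^^^ 2 ^ i))
      rw [card_range] at this
      omega
    · have h2 : #{s ∈ range (2 ^ t) | Err ((x + i * (M - r)) % M) r s ∨
          Err ((x + i * (M - r)) % M) r (s ^^^ 2 ^ i)} ≤
          #{s ∈ range (2 ^ t) | Err ((x + i * (M - r)) % M) r s} +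
          #{s ∈ range (2 ^ t) | Err ((x + i * (M - r)) % M) r (s ^^^ 2 ^ i)} := by
        rw [filter_or]
        exact card_union_le _ _
      rw [segments_xor_card t (2 ^ i) (Nat.pow_lt_pow_right (by norm_num) (mem_range.mp hi))
        (fun s => Err ((x + i * (M - r)) % M) r s)] at h2
      rw [hBad] at h
      omega
  have h2 : 16 * #{w ∈ range t ×ˢ range M ×ˢ range (2 ^ t) |
      Err ((x + w.1 * (M - w.2.1)) % M) w.2.1 w.2.2 ∨
      Err ((x + w.1 * (M - w.2.1)) % M) w.2.1 (w.2.2 ^^^ 2 ^ w.1)} =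
      ∑ i ∈ range t, ∑ r ∈ range M, 16 * #{s ∈ range (2 ^ t) |
      Err ((x + i * (M - r)) % M) r s ∨ Err ((x + i * (M - r)) % M) r (s ^^^ 2 ^ i)} := by
    simp only [← mul_sum]
    congr 1
    rw [card_filter, sum_product]
    refine sum_congr rfl fun i _ => ?_
    rw [sum_product]
    refine sum_congr rfl fun r _ => ?_
    rw [card_filter]
  have h3 : ∑ i ∈ range t, ∑ r ∈ range M,
      (16 * 2 ^ t * (if Bad ((x + i * (M - r)) % M) r then 1 else 0) + 2 * 2 ^ t) =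
      16 * 2 ^ t * #{w ∈ range t ×ˢ range M | Bad ((x + w.1 * (M - w.2)) % M) w.2} +
        2 * 2 ^ t * (t * M) := by
    simp only [sum_add_distrib, ← mul_sum]
    rw [card_filter, sum_product]
    simp only [sum_const, card_range, smul_eq_mul]
    ring
  have h4 := sum_le_sum fun i hi => sum_le_sum (h1 i hi)
  rw [← h2, h3] at h4
  have h5 : 2 * 2 ^ t * (8 * #{w ∈ range t ×ˢ range M | Bad ((x + w.1 * (M - w.2)) % M) w.2}) ≤
      2 * 2 ^ t * (t * M) := Nat.mul_le_mul_left _ hT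
  have h6 : 4 * (4 * #{w ∈ range t ×ˢ range M ×ˢ range (2 ^ t) |
      Err ((x + w.1 * (M - w.2.1)) % M) w.2.1 w.2.2 ∨
      Err ((x + w.1 * (M - w.2.1)) % M) w.2.1 (w.2.2 ^^^ 2 ^ w.1)}) ≤ 4 * (t * M * 2 ^ t) := by
    nlinarith
  exact Nat.le_of_mul_le_mul_left h6 (by norm_num)

theorem segments_seed_count {M t Q : ℕ} (hM : 0 < M) (ht : 0 < t) (G : ℕ → ℕ → ℕ → Prop) :
    #{ρ ∈ range Q | G (ρ % t) (ρ / t % M) (ρ / t / M % 2 ^ t)} ≤
      #{w ∈ range t ×ˢ range M ×ˢ range (2 ^ t) | G w.1 w.2.1 w.2.2} * (Q / (t * M * 2 ^ t) + 1) := by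
  rw [← card_range (Q / (t * M * 2 ^ t) + 1), ← card_product]
  refine card_le_card_of_injOn
    (fun ρ => ((ρ % t, ρ / t % M, ρ / t / M % 2 ^ t), ρ / t / M / 2 ^ t)) ?_ ?_
  · intro ρ hρ
    simp only [coe_filter, mem_range, Set.mem_ofPred_eq] at hρ
    simp only [coe_product, Set.mem_prod, mem_coe, mem_filter, mem_product, mem_range]
    refine ⟨⟨⟨Nat.mod_lt _ ht, Nat.mod_lt _ hM, Nat.mod_lt _ (by positivity)⟩, hρ.2⟩, ?_⟩
    rw [Nat.div_div_eq_div_mul, Nat.div_div_eq_div_mul, ← mul_assoc]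
    exact Nat.lt_succ_of_le (Nat.div_le_div_right hρ.1.le)
  · intro ρ _ ρ' _ h
    simp only [Prod.mk.injEq] at h
    obtain ⟨⟨h1, h2, h3⟩, h4⟩ := h
    have e1 : ρ / t / M = ρ' / t / M := by
      rw [← Nat.div_add_mod (ρ / t / M) (2 ^ t), ← Nat.div_add_mod (ρ' / t / M) (2 ^ t), h3, h4]
    have e2 : ρ / t = ρ' / t := by
      rw [← Nat.div_add_mod (ρ / t) M, ← Nat.div_add_mod (ρ' / t) M, h2, e1]
    rw [← Nat.div_add_mod ρ t, ← Nat.div_add_mod ρ' t, h1, e2]

/-- Chebyshev for pairwise independent votes -/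
theorem segments_majority {Q u : ℕ} (hQ : Q.Prime) (hu : 0 < u) (huQ : u ≤ Q) (A : ℕ → Prop)
    (hA : (#{ρ ∈ range Q | A ρ} : ℝ) ≤ 17 / 64 * Q) :
    (#{w ∈ range Q ×ˢ range Q | u ≤ 2 * #{j ∈ range u | A ((w.1 + j * w.2) % Q)}} : ℝ) * u ≤
      8 * (Q : ℝ) ^ 2 := by
  set μ : ℝ := (#{ρ ∈ range Q | A ρ} : ℝ) with hμ
  have hQ0 : (0 : ℝ) < Q := by exact_mod_cast hQ.pos
  have hu0 : (0 : ℝ) < u := by exact_mod_cast hu
  have hμ0 : 0 ≤ μ := by rw [hμ]; positivity
  have hvar := segments_var_ind hQ huQ A μ hμ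
  obtain ⟨C, hC⟩ : ∃ C : ℕ × ℕ → Prop, ∀ w, C w ↔
      u ≤ 2 * #{j ∈ range u | A ((w.1 + j * w.2) % Q)} := ⟨_, fun _ => Iff.rfl⟩
  have hset : {w ∈ range Q ×ˢ range Q | u ≤ 2 * #{j ∈ range u | A ((w.1 + j * w.2) % Q)}} =
      {w ∈ range Q ×ˢ range Q | C w} := by
    ext w
    rw [mem_filter, mem_filter, hC]
  rw [hset]
  set p : ℝ := μ / Q with hp
  have hp0 : 0 ≤ p := by positivity
  have hp1 : p ≤ 17 / 64 := by
    rw [hp, div_le_iff₀ hQ0]
    exact hA
  have hμp : μ = p * Q := by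
    rw [hp]
    field_simp
  -- Markov
  have h1 : (#{w ∈ range Q ×ˢ range Q | C w} : ℝ) * (u * (1 / 2 - p)) ^ 2 ≤
      u * (Q * (μ - μ ^ 2 / Q)) := by
    rw [← hvar, ← sum_product (range Q) (range Q)
      (fun w : ℕ × ℕ => ((#{i ∈ range u | A ((w.1 + i * w.2) % Q)} : ℝ) - u * (μ / Q)) ^ 2)]
    rw [card_filter]
    push_cast
    rw [sum_mul]
    refine sum_le_sum fun w _ => ?_
    split_ifs with h
    · rw [one_mul, ← hp]
      rw [hC] at h
      have h2 : (u : ℝ) ≤ 2 * (#{i ∈ range u | A ((w.1 + i * w.2) % Q)} : ℝ) := by exact_mod_cast h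
      refine pow_le_pow_left₀ (mul_nonneg hu0.le (by linarith)) ?_ 2
      linarith
    · rw [zero_mul]
      positivity
  have h2 : (u : ℝ) * (Q * (μ - μ ^ 2 / Q)) = u * (Q ^ 2 * (p * (1 - p))) := by
    rw [hμp]
    field_simp
  rw [h2] at h1
  have h3 : p * (1 - p) ≤ 8 * (1 / 2 - p) ^ 2 := by nlinarith
  have hd : 0 < (1 / 2 - p) ^ 2 := by
    have : 0 < 1 / 2 - p := by linarith
    positivity
  have h4 : ((#{w ∈ range Q ×ˢ range Q | C w} : ℝ) * u) * (u * (1 / 2 - p) ^ 2) ≤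
      (8 * (Q : ℝ) ^ 2) * (u * (1 / 2 - p) ^ 2) := by
    calc ((#{w ∈ range Q ×ˢ range Q | C w} : ℝ) * u) * (u * (1 / 2 - p) ^ 2)
        = (#{w ∈ range Q ×ˢ range Q | C w} : ℝ) * (u * (1 / 2 - p)) ^ 2 := by ring
      _ ≤ u * (Q ^ 2 * (p * (1 - p))) := h1
      _ ≤ u * (Q ^ 2 * (8 * (1 / 2 - p) ^ 2)) := by gcongr
      _ = (8 * (Q : ℝ) ^ 2) * (u * (1 / 2 - p) ^ 2) := by ring
  exact le_of_mul_le_mul_right h4 (by positivity)

theorem segments {M t u Q : ℕ} (hM : M.Prime) (ht : 0 < t) (htM : t < M) (hu : 0 < u)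
    (hQ : Q.Prime) (huQ : u ≤ Q) (hQM : 16 * (t * M * 2 ^ t) ≤ Q) (F : ℕ → Prop)
    (P : ℕ → ℕ → ℕ → Prop) (η : ℝ) (hη : η ≤ 1 / 256)
    (hP : (#{w ∈ range M ×ˢ range M ×ˢ range (2 ^ t) |
      ¬ (P w.1 w.2.1 w.2.2 ↔ had F M t w.1 w.2.1 w.2.2)} : ℝ) ≤ η * ((M : ℝ) ^ 2 * 2 ^ t)) :
    ∃ ρ₀ < Q, ∃ ρ₁ < Q, (#{x ∈ range M | ¬ (u < 2 * #{j ∈ range u |
      vote P M t x ((ρ₀ + j * ρ₁) % Q)} ↔ F x)} : ℝ) ≤ (4096 * η / t + 8 / u) * M := by
  have hM0 : (0 : ℝ) < M := by exact_mod_cast hM.pos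
  have ht0 : (0 : ℝ) < t := by exact_mod_cast ht
  have hu0 : (0 : ℝ) < u := by exact_mod_cast hu
  have hQ0 : (0 : ℝ) < Q := by exact_mod_cast hQ.pos
  obtain ⟨Err, hErr⟩ : ∃ Err : ℕ → ℕ → ℕ → Prop, ∀ x r s, Err x r s ↔
      ¬ (P x r s ↔ had F M t x r s) := ⟨_, fun _ _ _ => Iff.rfl⟩
  obtain ⟨Bad, hBad⟩ : ∃ Bad : ℕ → ℕ → Prop, ∀ x r, Bad x r ↔
      2 ^ t < 16 * #{s ∈ range (2 ^ t) | Err x r s} := ⟨_, fun _ _ => Iff.rfl⟩
  obtain ⟨T, hT⟩ : ∃ T : ℕ → Prop, ∀ x, T x ↔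
      t * M < 8 * #{w ∈ range t ×ˢ range M | Bad ((x + w.1 * (M - w.2)) % M) w.2} :=
    ⟨_, fun _ => Iff.rfl⟩
  -- few bad pairs
  have hB : (#{w ∈ range M ×ˢ range M | Bad w.1 w.2} : ℝ) ≤ 16 * η * (M : ℝ) ^ 2 := by
    have h1 : #{w ∈ range M ×ˢ range M | Bad w.1 w.2} * 2 ^ t ≤
        16 * #{w ∈ range M ×ˢ range M ×ˢ range (2 ^ t) |
          ¬ (P w.1 w.2.1 w.2.2 ↔ had F M t w.1 w.2.1 w.2.2)} := by
      rw [card_filter, card_filter, sum_mul, sum_product, sum_product, mul_sum]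
      refine sum_le_sum fun x _ => ?_
      rw [sum_product, mul_sum]
      refine sum_le_sum fun r _ => ?_
      split_ifs with h
      · rw [one_mul]
        rw [hBad, card_filter] at h
        refine h.le.trans (le_of_eq ?_)
        congr 1
        refine sum_congr rfl fun s _ => ?_
        simp only [hErr]
      · rw [zero_mul]
        exact Nat.zero_le _
    have h2 : ((#{w ∈ range M ×ˢ range M | Bad w.1 w.2} * 2 ^ t : ℕ) : ℝ) ≤
        ((16 * #{w ∈ range M ×ˢ range M ×ˢ range (2 ^ t) |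
          ¬ (P w.1 w.2.1 w.2.2 ↔ had F M t w.1 w.2.1 w.2.2)} : ℕ) : ℝ) := by exact_mod_cast h1
    push_cast at h2
    have h3 : (0 : ℝ) < 2 ^ t := by positivity
    have h4 : (#{w ∈ range M ×ˢ range M | Bad w.1 w.2} : ℝ) * 2 ^ t ≤
        (16 * η * (M : ℝ) ^ 2) * 2 ^ t := by
      refine h2.trans ?_
      calc (16 : ℝ) * _ ≤ 16 * (η * ((M : ℝ) ^ 2 * 2 ^ t)) := mul_le_mul_of_nonneg_left hP (by norm_num)
        _ = (16 * η * (M : ℝ) ^ 2) * 2 ^ t := by ring
    exact le_of_mul_le_mul_right h4 h3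
  have hTcard := segments_T hM ht htM Bad η hη hB T hT
  -- one vote
  have hvote : ∀ x < M, ¬ T x → (#{ρ ∈ range Q | ¬ (vote P M t x ρ ↔ F x)} : ℝ) ≤ 17 / 64 * Q := by
    intro x hx hTx
    rw [hT, not_lt] at hTx
    have h1 := segments_wrong_count Err Bad hBad hTx
    obtain ⟨G, hG⟩ : ∃ G : ℕ → ℕ → ℕ → Prop, ∀ i r s, G i r s ↔
      (Err ((x + i * (M - r)) % M) r s ∨ Err ((x + i * (M - r)) % M) r (s ^^^ 2 ^ i)) :=
      ⟨_, fun _ _ _ => Iff.rfl⟩
    have h2 := segments_seed_count (Q := Q) hM.pos ht G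
    have h3 : #{ρ ∈ range Q | ¬ (vote P M t x ρ ↔ F x)} ≤ #{ρ ∈ range Q |
        G (ρ % t) (ρ / t % M) (ρ / t / M % 2 ^ t)} := by
      refine card_le_card fun ρ hρ => ?_
      rw [mem_filter] at hρ ⊢
      refine ⟨hρ.1, ?_⟩
      by_contra h
      rw [hG] at h
      push Not at h
      rw [hErr, hErr, not_not, not_not] at h
      exact hρ.2 (segments_vote hM.pos ht hx h.1 h.2)
    have h4 := h3.trans h2
    have h1' : 4 * #{w ∈ range t ×ˢ range M ×ˢ range (2 ^ t) | G w.1 w.2.1 w.2.2} ≤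
        t * M * 2 ^ t := by
      refine le_trans (le_of_eq ?_) h1
      congr 2
      refine filter_congr fun w _ => ?_
      rw [hG]
    set N := t * M * 2 ^ t with hN
    have hN0 : (0 : ℝ) < N := by
      rw [hN]
      have := hM.pos
      positivity
    set c := #{w ∈ range t ×ˢ range M ×ˢ range (2 ^ t) | G w.1 w.2.1 w.2.2} with hc
    have h5 : (4 : ℝ) * c ≤ N := by exact_mod_cast h1'
    have h6 : (#{ρ ∈ range Q | ¬ (vote P M t x ρ ↔ F x)} : ℝ) ≤ c * (((Q / N : ℕ) : ℝ) + 1) := by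
      exact_mod_cast h4
    have h7 : ((Q / N : ℕ) : ℝ) ≤ Q / N := Nat.cast_div_le
    have h8 : (16 : ℝ) * N ≤ Q := by exact_mod_cast hQM
    calc (#{ρ ∈ range Q | ¬ (vote P M t x ρ ↔ F x)} : ℝ) ≤ c * (((Q / N : ℕ) : ℝ) + 1) := h6
      _ ≤ (N / 4) * (Q / N + 1) := by
          refine mul_le_mul (by linarith) (by linarith) (by positivity) (by positivity)
      _ = Q / 4 + N / 4 := by field_simp
      _ ≤ 17 / 64 * Q := by linarith
  -- majority
  obtain ⟨Wr, hWr⟩ : ∃ Wr : ℕ → ℕ × ℕ → Prop, ∀ x w, Wr x w ↔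
      ¬ T x ∧ ¬ (u < 2 * #{j ∈ range u | vote P M t x ((w.1 + j * w.2) % Q)} ↔ F x) :=
    ⟨_, fun _ _ => Iff.rfl⟩
  have hmaj : ∀ x < M, (#{w ∈ range Q ×ˢ range Q | Wr x w} : ℝ) * u ≤ 8 * (Q : ℝ) ^ 2 := by
    intro x hx
    by_cases hTx : T x
    · have : {w ∈ range Q ×ˢ range Q | Wr x w} = ∅ := by
        rw [filter_eq_empty_iff]
        intro w _ h
        rw [hWr] at h
        exact h.1 hTx
      rw [this]
      simp only [card_empty, Nat.cast_zero, zero_mul]
      positivity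
    · obtain ⟨A, hA⟩ : ∃ A : ℕ → Prop, ∀ ρ, A ρ ↔ ¬ (vote P M t x ρ ↔ F x) := ⟨_, fun _ => Iff.rfl⟩
      have h1 : (#{ρ ∈ range Q | A ρ} : ℝ) ≤ 17 / 64 * Q := by
        simp only [hA]
        exact hvote x hx hTx
      have h2 := segments_majority hQ hu huQ A h1
      refine le_trans ?_ h2
      refine mul_le_mul_of_nonneg_right ?_ hu0.le
      refine Nat.cast_le.mpr (card_le_card fun w hw => ?_)
      rw [mem_filter] at hw ⊢
      refine ⟨hw.1, ?_⟩
      obtain ⟨_, h3⟩ := (hWr x w).mp hw.2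
      by_cases hF : F x
      · simp only [hF, iff_true, not_lt] at h3
        have h4 : #{j ∈ range u | A ((w.1 + j * w.2) % Q)} +
            #{j ∈ range u | vote P M t x ((w.1 + j * w.2) % Q)} = u := by
          have h5 := card_filter_add_card_filter_not (s := range u)
            (fun j => vote P M t x ((w.1 + j * w.2) % Q))
          rw [card_range] at h5
          have h6 : {j ∈ range u | A ((w.1 + j * w.2) % Q)} =
              {j ∈ range u | ¬ vote P M t x ((w.1 + j * w.2) % Q)} := by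
            refine filter_congr fun j _ => ?_
            rw [hA]
            simp [hF]
          rw [h6]
          omega
        omega
      · simp only [hF, iff_false, not_not] at h3
        have h6 : {j ∈ range u | A ((w.1 + j * w.2) % Q)} =
            {j ∈ range u | vote P M t x ((w.1 + j * w.2) % Q)} := by
          refine filter_congr fun j _ => ?_
          rw [hA]
          simp [hF]
        rw [h6]
        exact h3.le
  -- averaging over the seeds
  have havg : ∃ w ∈ range Q ×ˢ range Q, (#{x ∈ range M | Wr x w} : ℝ) ≤ 8 * M / u := by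
    have hne : (range Q ×ˢ range Q).Nonempty := by
      rw [nonempty_product]
      exact ⟨nonempty_range_iff.mpr hQ.ne_zero, nonempty_range_iff.mpr hQ.ne_zero⟩
    refine exists_le_of_sum_le hne ?_
    rw [sum_const, card_product, card_range, nsmul_eq_mul]
    have h1 : ∑ w ∈ range Q ×ˢ range Q, (#{x ∈ range M | Wr x w} : ℝ) =
        ∑ x ∈ range M, (#{w ∈ range Q ×ˢ range Q | Wr x w} : ℝ) := by
      simp only [card_filter]
      push_cast
      exact sum_comm
    rw [h1]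
    have h2 : ∀ x ∈ range M, (#{w ∈ range Q ×ˢ range Q | Wr x w} : ℝ) ≤ 8 * (Q : ℝ) ^ 2 / u := by
      intro x hx
      rw [le_div_iff₀ hu0]
      exact hmaj x (mem_range.mp hx)
    refine (sum_le_sum h2).trans (le_of_eq ?_)
    rw [sum_const, card_range, nsmul_eq_mul]
    push_cast
    field_simp
  obtain ⟨w, hw, hwM⟩ := havg
  rw [mem_product, mem_range, mem_range] at hw
  refine ⟨w.1, hw.1, w.2, hw.2, ?_⟩
  have h1 : #{x ∈ range M | ¬ (u < 2 * #{j ∈ range u |
      vote P M t x ((w.1 + j * w.2) % Q)} ↔ F x)} ≤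
      #{x ∈ range M | T x} + #{x ∈ range M | Wr x w} := by
    refine (card_le_card ?_).trans (card_union_le _ _)
    intro x hx
    rw [mem_filter] at hx
    rw [mem_union, mem_filter, mem_filter]
    by_cases hTx : T x
    · exact Or.inl ⟨hx.1, hTx⟩
    · exact Or.inr ⟨hx.1, (hWr x w).mpr ⟨hTx, hx.2⟩⟩
  have h2 : (#{x ∈ range M | T x} : ℝ) ≤ 4096 * η * M / t := by
    rw [le_div_iff₀ ht0]
    exact hTcard
  calc (#{x ∈ range M | ¬ (u < 2 * #{j ∈ range u |
      vote P M t x ((w.1 + j * w.2) % Q)} ↔ F x)} : ℝ)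
      ≤ (#{x ∈ range M | T x} : ℝ) + (#{x ∈ range M | Wr x w} : ℝ) := by exact_mod_cast h1
    _ ≤ 4096 * η * M / t + 8 * M / u := add_le_add h2 hwM
    _ = (4096 * η / t + 8 / u) * M := by ring

end Pool.Agent.GAvg
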