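import Mathlib
import Pool.Agent.GAvg.AdvQ
import Pool.Agent.GAvg.DigDef

/-!
# Non-uniform bounded formulas: powers of two, bit flips and one vote

Powers of two with exponent at most `tt n` are definable (a table in a prime base `> 2 ^ tt n`), so
one bit of a number below `2 ^ tt n` can be flipped, and one vote of the error reduction by pairwise
independent segments is definable.
-/

set_option autoImplicit false

namespace Pool.Agent.GAvg

open Finset Filter Pool.Agent.Grz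
open scoped Classical

section GB5

variable {r : ℕ} {C : ℕ → (Fin r → ℕ) → Prop}

private theorem voteDef_two_pow_log_le (n : ℕ) : 2 ^ Nat.log 2 n ≤ n + 2 := by
  rcases Nat.eq_zero_or_pos n with h | h
  · subst h; simp
  · exact (Nat.pow_log_le_self 2 h.ne').trans (by omega)

private theorem voteDef_two_pow_tt_le (n : ℕ) : 2 ^ tt n ≤ (n + 2) ^ 2 := by
  have h1 : Nat.sqrt (Nat.log 2 n) ≤ Nat.log 2 n := Nat.sqrt_le_self _
  have h2 := voteDef_two_pow_log_le n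
  calc 2 ^ tt n = 2 ^ Nat.sqrt (Nat.log 2 n) * 2 := by rw [tt, pow_succ]
    _ ≤ 2 ^ Nat.log 2 n * 2 := Nat.mul_le_mul_right _ (Nat.pow_le_pow_right (by norm_num) h1)
    _ ≤ (n + 2) * (n + 2) := Nat.mul_le_mul h2 (by omega)
    _ = (n + 2) ^ 2 := by ring

theorem tt_pow_polyB (c : ℕ) : PolyB (fun n => 2 ^ (c * tt n)) := by
  refine ⟨2 * c, Eventually.of_forall fun n => ?_⟩
  have h := voteDef_two_pow_tt_le n
  calc 2 ^ (c * tt n) = (2 ^ tt n) ^ c := by rw [← pow_mul, Nat.mul_comm]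
    _ ≤ ((n + 2) ^ 2) ^ c := Nat.pow_le_pow_left h c
    _ = (n + 2) ^ (2 * c) := by rw [← pow_mul]

private theorem voteDef_sq_bound (n : ℕ) : 2 ^ ((tt n + 1) * (tt n + 1)) ≤ (n + 2) ^ 9 := by
  have h1 : Nat.sqrt (Nat.log 2 n) ≤ Nat.log 2 n := Nat.sqrt_le_self _
  have h3 : Nat.sqrt (Nat.log 2 n) * Nat.sqrt (Nat.log 2 n) ≤ Nat.log 2 n := Nat.sqrt_le _
  have h2 := voteDef_two_pow_log_le n
  have h4 : (tt n + 1) * (tt n + 1) ≤ 5 * Nat.log 2 n + 4 := by
    rw [tt]; nlinarith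
  calc 2 ^ ((tt n + 1) * (tt n + 1)) ≤ 2 ^ (5 * Nat.log 2 n + 4) :=
        Nat.pow_le_pow_right (by norm_num) h4
    _ = (2 ^ Nat.log 2 n) ^ 5 * 2 ^ 4 := by rw [pow_add, ← pow_mul, Nat.mul_comm 5]
    _ ≤ (n + 2) ^ 5 * (n + 2) ^ 4 :=
        Nat.mul_le_mul (Nat.pow_le_pow_left h2 5) (Nat.pow_le_pow_left (by omega) 4)
    _ = (n + 2) ^ 9 := by rw [← pow_add]

private theorem voteDef_base : ∃ q : ℕ → ℕ, Base q tt ∧ ∀ n, 2 ^ tt n < q n := by
  have H : ∀ n : ℕ, ∃ p, p.Prime ∧ 2 ^ tt n < p ∧ p ≤ 2 * 2 ^ tt n := fun n =>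
    Nat.exists_prime_lt_and_le_two_mul _ (by positivity)
  choose q hq1 hq2 hq3 using H
  refine ⟨q, ⟨Eventually.of_forall hq1, Eventually.of_forall fun n => ?_, ⟨9,
    Eventually.of_forall fun n => ?_⟩⟩, hq2⟩
  · exact (Nat.lt_two_pow_self).trans (hq2 n)
  · calc q n ^ (tt n + 1) ≤ (2 * 2 ^ tt n) ^ (tt n + 1) := Nat.pow_le_pow_left (hq3 n) _
      _ = 2 ^ ((tt n + 1) * (tt n + 1)) := by rw [pow_mul]; congr 1; ring
      _ ≤ (n + 2) ^ 9 := voteDef_sq_bound n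

/-- powers of two with exponent at most `tt n` (table in a base `> 2 ^ tt n`) -/
theorem NUF.pow2 {I : ℕ → (Fin r → ℕ) → ℕ} (hI : NUF r C I)
    (hIb : ∀ᶠ n in atTop, ∀ v, C n v → I n v ≤ tt n) : NUF r C (fun n v => 2 ^ I n v) := by
  obtain ⟨q, hB, hq⟩ := voteDef_base
  refine hB.table (g := fun _ i => 2 ^ i) (Eventually.of_forall fun n i hi => ?_) hI hIb
  exact (Nat.pow_le_pow_right (by norm_num) hi).trans_lt (hq n)

private theorem voteDef_xor_one (y : ℕ) : y ^^^ 1 = if y % 2 = 1 then y - 1 else y + 1 := by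
  split_ifs with h
  · rw [Nat.xor_one_of_odd (Nat.odd_iff.2 h)]
  · rw [Nat.xor_one_of_even (Nat.even_iff.2 (by omega))]

private theorem voteDef_xor (x i : ℕ) :
    x ^^^ 2 ^ i = if x / 2 ^ i % 2 = 1 then x - 2 ^ i else x + 2 ^ i := by
  have hp : 0 < 2 ^ i := by positivity
  have h1 : (x ^^^ 2 ^ i) % 2 ^ i = x % 2 ^ i := by
    rw [Nat.xor_mod_two_pow]; simp
  have h2 : (x ^^^ 2 ^ i) / 2 ^ i = (x / 2 ^ i) ^^^ 1 := by
    rw [← Nat.shiftRight_eq_div_pow, ← Nat.shiftRight_eq_div_pow, Nat.shiftRight_xor_distrib]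
    congr 1
    rw [Nat.shiftRight_eq_div_pow, Nat.div_self hp]
  have h3 := Nat.div_add_mod (x ^^^ 2 ^ i) (2 ^ i)
  have h4 := Nat.div_add_mod x (2 ^ i)
  rw [h1, h2, voteDef_xor_one] at h3
  split_ifs at h3 ⊢ with h
  · have h5 : 1 ≤ x / 2 ^ i := by
      rcases Nat.eq_zero_or_pos (x / 2 ^ i) with h6 | h6
      · rw [h6] at h; simp at h
      · exact h6
    rw [Nat.mul_sub, Nat.mul_one] at h3
    have h6 : 2 ^ i ≤ 2 ^ i * (x / 2 ^ i) := Nat.le_mul_of_pos_right _ h5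
    omega
  · rw [Nat.mul_add, Nat.mul_one] at h3
    omega

theorem NUF.flip {X I : ℕ → (Fin r → ℕ) → ℕ} (hX : NUF r C X) (hI : NUF r C I)
    (_hXb : ∀ᶠ n in atTop, ∀ v, C n v → X n v < 2 ^ tt n)
    (hIb : ∀ᶠ n in atTop, ∀ v, C n v → I n v < tt n) :
    NUF r C (fun n v => X n v ^^^ 2 ^ I n v) := by
  have hp : NUF r C (fun n v => 2 ^ I n v) :=
    hI.pow2 (hIb.mono fun n h v hv => (h v hv).le)
  have h1 : NUF r C (fun n v => if X n v / 2 ^ I n v % 2 = 1 then X n v - 2 ^ I n v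
      else X n v + 2 ^ I n v) :=
    NUF.ite (NUP.eqFun ((hX.div hp).mod (NUF.const 2)) (NUF.const 1)) (hX.sub hp) (hX.add hp)
  exact h1.congr (Eventually.of_forall fun n v _ => voteDef_xor _ _)

theorem NUP.vote {P : ℕ → ℕ → ℕ → ℕ → Prop} {M : ℕ → ℕ} (hM : PolyB M)
    (hM0 : ∀ᶠ n in atTop, 0 < M n) (S : ℕ → Prop)
    (hP : NUP 3 (fun n v => S n ∧ v 0 < M n ∧ v 1 < M n ∧ v 2 < 2 ^ tt n)
      (fun n v => P n (v 0) (v 1) (v 2)))
    (hCS : ∀ᶠ n in atTop, ∀ v, C n v → S n) {X R : ℕ → (Fin r → ℕ) → ℕ} (hX : NUF r C X)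
    (hR : NUF r C R) : NUP r C (fun n v => vote (P n) (M n) (tt n) (X n v) (R n v)) := by
  have htt : PolyB tt := (tt_pow_polyB 1).mono
    (Eventually.of_forall fun n => by simpa using (Nat.lt_two_pow_self (n := tt n)).le)
  have h2t : PolyB (fun n => 2 ^ tt n) := (tt_pow_polyB 1).mono
    (Eventually.of_forall fun n => by simp)
  have hT : NUF r C (fun n _ => tt n) := NUF.param htt
  have hMM : NUF r C (fun n _ => M n) := NUF.param hM
  have h2T : NUF r C (fun n _ => 2 ^ tt n) := NUF.param h2t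
  have htt0 : ∀ n, 0 < tt n := fun n => Nat.succ_pos _
  have hb : NUF r C (fun n v => R n v / tt n % M n) := (hR.div hT).mod hMM
  have hi : NUF r C (fun n v => R n v % tt n) := hR.mod hT
  have ha : NUF r C (fun n v => (X n v + (R n v % tt n) * (M n - R n v / tt n % M n)) % M n) :=
    (hX.add (hi.mul (hMM.sub hb))).mod hMM
  have hc : NUF r C (fun n v => R n v / tt n / M n % 2 ^ tt n) := ((hR.div hT).div hMM).mod h2T
  have hd : NUF r C (fun n v => (R n v / tt n / M n % 2 ^ tt n) ^^^ 2 ^ (R n v % tt n)) :=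
    hc.flip hi (Eventually.of_forall fun n v _ => Nat.mod_lt _ (by positivity))
      (Eventually.of_forall fun n v _ => Nat.mod_lt _ (htt0 n))
  have hP1 : NUP r C (fun n v => P n
      ((X n v + (R n v % tt n) * (M n - R n v / tt n % M n)) % M n) (R n v / tt n % M n)
      (R n v / tt n / M n % 2 ^ tt n)) := by
    refine NUP.comp3 (G := P) (K := fun n a b c => S n ∧ a < M n ∧ b < M n ∧ c < 2 ^ tt n)
      hP ha hb hc ?_
    filter_upwards [hM0, hCS] with n h0 hS v hv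
    exact ⟨hS v hv, Nat.mod_lt _ h0, Nat.mod_lt _ h0, Nat.mod_lt _ (by positivity)⟩
  have hP2 : NUP r C (fun n v => P n
      ((X n v + (R n v % tt n) * (M n - R n v / tt n % M n)) % M n) (R n v / tt n % M n)
      ((R n v / tt n / M n % 2 ^ tt n) ^^^ 2 ^ (R n v % tt n))) := by
    refine NUP.comp3 (G := P) (K := fun n a b c => S n ∧ a < M n ∧ b < M n ∧ c < 2 ^ tt n)
      hP ha hb hd ?_
    filter_upwards [hM0, hCS] with n h0 hS v hv
    exact ⟨hS v hv, Nat.mod_lt _ h0, Nat.mod_lt _ h0,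
      Nat.xor_lt_two_pow (Nat.mod_lt _ (by positivity))
        (Nat.pow_lt_pow_right (by norm_num) (Nat.mod_lt _ (htt0 n)))⟩
  exact (hP1.iff hP2).not

end GB5

end Pool.Agent.GAvg
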