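import Mathlib
import Pool.Agent.GAvg.AdvDefs
import Pool.Agent.GAvg.Adv
import Pool.Agent.GAvg.RecDef
import Pool.Agent.GAvg.VoteDef
import Pool.Agent.GAvg.Segments
import Pool.Agent.GAvg.E2Tools

/-!
# Error reduction by the factor `tt n` (package GB6)
-/

set_option autoImplicit false

namespace Pool.Agent.GAvg

open Finset Filter Pool.Agent.Grz
open scoped Classical

private noncomputable def s1M (D : ℕ → ℕ) (n : ℕ) : ℕ := lprime (D n + n + 2)

private noncomputable def s1Q (D : ℕ → ℕ) (j n : ℕ) : ℕ :=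
  lprime (16 * (tt n * s1M D n * 2 ^ tt n) + tt n ^ (j + 1))

private lemma s1_tt_pos (n : ℕ) : 0 < tt n := Nat.succ_pos _

private lemma s1_tt_le (n : ℕ) : tt n ≤ n + 1 := by
  unfold tt
  have h1 : Nat.sqrt (Nat.log 2 n) ≤ Nat.log 2 n := Nat.sqrt_le_self _
  have h2 : Nat.log 2 n ≤ n := Nat.log_le_self 2 n
  omega

private lemma s1_tt_le_lg : ∀ᶠ n in atTop, tt n ≤ lg n := by
  filter_upwards [eventually_ge_atTop 4] with n hn
  have h1 : 2 ≤ Nat.log 2 n := by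
    rw [Nat.le_log_iff_pow_le (by norm_num) (by omega)]
    omega
  unfold tt lg
  have h2 : Nat.sqrt (Nat.log 2 n) < Nat.log 2 n := Nat.sqrt_lt_self (by omega)
  omega

private lemma s1_tt_tendsto : Tendsto (fun n => (tt n : ℝ)) atTop atTop := by
  apply tendsto_natCast_atTop_atTop.comp
  refine tendsto_atTop.2 fun b => ?_
  filter_upwards [eventually_ge_atTop (2 ^ (b ^ 2))] with n hn
  have h0 : 0 < n := lt_of_lt_of_le (by positivity) hn
  have h1 : b ^ 2 ≤ Nat.log 2 n := by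
    rw [Nat.le_log_iff_pow_le (by norm_num) h0.ne']
    exact hn
  unfold tt
  have h2 : b ≤ Nat.sqrt (Nat.log 2 n) := by
    rw [Nat.le_sqrt']
    exact h1
  omega

private lemma s1_M_polyB {D : ℕ → ℕ} (hDp : ∃ d : ℕ, ∀ n, D n ≤ (n + 2) ^ d) : PolyB (s1M D) := by
  obtain ⟨d, hd⟩ := hDp
  have h1 : PolyB (fun n => 2 * (D n + (n + 2))) := by
    refine (PolyB.const 2).mul (PolyB.add ⟨d, Eventually.of_forall hd⟩ (PolyB.add PolyB.id (PolyB.const 2)))
  refine h1.mono (Eventually.of_forall fun n => ?_)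
  have := lprime_le (D n + n + 2) (by omega)
  unfold s1M
  omega

private lemma s1_two_tt : PolyB (fun n => 2 ^ tt n) := by
  have := tt_pow_polyB 1
  simpa using this

private lemma s1_tt_polyB : PolyB tt := by
  refine (PolyB.add PolyB.id (PolyB.const 1)).mono (Eventually.of_forall fun n => ?_)
  exact s1_tt_le n

private lemma s1_Q_polyB {D : ℕ → ℕ} (hDp : ∃ d : ℕ, ∀ n, D n ≤ (n + 2) ^ d) (j : ℕ) :
    PolyB (s1Q D j) := by
  have h1 : PolyB (fun n => 2 * (16 * (tt n * s1M D n * 2 ^ tt n) + tt n ^ (j + 1))) :=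
    (PolyB.const 2).mul (((PolyB.const 16).mul ((s1_tt_polyB.mul (s1_M_polyB hDp)).mul s1_two_tt)).add
      (s1_tt_polyB.pow (j + 1)))
  refine h1.mono (Eventually.of_forall fun n => ?_)
  exact lprime_le _ (by have := pow_pos (s1_tt_pos n) (j + 1); omega)

private lemma s1_code {M T : ℕ} (hM : 0 < M) {x r s : ℕ} (hx : x < M) (hr : r < M) (hs : s < T) :
    x + M * r + M ^ 2 * s < M ^ 2 * T ∧ (x + M * r + M ^ 2 * s) % M = x ∧
      (x + M * r + M ^ 2 * s) / M % M = r ∧ (x + M * r + M ^ 2 * s) / M / M = s := by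
  have h1 : x + M * r + M ^ 2 * s = x + M * (r + M * s) := by ring
  have h2 : (x + M * (r + M * s)) / M = r + M * s := by
    rw [Nat.add_mul_div_left _ _ hM, Nat.div_eq_of_lt hx, zero_add]
  have h3 : (r + M * s) / M = s := by
    rw [Nat.add_mul_div_left _ _ hM, Nat.div_eq_of_lt hr, zero_add]
  refine ⟨?_, ?_, ?_, ?_⟩
  · have h4 : x + M * r < M ^ 2 := by nlinarith
    have h5 : M ^ 2 * (s + 1) ≤ M ^ 2 * T := Nat.mul_le_mul_left _ hs
    nlinarith
  · rw [h1, Nat.add_mul_mod_self_left, Nat.mod_eq_of_lt hx]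
  · rw [h1, h2, Nat.add_mul_mod_self_left, Nat.mod_eq_of_lt hr]
  · rw [h1, h2, h3]

theorem appr_reduce {S : ℕ → Prop} {F : ℕ → ℕ → Prop} {D : ℕ → ℕ} (hD : ∀ n, n ≤ D n)
    (hDp : ∃ d : ℕ, ∀ n, D n ≤ (n + 2) ^ d) (j : ℕ) (K : ℝ) (hK : 0 ≤ K)
    (hK0 : j = 0 → K ≤ 1 / 256)
    (h : Appr S (fun n w => had (F n) (lprime (D n + n + 2)) (tt n) (w % lprime (D n + n + 2))
        (w / lprime (D n + n + 2) % lprime (D n + n + 2))
        (w / lprime (D n + n + 2) / lprime (D n + n + 2)))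
      (fun n => lprime (D n + n + 2) ^ 2 * 2 ^ tt n) (fun n => K / (tt n : ℝ) ^ j)) :
    Appr S F D (fun n => (2 ^ 20 * K + 2 ^ 10) / (tt n : ℝ) ^ (j + 1)) := by
  obtain ⟨P', hP', hE⟩ := h
  -- the modulus
  have hMp : ∀ n, (s1M D n).Prime := fun n => lprime_prime _
  have hM0 : ∀ n, 0 < s1M D n := fun n => (hMp n).pos
  have hMge : ∀ n, D n + n + 2 ≤ s1M D n := fun n => le_lprime _
  have hQp : ∀ n, (s1Q D j n).Prime := fun n => lprime_prime _
  have hQge : ∀ n, 16 * (tt n * s1M D n * 2 ^ tt n) + tt n ^ (j + 1) ≤ s1Q D j n :=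
    fun n => le_lprime _
  -- the predicate with three arguments
  set P : ℕ → ℕ → ℕ → ℕ → Prop := fun n x r s => P' n (x + s1M D n * r + s1M D n ^ 2 * s) with hPdef
  have hP3 : NUP 3 (fun n v => S n ∧ v 0 < s1M D n ∧ v 1 < s1M D n ∧ v 2 < 2 ^ tt n)
      (fun n v => P n (v 0) (v 1) (v 2)) := by
    have hMF : NUF 3 (fun n v => S n ∧ v 0 < s1M D n ∧ v 1 < s1M D n ∧ v 2 < 2 ^ tt n)
        (fun n _ => s1M D n) := NUF.param (s1_M_polyB hDp)
    have hM2F : NUF 3 (fun n v => S n ∧ v 0 < s1M D n ∧ v 1 < s1M D n ∧ v 2 < 2 ^ tt n)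
        (fun n _ => s1M D n ^ 2) := NUF.param ((s1_M_polyB hDp).pow 2)
    refine NUP.comp1 (K := fun n x => S n ∧ x < lprime (D n + n + 2) ^ 2 * 2 ^ tt n) (G := P') hP'
      (((NUF.proj 0).add (hMF.mul (NUF.proj 1))).add (hM2F.mul (NUF.proj 2))) ?_
    refine Eventually.of_forall fun n v hv => ?_
    exact ⟨hv.1, (s1_code (hM0 n) hv.2.1 hv.2.2.1 hv.2.2.2).1⟩
  -- the number of errors
  have hcount : ∀ n, (#{w ∈ range (s1M D n) ×ˢ range (s1M D n) ×ˢ range (2 ^ tt n) |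
      ¬ (P n w.1 w.2.1 w.2.2 ↔ had (F n) (s1M D n) (tt n) w.1 w.2.1 w.2.2)}) ≤
      #{w ∈ range (s1M D n ^ 2 * 2 ^ tt n) | ¬ (P' n w ↔ had (F n) (s1M D n) (tt n) (w % s1M D n)
        (w / s1M D n % s1M D n) (w / s1M D n / s1M D n))} := by
    intro n
    refine card_le_card_of_injOn (fun w => w.1 + s1M D n * w.2.1 + s1M D n ^ 2 * w.2.2) ?_ ?_
    · rintro ⟨x, r, s⟩ hw
      rw [mem_coe, mem_filter, mem_product, mem_product, mem_range, mem_range, mem_range] at hw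
      obtain ⟨⟨hx, hr, hs⟩, hw⟩ := hw
      obtain ⟨h1, h2, h3, h4⟩ := s1_code (hM0 n) hx hr hs
      rw [mem_coe, mem_filter, mem_range]
      refine ⟨h1, ?_⟩
      beta_reduce
      rw [h2, h3, h4]
      exact hw
    · rintro ⟨x, r, s⟩ hw ⟨x', r', s'⟩ hw' heq
      rw [mem_coe, mem_filter, mem_product, mem_product, mem_range, mem_range, mem_range] at hw hw'
      obtain ⟨-, h2, h3, h4⟩ := s1_code (hM0 n) hw.1.1 hw.1.2.1 hw.1.2.2
      obtain ⟨-, h2', h3', h4'⟩ := s1_code (hM0 n) hw'.1.1 hw'.1.2.1 hw'.1.2.2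
      beta_reduce at heq
      rw [heq] at h2 h3 h4
      simp only [Prod.mk.injEq]
      exact ⟨h2.symm.trans h2', h3.symm.trans h3', h4.symm.trans h4'⟩
  -- the seeds
  have hseed : ∀ n, ∃ ρ : ℕ × ℕ, (ρ.1 ≤ s1Q D j n ∧ ρ.2 ≤ s1Q D j n) ∧
      ((∃ ρ₀ < s1Q D j n, ∃ ρ₁ < s1Q D j n, (#{x ∈ range (s1M D n) | ¬ (tt n ^ (j + 1) <
        2 * #{i ∈ range (tt n ^ (j + 1)) | vote (P n) (s1M D n) (tt n) x
          ((ρ₀ + i * ρ₁) % s1Q D j n)} ↔ F n x)} : ℝ) ≤
            (4096 * (K / (tt n : ℝ) ^ j) / tt n + 8 / ((tt n ^ (j + 1) : ℕ) : ℝ)) * s1M D n) →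
        (#{x ∈ range (s1M D n) | ¬ (tt n ^ (j + 1) <
        2 * #{i ∈ range (tt n ^ (j + 1)) | vote (P n) (s1M D n) (tt n) x
          ((ρ.1 + i * ρ.2) % s1Q D j n)} ↔ F n x)} : ℝ) ≤
            (4096 * (K / (tt n : ℝ) ^ j) / tt n + 8 / ((tt n ^ (j + 1) : ℕ) : ℝ)) * s1M D n) := by
    intro n
    by_cases hex : (∃ ρ₀ < s1Q D j n, ∃ ρ₁ < s1Q D j n, (#{x ∈ range (s1M D n) |
      ¬ (tt n ^ (j + 1) <
        2 * #{i ∈ range (tt n ^ (j + 1)) | vote (P n) (s1M D n) (tt n) x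
          ((ρ₀ + i * ρ₁) % s1Q D j n)} ↔ F n x)} : ℝ) ≤
            (4096 * (K / (tt n : ℝ) ^ j) / tt n + 8 / ((tt n ^ (j + 1) : ℕ) : ℝ)) * s1M D n)
    · obtain ⟨ρ₀, h₀, ρ₁, h₁, hb⟩ := hex
      exact ⟨(ρ₀, ρ₁), ⟨h₀.le, h₁.le⟩, fun _ => hb⟩
    · exact ⟨(0, 0), ⟨Nat.zero_le _, Nat.zero_le _⟩, fun h => absurd h hex⟩
  choose ρ hρQ hρ using hseed
  refine ⟨fun n x => tt n ^ (j + 1) < 2 * #{i ∈ range (tt n ^ (j + 1)) |
    vote (P n) (s1M D n) (tt n) x (((ρ n).1 + i * (ρ n).2) % s1Q D j n)}, ?_, ?_⟩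
  · -- definability
    have hu : PolyB (fun n => tt n ^ (j + 1)) := s1_tt_polyB.pow (j + 1)
    refine NUP.ltFun (NUF.param hu) ((NUF.const 2).mul ?_)
    refine NUF.count (j + 1) (NUF.param hu) ?_ ?_
    · filter_upwards [s1_tt_le_lg] with n hn v _
      exact Nat.pow_le_pow_left hn _
    · refine NUP.vote (M := s1M D) (s1_M_polyB hDp) (Eventually.of_forall hM0) S hP3
        (Eventually.of_forall fun n v hv => hv.1.1) (NUF.proj 1) ?_
      refine NUF.mod (NUF.add (NUF.param ((s1_Q_polyB hDp j).mono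
        (Eventually.of_forall fun n => (hρQ n).1))) (NUF.mul (NUF.proj 0) (NUF.param
          ((s1_Q_polyB hDp j).mono (Eventually.of_forall fun n => (hρQ n).2)))))
        (NUF.param (s1_Q_polyB hDp j))
  · -- the error
    have hη : ∀ᶠ n in atTop, K / (tt n : ℝ) ^ j ≤ 1 / 256 := by
      rcases Nat.eq_zero_or_pos j with hj | hj
      · refine Eventually.of_forall fun n => ?_
        rw [hj, pow_zero, div_one]
        exact hK0 hj
      · have h1 : Tendsto (fun n => K / (tt n : ℝ) ^ j) atTop (nhds 0) :=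
          Tendsto.const_div_atTop ((tendsto_pow_atTop hj.ne').comp s1_tt_tendsto) K
        exact h1.eventually_le_const (by norm_num)
    filter_upwards [hη, hE, eventually_ge_atTop 1] with n hn hEn hn1 hS
    have ht0 : (0 : ℝ) < tt n := by exact_mod_cast s1_tt_pos n
    have h1 := segments (M := s1M D n) (t := tt n) (u := tt n ^ (j + 1)) (Q := s1Q D j n) (hMp n)
      (s1_tt_pos n) (by have := s1_tt_le n; have := hMge n; omega) (pow_pos (s1_tt_pos n) _)
      (hQp n) (by have := hQge n; omega) (by have := hQge n; omega) (F n) (P n)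
      (K / (tt n : ℝ) ^ j) hn ?_
    · have h2 := hρ n h1
      have h3 : (#{x ∈ range (D n) | ¬ (tt n ^ (j + 1) < 2 * #{i ∈ range (tt n ^ (j + 1)) |
          vote (P n) (s1M D n) (tt n) x (((ρ n).1 + i * (ρ n).2) % s1Q D j n)} ↔ F n x)} : ℝ) ≤
          (#{x ∈ range (s1M D n) | ¬ (tt n ^ (j + 1) < 2 * #{i ∈ range (tt n ^ (j + 1)) |
          vote (P n) (s1M D n) (tt n) x (((ρ n).1 + i * (ρ n).2) % s1Q D j n)} ↔ F n x)} : ℝ) := by
        have : D n ≤ s1M D n := by have := hMge n; omega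
        exact_mod_cast card_le_card (filter_subset_filter _ (range_subset_range.2 this))
      have hgoal := h3.trans h2
      have h4 : (s1M D n : ℝ) ≤ 8 * D n := by
        have h5 := lprime_le (D n + n + 2) (by omega)
        have h6 := hD n
        have : s1M D n ≤ 8 * D n := by
          unfold s1M
          omega
        exact_mod_cast this
      have h5 : 4096 * (K / (tt n : ℝ) ^ j) / tt n + 8 / ((tt n ^ (j + 1) : ℕ) : ℝ) =
          (4096 * K + 8) / (tt n : ℝ) ^ (j + 1) := by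
        push_cast
        rw [pow_succ]
        field_simp
      rw [h5] at hgoal
      have hfin : (4096 * K + 8) / (tt n : ℝ) ^ (j + 1) * s1M D n ≤
          (2 ^ 20 * K + 2 ^ 10) / (tt n : ℝ) ^ (j + 1) * D n := by
        calc (4096 * K + 8) / (tt n : ℝ) ^ (j + 1) * s1M D n
            ≤ (4096 * K + 8) / (tt n : ℝ) ^ (j + 1) * (8 * D n) := by gcongr
          _ = (32768 * K + 64) / (tt n : ℝ) ^ (j + 1) * D n := by ring
          _ ≤ (2 ^ 20 * K + 2 ^ 10) / (tt n : ℝ) ^ (j + 1) * D n := by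
            gcongr <;> norm_num
      have hgoal2 := hgoal.trans hfin
      refine le_trans (le_of_eq (congrArg (fun s : Finset ℕ => ((#s : ℕ) : ℝ)) ?_)) hgoal2
      ext x
      simp only [mem_filter]
    · have h2 := hEn hS
      refine le_trans (by exact_mod_cast hcount n) (h2.trans (le_of_eq ?_))
      push_cast
      rfl

end Pool.Agent.GAvg
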