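import Pool.Agent.GAvg.Defs

/-!
# Isolation lemma (package GA5)

If a predicate `P` on `[0, D)^t` agrees with the parity of the `f (y i)` on a proportion
`1/2 + γ`, then by fixing variables and taking thresholds one gets a predicate of one variable which
agrees with `f` or its negation on a proportion `1 - η`.
-/

set_option autoImplicit false

namespace Pool.Agent.GAvg

open Finset
open scoped Classical

/-- `-1` for true, `1` for false -/
noncomputable def isoSgn (p : Prop) : ℝ := if p then -1 else 1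

lemma isoSgn_true {p : Prop} (h : p) : isoSgn p = -1 := if_pos h

lemma isoSgn_false {p : Prop} (h : ¬ p) : isoSgn p = 1 := if_neg h

lemma isoSgn_iff (p q : Prop) : isoSgn (p ↔ q) = -(isoSgn p * isoSgn q) := by
  by_cases hp : p <;> by_cases hq : q <;> simp [isoSgn, hp, hq]

lemma isoSgn_not (p : Prop) : isoSgn (¬ p) = -isoSgn p := by
  by_cases hp : p <;> simp [isoSgn, hp]

lemma isoSgn_mul_self (p : Prop) : isoSgn p * isoSgn p = 1 := by
  by_cases hp : p <;> simp [isoSgn, hp]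

lemma isoSgn_abs (p : Prop) : |isoSgn p| = 1 := by
  by_cases hp : p <;> simp [isoSgn, hp]

lemma iso_card {α : Type*} (s : Finset α) (p : α → Prop) [DecidablePred p] :
    (#{x ∈ s | p x} : ℝ) = ∑ x ∈ s, (1 - isoSgn (p x)) / 2 := by
  rw [Finset.card_filter]
  push_cast
  apply Finset.sum_congr rfl
  intro x _
  by_cases hp : p x
  · rw [if_pos hp, isoSgn_true hp]; norm_num
  · rw [if_neg hp, isoSgn_false hp]; norm_num

lemma isoSgn_odd {ι : Type*} (s : Finset ι) (p : ι → Prop) [DecidablePred p] :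
    isoSgn (Odd #{i ∈ s | p i}) = ∏ i ∈ s, isoSgn (p i) := by
  have h1 : ∏ i ∈ s, isoSgn (p i) = (-1 : ℝ) ^ #{i ∈ s | p i} := by
    have h2 : ∀ i ∈ s, isoSgn (p i) = if p i then (-1 : ℝ) else 1 := by
      intro i _
      by_cases hp : p i
      · rw [if_pos hp, isoSgn_true hp]
      · rw [if_neg hp, isoSgn_false hp]
    rw [Finset.prod_congr rfl h2, Finset.prod_ite]
    simp
  rw [h1]
  rcases Nat.even_or_odd (#{i ∈ s | p i}) with h | h
  · rw [isoSgn_false (Nat.not_odd_iff_even.2 h), h.neg_one_pow]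
  · rw [isoSgn_true h, h.neg_one_pow]

lemma iso_sum_cons {j : ℕ} {α : Type*} [Fintype α] (G : (Fin (j + 1) → α) → ℝ) :
    ∑ z : Fin (j + 1) → α, G z = ∑ x : α, ∑ y : Fin j → α, G (Fin.cons x y) := by
  rw [← Fintype.sum_prod_type']
  exact (Equiv.sum_comp (Fin.consEquiv fun _ : Fin (j + 1) => α) G).symm

/-- variance of a sample -/
lemma iso_var {D : ℕ} (h : Fin D → ℝ) (h0 : ∑ x, h x = 0) (h2 : ∑ x, h x ^ 2 ≤ D) (u : ℕ) :
    ∑ xs : Fin u → Fin D, (∑ i, h (xs i)) ^ 2 ≤ u * (D : ℝ) ^ u := by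
  induction u with
  | zero => simp
  | succ u ih =>
    rw [iso_sum_cons]
    have h3 : ∀ (x : Fin D) (y : Fin u → Fin D),
        (∑ i, h ((Fin.cons x y : Fin (u + 1) → Fin D) i)) ^ 2
          = h x ^ 2 + 2 * (h x * ∑ i, h (y i)) + (∑ i, h (y i)) ^ 2 := by
      intro x y
      rw [Fin.sum_univ_succ]
      simp only [Fin.cons_zero, Fin.cons_succ]
      ring
    simp only [h3, Finset.sum_add_distrib, ← Finset.mul_sum, ← Finset.sum_mul]
    rw [h0]
    simp only [Finset.sum_const, Finset.card_univ, Fintype.card_fun, Fintype.card_fin, nsmul_eq_mul,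
      zero_mul, mul_zero, add_zero]
    push_cast
    rw [← Finset.mul_sum]
    have h4 : (D : ℝ) ^ u * ∑ x, h x ^ 2 ≤ (D : ℝ) ^ u * D :=
      mul_le_mul_of_nonneg_left h2 (by positivity)
    have h5 := mul_le_mul_of_nonneg_left ih (show (0 : ℝ) ≤ D by positivity)
    calc (D : ℝ) ^ u * ∑ x, h x ^ 2 + D * ∑ y : Fin u → Fin D, (∑ i, h (y i)) ^ 2
        ≤ (D : ℝ) ^ u * D + D * (u * (D : ℝ) ^ u) := add_le_add h4 h5
      _ = (u + 1) * (D : ℝ) ^ (u + 1) := by ring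

/-- choice of a good sample -/
lemma iso_sample {D w : ℕ} (hD : 0 < D) (hw : 0 < w) {ι : Type*} [Fintype ι] (h : ι → Fin D → ℝ)
    (h0 : ∀ y, ∑ x, h y x = 0) (h2 : ∀ y, ∑ x, h y x ^ 2 ≤ D) :
    ∃ xs : Fin (w ^ 2) → Fin D, ∑ y, |∑ i, h y (xs i)| ≤ w * Fintype.card ι := by
  have hne : Nonempty (Fin (w ^ 2) → Fin D) := ⟨fun _ => ⟨0, hD⟩⟩
  have hw' : (0 : ℝ) < w := by exact_mod_cast hw
  have h3 : ∑ xs : Fin (w ^ 2) → Fin D, ∑ y, |∑ i, h y (xs i)|
      ≤ ∑ xs : Fin (w ^ 2) → Fin D, (w * Fintype.card ι : ℝ) := by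
    rw [Finset.sum_comm]
    have h4 : ∀ y, ∑ xs : Fin (w ^ 2) → Fin D, |∑ i, h y (xs i)| ≤ w * (D : ℝ) ^ (w ^ 2) := by
      intro y
      have h5 : ∀ xs : Fin (w ^ 2) → Fin D, |∑ i, h y (xs i)|
          ≤ (∑ i, h y (xs i)) ^ 2 / (2 * w) + w / 2 := by
        intro xs
        have h6 : 0 ≤ (|∑ i, h y (xs i)| - w) ^ 2 := sq_nonneg _
        have h7 : |∑ i, h y (xs i)| ^ 2 = (∑ i, h y (xs i)) ^ 2 := sq_abs _
        have h8 : (∑ i, h y (xs i)) ^ 2 / (2 * w) + w / 2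
            = ((∑ i, h y (xs i)) ^ 2 + w ^ 2) / (2 * w) := by field_simp
        rw [h8, le_div_iff₀ (by positivity), ← h7]
        linarith
      refine (Finset.sum_le_sum fun xs _ => h5 xs).trans ?_
      rw [Finset.sum_add_distrib, ← Finset.sum_div]
      simp only [Finset.sum_const, Finset.card_univ, Fintype.card_fun, Fintype.card_fin,
        nsmul_eq_mul]
      push_cast
      have h9 := iso_var (h y) (h0 y) (h2 y) (w ^ 2)
      push_cast at h9
      have h10 : (∑ xs : Fin (w ^ 2) → Fin D, (∑ i, h y (xs i)) ^ 2) / (2 * w)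
          ≤ ((w : ℝ) ^ 2 * (D : ℝ) ^ (w ^ 2)) / (2 * w) := by gcongr
      have h11 : ((w : ℝ) ^ 2 * (D : ℝ) ^ (w ^ 2)) / (2 * w) = w / 2 * (D : ℝ) ^ (w ^ 2) := by
        field_simp
      rw [h11] at h10
      linarith
    refine (Finset.sum_le_sum fun y _ => h4 y).trans ?_
    simp only [Finset.sum_const, Finset.card_univ, Fintype.card_fun, Fintype.card_fin,
      nsmul_eq_mul]
    push_cast
    exact le_of_eq (by ring)
  obtain ⟨xs, _, hxs⟩ := Finset.exists_le_of_sum_le Finset.univ_nonempty h3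
  exact ⟨xs, hxs⟩

/-- sum of the signs of the thresholds -/
lemma iso_layer {A B n : ℕ} (hAB : A ≤ B) {s : ℝ} (h1 : -((B : ℝ) - A) ≤ s) (h2 : s ≤ (B : ℝ) - A) :
    |(∑ τ ∈ Ioc A B, isoSgn (τ ≤ n)) - s| ≤ |((A : ℝ) + B - 2 * n) - s| := by
  have hc : ((#(Ioc A B) : ℕ) : ℝ) = (B : ℝ) - A := by
    rw [Nat.card_Ioc, Nat.cast_sub hAB]
  rcases le_total n A with hn | hn
  · have h3 : ∑ τ ∈ Ioc A B, isoSgn (τ ≤ n) = (B : ℝ) - A := by
      rw [← hc, Finset.sum_congr rfl (g := fun _ => (1 : ℝ))]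
      · simp
      · intro τ hτ
        rw [Finset.mem_Ioc] at hτ
        exact isoSgn_false (by omega)
    rw [h3]
    have hn' : (n : ℝ) ≤ A := by exact_mod_cast hn
    rw [abs_of_nonneg (by linarith), abs_of_nonneg (by linarith)]
    linarith
  · rcases le_total B n with hn2 | hn2
    · have h3 : ∑ τ ∈ Ioc A B, isoSgn (τ ≤ n) = -((B : ℝ) - A) := by
        rw [← hc, Finset.sum_congr rfl (g := fun _ => (-1 : ℝ))]
        · simp
        · intro τ hτ
          rw [Finset.mem_Ioc] at hτ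
          exact isoSgn_true (by omega)
      rw [h3]
      have hn' : (B : ℝ) ≤ n := by exact_mod_cast hn2
      rw [abs_of_nonpos (by linarith), abs_of_nonpos (by linarith)]
      linarith
    · have h3 : ∑ τ ∈ Ioc A B, isoSgn (τ ≤ n) = (A : ℝ) + B - 2 * n := by
        have e1 : ∑ τ ∈ Ioc A n, isoSgn (τ ≤ n) = -((n : ℝ) - A) := by
          rw [Finset.sum_congr rfl (g := fun _ => (-1 : ℝ)) (fun τ hτ => isoSgn_true
            (Finset.mem_Ioc.1 hτ).2)]
          simp only [Finset.sum_const, Nat.card_Ioc, nsmul_eq_mul]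
          rw [Nat.cast_sub hn]
          ring
        have e2 : ∑ τ ∈ Ioc n B, isoSgn (τ ≤ n) = (B : ℝ) - n := by
          rw [Finset.sum_congr rfl (g := fun _ => (1 : ℝ)) (fun τ hτ => isoSgn_false
            (not_le.2 (Finset.mem_Ioc.1 hτ).1))]
          simp only [Finset.sum_const, Nat.card_Ioc, nsmul_eq_mul]
          rw [Nat.cast_sub hn2]
          ring
        rw [← Finset.sum_Ioc_consecutive _ hn hn2, e1, e2]
        ring
      rw [h3]

/-- correlation (not normalised) of `Q` with the parity -/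
noncomputable def isoCorr (D : ℕ) (f : ℕ → Prop) (j : ℕ) (Q : (Fin j → ℕ) → Prop) : ℝ :=
  ∑ y : Fin j → Fin D, isoSgn (Q fun i => (y i : ℕ)) * ∏ i, isoSgn (f (y i))

/-- sum over the first variable -/
noncomputable def isoS (D : ℕ) (f : ℕ → Prop) (j : ℕ) (Q : (Fin (j + 1) → ℕ) → Prop)
    (y : Fin j → ℕ) : ℝ := ∑ x : Fin D, isoSgn (Q (Fin.cons (x : ℕ) y)) * isoSgn (f x)

lemma isoCorr_succ (D : ℕ) (f : ℕ → Prop) (j : ℕ) (Q : (Fin (j + 1) → ℕ) → Prop) :
    isoCorr D f (j + 1) Q = ∑ y : Fin j → Fin D,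
      isoS D f j Q (fun i => (y i : ℕ)) * ∏ i, isoSgn (f (y i)) := by
  unfold isoCorr
  rw [iso_sum_cons, Finset.sum_comm]
  apply Finset.sum_congr rfl
  intro y _
  unfold isoS
  rw [Finset.sum_mul]
  apply Finset.sum_congr rfl
  intro x _
  rw [Fin.prod_univ_succ]
  simp only [Fin.cons_zero, Fin.cons_succ]
  have h1 : (fun i => (((Fin.cons x y : Fin (j + 1) → Fin D) i : Fin D) : ℕ))
      = Fin.cons (x : ℕ) (fun i => (y i : ℕ)) := by
    funext i
    refine Fin.cases ?_ (fun i => ?_) i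
    · simp
    · simp
  rw [h1]
  ring

/-- the case of a fibre with large correlation -/
lemma iso_caseA {D : ℕ} (f : ℕ → Prop) {j : ℕ} (Q : (Fin (j + 1) → ℕ) → Prop) (y : Fin j → ℕ)
    {η : ℝ} (h : (1 - 2 * η) * D ≤ |isoS D f j Q y|) : ∃ b : Prop,
      (1 - η) * (D : ℝ) ≤ (#{x ∈ range D | (Q (Fin.cons x y) ↔ b) ↔ f x} : ℝ) := by
  have hS : isoS D f j Q y = ∑ x ∈ range D, isoSgn (Q (Fin.cons x y)) * isoSgn (f x) :=
    Fin.sum_univ_eq_sum_range (fun x => isoSgn (Q (Fin.cons x y)) * isoSgn (f x)) D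
  have hc : ∀ b : Prop, (#{x ∈ range D | (Q (Fin.cons x y) ↔ b) ↔ f x} : ℝ)
      = (D - isoSgn b * isoS D f j Q y) / 2 := by
    intro b
    rw [iso_card, ← Finset.sum_div]
    congr 1
    rw [Finset.sum_sub_distrib, hS, Finset.mul_sum]
    simp only [Finset.sum_const, Finset.card_range, nsmul_eq_mul, mul_one]
    congr 1
    apply Finset.sum_congr rfl
    intro x _
    rw [isoSgn_iff, isoSgn_iff]
    ring
  rcases le_abs.1 h with h | h
  · refine ⟨True, ?_⟩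
    rw [hc, isoSgn_true trivial]
    linarith
  · refine ⟨False, ?_⟩
    rw [hc, isoSgn_false not_false]
    linarith

/-- the case of small fibres: a threshold has larger correlation -/
lemma iso_caseB {D : ℕ} (hD : 0 < D) (f : ℕ → Prop) {j : ℕ} (Q : (Fin (j + 1) → ℕ) → Prop)
    {γ η θ : ℝ} (hγ : 0 < γ) (hη : 0 < η) (hη4 : η ≤ 1 / 4) (hθ : 2 * γ ≤ θ) {w : ℕ}
    (hw1 : 1 ≤ η * γ * w) (hw2 : 2 ≤ η * (w : ℝ) ^ 2)
    (hQ : θ * (D : ℝ) ^ (j + 1) ≤ isoCorr D f (j + 1) Q)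
    (hS : ∀ y : Fin j → Fin D, |isoS D f j Q (fun i => (y i : ℕ))| ≤ (1 - 2 * η) * D) :
    ∃ xs : Fin (w ^ 2) → Fin D, ∃ τ ≤ w ^ 2, θ * (1 + η / 2) * (D : ℝ) ^ j ≤
      isoCorr D f j (fun y => τ ≤ #{i : Fin (w ^ 2) |
        Q (Fin.cons ((xs i : Fin D) : ℕ) y) ↔ ¬ f (xs i)}) := by
  have hD' : (0 : ℝ) < D := by exact_mod_cast hD
  have hw0 : 0 < w := by
    rcases Nat.eq_zero_or_pos w with h | h
    · rw [h] at hw1; norm_num at hw1
    · exact h
  have hw' : (0 : ℝ) < w := by exact_mod_cast hw0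
  -- the sample
  obtain ⟨g, hg⟩ : ∃ g : (Fin j → Fin D) → Fin D → ℝ, g = fun (y : Fin j → Fin D) (x : Fin D) =>
      isoSgn (Q (Fin.cons (x : ℕ) (fun i => (y i : ℕ)))) * isoSgn (f x) := ⟨_, rfl⟩
  obtain ⟨S, hSdef⟩ : ∃ S : (Fin j → Fin D) → ℝ,
      S = fun (y : Fin j → Fin D) => isoS D f j Q (fun i => (y i : ℕ)) := ⟨_, rfl⟩
  have hgS : ∀ y, ∑ x, g y x = S y := by
    intro y; rw [hg, hSdef]; rfl
  have hgg : ∀ y x, g y x ^ 2 = 1 := by
    intro y x
    rw [hg]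
    dsimp only
    rw [mul_pow, sq, sq, isoSgn_mul_self, isoSgn_mul_self, one_mul]
  obtain ⟨xs, hxs⟩ := iso_sample hD hw0 (fun y x => g y x - S y / D)
    (by
      intro y
      rw [Finset.sum_sub_distrib, hgS]
      simp only [Finset.sum_const, Finset.card_univ, Fintype.card_fin, nsmul_eq_mul]
      field_simp
      ring)
    (by
      intro y
      have h1 : ∀ x, (g y x - S y / D) ^ 2 = 1 - 2 * (S y / D) * g y x + (S y / D) ^ 2 := by
        intro x
        rw [← hgg y x]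
        ring
      simp only [h1]
      rw [Finset.sum_add_distrib, Finset.sum_sub_distrib, ← Finset.mul_sum, hgS]
      simp only [Finset.sum_const, Finset.card_univ, Fintype.card_fin, nsmul_eq_mul, mul_one]
      have h2 : (D : ℝ) - 2 * (S y / D) * S y + D * (S y / D) ^ 2 = D - S y ^ 2 / D := by
        field_simp
        ring
      rw [h2]
      have h3 : 0 ≤ S y ^ 2 / D := by positivity
      linarith)
  -- thresholds
  obtain ⟨A, hA⟩ : ∃ A, A = ⌊η * (w : ℝ) ^ 2⌋₊ := ⟨_, rfl⟩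
  have hA1 : (A : ℝ) ≤ η * (w : ℝ) ^ 2 := by rw [hA]; exact Nat.floor_le (by positivity)
  have hA2 : η * (w : ℝ) ^ 2 < A + 1 := by rw [hA]; exact Nat.lt_floor_add_one _
  have hA3 : (4 * A : ℝ) ≤ (w : ℝ) ^ 2 := by
    have h1 : η * (w : ℝ) ^ 2 ≤ 1 / 4 * (w : ℝ) ^ 2 :=
      mul_le_mul_of_nonneg_right hη4 (by positivity)
    linarith
  have hA4 : 4 * A ≤ w ^ 2 := by exact_mod_cast hA3
  obtain ⟨B, hB⟩ : ∃ B, B = w ^ 2 - A := ⟨_, rfl⟩
  have hAB : A ≤ B := by omega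
  have hBr : (B : ℝ) = (w : ℝ) ^ 2 - A := by
    rw [hB, Nat.cast_sub (by omega)]; push_cast; ring
  obtain ⟨N, hN⟩ : ∃ N : (Fin j → Fin D) → ℕ, N = fun (y : Fin j → Fin D) => #{i : Fin (w ^ 2) |
        Q (Fin.cons ((xs i : Fin D) : ℕ) (fun i => (y i : ℕ))) ↔ ¬ f (xs i)} := ⟨_, rfl⟩
  have hNg : ∀ y, ∑ i, g y (xs i) = (w : ℝ) ^ 2 - 2 * N y := by
    intro y
    rw [hN]
    dsimp only
    rw [iso_card, ← Finset.sum_div, Finset.sum_sub_distrib]
    simp only [Finset.sum_const, Finset.card_univ, Fintype.card_fin, nsmul_eq_mul, mul_one]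
    have h1 : ∑ i, isoSgn (Q (Fin.cons ((xs i : Fin D) : ℕ) (fun i => (y i : ℕ))) ↔ ¬ f (xs i))
        = ∑ i, g y (xs i) := by
      apply Finset.sum_congr rfl
      intro i _
      rw [hg, isoSgn_iff, isoSgn_not]
      ring
    rw [h1]
    push_cast
    ring
  have hxs2 : ∑ y, |(w : ℝ) ^ 2 - 2 * N y - (w : ℝ) ^ 2 * (S y / D)| ≤ w * (D : ℝ) ^ j := by
    refine le_trans (le_of_eq ?_) (hxs.trans (le_of_eq ?_))
    · apply Finset.sum_congr rfl
      intro y _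
      rw [Finset.sum_sub_distrib, hNg]
      simp only [Finset.sum_const, Finset.card_univ, Fintype.card_fin, nsmul_eq_mul]
      push_cast
      ring_nf
    · rw [Fintype.card_fun, Fintype.card_fin, Fintype.card_fin]
      push_cast
      ring
  obtain ⟨π, hπ⟩ : ∃ π : (Fin j → Fin D) → ℝ, π = fun (y : Fin j → Fin D) => ∏ i, isoSgn (f (y i)) := ⟨_, rfl⟩
  have hπ1 : ∀ y, |π y| = 1 := by
    intro y
    rw [hπ]
    dsimp only
    rw [Finset.abs_prod]
    exact Finset.prod_eq_one fun i _ => isoSgn_abs _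
  have hcorr : θ * (D : ℝ) ^ j ≤ ∑ y, S y / D * π y := by
    rw [isoCorr_succ] at hQ
    have h1 : ∑ y, S y / D * π y = (∑ y, S y * π y) / D := by
      rw [Finset.sum_div]
      exact Finset.sum_congr rfl fun y _ => by ring
    rw [h1, le_div_iff₀ hD', hSdef, hπ]
    refine le_trans (le_of_eq ?_) hQ
    ring
  -- the sum of the correlations of the thresholds
  have hK : ∀ y, |(∑ τ ∈ Ioc A B, isoSgn (τ ≤ N y)) - (w : ℝ) ^ 2 * (S y / D)|
      ≤ |(w : ℝ) ^ 2 - 2 * N y - (w : ℝ) ^ 2 * (S y / D)| := by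
    intro y
    have h1 : |S y| ≤ (1 - 2 * η) * D := by rw [hSdef]; exact hS y
    have h2 : |(w : ℝ) ^ 2 * (S y / D)| ≤ (B : ℝ) - A := by
      rw [abs_mul, abs_div, abs_of_pos hD', abs_of_nonneg (by positivity : (0 : ℝ) ≤ (w : ℝ) ^ 2),
        hBr]
      have h3 : |S y| / D ≤ 1 - 2 * η := by rw [div_le_iff₀ hD']; exact h1
      have h4 := mul_le_mul_of_nonneg_left h3 (by positivity : (0 : ℝ) ≤ (w : ℝ) ^ 2)
      linarith
    have h5 := iso_layer (n := N y) hAB (abs_le.1 h2).1 (abs_le.1 h2).2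
    have h6 : (A : ℝ) + B - 2 * N y = (w : ℝ) ^ 2 - 2 * N y := by rw [hBr]; ring
    rwa [h6] at h5
  have hsum : (w : ℝ) ^ 2 * (θ * (D : ℝ) ^ j) - w * (D : ℝ) ^ j
      ≤ ∑ τ ∈ Ioc A B, ∑ y, isoSgn (τ ≤ N y) * π y := by
    rw [Finset.sum_comm]
    have h1 : ∀ y, (w : ℝ) ^ 2 * (S y / D * π y) -
        |(w : ℝ) ^ 2 - 2 * N y - (w : ℝ) ^ 2 * (S y / D)|
        ≤ ∑ τ ∈ Ioc A B, isoSgn (τ ≤ N y) * π y := by
      intro y
      rw [← Finset.sum_mul]
      have h2 := hK y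
      have h3 : |((∑ τ ∈ Ioc A B, isoSgn (τ ≤ N y)) - (w : ℝ) ^ 2 * (S y / D)) * π y|
          ≤ |(w : ℝ) ^ 2 - 2 * N y - (w : ℝ) ^ 2 * (S y / D)| := by
        rw [abs_mul, hπ1, mul_one]; exact h2
      have h4 := (abs_le.1 h3).1
      have h5 : ((∑ τ ∈ Ioc A B, isoSgn (τ ≤ N y)) - (w : ℝ) ^ 2 * (S y / D)) * π y
          = (∑ τ ∈ Ioc A B, isoSgn (τ ≤ N y)) * π y - (w : ℝ) ^ 2 * (S y / D * π y) := by ring
      rw [h5] at h4
      linarith
    refine le_trans ?_ (Finset.sum_le_sum fun y _ => h1 y)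
    rw [Finset.sum_sub_distrib, ← Finset.mul_sum]
    have h2 := mul_le_mul_of_nonneg_left hcorr (by positivity : (0 : ℝ) ≤ (w : ℝ) ^ 2)
    linarith
  by_contra hcon
  push Not at hcon
  have hθ0 : 0 < θ := by linarith
  have h1 : ∀ τ ∈ Ioc A B, ∑ y, isoSgn (τ ≤ N y) * π y ≤ θ * (1 + η / 2) * (D : ℝ) ^ j := by
    intro τ hτ
    rw [Finset.mem_Ioc] at hτ
    have h2 := hcon xs τ (by omega)
    unfold isoCorr at h2
    rw [hN, hπ]
    exact h2.le
  have h2 := hsum.trans (Finset.sum_le_sum h1)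
  simp only [Finset.sum_const, Nat.card_Ioc, nsmul_eq_mul] at h2
  rw [Nat.cast_sub hAB, hBr] at h2
  have hDj : (0 : ℝ) < (D : ℝ) ^ j := by positivity
  have h3 : ((w : ℝ) ^ 2 - A - A) ≤ (w : ℝ) ^ 2 * (1 - η) := by linarith
  have h4 : ((w : ℝ) ^ 2 - A - A) * (θ * (1 + η / 2) * (D : ℝ) ^ j)
      ≤ ((w : ℝ) ^ 2 * (1 - η)) * (θ * (1 + η / 2) * (D : ℝ) ^ j) :=
    mul_le_mul_of_nonneg_right h3 (by positivity)
  have h5 : (w : ℝ) ≤ η / 2 * θ * (w : ℝ) ^ 2 := by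
    have h6 : η * γ * w ≤ η / 2 * θ * w := by
      apply mul_le_mul_of_nonneg_right _ hw'.le
      have := mul_le_mul_of_nonneg_left hθ hη.le
      linarith
    have h7 : 1 ≤ η / 2 * θ * w := hw1.trans h6
    have h8 := mul_le_mul_of_nonneg_right h7 hw'.le
    linarith
  have h6 : (w : ℝ) ^ 2 * (1 - η / 2) * θ * (D : ℝ) ^ j
      ≤ (w : ℝ) ^ 2 * (θ * (D : ℝ) ^ j) - w * (D : ℝ) ^ j := by
    have h7 := mul_le_mul_of_nonneg_right h5 hDj.le
    linarith
  have h7 : (w : ℝ) ^ 2 * (1 - η / 2) * θ * (D : ℝ) ^ j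
      ≤ ((w : ℝ) ^ 2 * (1 - η)) * (θ * (1 + η / 2) * (D : ℝ) ^ j) := h6.trans (h2.trans h4)
  have h8 : ((w : ℝ) ^ 2 * (1 - η)) * (θ * (1 + η / 2) * (D : ℝ) ^ j)
      = (w : ℝ) ^ 2 * (1 - η / 2) * θ * (D : ℝ) ^ j - (w : ℝ) ^ 2 * θ * (D : ℝ) ^ j * (η ^ 2 / 2) := by
    ring
  have h9 : 0 < (w : ℝ) ^ 2 * θ * (D : ℝ) ^ j * (η ^ 2 / 2) := by positivity
  linarith

theorem isolation (γ η : ℝ) (hγ : 0 < γ) (hη : 0 < η) :
    ∃ t u : ℕ, 0 < t ∧ ∀ (D : ℕ) (f : ℕ → Prop) (P : (Fin t → ℕ) → Prop), 0 < D →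
      (1 / 2 + γ) * (D : ℝ) ^ t ≤ (#{y : Fin t → Fin D | P (fun i => (y i : ℕ)) ↔
        Odd (#{i : Fin t | f (y i)})} : ℝ) →
      ∃ (j : ℕ) (Q : (Fin (j + 1) → ℕ) → Prop), Der D u P (j + 1) Q ∧
        ∃ y₀ : Fin j → ℕ, (∀ i, y₀ i < D) ∧ ∃ b : Prop,
          (1 - η) * (D : ℝ) ≤ (#{x ∈ range D | (Q (Fin.cons x y₀) ↔ b) ↔ f x} : ℝ) := by
  wlog hη4 : η ≤ 1 / 4 with H
  · obtain ⟨t, u, ht, h⟩ := H γ (1 / 4) hγ (by norm_num) le_rfl
    refine ⟨t, u, ht, fun D f P hD hP => ?_⟩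
    obtain ⟨j, Q, hQ, y₀, hy, b, hb⟩ := h D f P hD hP
    refine ⟨j, Q, hQ, y₀, hy, b, le_trans ?_ hb⟩
    exact mul_le_mul_of_nonneg_right (by linarith) (by positivity)
  obtain ⟨t, ht⟩ := pow_unbounded_of_one_lt (1 / (2 * γ)) (show 1 < 1 + η / 2 by linarith)
  obtain ⟨w, hw⟩ := exists_nat_ge (1 / (η * γ) + 2 / η)
  have hηγ : 0 < η * γ := by positivity
  have hw1 : 1 ≤ η * γ * w := by
    have h1 : 1 / (η * γ) ≤ w := le_trans (by
      have : 0 < 2 / η := by positivity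
      linarith) hw
    rw [div_le_iff₀ hηγ] at h1
    linarith
  have hw2 : 2 ≤ η * (w : ℝ) ^ 2 := by
    have h1 : 2 / η ≤ w := le_trans (by
      have : 0 < 1 / (η * γ) := by positivity
      linarith) hw
    have h3 : (1 : ℝ) ≤ w := by
      have h4 : 0 < (w : ℝ) := lt_of_lt_of_le (by positivity) h1
      have h5 : 0 < w := by exact_mod_cast h4
      exact_mod_cast h5
    rw [div_le_iff₀ hη] at h1
    have h2 : (w : ℝ) ≤ (w : ℝ) ^ 2 := by nlinarith
    have h4 := mul_le_mul_of_nonneg_left h2 hη.le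
    linarith
  refine ⟨t + 1, w ^ 2, by omega, fun D f P hD hP => ?_⟩
  have hD' : (0 : ℝ) < D := by exact_mod_cast hD
  by_contra hcon
  -- correlation of `P`
  have hP2 : 2 * γ * (D : ℝ) ^ (t + 1) ≤ isoCorr D f (t + 1) P := by
    rw [iso_card, ← Finset.sum_div, Finset.sum_sub_distrib] at hP
    simp only [Finset.sum_const, Finset.card_univ, Fintype.card_fun, Fintype.card_fin,
      nsmul_eq_mul, mul_one] at hP
    have h1 : ∑ y : Fin (t + 1) → Fin D, isoSgn (P (fun i => (y i : ℕ)) ↔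
        Odd (#{i : Fin (t + 1) | f (y i)})) = -isoCorr D f (t + 1) P := by
      unfold isoCorr
      rw [← Finset.sum_neg_distrib]
      apply Finset.sum_congr rfl
      intro y _
      rw [isoSgn_iff, isoSgn_odd]
    rw [h1] at hP
    push_cast at hP
    linarith
  have key : ∀ n j : ℕ, j + n = t + 1 → ∃ Q : (Fin j → ℕ) → Prop, Der D (w ^ 2) P j Q ∧
      2 * γ * (1 + η / 2) ^ n * (D : ℝ) ^ j ≤ isoCorr D f j Q := by
    intro n
    induction n with
    | zero =>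
      intro j hj
      rw [add_zero] at hj
      subst hj
      refine ⟨P, Der.base, ?_⟩
      rw [pow_zero, mul_one]
      exact hP2
    | succ n ih =>
      intro j hj
      obtain ⟨Q, hQ, hQc⟩ := ih (j + 1) (by omega)
      have hpow : 1 ≤ (1 + η / 2) ^ n := one_le_pow₀ (by linarith)
      obtain ⟨xs, τ, hτ, hc⟩ := iso_caseB (γ := γ) (η := η) (θ := 2 * γ * (1 + η / 2) ^ n) hD f Q hγ
        hη hη4 (by nlinarith) hw1 hw2 hQc (by
          intro y
          by_contra hy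
          push Not at hy
          obtain ⟨b, hb⟩ := iso_caseA f Q (fun i => (y i : ℕ)) hy.le
          exact hcon ⟨j, Q, hQ, _, fun i => (y i).isLt, b, hb⟩)
      refine ⟨_, Der.step hQ (fun i => (xs i : ℕ)) (fun i => (xs i).isLt)
        (fun i => ¬ f (xs i)) τ hτ, ?_⟩
      have e : 2 * γ * (1 + η / 2) ^ (n + 1) = 2 * γ * (1 + η / 2) ^ n * (1 + η / 2) := by
        rw [pow_succ]; ring
      rw [e]
      convert hc
  obtain ⟨Q, _, hQc⟩ := key (t + 1) 0 (by omega)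
  have h1 : isoCorr D f 0 Q ≤ 1 := by
    unfold isoCorr
    rw [Fintype.sum_unique]
    simp only [Finset.univ_eq_empty, Finset.prod_empty, mul_one]
    exact (le_abs_self _).trans (isoSgn_abs _).le
  have h2 : 1 < 2 * γ * (1 + η / 2) ^ (t + 1) := by
    rw [div_lt_iff₀ (by positivity)] at ht
    have h3 : (1 + η / 2) ^ t ≤ (1 + η / 2) ^ (t + 1) :=
      pow_le_pow_right₀ (by linarith) (by omega)
    have h4 := mul_le_mul_of_nonneg_right h3 (show 0 ≤ 2 * γ by positivity)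
    linarith
  rw [pow_zero, mul_one] at hQc
  linarith

end Pool.Agent.GAvg
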