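import Pool.Agent.GAvg.AdvQ
import Pool.Agent.GAvg.Isolation

/-!
# From correlation to a constant error (package GB8)
-/

set_option autoImplicit false

namespace Pool.Agent.GAvg

open Finset Filter Pool.Agent.Grz
open scoped Classical

lemma step2_der_le {D u t : ℕ} {P : (Fin t → ℕ) → Prop} {j : ℕ} {Q : (Fin j → ℕ) → Prop}
    (h : Der D u P j Q) : j ≤ t := by
  induction h with
  | base => exact le_rfl
  | step _ _ _ _ _ _ ih => omega

lemma step2_der_top {D u t : ℕ} {P Q : (Fin t → ℕ) → Prop} (h : Der D u P t Q) : Q = P := by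
  cases h with
  | base => rfl
  | step h xs hxs bs τ hτ => exact absurd (step2_der_le h) (by omega)

lemma step2_der_inv {D u t : ℕ} {P : (Fin t → ℕ) → Prop} {j : ℕ} {Q : (Fin j → ℕ) → Prop}
    (h : Der D u P j Q) (hj : j < t) : ∃ (Q' : (Fin (j + 1) → ℕ) → Prop) (xs : Fin u → ℕ)
      (bs : Fin u → Prop) (τ : ℕ), Der D u P (j + 1) Q' ∧ (∀ i, xs i < D) ∧ τ ≤ u ∧
      Q = fun y => τ ≤ #{i : Fin u | Q' (Fin.cons (xs i) y) ↔ bs i} := by
  cases h with
  | base => omega
  | step h xs hxs bs τ hτ => exact ⟨_, xs, bs, τ, h, hxs, hτ, rfl⟩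

/-- everything derived from `P` is definable -/
lemma step2_main {t u : ℕ} {D : ℕ → ℕ} (hD : PolyB D) {P : ℕ → (Fin t → ℕ) → Prop}
    {S : ℕ → Prop} (hP : NUP t (fun n v => S n ∧ ∀ i, v i < D n) P) :
    ∀ (k j : ℕ), j + k = t → ∀ (S' : ℕ → Prop) (Q : ℕ → (Fin j → ℕ) → Prop), (∀ n, S' n → S n) →
      (∀ n, S' n → Der (D n) u (P n) j (Q n)) →
      NUP j (fun n v => S' n ∧ ∀ i, v i < D n) Q := by
  intro k
  induction k with
  | zero =>
    intro j hj S' Q hS' hQ
    rw [add_zero] at hj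
    subst hj
    refine (hP.mono (Eventually.of_forall fun n v hv => ⟨hS' n hv.1, hv.2⟩)).congr
      (Eventually.of_forall fun n v hv => ?_)
    rw [step2_der_top (hQ n hv.1)]
  | succ k ih =>
    intro j hj S' Q hS' hQ
    have h1 : ∀ n, ∃ (Q' : (Fin (j + 1) → ℕ) → Prop) (xs : Fin u → ℕ)
      (bs : Fin u → Prop) (τ : ℕ), S' n → (Der (D n) u (P n) (j + 1) Q' ∧ (∀ i, xs i < D n) ∧ τ ≤ u ∧
      Q n = fun y => τ ≤ #{i : Fin u | Q' (Fin.cons (xs i) y) ↔ bs i}) := by
      intro n
      by_cases hn : S' n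
      · obtain ⟨Q', xs, bs, τ, h⟩ := step2_der_inv (hQ n hn) (by omega)
        exact ⟨Q', xs, bs, τ, fun _ => h⟩
      · exact ⟨fun _ => True, fun _ => 0, fun _ => True, 0, fun h => absurd h hn⟩
    choose Q' xs bs τ h using h1
    have hQ' := ih (j + 1) (by omega) S' Q' hS' (fun n hn => (h n hn).1)
    have hterm : ∀ i : Fin u, NUP j (fun n v => S' n ∧ ∀ i, v i < D n)
        (fun n v => Q' n (Fin.cons (xs n i) v) ↔ bs n i) := by
      intro i
      apply NUP.iff _ (NUP.param _)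
      have hx : PolyB (fun n => if S' n then xs n i else 0) := by
        refine hD.mono (Eventually.of_forall fun n => ?_)
        split_ifs with hn
        · exact ((h n hn).2.1 i).le
        · exact Nat.zero_le _
      have h2 := NUP.subst hQ' (C := fun n v => S' n ∧ ∀ i, v i < D n)
        (h := Fin.cons (fun n _ => if S' n then xs n i else 0) (fun l n v => v l))
        (fun l => by
          refine Fin.cases ?_ (fun l => ?_) l
          · exact NUF.param hx
          · exact NUF.proj l)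
        (Eventually.of_forall fun n v hv => ⟨hv.1, fun l => by
          refine Fin.cases ?_ (fun l => ?_) l
          · simp only [Fin.cons_zero, if_pos hv.1]
            exact (h n hv.1).2.1 i
          · simp only [Fin.cons_succ]
            exact hv.2 l⟩)
      refine h2.congr (Eventually.of_forall fun n v hv => ?_)
      have e : (fun l : Fin (j + 1) => (Fin.cons (fun n _ => if S' n then xs n i else 0)
          (fun l n v => v l) : Fin (j + 1) → ℕ → (Fin j → ℕ) → ℕ) l n v) = Fin.cons (xs n i) v := by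
        funext l
        refine Fin.cases ?_ (fun l => ?_) l
        · simp only [Fin.cons_zero, if_pos hv.1]
        · simp only [Fin.cons_succ]
      rw [e]
    have hτ : PolyB (fun n => if S' n then τ n else 0) := by
      refine (PolyB.const u).mono (Eventually.of_forall fun n => ?_)
      split_ifs with hn
      · exact (h n hn).2.2.1
      · exact Nat.zero_le _
    have h3 := NUP.leFun (NUF.param hτ) (NUF.finSum fun i =>
      NUF.ite (hterm i) (NUF.const 1) (NUF.const 0))
    refine h3.congr (Eventually.of_forall fun n v hv => ?_)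
    rw [(h n hv.1).2.2.2, if_pos hv.1]
    dsimp only
    rw [Finset.card_filter]

/-- complement, as sums of signs -/
lemma step2_compl (N : ℕ) (p : ℕ → Prop) :
    ∑ x ∈ range N, (1 - isoSgn (p x)) / 2 + ∑ x ∈ range N, (1 - isoSgn (¬ p x)) / 2 = N := by
  rw [← Finset.sum_add_distrib]
  have h : ∀ x ∈ range N, (1 - isoSgn (p x)) / 2 + (1 - isoSgn (¬ p x)) / 2 = 1 := by
    intro x _
    rw [isoSgn_not]
    ring
  rw [Finset.sum_congr rfl h]
  simp

lemma step2_flip {N : ℕ} {γ M : ℝ} (p : ℕ → Prop) (q : ℕ → Prop) (hM : (N : ℝ) = M)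
    (h : ∑ x ∈ range N, (1 - isoSgn (¬ (p x ↔ q x))) / 2 ≤ (1 / 2 - γ) * (N : ℝ)) :
    (1 / 2 + γ) * M ≤ ∑ x ∈ range N, (1 - isoSgn (p x ↔ q x)) / 2 := by
  have h1 := step2_compl N (fun x => (p x ↔ q x))
  rw [← hM]
  linarith

lemma step2_flip' {N : ℕ} (p : ℕ → Prop)
    (h : (1 - 1 / 1024) * (N : ℝ) ≤ ∑ x ∈ range N, (1 - isoSgn (p x)) / 2) :
    ∑ x ∈ range N, (1 - isoSgn (¬ p x)) / 2 ≤ 1 / 1024 * (N : ℝ) := by
  have h1 := step2_compl N p
  linarith

/-- codes of vectors -/
lemma step2_count {D t : ℕ} (A : ℕ → Prop) (f : ℕ → Prop) :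
    #{y : Fin t → Fin D | A (∑ i, (y i : ℕ) * D ^ (i : ℕ)) ↔ Odd (#{i : Fin t | f (y i)})}
      = #{w ∈ range (D ^ t) | A w ↔ Odd (#{i : Fin t | f (dig D w i)})} := by
  have hdig : ∀ (y : Fin t → Fin D) (i : Fin t), dig D (∑ i, (y i : ℕ) * D ^ (i : ℕ)) i = y i := by
    intro y i
    have h1 : finFunctionFinEquiv.symm (finFunctionFinEquiv y) i = y i := by
      rw [Equiv.symm_apply_apply]
    have h2 := congrArg Fin.val h1
    exact h2
  apply Finset.card_bij (fun y _ => ((finFunctionFinEquiv y : Fin (D ^ t)) : ℕ))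
  · intro y hy
    rw [Finset.mem_filter] at hy ⊢
    refine ⟨Finset.mem_range.2 (Fin.isLt _), ?_⟩
    rw [finFunctionFinEquiv_apply]
    simp only [hdig]
    exact hy.2
  · intro y _ y' _ h
    exact finFunctionFinEquiv.injective (Fin.ext h)
  · intro w hw
    rw [Finset.mem_filter, Finset.mem_range] at hw
    refine ⟨finFunctionFinEquiv.symm ⟨w, hw.1⟩, ?_, ?_⟩
    · rw [Finset.mem_filter]
      refine ⟨Finset.mem_univ _, ?_⟩
      have h1 : ∑ i, ((finFunctionFinEquiv.symm (⟨w, hw.1⟩ : Fin (D ^ t)) i : Fin D) : ℕ) * D ^ (i : ℕ)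
          = w := by
        rw [← finFunctionFinEquiv_apply, Equiv.apply_symm_apply]
      rw [h1]
      exact hw.2
    · rw [Equiv.apply_symm_apply]

theorem appr_isolate {S : ℕ → Prop} {γ : ℝ} (hγ : 0 < γ) : ∃ t : ℕ, 0 < t ∧
    ∀ (F : ℕ → ℕ → Prop) (D : ℕ → ℕ), (∀ n, n ≤ D n) → (∃ d : ℕ, ∀ n, D n ≤ (n + 2) ^ d) →
      Appr S (fun n w => Odd (#{i : Fin t | F n (dig (D n) w i)})) (fun n => D n ^ t)
        (fun _ => 1 / 2 - γ) →
      Appr S F D (fun _ => 1 / 1024) := by
  obtain ⟨t, u, ht, hiso⟩ := isolation γ (1 / 1024) hγ (by norm_num)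
  refine ⟨t, ht, ?_⟩
  rintro F D hD ⟨d, hDd⟩ ⟨A, hA, hAerr⟩
  have hDp : PolyB D := ⟨d, Eventually.of_forall hDd⟩
  -- the predicates on vectors
  obtain ⟨P, hP⟩ : ∃ P : ℕ → (Fin t → ℕ) → Prop, P = fun n v => A n (∑ i : Fin t, v i * D n ^ (i : ℕ)) :=
    ⟨_, rfl⟩
  have hPn : NUP t (fun n v => S n ∧ ∀ i, v i < D n) P := by
    have h1 : NUF t (fun n v => S n ∧ ∀ i, v i < D n)
        (fun n v => ∑ i : Fin t, v i * D n ^ (i : ℕ)) :=
      NUF.finSum fun i => NUF.mul (NUF.proj i) (NUF.param (hDp.pow i))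
    have h2 := NUP.comp1 (G := A) (K := fun n x => S n ∧ x < D n ^ t) hA h1
      (Eventually.of_forall fun n v hv => ⟨hv.1, by
        have h3 := (finFunctionFinEquiv (fun i => (⟨v i, hv.2 i⟩ : Fin (D n)))).isLt
        rw [finFunctionFinEquiv_apply] at h3
        exact h3⟩)
    rw [hP]
    exact h2
  -- the isolation lemma
  obtain ⟨G, hG⟩ : ∃ G : ℕ → ℕ → Prop, G = fun j n => ∃ Q : (Fin (j + 1) → ℕ) → Prop,
      Der (D n) u (P n) (j + 1) Q ∧ ∃ y₀ : Fin j → ℕ, (∀ i, y₀ i < D n) ∧ ∃ b : Prop,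
          (1 - 1 / 1024) * (D n : ℝ) ≤
            (#{x ∈ range (D n) | (Q (Fin.cons x y₀) ↔ b) ↔ F n x} : ℝ) := ⟨_, rfl⟩
  have hgood : ∀ᶠ n in atTop, S n → ∃ j, G j n := by
    filter_upwards [hAerr, eventually_gt_atTop 0] with n h1 hn hS
    have h2 := h1 hS
    have hD0 : 0 < D n := lt_of_lt_of_le hn (hD n)
    obtain ⟨j, Q, h3, y₀, h4, b, h5⟩ := hiso (D n) (F n) (P n) hD0 (by
      rw [hP]
      dsimp only
      rw [step2_count]
      rw [iso_card] at h2 ⊢
      exact step2_flip _ _ (by push_cast; rfl) h2)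
    rw [hG]
    exact ⟨j, Q, h3, y₀, h4, b, h5⟩
  have hGlt : ∀ j n, G j n → j < t := by
    intro j n h
    rw [hG] at h
    obtain ⟨Q, h1, _⟩ := h
    have := step2_der_le h1
    omega
  -- choice
  have hch : ∀ j n, ∃ (Q : (Fin (j + 1) → ℕ) → Prop) (y₀ : Fin j → ℕ) (b : Prop), G j n →
      (Der (D n) u (P n) (j + 1) Q ∧ (∀ i, y₀ i < D n) ∧
          (1 - 1 / 1024) * (D n : ℝ) ≤
            (#{x ∈ range (D n) | (Q (Fin.cons x y₀) ↔ b) ↔ F n x} : ℝ)) := by
    intro j n
    by_cases h : G j n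
    · have h' := h
      rw [hG] at h'
      obtain ⟨Q, h1, y₀, h2, b, h3⟩ := h'
      exact ⟨Q, y₀, b, fun _ => ⟨h1, h2, h3⟩⟩
    · exact ⟨fun _ => True, fun _ => 0, True, fun h' => absurd h' h⟩
  choose Q y₀ b hQ using hch
  have hJ : ∀ n, ∃ j < t, (∃ j', G j' n) → G j n := by
    intro n
    by_cases h : ∃ j', G j' n
    · obtain ⟨j, hj⟩ := h
      exact ⟨j, hGlt j n hj, fun _ => hj⟩
    · exact ⟨0, ht, fun h' => absurd h' h⟩
  choose J hJt hJG using hJ
  refine ⟨fun n x => (Q (J n) n (Fin.cons x (y₀ (J n) n)) ↔ b (J n) n), ?_, ?_⟩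
  · refine NUP.cases J t hJt fun j hj => ?_
    -- fixed `j`
    have hSj := step2_main (u := u) hDp hPn (t - (j + 1)) (j + 1) (by omega)
      (fun n => S n ∧ G j n) (Q j) (fun n hn => hn.1) (fun n hn => (hQ j n hn.2).1)
    have hy : ∀ l, PolyB (fun n => if G j n then y₀ j n l else 0) := by
      intro l
      refine hDp.mono (Eventually.of_forall fun n => ?_)
      split_ifs with hn
      · exact ((hQ j n hn).2.1 l).le
      · exact Nat.zero_le _
    have h2 := NUP.subst hSj (C := fun n v => (S n ∧ v 0 < D n) ∧ J n = j)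
        (h := (Fin.cons (fun n (v : Fin 1 → ℕ) => v 0)
          (fun l n _ => if G j n then y₀ j n l else 0) : Fin (j + 1) → ℕ → (Fin 1 → ℕ) → ℕ))
        (fun l => by
          refine Fin.cases ?_ (fun l => ?_) l
          · exact NUF.proj 0
          · exact NUF.param (hy l))
        (by
          filter_upwards [hgood] with n hn v hv
          have hGj : G j n := by
            have := hJG n (hn hv.1.1)
            rwa [hv.2] at this
          refine ⟨⟨hv.1.1, hGj⟩, fun l => ?_⟩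
          refine Fin.cases ?_ (fun l => ?_) l
          · simp only [Fin.cons_zero]
            exact hv.1.2
          · simp only [Fin.cons_succ, if_pos hGj]
            exact (hQ j n hGj).2.1 l)
    refine (NUP.iff h2 (NUP.param (fun n => b j n))).congr ?_
    filter_upwards [hgood] with n hn v hv
    have hGj : G j n := by
      have := hJG n (hn hv.1.1)
      rwa [hv.2] at this
    have e : (fun l : Fin (j + 1) => (Fin.cons (fun n (v : Fin 1 → ℕ) => v 0)
          (fun l n _ => if G j n then y₀ j n l else 0) : Fin (j + 1) → ℕ → (Fin 1 → ℕ) → ℕ) l n v)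
          = Fin.cons (v 0) (y₀ j n) := by
      funext l
      refine Fin.cases ?_ (fun l => ?_) l
      · simp only [Fin.cons_zero]
      · simp only [Fin.cons_succ, if_pos hGj]
    rw [e]
    obtain ⟨_, hv2⟩ := hv
    subst hv2
    exact Iff.rfl
  · filter_upwards [hgood] with n hn hS
    have h1 := hQ (J n) n (hJG n (hn hS))
    have h8 := h1.2.2
    rw [iso_card] at h8 ⊢
    exact step2_flip' _ h8

end Pool.Agent.GAvg
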