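import Mathlib
import Pool.Agent.GAvg.AdvDefs
import Pool.Agent.GAvg.E2Tools

/-!
# Unary coding of families
-/

set_option autoImplicit false

namespace Pool.Agent.GAvg

open Finset Filter Pool.Agent.Grz
open scoped Classical

private theorem step3_powConst {n : ℕ} {f : (Fin n → ℕ) → ℕ} (hf : E2 n f) (k : ℕ) :
    E2 n (fun v => f v ^ k) := by
  induction k with
  | zero => simpa using E2.const (n := n) 1
  | succ k ih =>
    refine (ih.mul hf).congr ?_
    intro v
    rw [pow_succ]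

private theorem step3_S {e : ℕ} (n : ℕ) :
    (∃ j, n = 2 ^ (e * j)) ↔ (n = 2 ^ Nat.log 2 n ∧ e ∣ Nat.log 2 n) := by
  constructor
  · rintro ⟨j, rfl⟩
    rw [Nat.log_pow (by norm_num)]
    exact ⟨rfl, dvd_mul_right _ _⟩
  · rintro ⟨h1, j, h2⟩
    exact ⟨j, by rw [← h2]; exact h1⟩

private theorem step3_starS {n : ℕ} {f : (Fin n → ℕ) → ℕ} (hf : E2 n f) (e : ℕ) :
    E2Star n (fun v => ∃ j, f v = 2 ^ (e * j)) := by
  have h2 : E2 n (fun v => 2 ^ Nat.log 2 (f v)) := by
    refine E2.powBdd (b := fun _ => 2) (e := fun v => Nat.log 2 (f v)) (B := fun v => f v + 1)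
      (E2.const 2) (E2.log2 hf) (hf.add (E2.const 1)) ?_
    intro v
    rcases Nat.eq_zero_or_pos (f v) with h0 | h0
    · rw [h0]; simp
    · exact (Nat.pow_log_le_self 2 h0.ne').trans (Nat.le_succ _)
  refine ((E2Star.eqFun hf h2).and (E2Star.dvd (E2.const e) (E2.log2 hf))).of_iff ?_
  intro v
  exact step3_S (f v)

private theorem step3_starR {F : ℕ → ℕ → Prop} {D : ℕ → ℕ} (h : Fam F D) (e E : ℕ) :
    E2Star 1 (fun v => ∃ n, n ≤ v 0 ∧ ((∃ j, n = 2 ^ (e * j)) ∧ n ^ E ≤ v 0 ∧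
      v 0 < (2 ^ e * n) ^ E ∧ F n ((v 0 - n ^ E) % D n))) := by
  refine E2Star.bex (n := 1) (b := fun v => v 0) (P := fun n v => (∃ j, n = 2 ^ (e * j)) ∧
    n ^ E ≤ v 0 ∧ v 0 < (2 ^ e * n) ^ E ∧ F n ((v 0 - n ^ E) % D n)) (E2.proj 0) ?_
  have h0 : E2 2 (fun w => w 0) := E2.proj 0
  have h1 : E2 2 (fun w => w (Fin.succ 0)) := E2.proj _
  have hpow := step3_powConst h0 E
  have hD : E2 2 (fun w => D (w 0)) := E2.comp1 (g := D) h.dom h0
  have hF : E2Star 2 (fun w => F (w 0) ((w (Fin.succ 0) - w 0 ^ E) % D (w 0))) := by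
    have := h.star.subst (n := 2)
      (h := ![fun w => w 0, fun w => (w (Fin.succ 0) - w 0 ^ E) % D (w 0)]) (by
        intro i
        fin_cases i
        · exact h0
        · exact (h1.sub hpow).mod hD)
    simpa using this
  exact (step3_starS h0 e).and ((E2Star.leFun hpow h1).and
    ((E2Star.ltFun h1 (step3_powConst ((E2.const (2 ^ e)).mul h0) E)).and hF))

private theorem step3_R {F : ℕ → ℕ → Prop} {D : ℕ → ℕ} {e E : ℕ} (hE : 0 < E)
    {n z : ℕ} (hn : ∃ j, n = 2 ^ (e * j)) (h1 : n ^ E ≤ z) (h2 : z < (2 ^ e * n) ^ E) :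
    (∃ n, n ≤ z ∧ ((∃ j, n = 2 ^ (e * j)) ∧ n ^ E ≤ z ∧
      z < (2 ^ e * n) ^ E ∧ F n ((z - n ^ E) % D n))) ↔ F n ((z - n ^ E) % D n) := by
  constructor
  · rintro ⟨n', _, ⟨j', hj'⟩, h3, h4, h5⟩
    obtain ⟨j, hj⟩ := hn
    have key : ∀ a b : ℕ, (2 ^ (e * a)) ^ E < (2 ^ e * 2 ^ (e * b)) ^ E → a ≤ b := by
      intro a b hab
      have h6 := lt_of_pow_lt_pow_left₀ E (Nat.zero_le _) hab
      rw [← pow_add] at h6
      have h7 := (Nat.pow_lt_pow_iff_right (a := 2) (by norm_num)).1 h6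
      have h8 : e * a < e * (b + 1) := by
        calc e * a < e + e * b := h7
          _ = e * (b + 1) := by ring
      have := Nat.lt_of_mul_lt_mul_left h8
      omega
    have hjj : j' ≤ j := key j' j (by rw [← hj', ← hj]; exact h3.trans_lt h2)
    have hjj' : j ≤ j' := key j j' (by rw [← hj', ← hj]; exact h1.trans_lt h4)
    have : j = j' := le_antisymm hjj' hjj
    subst this
    have : n' = n := by rw [hj', hj]
    rw [this] at h5
    exact h5
  · intro h
    exact ⟨n, (Nat.le_self_pow hE.ne' n).trans h1, hn, h1, h2, h⟩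

private theorem step3_count (p : ℕ → Prop) [DecidablePred p] (T d K : ℕ) :
    Nat.count p (T + K * d) = Nat.count p T +
      ∑ i ∈ range K, Nat.count (fun k => p (T + i * d + k)) d := by
  induction K with
  | zero => simp
  | succ K ih =>
    rw [sum_range_succ, ← add_assoc, ← ih, ← Nat.count_add]
    congr 1
    ring

private theorem step3_exists (p : ℕ → Prop) {T d N : ℕ} {γ : ℝ} (hd : 0 < d)
    (hTN : T ≤ N) (hN : 0 < N) (hγ : 0 < γ)
    (hT : (T : ℝ) ≤ γ / 8 * N) (hdN : (d : ℝ) ≤ γ / 8 * N)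
    (h : (1 / 2 + γ) * (N : ℝ) ≤ (Nat.count p N : ℝ)) :
    ∃ i : ℕ, T + (i + 1) * d ≤ N ∧
      (1 / 2 + γ / 2) * (d : ℝ) ≤ (Nat.count (fun k => p (T + i * d + k)) d : ℝ) := by
  by_contra hcon
  push Not at hcon
  have hK : T + (N - T) / d * d ≤ N := by
    have := Nat.div_mul_le_self (N - T) d
    omega
  have hmod : N = T + (N - T) / d * d + (N - T) % d := by
    have := Nat.div_add_mod' (N - T) d
    omega
  have hmd : (N - T) % d < d := Nat.mod_lt _ hd
  set K := (N - T) / d with hKdef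
  have h1 : Nat.count p N ≤ T + (∑ i ∈ range K, Nat.count (fun k => p (T + i * d + k)) d) + d := by
    have h2 : Nat.count p N = Nat.count p (T + K * d) +
        Nat.count (fun k => p (T + K * d + k)) ((N - T) % d) := by
      conv_lhs => rw [hmod]
      rw [Nat.count_add]
    rw [h2, step3_count]
    have h3 := Nat.count_le (p := p) (n := T)
    have h4 := Nat.count_le (p := fun k => p (T + K * d + k)) (n := (N - T) % d)
    omega
  have h5 : ∀ i ∈ range K, (Nat.count (fun k => p (T + i * d + k)) d : ℝ) ≤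
      (1 / 2 + γ / 2) * (d : ℝ) := by
    intro i hi
    refine (hcon i ?_).le
    have hi' : i + 1 ≤ K := mem_range.1 hi
    have : (i + 1) * d ≤ K * d := Nat.mul_le_mul_right d hi'
    omega
  have h6 := Finset.sum_le_sum h5
  rw [sum_const, card_range, nsmul_eq_mul] at h6
  have h7 : (Nat.count p N : ℝ) ≤ T + (∑ i ∈ range K,
      (Nat.count (fun k => p (T + i * d + k)) d : ℝ)) + d := by
    exact_mod_cast h1
  have h8 : (T : ℝ) + K * d ≤ N := by exact_mod_cast hK
  have hN' : (0 : ℝ) < N := by exact_mod_cast hN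
  have hT' : (0 : ℝ) ≤ T := Nat.cast_nonneg _
  have h9 : (K : ℝ) * ((1 / 2 + γ / 2) * d) ≤ (1 / 2 + γ / 2) * N := by
    have : (K : ℝ) * d ≤ N := by linarith
    nlinarith
  nlinarith

private theorem step3_filter {p q : ℕ → Prop} {i₁ : DecidablePred p} {i₂ : DecidablePred q}
    {d : ℕ} (h : ∀ x, x < d → (p x ↔ q x)) : @Nat.count p i₁ d = @Nat.count q i₂ d := by
  have : ∀ m ≤ d, @Nat.count p i₁ m = @Nat.count q i₂ m := by
    intro m hm
    induction m with
    | zero => simp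
    | succ m ih =>
      rw [Nat.count_succ, Nat.count_succ, ih (by omega)]
      congr 1
      have := h m (by omega)
      by_cases hp : p m
      · rw [if_pos hp, if_pos (this.1 hp)]
      · rw [if_neg hp, if_neg (fun hq => hp (this.2 hq))]
  exact this d le_rfl

theorem appr_unary {γ : ℝ} (hγ : 0 < γ)
    (H : ∀ R : ℕ → Prop, E2Star 1 (fun v => R (v 0)) →
      ∃ (c : ℕ) (ψ : (Fin 2 → ℕ) → Prop), Delta0 2 ψ ∧ ∀ᶠ N : ℕ in atTop,
        ∃ a : ℕ, a ≤ (N + 2) ^ c ∧
          (1 / 2 + γ) * (N : ℝ) ≤ (#{x ∈ range N | ψ ![a, x] ↔ R x} : ℝ)) :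
    ∃ e : ℕ, 0 < e ∧ ∀ (F : ℕ → ℕ → Prop) (D : ℕ → ℕ), Fam F D →
      Appr (fun n => ∃ j, n = 2 ^ (e * j)) F D (fun _ => 1 / 2 - γ / 2) := by
  obtain ⟨e₀, he₀⟩ := exists_pow_lt_of_lt_one (show (0 : ℝ) < γ / 8 by positivity)
    (show (1 / 2 : ℝ) < 1 by norm_num)
  refine ⟨e₀ + 1, Nat.succ_pos _, ?_⟩
  set e := e₀ + 1 with he
  have hepos : 0 < e := Nat.succ_pos _
  have heγ : (1 : ℝ) ≤ γ / 8 * 2 ^ e := by
    have h1 : (1 / 2 : ℝ) ^ e ≤ γ / 8 := by
      rw [he, pow_succ]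
      have : (0 : ℝ) < (1 / 2 : ℝ) ^ e₀ := by positivity
      linarith
    have h2 : (1 / 2 : ℝ) ^ e * 2 ^ e = 1 := by
      rw [← mul_pow]; norm_num
    calc (1 : ℝ) = (1 / 2 : ℝ) ^ e * 2 ^ e := h2.symm
      _ ≤ γ / 8 * 2 ^ e := by gcongr
  intro F D hFD
  obtain ⟨d, hd⟩ := hFD.poly
  set E := d + 2 with hE
  have hEpos : 0 < E := by omega
  obtain ⟨c, ψ, hψ, hev⟩ := H (fun z => ∃ n, n ≤ z ∧ ((∃ j, n = 2 ^ (e * j)) ∧ n ^ E ≤ z ∧
      z < (2 ^ e * n) ^ E ∧ F n ((z - n ^ E) % D n))) (step3_starR hFD e E)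
  -- the bound for the parameter
  have hNle : ∀ n : ℕ, (2 ^ e * n) ^ E + 2 ≤ (n + 2) ^ ((e + 1) * E + 1) := by
    intro n
    have h1 : 2 ^ e * n ≤ (n + 2) ^ (e + 1) := by
      rw [pow_succ (n + 2) e]
      exact Nat.mul_le_mul (Nat.pow_le_pow_left (by omega) e) (by omega)
    have h2 : (2 ^ e * n) ^ E ≤ (n + 2) ^ ((e + 1) * E) := by
      rw [pow_mul]
      exact Nat.pow_le_pow_left h1 E
    have h3 : 2 ≤ (n + 2) ^ ((e + 1) * E) := by
      have : (n + 2) ^ 1 ≤ (n + 2) ^ ((e + 1) * E) :=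
        Nat.pow_le_pow_right (by omega) (Nat.mul_pos (by omega) hEpos)
      rw [pow_one] at this
      omega
    calc (2 ^ e * n) ^ E + 2 ≤ (n + 2) ^ ((e + 1) * E) + (n + 2) ^ ((e + 1) * E) := by omega
      _ = (n + 2) ^ ((e + 1) * E) * 2 := by ring
      _ ≤ (n + 2) ^ ((e + 1) * E) * (n + 2) := Nat.mul_le_mul_left _ (by omega)
      _ = (n + 2) ^ ((e + 1) * E + 1) := by rw [pow_succ]
  set G : ℕ → ℕ × ℕ → Prop := fun n q => q.1 ≤ ((n + 2) ^ ((e + 1) * E + 1)) ^ c ∧
    q.2 ≤ (n + 2) ^ ((e + 1) * E + 1) ∧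
    (1 / 2 + γ / 2) * (D n : ℝ) ≤ (#{x ∈ range (D n) | ψ ![q.1, q.2 + x] ↔ F n x} : ℝ) with hG
  have htend : Tendsto (fun n : ℕ => (2 ^ e * n) ^ E) atTop atTop := by
    refine tendsto_atTop_mono (fun n => ?_) tendsto_id
    calc id n = n := rfl
      _ ≤ 2 ^ e * n := Nat.le_mul_of_pos_left n (by positivity)
      _ ≤ (2 ^ e * n) ^ E := Nat.le_self_pow hEpos.ne' _
  have key : ∀ᶠ n in atTop, (∃ j, n = 2 ^ (e * j)) → ∃ q, G n q := by
    have hev' := htend.eventually hev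
    obtain ⟨m, hm⟩ := exists_nat_ge (8 * 2 ^ d / γ)
    filter_upwards [hev', eventually_ge_atTop 2, eventually_ge_atTop m] with n hn hn2 hnm hS
    obtain ⟨a, ha, hcnt⟩ := hn
    have hDpos : 0 < D n := lt_of_lt_of_le (by omega) (hFD.le n)
    have hTN : n ^ E ≤ (2 ^ e * n) ^ E :=
      Nat.pow_le_pow_left (Nat.le_mul_of_pos_left n (by positivity)) E
    have hNpos : 0 < (2 ^ e * n) ^ E := by positivity
    have hT : ((n ^ E : ℕ) : ℝ) ≤ γ / 8 * (((2 ^ e * n) ^ E : ℕ) : ℝ) := by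
      push_cast
      rw [mul_pow]
      have h1 : (2 : ℝ) ^ e ≤ (2 ^ e) ^ E := by
        exact le_self_pow₀ (one_le_pow₀ (by norm_num)) hEpos.ne'
      have h2 : (0 : ℝ) ≤ (n : ℝ) ^ E := by positivity
      have h3 : (1 : ℝ) ≤ γ / 8 * (2 ^ e) ^ E := heγ.trans (by gcongr)
      calc (n : ℝ) ^ E = 1 * (n : ℝ) ^ E := (one_mul _).symm
        _ ≤ (γ / 8 * (2 ^ e) ^ E) * (n : ℝ) ^ E := by gcongr
        _ = γ / 8 * ((2 ^ e) ^ E * (n : ℝ) ^ E) := by ring
    have hdN : (D n : ℝ) ≤ γ / 8 * (((2 ^ e * n) ^ E : ℕ) : ℝ) := by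
      have h1 : (D n : ℝ) ≤ ((n : ℝ) + 2) ^ d := by exact_mod_cast hd n
      have hn2' : (2 : ℝ) ≤ n := by exact_mod_cast hn2
      have h2 : ((n : ℝ) + 2) ^ d ≤ (2 * n) ^ d := by
        apply pow_le_pow_left₀ (by positivity)
        linarith
      have h3 : (8 * 2 ^ d / γ : ℝ) ≤ n := hm.trans (by exact_mod_cast hnm)
      have h4 : (2 : ℝ) ^ d ≤ γ / 8 * n := by
        rw [div_le_iff₀ hγ] at h3
        linarith
      have h5 : ((n ^ E : ℕ) : ℝ) ≤ (((2 ^ e * n) ^ E : ℕ) : ℝ) := by exact_mod_cast hTN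
      calc (D n : ℝ) ≤ (2 * n) ^ d := h1.trans h2
        _ = 2 ^ d * (n : ℝ) ^ d := by rw [mul_pow]
        _ ≤ (γ / 8 * n) * (n : ℝ) ^ d := by gcongr
        _ ≤ (γ / 8 * n) * (n : ℝ) ^ d * n := by
          apply le_mul_of_one_le_right (by positivity)
          linarith
        _ = γ / 8 * ((n ^ E : ℕ) : ℝ) := by
          push_cast
          rw [hE]
          ring
        _ ≤ γ / 8 * (((2 ^ e * n) ^ E : ℕ) : ℝ) := by gcongr
    rw [← Nat.count_eq_card_filter_range] at hcnt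
    obtain ⟨i, hi, hcnt2⟩ := step3_exists (fun z => ψ ![a, z] ↔ ∃ n, n ≤ z ∧
      ((∃ j, n = 2 ^ (e * j)) ∧ n ^ E ≤ z ∧ z < (2 ^ e * n) ^ E ∧ F n ((z - n ^ E) % D n)))
      hDpos hTN hNpos hγ hT hdN (hcnt.trans (le_of_eq (congrArg (Nat.cast (R := ℝ)) (step3_filter fun x _ => Iff.rfl))))
    refine ⟨(a, n ^ E + i * D n), ?_, ?_, ?_⟩
    · exact ha.trans (Nat.pow_le_pow_left (hNle n) c)
    · have h1 : n ^ E + i * D n ≤ (2 ^ e * n) ^ E := by
        have : i * D n ≤ (i + 1) * D n := Nat.mul_le_mul_right _ (by omega)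
        omega
      have := hNle n
      show n ^ E + i * D n ≤ _
      omega
    · rw [← Nat.count_eq_card_filter_range]
      refine hcnt2.trans (le_of_eq ?_)
      congr 1
      refine step3_filter fun x hx => ?_
      have h1 : n ^ E ≤ n ^ E + i * D n + x := by omega
      have h2 : n ^ E + i * D n + x < (2 ^ e * n) ^ E := by
        have : (i + 1) * D n = i * D n + D n := by ring
        omega
      have h3 : (n ^ E + i * D n + x - n ^ E) % D n = x := by
        have : n ^ E + i * D n + x - n ^ E = x + i * D n := by omega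
        rw [this, Nat.add_mul_mod_self_right, Nat.mod_eq_of_lt hx]
      have h4 := step3_R (F := F) (D := D) hEpos hS h1 h2
      rw [h3] at h4
      show (ψ ![a, n ^ E + i * D n + x] ↔ _) ↔ (ψ ![a, n ^ E + i * D n + x] ↔ F n x)
      rw [h4]
  set q : ℕ → ℕ × ℕ := fun n => Classical.epsilon (G n) with hq
  have hqspec : ∀ᶠ n in atTop, (∃ j, n = 2 ^ (e * j)) → G n (q n) := by
    filter_upwards [key] with n hn hS
    exact Classical.epsilon_spec (hn hS)
  refine ⟨fun n x => ψ ![(q n).1, (q n).2 + x], ?_, ?_⟩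
  · -- definability
    refine ⟨(((e + 1) * E + 1) * (c + 1) + 1) * 2, fun w => ψ ![(Nat.unpair (w 0)).1,
      (Nat.unpair (w 0)).2 + w 1], ?_, ?_⟩
    · have h0 : DFun 2 (fun w => w 0) := DFun.proj 0
      have h1 : DFun 2 (fun w => w 1) := DFun.proj 1
      have := hψ.subst (n := 2) (h := ![fun w => (Nat.unpair (w 0)).1,
        fun w => (Nat.unpair (w 0)).2 + w 1]) (by
          intro i
          fin_cases i
          · exact h0.unpair1
          · exact h0.unpair2.add h1)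
      refine this.of_iff ?_
      intro w
      have : (fun i => (![fun w : Fin 2 → ℕ => (Nat.unpair (w 0)).1,
        fun w => (Nat.unpair (w 0)).2 + w 1] : Fin 2 → (Fin 2 → ℕ) → ℕ) i w) =
          ![(Nat.unpair (w 0)).1, (Nat.unpair (w 0)).2 + w 1] := by
        funext i
        fin_cases i <;> rfl
      rw [this]
    · filter_upwards [hqspec] with n hn
      by_cases hS : ∃ j, n = 2 ^ (e * j)
      · obtain ⟨h1, h2, _⟩ := hn hS
        refine ⟨Nat.pair (q n).1 (q n).2, ?_, ?_⟩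
        · have h3 := Nat.pair_lt_max_add_one_sq (q n).1 (q n).2
          have h4 : max (q n).1 (q n).2 + 1 ≤ (n + 2) ^ (((e + 1) * E + 1) * (c + 1) + 1) := by
            have h5 : max (q n).1 (q n).2 ≤ (n + 2) ^ (((e + 1) * E + 1) * (c + 1)) := by
              apply max_le
              · refine h1.trans ?_
                rw [← pow_mul]
                exact Nat.pow_le_pow_right (by omega) (Nat.mul_le_mul_left _ (by omega))
              · refine h2.trans (Nat.pow_le_pow_right (by omega) ?_)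
                exact Nat.le_mul_of_pos_right _ (by omega)
            have h6 : 1 ≤ (n + 2) ^ (((e + 1) * E + 1) * (c + 1)) :=
              Nat.one_le_pow _ _ (by omega)
            calc max (q n).1 (q n).2 + 1 ≤ (n + 2) ^ (((e + 1) * E + 1) * (c + 1)) * 2 := by omega
              _ ≤ (n + 2) ^ (((e + 1) * E + 1) * (c + 1)) * (n + 2) :=
                Nat.mul_le_mul_left _ (by omega)
              _ = _ := by rw [pow_succ]
          rw [pow_mul]
          exact h3.le.trans (Nat.pow_le_pow_left h4 2)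
        · intro v _
          simp
      · refine ⟨0, Nat.zero_le _, ?_⟩
        intro v hv
        exact absurd hv.1 hS
  · filter_upwards [hqspec] with n hn hS
    obtain ⟨_, _, h3⟩ := hn hS
    have h4 : #{x ∈ range (D n) | ψ ![(q n).1, (q n).2 + x] ↔ F n x} +
        #{x ∈ range (D n) | ¬ (ψ ![(q n).1, (q n).2 + x] ↔ F n x)} = D n := by
      have := Finset.card_filter_add_card_filter_not (s := range (D n))
        (fun x => ψ ![(q n).1, (q n).2 + x] ↔ F n x)
      rw [card_range] at this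
      exact this
    have h5 : (#{x ∈ range (D n) | ψ ![(q n).1, (q n).2 + x] ↔ F n x} : ℝ) +
        #{x ∈ range (D n) | ¬ (ψ ![(q n).1, (q n).2 + x] ↔ F n x)} = D n := by
      exact_mod_cast h4
    linarith

end Pool.Agent.GAvg
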