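import Mathlib
import Pool.Agent.GAvg.Step0
import Pool.Agent.GAvg.Step1
import Pool.Agent.GAvg.Step2
import Pool.Agent.GAvg.Step3
import Pool.Agent.GAvg.FamHad

/-!
# From average case to worst case: assembly
-/

set_option autoImplicit false

namespace Pool.Agent.GAvg

open Finset Filter Pool.Agent.Grz
open scoped Classical

theorem iterate_reduce {S : ℕ → Prop}
    (h : ∀ (F : ℕ → ℕ → Prop) (D : ℕ → ℕ), Fam F D → Appr S F D (fun _ => 1 / 1024)) (j : ℕ) :
    ∃ K : ℝ, 0 ≤ K ∧ (j = 0 → K ≤ 1 / 256) ∧ ∀ (F : ℕ → ℕ → Prop) (D : ℕ → ℕ), Fam F D →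
      Appr S F D (fun n => K / (tt n : ℝ) ^ j) := by
  induction j with
  | zero =>
    refine ⟨1 / 1024, by norm_num, fun _ => by norm_num, fun F D hF => ?_⟩
    have := h F D hF
    simpa using this
  | succ j ih =>
    obtain ⟨K, hK0, hK1, hK⟩ := ih
    refine ⟨2 ^ 20 * K + 2 ^ 10, by positivity, fun h => absurd h (Nat.succ_ne_zero j),
      fun F D hF => ?_⟩
    exact appr_reduce hF.le hF.poly j K hK0 hK1 (hK _ _ (fam_had hF))

/-- finite sets are definable -/
theorem finite_delta0 (R : ℕ → Prop) (N : ℕ) : Delta0 1 (fun v => v 0 < N ∧ R (v 0)) := by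
  induction N with
  | zero =>
    refine (Delta0.ltFun (DFun.proj (n := 1) 0) (DFun.const 0)).of_iff ?_
    intro v; simp
  | succ N ih =>
    by_cases hR : R N
    · refine (ih.or (Delta0.eqFun (DFun.proj 0) (DFun.const N))).of_iff ?_
      intro v
      constructor
      · rintro ⟨h1, h2⟩
        rcases Nat.lt_or_ge (v 0) N with h | h
        · exact Or.inl ⟨h, h2⟩
        · right; omega
      · rintro (⟨h1, h2⟩ | h)
        · exact ⟨by omega, h2⟩
        · rw [h]; exact ⟨by omega, hR⟩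
    · refine ih.of_iff ?_
      intro v
      constructor
      · rintro ⟨h1, h2⟩
        rcases Nat.lt_or_ge (v 0) N with h | h
        · exact ⟨h, h2⟩
        · exfalso
          have : v 0 = N := by omega
          rw [this] at h2
          exact hR h2
      · rintro ⟨h1, h2⟩
        exact ⟨by omega, h2⟩

theorem to_nonuniform {e : ℕ} (he : 0 < e) {R : ℕ → Prop}
    (h : NUP 1 (fun n v => (∃ j, n = 2 ^ (e * j)) ∧ v 0 < n) (fun _ v => R (v 0))) :
    ∃ (c : ℕ) (ψ : (Fin 2 → ℕ) → Prop), Delta0 2 ψ ∧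
      ∀ N, ∃ a, a ≤ (N + 2) ^ c ∧ ∀ x, x ≤ N → (R x ↔ ψ ![a, x]) := by
  obtain ⟨c, ψ, hψ, hn⟩ := h
  obtain ⟨n₀, hn₀⟩ := eventually_atTop.mp hn
  refine ⟨(e + 2) * c + 1, fun w => (w 0 = 0 ∧ (w 1 < n₀ ∧ R (w 1))) ∨
    (1 ≤ w 0 ∧ ψ ![w 0 - 1, w 1]), ?_, ?_⟩
  · refine ((Delta0.eqFun (DFun.proj 0) (DFun.const 0)).and
      (Delta0.comp1 (P := fun x => x < n₀ ∧ R x) (finite_delta0 R n₀) (DFun.proj 1))).or
      ((Delta0.leFun (DFun.const 1) (DFun.proj 0)).and ?_)
    refine Delta0.comp2 (P := fun a x => ψ ![a, x]) ?_ ((DFun.proj 0).sub (DFun.const 1))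
      (DFun.proj 1)
    refine hψ.of_iff ?_
    intro v
    have : ![v 0, v 1] = v := by
      funext i; fin_cases i <;> rfl
    rw [this]
  · intro N
    rcases Nat.lt_or_ge N n₀ with hN | hN
    · refine ⟨0, Nat.zero_le _, fun x hx => ?_⟩
      have hx' : x < n₀ := by omega
      simp [hx']
    · -- the least power of `2 ^ e` above `N`
      have hex : ∃ j, N < 2 ^ (e * j) := by
        refine ⟨N, ?_⟩
        calc N < 2 ^ N := Nat.lt_two_pow_self
          _ ≤ 2 ^ (e * N) := Nat.pow_le_pow_right (by norm_num) (by nlinarith)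
      have hj := Nat.find_spec hex
      set j := Nat.find hex with hjdef
      have hle : 2 ^ (e * j) ≤ 2 ^ e * (N + 1) := by
        rcases Nat.eq_zero_or_pos j with h0 | h0
        · rw [h0]; simp
          have : 1 ≤ 2 ^ e := Nat.one_le_two_pow
          nlinarith
        · have hmin := Nat.find_min hex (m := j - 1) (by omega)
          push Not at hmin
          have : e * j = e + e * (j - 1) := by
            obtain ⟨i, hi⟩ := Nat.exists_eq_add_of_le' h0
            rw [hi]; simp; ring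
          rw [this, pow_add]
          exact Nat.mul_le_mul_left _ (hmin.trans (Nat.le_succ N))
      obtain ⟨a, ha, hall⟩ := hn₀ (2 ^ (e * j)) (by omega)
      refine ⟨a + 1, ?_, ?_⟩
      · have h1 : 2 ^ (e * j) + 2 ≤ (N + 2) ^ (e + 2) := by
          have h2 : 2 ^ e ≤ (N + 2) ^ e := Nat.pow_le_pow_left (by omega) e
          have h3 : 1 ≤ (N + 2) ^ e := Nat.one_le_pow _ _ (by omega)
          calc 2 ^ (e * j) + 2 ≤ 2 ^ e * (N + 1) + 2 := by omega
            _ ≤ (N + 2) ^ e * (N + 1) + (N + 2) ^ e * 2 := by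
                have := Nat.mul_le_mul_right (N + 1) h2
                omega
            _ = (N + 2) ^ e * (N + 3) := by ring
            _ ≤ (N + 2) ^ e * ((N + 2) * (N + 2)) := by
                apply Nat.mul_le_mul_left
                nlinarith
            _ = (N + 2) ^ (e + 2) := by ring
        have h4 : a ≤ (N + 2) ^ ((e + 2) * c) := by
          refine ha.trans ?_
          rw [pow_mul (N + 2)]
          exact Nat.pow_le_pow_left h1 c
        have h5 : 1 ≤ (N + 2) ^ ((e + 2) * c) := Nat.one_le_pow _ _ (by omega)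
        calc a + 1 ≤ (N + 2) ^ ((e + 2) * c) + (N + 2) ^ ((e + 2) * c) := by omega
          _ = (N + 2) ^ ((e + 2) * c) * 2 := by ring
          _ ≤ (N + 2) ^ ((e + 2) * c) * (N + 2) := Nat.mul_le_mul_left _ (by omega)
          _ = (N + 2) ^ ((e + 2) * c + 1) := by ring
      · intro x hx
        have := hall ![x] ⟨⟨j, rfl⟩, by simpa using (by omega : x < 2 ^ (e * j))⟩
        simp only [Matrix.cons_val_fin_one] at this
        simp [this]

theorem avg_to_nonuniform {γ : ℝ} (hγ : 0 < γ)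
    (H : ∀ R : ℕ → Prop, E2Star 1 (fun v => R (v 0)) →
      ∃ (c : ℕ) (ψ : (Fin 2 → ℕ) → Prop), Delta0 2 ψ ∧ ∀ᶠ N : ℕ in atTop,
        ∃ a : ℕ, a ≤ (N + 2) ^ c ∧
          (1 / 2 + γ) * (N : ℝ) ≤ (#{x ∈ range N | ψ ![a, x] ↔ R x} : ℝ)) :
    ∀ R : ℕ → Prop, E2Star 1 (fun v => R (v 0)) →
      ∃ (c : ℕ) (ψ : (Fin 2 → ℕ) → Prop), Delta0 2 ψ ∧
        ∀ N, ∃ a, a ≤ (N + 2) ^ c ∧ ∀ x, x ≤ N → (R x ↔ ψ ![a, x]) := by
  intro R hR
  obtain ⟨e, he, h3⟩ := appr_unary hγ H
  obtain ⟨t, ht, h2⟩ := appr_isolate (S := fun n => ∃ j, n = 2 ^ (e * j)) (γ := γ / 2) (by positivity)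
  have h4 : ∀ (F : ℕ → ℕ → Prop) (D : ℕ → ℕ), Fam F D →
      Appr (fun n => ∃ j, n = 2 ^ (e * j)) F D (fun _ => 1 / 1024) :=
    fun F D hF => h2 F D hF.le hF.poly (h3 _ _ (fam_parity hF t ht))
  refine to_nonuniform he (step0 (fun j => ?_) hR)
  obtain ⟨K, _, _, hK⟩ := iterate_reduce h4 j
  exact ⟨K, hK⟩

end Pool.Agent.GAvg
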