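import Mathlib
import Pool.Agent.GAvg.Final
import Pool.Agent.Grz.Nonuniform

/-!
`Delta0 = E2Star` holds if and only if every unary `E2Star` predicate can be predicted by bounded
formulas slightly better than by tossing a coin.
-/

set_option autoImplicit false

namespace Pool.Agent.Results.MP_a56640_lc.AverageCase

open Pool.Agent.Grz Filter Finset
open scoped Classical

/-- Let `0 < γ ≤ 1/2`. The following are equivalent.

1. `Delta0 = E2Star`.
2. For every unary predicate `R` in `E2Star` there is a bounded formula `ψ` such that for all large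
   `N` the formula `ψ (x)` agrees with `R x` for at least `(1/2 + γ) N` of the numbers `x < N`.
3. For every unary predicate `R` in `E2Star` there are a bounded formula `ψ` and an exponent `c`
   such that for all large `N` there is a parameter `a ≤ (N + 2) ^ c` for which `ψ (a, x)` agrees
   with `R x` for at least `(1/2 + γ) N` of the numbers `x < N`. -/
theorem result (γ : ℝ) (hγ : 0 < γ) (hγ' : γ ≤ 1 / 2) :
    List.TFAE [
      ∀ (k : ℕ) (R : (Fin k → ℕ) → Prop), Delta0 k R ↔ E2Star k R,
      ∀ R : ℕ → Prop, E2Star 1 (fun v => R (v 0)) →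
        ∃ ψ : (Fin 1 → ℕ) → Prop, Delta0 1 ψ ∧ ∀ᶠ N : ℕ in atTop,
          (1 / 2 + γ) * (N : ℝ) ≤ (#{x ∈ range N | ψ ![x] ↔ R x} : ℝ),
      ∀ R : ℕ → Prop, E2Star 1 (fun v => R (v 0)) →
        ∃ (c : ℕ) (ψ : (Fin 2 → ℕ) → Prop), Delta0 2 ψ ∧ ∀ᶠ N : ℕ in atTop,
          ∃ a : ℕ, a ≤ (N + 2) ^ c ∧
            (1 / 2 + γ) * (N : ℝ) ≤ (#{x ∈ range N | ψ ![a, x] ↔ R x} : ℝ)] := by
  tfae_have 1 → 2 := by
    intro H R hR
    refine ⟨fun v => R (v 0), (H 1 _).mpr hR, ?_⟩
    filter_upwards with N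
    have : ({x ∈ range N | (fun v : Fin 1 → ℕ => R (v 0)) ![x] ↔ R x} : Finset ℕ) = range N := by
      ext x; simp
    rw [this, card_range]
    have hN : (0 : ℝ) ≤ N := Nat.cast_nonneg N
    nlinarith
  tfae_have 2 → 3 := by
    intro H R hR
    obtain ⟨ψ, hψ, hN⟩ := H R hR
    refine ⟨0, fun v => ψ ![v 1], ?_, ?_⟩
    · have h1 : Delta0 1 (fun v => ψ ![v 0]) := by
        refine hψ.of_iff fun v => ?_
        have : ![v 0] = v := by funext i; fin_cases i; rfl
        rw [this]
      exact Delta0.comp1 (P := fun x => ψ ![x]) h1 (DFun.proj 1)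
    · filter_upwards [hN] with N hN
      refine ⟨0, Nat.zero_le _, ?_⟩
      simpa using hN
  tfae_have 3 → 1 := by
    intro H
    have h2 := Pool.Agent.GAvg.avg_to_nonuniform hγ H
    exact (Nonuniform.result.out 0 1).mpr h2
  tfae_finish

end Pool.Agent.Results.MP_a56640_lc.AverageCase
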